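import Pool.Agent.Lib.MP_d6ddbd_nt.G.Stmt

/-! The curve: the point of order four, the points away from the node, torsion. -/

open WeierstrassCurve

noncomputable section

namespace Pool.Agent.Lib.MP_d6ddbd_nt.G

namespace CurveAux

/-- The curve over the complex numbers. -/
abbrev WC : Affine ℂ := W17.toAffine.baseChange ℂ

theorem a1 : WC.a₁ = 0 := by simp [WC, W17]
theorem a2 : WC.a₂ = 30 := by simp [WC, W17]
theorem a3 : WC.a₃ = 0 := by simp [WC, W17]
theorem a4 : WC.a₄ = 289 := by simp [WC, W17]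
theorem a6 : WC.a₆ = 0 := by simp [WC, W17]

theorem negY_eq (x y : ℂ) : WC.negY x y = -y := by
  rw [Affine.negY, a1, a3, zero_mul, sub_zero, sub_zero]

/-- The point of order two with rational coordinates. -/
noncomputable def T1 : Pt := .some 0 0 ((ns_iff _ _).2 (by norm_num))

theorem T0_add : T0 + T0 = T1 := by
  have h : (136 : ℂ) ≠ WC.negY 17 136 := by rw [negY_eq]; norm_num
  have hs : WC.slope 17 17 136 136 = 8 := by
    rw [Affine.slope_of_Y_ne rfl h, negY_eq, a1, a2, a4]; norm_num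
  rw [T0, Affine.Point.add_self_of_Y_ne h, T1, Affine.Point.some.injEq, hs, Affine.addY, negY_eq,
    Affine.negAddY, Affine.addX, a1, a2]
  norm_num

theorem T1_add : T1 + T1 = 0 := Affine.Point.add_self_of_Y_eq (by rw [negY_eq, neg_zero])

theorem two_T0 : (2 : ℤ) • T0 = T1 := by rw [two_zsmul, T0_add]

theorem four_T0 : (4 : ℤ) • T0 = 0 := by
  rw [show (4 : ℤ) = 2 + 2 from rfl, add_zsmul, two_T0, T1_add]

theorem act_some (σ : ℂ ≃+* ℂ) {x y : ℂ} (h : WC.Nonsingular x y) :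
    ∃ h', act σ (.some x y h) = .some (σ x) (σ y) h' := ⟨_, rfl⟩

theorem act_T0 (σ : ℂ ≃+* ℂ) : act σ T0 = T0 := by
  obtain ⟨h, e⟩ := act_some σ ((ns_iff 17 136).2 (by norm_num))
  rw [T0, e, Affine.Point.some.injEq]
  exact ⟨map_ofNat σ 17, map_ofNat σ 136⟩

theorem fix_some {σ : ℂ ≃+* ℂ} {x y : ℂ} {h : WC.Nonsingular x y}
    (e : act σ (.some x y h) = .some x y h) : σ x = x ∧ σ y = y := by
  obtain ⟨h', e'⟩ := act_some σ h
  rwa [e', Affine.Point.some.injEq] at e

/-- The symmetric functions of the abscissae of three collinear points. -/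
theorem vieta {x₁ x₂ y₁ y₂ : ℂ} (h₁ : WC.Nonsingular x₁ y₁) (h₂ : WC.Nonsingular x₂ y₂)
    (hxy : ¬(x₁ = x₂ ∧ y₁ = WC.negY x₂ y₂)) {l x₃ : ℂ} (hl : l = WC.slope x₁ x₂ y₁ y₂)
    (h3 : x₃ = WC.addX x₁ x₂ l) : l ^ 2 = x₁ + x₂ + x₃ + 30 ∧
      x₁ * x₂ = 289 - x₃ * (x₁ + x₂) - 2 * l * (y₁ - l * x₁) ∧
      (y₁ - l * x₁) ^ 2 = x₁ * x₂ * x₃ := by
  have h := Affine.addPolynomial_slope h₁.1 h₂.1 hxy
  rw [Affine.addPolynomial_eq, neg_inj, Cubic.prod_X_sub_C_eq, Cubic.toPoly_injective, ← hl, ← h3,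
    a1, a2, a3, a4, a6, Cubic.mk.injEq] at h
  obtain ⟨-, e1, e2, e3⟩ := h
  exact ⟨by linear_combination -e1, by linear_combination -e2, by linear_combination -e3⟩

theorem val_key (O : ValuationSubring ℂ) (h17 : O.valuation 17 < 1) {x₁ x₂ x₃ l n : ℂ}
    (e1 : l ^ 2 = x₁ + x₂ + x₃ + 30) (e2 : x₁ * x₂ = 289 - x₃ * (x₁ + x₂) - 2 * l * n)
    (e3 : n ^ 2 = x₁ * x₂ * x₃) (h1 : 1 ≤ O.valuation x₁) (h2 : 1 ≤ O.valuation x₂) :
    1 ≤ O.valuation x₃ := by
  by_contra hc
  rw [not_le] at hc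
  set v := O.valuation
  set m := v (x₁ * x₂) with hm
  have k1 : v x₁ ≤ m := by rw [hm, map_mul]; exact le_mul_of_one_le_right' h2
  have k2 : v x₂ ≤ m := by rw [hm, map_mul]; exact le_mul_of_one_le_left' h1
  have k0 : 1 ≤ m := h1.trans k1
  have m0 : 0 < m := zero_lt_one.trans_le k0
  have k3 : v (x₃ * (x₁ + x₂)) < m := by
    rw [map_mul]
    exact (mul_le_mul_right (v.map_add_le k1 k2) _).trans_lt (mul_lt_of_lt_one_left m0 hc)
  have k4 : v 289 < m := by
    rw [show (289 : ℂ) = 17 ^ 2 by norm_num, map_pow]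
    exact (pow_lt_one₀ zero_le h17 two_ne_zero).trans_le k0
  have k5 : v l ^ 2 ≤ m := by
    rw [← map_pow, e1]
    exact v.map_add_le (v.map_add_le (v.map_add_le k1 k2) (hc.le.trans k0))
      (((O.valuation_le_one_iff _).2 (ofNat_mem O 30)).trans k0)
  have k6 : v n ^ 2 < m := by
    rw [← map_pow, e3, map_mul]
    exact mul_lt_of_lt_one_right m0 hc
  have k7 : v (2 * l * n) < m := by
    refine lt_of_pow_lt_pow_left₀ 2 zero_le ?_
    have k8 : v 2 ^ 2 ≤ 1 := pow_le_one₀ zero_le ((O.valuation_le_one_iff _).2 (ofNat_mem O 2))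
    rw [map_mul, map_mul, mul_pow, mul_pow, pow_two m]
    exact (mul_le_mul_left ((mul_le_of_le_one_left' k8).trans k5) _).trans_lt
      (mul_lt_mul_of_pos_left k6 m0)
  exact (v.map_sub_lt (v.map_sub_lt k4 k3) k7).ne' (by rw [← e2])

theorem out_iff {O : ValuationSubring ℂ} {x : ℂ} : x ∉ O.nonunits ↔ 1 ≤ O.valuation x := by
  rw [ValuationSubring.mem_nonunits_iff, not_lt]

/-- The subgroup of the points which do not reduce to the node. -/
noncomputable def E0 (O : ValuationSubring ℂ) (h17 : O.valuation 17 < 1) : AddSubgroup Pt where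
  carrier := {P | In0 O P}
  zero_mem' := trivial
  neg_mem' := by
    rintro (_ | ⟨x, y, h⟩) hP
    · exact trivial
    · exact hP
  add_mem' := by
    rintro (_ | ⟨x₁, y₁, h₁⟩) (_ | ⟨x₂, y₂, h₂⟩) hP hQ
    · exact trivial
    · exact hQ
    · exact hP
    · by_cases hxy : x₁ = x₂ ∧ y₁ = WC.negY x₂ y₂
      · rw [Affine.Point.add_of_Y_eq hxy.1 hxy.2]
        exact trivial
      · rw [Affine.Point.add_some hxy]
        obtain ⟨e1, e2, e3⟩ := vieta h₁ h₂ hxy rfl rfl
        exact out_iff.2 (val_key O h17 e1 e2 e3 (out_iff.1 hP) (out_iff.1 hQ))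

theorem sg_one : sg 1 = -1 := by decide

theorem two_tors (hF : FieldStmt) {S : Finset ℕ} (hS : Prs S) {R : Pt} (hR : Fix S R)
    (h2 : R + R = 0) : R = 0 ∨ R = T1 := by
  rcases R with _ | ⟨x, y, h⟩
  · exact Or.inl rfl
  refine Or.inr ?_
  have hy : y = 0 := by
    by_contra hy
    have h3 : y ≠ WC.negY x y := by
      rw [negY_eq]
      exact fun e => hy (by linear_combination e / 2)
    rw [Affine.Point.add_self_of_Y_ne h3] at h2
    exact Affine.Point.some_ne_zero _ h2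
  subst hy
  obtain ⟨σ, h4, h5⟩ := hF.2.2.2.2.1 S fun p hp => ⟨(hS p hp).1, (hS p hp).2.1⟩
  have h6 := (fix_some (hR σ h4)).1
  have h7 : x * ((x + 15 - 8 * Complex.I) * (x + 15 + 8 * Complex.I)) = 0 := by
    linear_combination -(ns_iff _ _).1 h - 64 * x * Complex.I_sq
  have h8 : ∀ c : ℂ, σ c = c → x + 15 + c * Complex.I = 0 → c = 0 := fun c hc e => by
    have e' := congrArg σ e
    rw [map_add, map_add, map_mul, h5, h6, hc, map_ofNat, map_zero] at e'
    exact (mul_eq_zero.1 (by linear_combination (e - e') / 2)).resolve_right Complex.I_ne_zero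
  rcases mul_eq_zero.1 h7 with rfl | h7
  · rfl
  · rcases mul_eq_zero.1 h7 with h7 | h7
    · exact absurd (h8 (-8) (by rw [map_neg, map_ofNat]) (by linear_combination h7)) (by norm_num)
    · exact absurd (h8 8 (map_ofNat σ 8) h7) (by norm_num)

theorem not_half (hF : FieldStmt) {S : Finset ℕ} (hS : Prs S) {R : Pt} (hR : Fix S R) :
    R + R ≠ T0 := by
  intro h2
  rcases R with _ | ⟨x, y, h⟩
  · exact Affine.Point.some_ne_zero _ h2.symm
  have hy : y ≠ 0 := by
    rintro rfl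
    rw [Affine.Point.add_self_of_Y_eq (by rw [negY_eq, neg_zero])] at h2
    exact Affine.Point.some_ne_zero _ h2.symm
  have h3 : y ≠ WC.negY x y := by
    rw [negY_eq]
    exact fun e => hy (by linear_combination e / 2)
  rw [Affine.Point.add_self_of_Y_ne h3, T0, Affine.Point.some.injEq, Affine.addX,
    Affine.slope_of_Y_ne rfl h3, negY_eq, a1, a2, a4] at h2
  have h4 := (ns_iff _ _).1 h
  have h5 : ((x ^ 2 - 289) / (2 * y)) ^ 2 = sq 17 ^ 2 := by
    have h6 := h2.1
    rw [hF.1, show ps 17 = 17 by decide, sub_neg_eq_add, ← two_mul] at *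
    field_simp at h6 ⊢
    push_cast
    linear_combination h6 + (8 * x + 120) * h4
  obtain ⟨σ, hσ⟩ := hF.2.2.2.1 (insert 17 S) (fun p hp => by
    rcases Finset.mem_insert.1 hp with rfl | hp
    · norm_num
    · exact (hS p hp).1) fun p => if p = 17 then 1 else 0
  obtain ⟨e1, e2⟩ := fix_some (hR σ fun p hp => by
    rw [hσ p (Finset.mem_insert_of_mem hp), if_neg (hS p hp).2.2.2])
  have e3 : σ (sq 17) = -sq 17 := by
    rw [hF.2.1, hσ 17 (Finset.mem_insert_self _ _), if_pos rfl, sg_one]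
    simp
  have e4 : σ ((x ^ 2 - 289) / (2 * y)) = (x ^ 2 - 289) / (2 * y) := by
    rw [map_div₀, map_sub, map_pow, map_mul, e1, e2, map_ofNat, map_ofNat]
  have e5 : sq 17 = 0 := by
    rcases sq_eq_sq_iff_eq_or_eq_neg.1 h5 with e | e
    · rw [e, e3] at e4
      linear_combination -e4 / 2
    · rw [e, map_neg, e3] at e4
      linear_combination e4 / 2
  have e6 := hF.1 17
  rw [e5, show ps 17 = 17 by decide] at e6
  norm_num at e6

theorem fix_sub {S : Finset ℕ} {R : Pt} (hR : Fix S R) (i : ℤ) : Fix S (R - i • T0) :=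
  fun σ h => by rw [map_sub, map_zsmul, hR σ h, act_T0]

theorem pow_tors (hF : FieldStmt) {S : Finset ℕ} (hS : Prs S) (k : ℕ) :
    ∀ R : Pt, Fix S R → 2 ^ k • R = 0 → ∃ j : ℤ, R = j • T0 := by
  induction k with
  | zero => exact fun R _ h => ⟨0, by simpa using h⟩
  | succ k ih =>
    intro R hR h
    obtain ⟨j, hj⟩ := ih (R + R) (fun σ hσ => by rw [map_add, hR σ hσ])
      (by rw [← two_nsmul, ← mul_nsmul', ← pow_succ, h])
    obtain ⟨i, rfl | rfl⟩ := Int.even_or_odd' j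
    · rcases two_tors hF hS (fix_sub hR i) (by rw [sub_add_sub_comm, hj]; module) with e | e
      · exact ⟨i, sub_eq_zero.1 e⟩
      · exact ⟨2 + i, by rw [add_zsmul, two_T0, ← e, sub_add_cancel]⟩
    · exact absurd (by rw [sub_add_sub_comm, hj]; module) (not_half hF hS (fix_sub hR i))

end CurveAux

open CurveAux

theorem curve : CurveStmt := by
  refine ⟨four_T0, act_T0, fun σ τ P => by cases P <;> rfl, fun P => by cases P <;> rfl,
    fun O h => ?_⟩
  rw [ValuationSubring.mem_nonunits_iff] at h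
  refine ⟨E0 O h, fun _ => Iff.rfl, fun j hj => ?_⟩
  have h0 : T0 ∉ E0 O h := fun e => ((out_iff (x := 17)).1 e).not_gt h
  have h1 : T1 ∉ E0 O h := fun e => ((out_iff (x := 0)).1 e).not_gt (by simp)
  have h2 : j • T0 = (j % 4) • T0 := by
    conv_lhs => rw [← Int.emod_add_ediv_mul j 4, add_zsmul, mul_zsmul, four_T0, zsmul_zero,
      add_zero]
  rw [h2] at hj
  obtain e | e | e | e : j % 4 = 0 ∨ j % 4 = 1 ∨ j % 4 = 2 ∨ j % 4 = 3 := by omega
  · omega
  · rw [e, one_zsmul] at hj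
    exact absurd hj h0
  · rw [e, two_T0] at hj
    exact absurd hj h1
  · rw [e, show (3 : ℤ) = 4 - 1 from rfl, sub_zsmul, four_T0, one_zsmul, zero_add] at hj
    exact absurd ((E0 O h).neg_mem_iff.1 hj) h0

theorem tors (hF : FieldStmt) (_hC : CurveStmt) : TorsStmt := by
  intro S hS P hP h
  obtain ⟨k, n, hn, e⟩ := Nat.exists_eq_two_pow_mul_odd h.addOrderOf_pos.ne'
  obtain ⟨j, hj⟩ := pow_tors hF hS k (n • P) (fun σ hσ => by rw [map_nsmul, hP σ hσ])
    (by rw [← mul_nsmul', ← e, addOrderOf_nsmul_eq_zero])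
  exact ⟨n, j, hn.natCast, by rw [natCast_zsmul, hj]⟩

end Pool.Agent.Lib.MP_d6ddbd_nt.G
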