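import Mathlib

/-!
Quadratic twists of `y ^ 2 = x (x + 1) (x - 16)`: definitions and the interface between the
arithmetic half (genus points, descent, counting) and the geometric half (Heegner points on
`X₀(17)`).
-/

open Finset WeierstrassCurve

noncomputable section

namespace Pool.Agent.Lib.MP_d6ddbd_nt.G

/-! ### Residue symbols, written additively -/

/-- `1` if `p ≡ 3 mod 4`. -/
noncomputable def ep (p : ℕ) : ZMod 2 := if p % 4 = 3 then 1 else 0

/-- `1` if `17` is a non-residue modulo `p`. -/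
noncomputable def ga (p : ℕ) : ZMod 2 := if jacobiSym 17 p = -1 then 1 else 0

/-- `p* = ± p ≡ 1 mod 4`. -/
def ps (p : ℕ) : ℤ := if p % 4 = 3 then -(p : ℤ) else p

/-- `1` if `q*` is a non-residue modulo `p`. -/
noncomputable def al (p q : ℕ) : ZMod 2 := if jacobiSym (ps q) p = -1 then 1 else 0

/-- The indicator function of a finite set. -/
noncomputable def ind (a : Finset ℕ) (p : ℕ) : ZMod 2 := if p ∈ a then 1 else 0

/-- The solutions of the linear system of the `2`-descent (the `2`-Selmer group modulo torsion). -/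
noncomputable def Ker (S : Finset ℕ) : Finset (Finset ℕ × Finset ℕ) :=
  (S.powerset ×ˢ S.powerset).filter fun x => ∀ p ∈ S,
    ∑ q ∈ S, al p q * (ind x.1 p + ind x.1 q) = ep p * (ind x.1 p + ind x.2 p) ∧
    ∑ q ∈ S, al p q * (ind x.2 p + ind x.2 q) = ga p * ind x.1 p

/-- The system has exactly one non-zero solution, and its first component is not zero. -/
def Good (S : Finset ℕ) : Prop := (Ker S).card = 2 ∧ ∀ x ∈ Ker S, x.1 = ∅ → x.2 = ∅

noncomputable instance : DecidablePred Good := fun _ => by unfold Good; infer_instance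

/-- A set of primes different from `2`, `3`, `17`. -/
def Prs (S : Finset ℕ) : Prop := ∀ p ∈ S, p.Prime ∧ p ≠ 2 ∧ p ≠ 3 ∧ p ≠ 17

/-- The product of the `p*` is negative and a square modulo `17`. -/
def Adm (S : Finset ℕ) : Prop := Prs S ∧ ∑ p ∈ S, ep p = 1 ∧ ∑ p ∈ S, ga p = 0

/-- The product of the `p*` is positive and a square modulo `17`. -/
def Pos (S : Finset ℕ) : Prop := Prs S ∧ ∑ p ∈ S, ep p = 0 ∧ ∑ p ∈ S, ga p = 0

/-- The discriminant `∏ p*`. -/
def dsc (S : Finset ℕ) : ℤ := ∏ p ∈ S, ps p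

/-- The rational points of the twist. -/
def Tw (D : ℤ) : Set (ℚ × ℚ) := {P | (D : ℚ) * P.2 ^ 2 = P.1 * (P.1 + 1) * (P.1 - 16)}

/-- `1` if the system has only the zero solution. -/
noncomputable def sS (S : Finset ℕ) : ZMod 2 := if (Ker S).card = 1 then 1 else 0

/-- The first component of the non-zero solution if there is exactly one, else `0`. -/
noncomputable def lam (S : Finset ℕ) (p : ℕ) : ZMod 2 :=
  if (Ker S).card = 2 ∧ ∃ x ∈ Ker S, p ∈ x.1 then 1 else 0

/-- `1` if the Rédei matrix has corank one: the ambiguous form `[d, d, (d + |D| / d) / 4]`,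
`d = ∏ q ∈ B, q`, lies in the principal genus only for `B = ∅` and `B = S`. -/
noncomputable def gT (S : Finset ℕ) : ZMod 2 :=
  if ∀ B ∈ S.powerset, (∀ p ∈ S, ∑ q ∈ S, al q p * (ind B p + ind B q) = 0) → B = ∅ ∨ B = S
  then 1 else 0

/-! ### The curve `X₀(17)` -/

/-- `Y ^ 2 = X (X ^ 2 + 30 X + 289)`. -/
def W17 : WeierstrassCurve ℚ := ⟨0, 30, 0, 289, 0⟩

/-- The complex points. -/
abbrev Pt : Type := (W17.toAffine.baseChange ℂ).Point

theorem ns_iff (x y : ℂ) : (W17.toAffine.baseChange ℂ).Nonsingular x y ↔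
    y ^ 2 = x * (x ^ 2 + 30 * x + 289) := by
  have : (W17.toAffine.baseChange ℂ).IsElliptic := ⟨by
    simp only [W17, Affine.baseChange, WeierstrassCurve.baseChange, toAffine, map_Δ]
    refine IsUnit.map _ (isUnit_iff_ne_zero.2 ?_)
    simp [Δ, b₂, b₄, b₆, b₈]
    norm_num⟩
  rw [← Affine.equation_iff_nonsingular, Affine.equation_iff]
  simp [W17]
  constructor <;> intro h <;> linear_combination h

/-- The point of order four. -/
noncomputable def T0 : Pt := .some 17 136 ((ns_iff _ _).2 (by norm_num))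

/-- The action of an automorphism of `ℂ` on the points. -/
noncomputable def act (σ : ℂ ≃+* ℂ) : Pt →+ Pt := Affine.Point.map (σ : ℂ →+* ℂ).toRatAlgHom

/-- A square root of `p*`. -/
noncomputable def sq (p : ℕ) : ℂ := (ps p : ℂ) ^ (1 / 2 : ℂ)

/-- `1` if `σ` moves the square root of `p*`. -/
noncomputable def sgn (σ : ℂ ≃+* ℂ) (p : ℕ) : ZMod 2 := by
  classical exact if σ (sq p) = sq p then 0 else 1

/-- The point does not reduce to the node. -/
def In0 (O : ValuationSubring ℂ) : Pt → Prop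
  | .zero => True
  | .some x _ _ => x ∉ O.nonunits

/-- Heegner points of discriminant `dsc S` with their genus characters. -/
structure Heeg (O : ValuationSubring ℂ) (S : Finset ℕ) where
  /-- the classes of forms -/
  I : Type
  [fin : Fintype I]
  /-- the points -/
  x : I → Pt
  /-- the genus characters -/
  χ : ℕ → I → ZMod 2
  gal : ∀ σ : ℂ ≃+* ℂ, ∃ π : I ≃ I,
    (∑ p ∈ S, sgn σ p = 0 → ∀ i, act σ (x i) = x (π i) ∧
      ∀ p ∈ S, χ p (π i) = χ p i + sgn σ p) ∧
    (∑ p ∈ S, sgn σ p = 1 → ∀ i, act σ (x i) = T0 - x (π i) ∧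
      ∀ p ∈ S, χ p (π i) = χ p i + sgn σ p + ep p + ga p)
  prod : ∀ i, ∑ p ∈ S, χ p i = 0
  redei : ((univ.filter fun i => ∀ p ∈ S, χ p i = 0).card : ZMod 2) = gT S
  comp : (∀ i, In0 O (x i)) ∨ ∀ i, In0 O (T0 - x i)

attribute [instance] Heeg.fin

/-- The sum of the Heegner points twisted by the genus character of `e`. -/
noncomputable def Heeg.P {O : ValuationSubring ℂ} {S : Finset ℕ} (H : Heeg O S) (e : Finset ℕ) :
    Pt :=
  ∑ i, if ∑ p ∈ e, H.χ p i = 0 then H.x i else -H.x i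

/-- The twisted Gross-Kohnen-Zagier relation. -/
def GKZ {O : ValuationSubring ℂ} (H : ∀ S, Adm S → Heeg O S) : Prop :=
  ∃ c : Finset ℕ → ℚ, ∀ (e S₀ : Finset ℕ) (h₀ : Adm S₀) (h : Adm (e ∪ S₀)), Pos e →
    Disjoint e S₀ → ∃ s : ℤ, (s = 1 ∨ s = -1) ∧
      IsOfFinAddOrder (((c e).den : ℤ) • (H _ h).P e - (s * (c e).num) • (H _ h₀).P ∅)

/-- The geometric half. -/
def GeomStmt : Prop := ∃ O : ValuationSubring ℂ, (17 : ℂ) ∈ O.nonunits ∧
  ∃ H : ∀ S, Adm S → Heeg O S, GKZ H

end Pool.Agent.Lib.MP_d6ddbd_nt.G
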