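import Pool.Agent.Lib.MP_d6ddbd_nt.G.FStmt

/-! The criterion is computable. -/

open Finset

noncomputable section

namespace Pool.Agent.Lib.MP_d6ddbd_nt.G

namespace Cp

open Primrec

/-- The coding of `ZMod 2`. -/
@[reducible] def pc : Primcodable (ZMod 2) := inferInstanceAs (Primcodable (Fin 2))

attribute [local instance] pc

variable {α : Type} [Primcodable α]

theorem imp {p q : α → Prop} (hp : PrimrecPred p) (hq : PrimrecPred q) :
    PrimrecPred fun a => p a → q a :=
  (hp.not.or hq).of_eq fun _ => imp_iff_not_or.symm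

theorem ball {f : α → ℕ} {R : α → ℕ → Prop} (hf : Primrec f)
    (hR : PrimrecPred fun x : α × ℕ => R x.1 x.2) : PrimrecPred fun a => ∀ i < f a, R a i := by
  have h : PrimrecRel fun (i : ℕ) (a : α) => R a i := hR.comp (pair snd fst)
  exact (h.forall_mem_list.comp (list_range.comp hf) Primrec.id).of_eq fun a => by simp

theorem bex {f : α → ℕ} {R : α → ℕ → Prop} (hf : Primrec f)
    (hR : PrimrecPred fun x : α × ℕ => R x.1 x.2) : PrimrecPred fun a => ∃ i < f a, R a i :=
  (ball (R := fun a i => ¬ R a i) hf hR.not).not.of_eq fun a => by simp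

theorem zadd {f g : α → ZMod 2} (hf : Primrec f) (hg : Primrec g) : Primrec fun a => f a + g a :=
  (dom_finite fun x : ZMod 2 × ZMod 2 => x.1 + x.2).comp (pair hf hg)

theorem zmul {f g : α → ZMod 2} (hf : Primrec f) (hg : Primrec g) : Primrec fun a => f a * g a :=
  (dom_finite fun x : ZMod 2 × ZMod 2 => x.1 * x.2).comp (pair hf hg)

theorem bsum {f : α → ℕ} {g : α → ℕ → ZMod 2} (hf : Primrec f)
    (hg : Primrec fun x : α × ℕ => g x.1 x.2) : Primrec fun a => ∑ i ∈ range (f a), g a i := by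
  have h : Primrec₂ fun (a : α) (y : ℕ × ZMod 2) => y.2 + g a y.1 :=
    zadd (snd.comp snd) (hg.comp (pair fst (fst.comp snd)))
  refine (nat_rec' hf (const (0 : ZMod 2)) h).of_eq fun a => ?_
  induction f a with
  | zero => rfl
  | succ k ih => rw [sum_range_succ, ← ih]

theorem dvd {f g : α → ℕ} (hf : Primrec f) (hg : Primrec g) : PrimrecPred fun a => f a ∣ g a :=
  (Primrec.eq.comp (nat_mod.comp hg hf) (const 0)).of_eq fun _ => Nat.dvd_iff_mod_eq_zero.symm

theorem prime : PrimrecPred Nat.Prime :=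
  ((nat_le.comp (const 2) Primrec.id).and (ball (R := fun p m => m ∣ p → m = 1) Primrec.id
    (imp (dvd snd fst) (Primrec.eq.comp snd (const 1))))).of_eq fun _ => Nat.prime_def_lt.symm

theorem memP {f g : α → ℕ} (hf : Primrec f) (hg : Primrec g) :
    PrimrecPred fun a => f a ∈ (g a).primeFactors :=
  ((prime.comp hf).and ((dvd hf hg).and (Primrec.eq.comp hg (const 0)).not)).of_eq
    fun _ => Nat.mem_primeFactors.symm

theorem ballP {f : α → ℕ} {R : α → ℕ → Prop} (hf : Primrec f)
    (hR : PrimrecPred fun x : α × ℕ => R x.1 x.2) :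
    PrimrecPred fun a => ∀ p ∈ (f a).primeFactors, R a p :=
  (ball (R := fun a p => p ∈ (f a).primeFactors → R a p) (succ.comp hf)
    (imp (memP snd (hf.comp fst)) hR)).of_eq fun _ =>
      ⟨fun h p hp => h p (Nat.lt_succ_of_le (Nat.le_of_mem_primeFactors hp)) hp, fun h p _ => h p⟩

theorem sumP {f : α → ℕ} {g : α → ℕ → ZMod 2} (hf : Primrec f)
    (hg : Primrec fun x : α × ℕ => g x.1 x.2) :
    Primrec fun a => ∑ p ∈ (f a).primeFactors, g a p := by
  refine (bsum (g := fun a p => if p ∈ (f a).primeFactors then g a p else 0) (succ.comp hf)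
    (Primrec.ite (memP snd (hf.comp fst)) hg (const 0))).of_eq fun a => ?_
  rw [sum_ite_mem, inter_eq_right.2]
  exact fun p hp => mem_range.2 (Nat.lt_succ_of_le (Nat.le_of_mem_primeFactors hp))

theorem subP {f g : α → ℕ} (hf : Primrec f) (hg : Primrec g) :
    PrimrecPred fun a => (f a).primeFactors ⊆ (g a).primeFactors :=
  ballP (R := fun a p => p ∈ (g a).primeFactors) hf (memP snd (hg.comp fst))

theorem eqP {f g : α → ℕ} (hf : Primrec f) (hg : Primrec g) :
    PrimrecPred fun a => (f a).primeFactors = (g a).primeFactors :=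
  ((subP hf hg).and (subP hg hf)).of_eq fun _ => Subset.antisymm_iff.symm

theorem empP {f : α → ℕ} (hf : Primrec f) : PrimrecPred fun a => (f a).primeFactors = ∅ :=
  (eqP hf (const 0)).of_eq fun _ => by rw [Nat.primeFactors_zero]

theorem sqf : PrimrecPred fun n : ℕ => Squarefree n := by
  refine ((Primrec.eq.comp Primrec.id (const 0)).not.and
    (ball (R := fun n d => d * d ∣ n → d = 1) succ
      (imp (dvd (nat_mul.comp snd snd) fst) (Primrec.eq.comp snd (const 1))))).of_eq fun n => ?_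
  constructor
  · rintro ⟨h0, h⟩ d hd
    exact Nat.isUnit_iff.2 (h d (Nat.lt_succ_of_le
      (Nat.le_of_dvd (Nat.pos_of_ne_zero h0) ((dvd_mul_right d d).trans hd))) hd)
  · exact fun h => ⟨h.ne_zero, fun d _ hd => Nat.isUnit_iff.1 (h d hd)⟩

/-- `t` is not a square modulo `p`. -/
def NS (p t : ℕ) : Prop := ∀ x < p, ¬ x * x % p = t % p

instance (p t : ℕ) : Decidable (NS p t) := by unfold NS; infer_instance

theorem nsP {f g : α → ℕ} (hf : Primrec f) (hg : Primrec g) : PrimrecPred fun a => NS (f a) (g a) :=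
  ball (R := fun a x => ¬ x * x % f a = g a % f a) hf (Primrec.eq.comp
    (nat_mod.comp (nat_mul.comp snd snd) (hf.comp fst))
    (nat_mod.comp (hg.comp fst) (hf.comp fst))).not

theorem ns_iff {p t : ℕ} (hp : p.Prime) {a : ℤ} (h : (a : ZMod p) = t) :
    jacobiSym a p = -1 ↔ NS p t := by
  have := Fact.mk hp
  rw [ZMod.nonsquare_iff_jacobiSym_eq_neg_one, h]
  constructor
  · intro h1 x _ e
    refine h1 ⟨x, ?_⟩
    rw [← Nat.cast_mul]
    exact ((ZMod.natCast_eq_natCast_iff' _ _ _).2 e).symm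
  · rintro h1 ⟨r, e⟩
    refine h1 r.val (ZMod.val_lt r) ((ZMod.natCast_eq_natCast_iff' _ _ _).1 ?_)
    rw [Nat.cast_mul, ZMod.natCast_zmod_val, e]

/-- The symbol `ga` at primes. -/
def ga' (p : ℕ) : ZMod 2 := if NS p 17 then 1 else 0

/-- The symbol `al` at primes. -/
def al' (p q : ℕ) : ZMod 2 := if NS p (if q % 4 = 3 then (p - 1) * q else q) then 1 else 0

theorem ga_eq {p : ℕ} (hp : p.Prime) : ga p = ga' p :=
  if_congr (ns_iff hp (by simp)) rfl rfl

theorem al_eq {p : ℕ} (hp : p.Prime) (q : ℕ) : al p q = al' p q := by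
  refine if_congr (ns_iff hp ?_) rfl rfl
  unfold ps
  split_ifs
  · simp [Nat.cast_sub hp.one_le]
  · simp

theorem gaP : Primrec ga' := Primrec.ite (nsP Primrec.id (const 17)) (const 1) (const 0)

theorem epP : Primrec ep :=
  Primrec.ite (Primrec.eq.comp (nat_mod.comp Primrec.id (const 4)) (const 3)) (const 1) (const 0)

theorem alP {f g : α → ℕ} (hf : Primrec f) (hg : Primrec g) : Primrec fun a => al' (f a) (g a) :=
  Primrec.ite (nsP hf (Primrec.ite (Primrec.eq.comp (nat_mod.comp hg (const 4)) (const 3))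
    (nat_mul.comp (nat_sub.comp hf (const 1)) hg) hg)) (const 1) (const 0)

theorem indP {f g : α → ℕ} (hf : Primrec f) (hg : Primrec g) :
    Primrec fun a => ind (f a).primeFactors (g a) :=
  Primrec.ite (memP hg hf) (const 1) (const 0)

theorem rowP {n d p : α → ℕ} (hn : Primrec n) (hd : Primrec d) (hp : Primrec p) :
    Primrec fun a => ∑ q ∈ (n a).primeFactors,
      al' (p a) q * (ind (d a).primeFactors (p a) + ind (d a).primeFactors q) :=
  sumP hn (zmul (alP (hp.comp fst) snd)
    (zadd (indP (hd.comp fst) (hp.comp fst)) (indP (hd.comp fst) snd)))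

theorem kerP {n d e : α → ℕ} (hn : Primrec n) (hd : Primrec d) (he : Primrec e) :
    PrimrecPred fun a => ((d a).primeFactors, (e a).primeFactors) ∈ Ker (n a).primeFactors := by
  have h := ballP (R := fun a p =>
    ∑ q ∈ (n a).primeFactors,
      al' p q * (ind (d a).primeFactors p + ind (d a).primeFactors q) =
        ep p * (ind (d a).primeFactors p + ind (e a).primeFactors p) ∧
    ∑ q ∈ (n a).primeFactors,
      al' p q * (ind (e a).primeFactors p + ind (e a).primeFactors q) =
        ga' p * ind (d a).primeFactors p) hn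
    ((Primrec.eq.comp (rowP (hn.comp fst) (hd.comp fst) snd) (zmul (epP.comp snd)
      (zadd (indP (hd.comp fst) snd) (indP (he.comp fst) snd)))).and
    (Primrec.eq.comp (rowP (hn.comp fst) (he.comp fst) snd)
      (zmul (gaP.comp snd) (indP (hd.comp fst) snd))))
  refine (((subP hd hn).and (subP he hn)).and h).of_eq fun a => ?_
  rw [Ker, mem_filter, mem_product, mem_powerset, mem_powerset]
  refine and_congr Iff.rfl (forall₂_congr fun p hp => ?_)
  simp only [al_eq (Nat.prime_of_mem_primeFactors hp), ga_eq (Nat.prime_of_mem_primeFactors hp)]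

theorem code {n : ℕ} {a : Finset ℕ} (h : a ⊆ n.primeFactors) : ∃ d < n + 1, d.primeFactors = a := by
  rcases Nat.eq_zero_or_pos n with rfl | hn
  · exact ⟨0, one_pos, (subset_empty.1 (by simpa using h)).symm ▸ Nat.primeFactors_zero⟩
  · exact ⟨∏ p ∈ a, p, Nat.lt_succ_of_le (Nat.le_of_dvd hn
      ((prod_dvd_prod_of_subset _ _ _ h).trans n.prod_primeFactors_dvd)),
      Nat.primeFactors_prod fun p hp => Nat.prime_of_mem_primeFactors (h hp)⟩

theorem ballK {n : α → ℕ} {R : α → Finset ℕ × Finset ℕ → Prop} (hn : Primrec n)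
    (hR : PrimrecPred fun x : (α × ℕ) × ℕ => R x.1.1 (x.1.2.primeFactors, x.2.primeFactors)) :
    PrimrecPred fun a => ∀ y ∈ Ker (n a).primeFactors, R a y := by
  have h1 := ball (f := fun x : α × ℕ => n x.1 + 1)
    (R := fun x e => (x.2.primeFactors, e.primeFactors) ∈ Ker (n x.1).primeFactors →
      R x.1 (x.2.primeFactors, e.primeFactors)) (succ.comp (hn.comp fst))
    (imp (kerP (hn.comp (fst.comp fst)) (snd.comp fst) snd) hR)
  refine (ball (R := fun a d => ∀ e < n a + 1,
    (d.primeFactors, e.primeFactors) ∈ Ker (n a).primeFactors →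
      R a (d.primeFactors, e.primeFactors)) (succ.comp hn) h1).of_eq fun a => ?_
  refine ⟨fun h y hy => ?_, fun h d _ e _ hy => h _ hy⟩
  have h2 := mem_product.1 (mem_filter.1 hy).1
  obtain ⟨d, hd, e1⟩ := code (mem_powerset.1 h2.1)
  obtain ⟨e, he, e2⟩ := code (mem_powerset.1 h2.2)
  have h3 := h d hd e he
  rw [e1, e2] at h3
  exact h3 hy

theorem zero_mem (S : Finset ℕ) : (∅, ∅) ∈ Ker S := by
  simp [Ker, ind]

theorem card_one (S : Finset ℕ) : (∀ y ∈ Ker S, y.1 = ∅ ∧ y.2 = ∅) ↔ (Ker S).card = 1 := by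
  constructor
  · exact fun h => card_eq_one.2 ⟨(∅, ∅), eq_singleton_iff_unique_mem.2
      ⟨zero_mem S, fun y hy => Prod.ext (h y hy).1 (h y hy).2⟩⟩
  · intro h y hy
    rw [card_le_one.1 h.le y hy _ (zero_mem S)]
    exact ⟨rfl, rfl⟩

theorem good_iff (S : Finset ℕ) : (¬ ∀ y ∈ Ker S, ¬ (¬ y.1 = ∅ ∧ ∀ x ∈ Ker S,
    (x.1 = ∅ ∧ x.2 = ∅) ∨ (x.1 = y.1 ∧ x.2 = y.2))) ↔ Good S := by
  simp only [not_forall, not_not, exists_prop]
  constructor
  · rintro ⟨y, hy, h1, h2⟩
    refine ⟨card_eq_two.2 ⟨(∅, ∅), y, fun e => h1 (e ▸ rfl), ?_⟩, fun x hx e => ?_⟩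
    · ext x
      rw [mem_insert, mem_singleton]
      refine ⟨fun hx => (h2 x hx).imp (fun e => Prod.ext e.1 e.2) fun e => Prod.ext e.1 e.2, ?_⟩
      rintro (rfl | rfl)
      exacts [zero_mem S, hy]
    · exact (h2 x hx).elim And.right fun e' => (h1 (e'.1 ▸ e)).elim
  · rintro ⟨h1, h2⟩
    obtain ⟨y, hy, h3⟩ := exists_mem_ne (s := Ker S) (by omega) (∅, ∅)
    refine ⟨y, hy, fun e => h3 (Prod.ext e (h2 y hy e)), fun x hx => ?_⟩
    have h4 : ({(∅, ∅), y} : Finset (Finset ℕ × Finset ℕ)) = Ker S := by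
      refine eq_of_subset_of_card_le ?_ (by rw [h1, card_pair h3.symm])
      intro z hz
      rcases mem_insert.1 hz with rfl | hz
      exacts [zero_mem S, mem_singleton.1 hz ▸ hy]
    rw [← h4, mem_insert, mem_singleton] at hx
    rcases hx with rfl | rfl
    exacts [Or.inl ⟨rfl, rfl⟩, Or.inr ⟨rfl, rfl⟩]

theorem oneP : PrimrecPred fun n : ℕ => (Ker n.primeFactors).card = 1 :=
  (ballK (R := fun _ y => y.1 = ∅ ∧ y.2 = ∅) Primrec.id
    ((empP (snd.comp fst)).and (empP snd))).of_eq fun _ => card_one _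

theorem goodP : PrimrecPred fun n : ℕ => Good n.primeFactors := by
  have h1 := ballK (α := (ℕ × ℕ) × ℕ) (n := fun x => x.1.1)
    (R := fun y x => (x.1 = ∅ ∧ x.2 = ∅) ∨ (x.1 = y.1.2.primeFactors ∧ x.2 = y.2.primeFactors))
    (fst.comp fst) (((empP (snd.comp fst)).and (empP snd)).or
      ((eqP (snd.comp fst) (snd.comp (fst.comp (fst.comp fst)))).and
        (eqP snd (snd.comp (fst.comp fst)))))
  exact (ballK (R := fun (n : ℕ) y => ¬ (¬ y.1 = ∅ ∧ ∀ x ∈ Ker n.primeFactors,
    (x.1 = ∅ ∧ x.2 = ∅) ∨ (x.1 = y.1 ∧ x.2 = y.2))) Primrec.id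
    ((empP (snd.comp fst)).not.and h1).not).not.of_eq fun _ => good_iff _

theorem clsP (e : ZMod 2) : PrimrecPred fun n : ℕ => Prs n.primeFactors ∧
    ∑ p ∈ n.primeFactors, ep p = e ∧ ∑ p ∈ n.primeFactors, ga p = 0 := by
  have h1 : PrimrecPred fun n : ℕ => Prs n.primeFactors :=
    ballP (R := fun _ p => p.Prime ∧ p ≠ 2 ∧ p ≠ 3 ∧ p ≠ 17) Primrec.id
      ((prime.comp snd).and ((Primrec.eq.comp snd (const 2)).not.and
        ((Primrec.eq.comp snd (const 3)).not.and (Primrec.eq.comp snd (const 17)).not)))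
  have h2 : Primrec fun n : ℕ => ∑ p ∈ n.primeFactors, ep p :=
    sumP (g := fun _ p => ep p) Primrec.id (epP.comp snd)
  have h3 : Primrec fun n : ℕ => ∑ p ∈ n.primeFactors, ga p :=
    (sumP (g := fun _ p => ga' p) Primrec.id (gaP.comp snd)).of_eq fun n =>
      sum_congr rfl fun p hp => (ga_eq (Nat.prime_of_mem_primeFactors hp)).symm
  exact h1.and ((Primrec.eq.comp h2 (const e)).and (Primrec.eq.comp h3 (const 0)))

theorem enc_int (z : ℤ) :
    Encodable.encode z = if 0 ≤ z then 2 * z.natAbs else 2 * z.natAbs - 1 := by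
  cases z with
  | ofNat n => simp; rfl
  | negSucc n =>
    rw [if_neg (by omega), Int.natAbs_negSucc]
    change 2 * n + 1 = _
    omega

theorem absP : Primrec Int.natAbs :=
  (nat_div.comp (succ.comp Primrec.encode) (const 2)).of_eq fun z => by
    rw [enc_int]; split_ifs <;> omega

theorem negP : PrimrecPred fun z : ℤ => z < 0 :=
  (Primrec.eq.comp (nat_mod.comp Primrec.encode (const 2)) (const 1)).of_eq fun z => by
    rw [enc_int]; split_ifs <;> omega

theorem posP : PrimrecPred fun z : ℤ => 0 < z :=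
  (negP.not.and (Primrec.eq.comp absP (const 0)).not).of_eq fun z => by omega

end Cp

theorem comp : CompStmt := by
  classical
  have h1 : PrimrecPred fun D : ℤ => D < 0 ∧ Squarefree D.natAbs ∧ Adm D.natAbs.primeFactors ∧
      Good D.natAbs.primeFactors :=
    Cp.negP.and ((Cp.sqf.and ((Cp.clsP 1).and Cp.goodP)).comp Cp.absP)
  have h2 : PrimrecPred fun D : ℤ => 0 < D ∧ Squarefree D.natAbs ∧ Pos D.natAbs.primeFactors ∧
      (Ker D.natAbs.primeFactors).card = 1 :=
    Cp.posP.and ((Cp.sqf.and ((Cp.clsP 0).and Cp.oneP)).comp Cp.absP)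
  refine ⟨_, (Primrec.ite h1 (Primrec.const (some true))
    (Primrec.ite h2 (Primrec.const (some false)) (Primrec.const none))).to_comp,
    fun D => ?_, fun D => ?_⟩
  · split_ifs with a b
    · exact iff_of_true rfl a
    · exact iff_of_false (by simp) a
    · exact iff_of_false (by simp) a
  · split_ifs with a b
    · exact iff_of_false (by simp) fun b => lt_asymm a.1 b.1
    · exact iff_of_true rfl b
    · exact iff_of_false (by simp) b

end Pool.Agent.Lib.MP_d6ddbd_nt.G
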