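import Pool.Agent.Lib.MP_d6ddbd_nt.G.Stmt

/-! The full `2`-descent: finitely many rational points when the kernel is trivial. -/

set_option autoImplicit false

open Finset Height

noncomputable section

namespace Pool.Agent.Lib.MP_d6ddbd_nt.G

namespace FinAux

/-- An injective self map that contracts heights forces finiteness. -/
theorem fin_of_inj {U : Set ℚ} {C : ℝ} (s : ℚ → ℚ) (hs : Set.MapsTo s U U) (hi : Set.InjOn s U)
    (hh : ∀ u ∈ U, C + 4 * logHeight₁ (s u) ≤ logHeight₁ u) : U.Finite := by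
  let B : ℕ → Set ℚ := fun k => {u ∈ U | logHeight₁ u ≤ |C| + 1 + k}
  have hB : ∀ k, (B k).Finite := fun k =>
    (Northcott.finite_le (h := (logHeight₁ : ℚ → ℝ)) (|C| + 1 + k)).subset fun u hu => hu.2
  have h1 : ∀ k, B (k + 1) = B k := by
    intro k
    symm
    refine Set.eq_of_subset_of_ncard_le (fun u hu => ⟨hu.1, ?_⟩) ?_ (hB _)
    · have := hu.2
      push_cast; linarith
    · refine Set.ncard_le_ncard_of_injOn s (fun u hu => ⟨hs hu.1, ?_⟩)
        (hi.mono fun u hu => hu.1) (hB _)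
      have a1 := hu.2
      have a2 := hh u hu.1
      have a3 := neg_abs_le C
      have a4 := abs_nonneg C
      have a5 : (0 : ℝ) ≤ k := Nat.cast_nonneg k
      push_cast at a1
      linarith
  have h2 : ∀ k, B k = B 0 := by
    intro k
    induction k with
    | zero => rfl
    | succ k ih => rw [h1, ih]
  refine (hB 0).subset fun u hu => ?_
  obtain ⟨k, hk⟩ := exists_nat_ge (logHeight₁ u)
  rw [← h2 k]
  exact ⟨hu, by linarith [abs_nonneg C]⟩

open MvPolynomial in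
theorem ht_two (a b c : ℚ) (hb : b ≠ 0) (hc : c ≠ 0) :
    ∃ C : ℝ, ∀ x : ℚ, C + 2 * logHeight₁ x ≤ logHeight₁ ((x ^ 2 + a * x + b) / (c * x)) := by
  let q : Fin 2 × Fin 2 → MvPolynomial (Fin 2) ℚ := fun ij =>
    !![X 0, C (-a / c) * X 0 + C (-b / c) * X 1;
      C (1 / b) * X 1, C (-1 / (b * c)) * X 0 + C (-a / (b * c)) * X 1] ij.1 ij.2
  have hq : ∀ ij, (q ij).IsHomogeneous 1 := by
    rintro ⟨i, j⟩
    fin_cases i <;> fin_cases j
    · exact isHomogeneous_X _ _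
    · exact ((isHomogeneous_X _ _).C_mul _).add ((isHomogeneous_X _ _).C_mul _)
    · exact (isHomogeneous_X _ _).C_mul _
    · exact ((isHomogeneous_X _ _).C_mul _).add ((isHomogeneous_X _ _).C_mul _)
  obtain ⟨C0, h⟩ := logHeight_eval_ge' (N := 2) hq
  refine ⟨C0, fun x => ?_⟩
  have := h ![X 0 ^ 2 + C a * X 0 * X 1 + C b * X 1 ^ 2, C c * X 0 * X 1] (x := ![x, 1]) (by
    intro k
    fin_cases k <;> simp [q, Fin.sum_univ_two] <;> field_simp <;> ring)
  rw [logHeight₁_eq_logHeight, logHeight₁_div_eq_logHeight]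
  have e : (fun j => eval ![x, 1] (![X 0 ^ 2 + C a * X 0 * X 1 + C b * X 1 ^ 2,
      C c * X 0 * X 1] j)) = ![x ^ 2 + a * x + b, c * x] := by
    ext j
    fin_cases j <;> simp
  rw [e] at this
  exact_mod_cast this

/-- The first coordinate of the double. -/
def dl (x : ℚ) : ℚ := (x ^ 2 + 16) ^ 2 / (4 * (x * (x + 1) * (x - 16)))

theorem ht_dl : ∃ C : ℝ, ∀ x : ℚ, x * (x + 1) * (x - 16) ≠ 0 →
    C + 4 * logHeight₁ x ≤ logHeight₁ (dl x) := by
  obtain ⟨C1, h1⟩ := ht_two (-15) (-16) 1 (by norm_num) (by norm_num)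
  obtain ⟨C2, h2⟩ := ht_two 30 289 4 (by norm_num) (by norm_num)
  refine ⟨C2 + 2 * C1, fun x hx => ?_⟩
  have x0 : x ≠ 0 := left_ne_zero_of_mul (left_ne_zero_of_mul hx)
  have x1 : x + 1 ≠ 0 := right_ne_zero_of_mul (left_ne_zero_of_mul hx)
  have x2 : x - 16 ≠ 0 := right_ne_zero_of_mul hx
  have a1 := h1 x
  have a2 := h2 ((x ^ 2 + -15 * x + -16) / (1 * x))
  have e : (x ^ 2 + -15 * x + -16) / (1 * x) = (x + 1) * (x - 16) / x := by ring
  rw [e] at a1 a2
  have e2 : (((x + 1) * (x - 16) / x) ^ 2 + 30 * ((x + 1) * (x - 16) / x) + 289) /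
      (4 * ((x + 1) * (x - 16) / x)) = dl x := by
    unfold dl; field_simp; ring
  rw [e2] at a2
  linarith

theorem ne_of_tw {D : ℤ} (hD : D ≠ 0) {x y : ℚ} (hy : y ≠ 0) (h : (x, y) ∈ Tw D) :
    x ≠ 0 ∧ x + 1 ≠ 0 ∧ x - 16 ≠ 0 := by
  have h0 : x * (x + 1) * (x - 16) ≠ 0 := by
    have h1 : (D : ℚ) * y ^ 2 = x * (x + 1) * (x - 16) := h
    rw [← h1]
    exact mul_ne_zero (Int.cast_ne_zero.2 hD) (pow_ne_zero _ hy)
  exact ⟨left_ne_zero_of_mul (left_ne_zero_of_mul h0),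
    right_ne_zero_of_mul (left_ne_zero_of_mul h0), right_ne_zero_of_mul h0⟩

theorem half {D : ℤ} (hD : D ≠ 0) {x y r s : ℚ} (hy : y ≠ 0) (h : (x, y) ∈ Tw D)
    (hr : (D : ℚ) * x = r ^ 2) (hs : (D : ℚ) * (x + 1) = s ^ 2) :
    ∃ u v : ℚ, v ≠ 0 ∧ (u, v) ∈ Tw D ∧ dl u = x := by
  obtain ⟨x0, x1, x2⟩ := ne_of_tw hD hy h
  have h1 : (D : ℚ) * y ^ 2 = x * (x + 1) * (x - 16) := h
  have hd : (D : ℚ) ≠ 0 := Int.cast_ne_zero.2 hD
  show ∃ u v : ℚ, v ≠ 0 ∧ (D : ℚ) * v ^ 2 = u * (u + 1) * (u - 16) ∧ dl u = x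
  generalize (D : ℚ) = d at *
  have r0 : r ≠ 0 := by rintro rfl; exact mul_ne_zero hd x0 (by simpa using hr)
  have s0 : s ≠ 0 := by rintro rfl; exact mul_ne_zero hd x1 (by simpa using hs)
  obtain ⟨t, ht⟩ : ∃ t : ℚ, d * (x - 16) = t ^ 2 := by
    refine ⟨d ^ 2 * y / (r * s), ?_⟩
    rw [div_pow, mul_pow r, ← hr, ← hs]
    field_simp
    linear_combination -h1
  have n1 : r + s ≠ 0 := fun h0 => hd (by linear_combination hs - hr + (s - r) * h0)
  have n2 : r + t ≠ 0 := fun h0 =>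
    hd (by linear_combination (1 / 16) * hr - (1 / 16) * ht + (1 / 16) * (r - t) * h0)
  have n3 : s + t ≠ 0 := fun h0 =>
    hd (by linear_combination (1 / 17) * hs - (1 / 17) * ht + (1 / 17) * (s - t) * h0)
  have u1 : (r + s) * (r + t) / d + 1 = (r + s) * (s + t) / d := by
    field_simp; linear_combination hs - hr
  have u2 : (r + s) * (r + t) / d - 16 = (r + t) * (s + t) / d := by
    field_simp; linear_combination ht - hr
  have u3 : ((r + s) * (r + t) / d) ^ 2 + 16 = 2 * r * ((r + s) * (r + t) * (s + t)) / d ^ 2 := by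
    field_simp
    linear_combination (16 * d) * (hs - hr) + (s ^ 2 - r ^ 2) * (hr - ht)
  refine ⟨(r + s) * (r + t) / d, (r + s) * (r + t) * (s + t) / d ^ 2,
    div_ne_zero (mul_ne_zero (mul_ne_zero n1 n2) n3) (pow_ne_zero _ hd), ?_, ?_⟩
  · rw [u1, u2]; field_simp
  · unfold dl
    rw [u1, u2, u3]
    field_simp
    linear_combination (-4) * hr

theorem abs_dsc (a : Finset ℕ) : |dsc a| = ∏ p ∈ a, (p : ℤ) := by
  unfold dsc
  rw [Finset.abs_prod]
  refine Finset.prod_congr rfl fun p _ => ?_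
  unfold ps
  split_ifs <;> simp

theorem dsc_mod {S : Finset ℕ} (hS : Prs S) : dsc S % 4 = 1 := by
  refine Finset.prod_induction ps (fun z : ℤ => z % 4 = 1) (fun a b ha hb => ?_) rfl fun p hp => ?_
  · rw [Int.mul_emod, ha, hb]; rfl
  · have := (hS p hp).1.eq_two_or_odd.resolve_left (hS p hp).2.1
    unfold ps
    split_ifs <;> omega

theorem val_dsc {S : Finset ℕ} (hS : Prs S) {l : ℕ} [hl : Fact l.Prime] (h : l ∉ S) :
    padicValRat l (dsc S : ℚ) = 0 := by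
  rw [padicValRat.of_int, padicValInt.eq_zero_of_not_dvd]
  · rfl
  · intro hd
    rw [← dvd_abs, abs_dsc] at hd
    obtain ⟨p, hp, hlp⟩ := (Nat.prime_iff_prime_int.1 hl.out).exists_mem_finset_dvd hd
    rw [Int.natCast_dvd_natCast, Nat.prime_dvd_prime_iff_eq hl.out (hS p hp).1] at hlp
    exact h (hlp ▸ hp)

theorem val_sum {S : Finset ℕ} (hS : Prs S) {l : ℕ} [Fact l.Prime] (h : l ∉ S) {x y : ℚ}
    (hy : y ≠ 0) (hx : (x, y) ∈ Tw (dsc S)) :
    padicValRat l x + padicValRat l (x + 1) + padicValRat l (x - 16) = 2 * padicValRat l y := by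
  have hD : dsc S ≠ 0 := fun h0 => by have := dsc_mod hS; omega
  obtain ⟨x0, x1, x2⟩ := ne_of_tw hD hy hx
  have h1 : (dsc S : ℚ) * y ^ 2 = x * (x + 1) * (x - 16) := hx
  have h3 := congrArg (padicValRat l) h1
  rw [padicValRat.mul (Int.cast_ne_zero.2 hD) (pow_ne_zero _ hy), padicValRat.pow,
    padicValRat.mul (mul_ne_zero x0 x1) x2, padicValRat.mul x0 x1, val_dsc hS h] at h3
  push_cast at h3
  omega

theorem odd_of_val {w : ℚ} (hw : w ≠ 0) (h : padicValRat 2 w = 0) :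
    w.num % 2 = 1 ∧ (w.den : ℤ) % 2 = 1 := by
  have hc : ¬ ((2 : ℤ) ∣ w.num ∧ (2 : ℤ) ∣ w.den) := by
    rintro ⟨h1, h2⟩
    have h3 : 2 ∣ w.num.natAbs := Int.natCast_dvd.1 h1
    have h4 : 2 ∣ w.den := Int.natCast_dvd_natCast.1 h2
    have := Nat.dvd_gcd h3 h4
    rw [w.reduced] at this
    omega
  unfold padicValRat at h
  have a1 : (2 : ℤ) ∣ w.num ↔ 1 ≤ padicValInt 2 w.num := by
    have := padicValInt_dvd_iff (p := 2) 1 w.num
    simpa [hw] using this
  have a2 : (2 : ℤ) ∣ w.den ↔ 1 ≤ padicValNat 2 w.den := by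
    have := padicValNat_dvd_iff (p := 2) 1 w.den
    rw [← Int.natCast_dvd_natCast] at this
    simpa [w.den_nz] using this
  omega

theorem not_sq {N : ℤ} (h : N % 4 = 3) : ¬ IsSquare (N : ℚ) := by
  rw [Rat.isSquare_intCast_iff]
  rintro ⟨r, rfl⟩
  have : r % 4 = 0 ∨ r % 4 = 1 ∨ r % 4 = 2 ∨ r % 4 = 3 := by omega
  rcases this with h1 | h1 | h1 | h1 <;> simp [Int.mul_emod, h1] at h

theorem two_aux {D : ℤ} (hD : D % 4 = 1) {w z : ℚ} (hw : w ≠ 0) (h : padicValRat 2 w = 0)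
    {i j : ℤ} (hij : i = 2 ∧ j = 8 ∨ i = 8 ∧ j = 2)
    (e : (D : ℚ) * z ^ 2 = w * (i * w + 1) * (w - j)) : False := by
  obtain ⟨h1, h2⟩ := odd_of_val hw h
  have h4 : w * w.den = w.num := Rat.mul_den_eq_num w
  refine not_sq (N := D * w.num * (i * w.num + w.den) * (w.num - j * w.den) * w.den) ?_
    ⟨D * z * w.den ^ 2, ?_⟩
  · generalize w.num = a at h1
    generalize (w.den : ℤ) = b at h2
    have ha : a % 4 = 1 ∨ a % 4 = 3 := by omega
    have hb : b % 4 = 1 ∨ b % 4 = 3 := by omega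
    rcases hij with ⟨rfl, rfl⟩ | ⟨rfl, rfl⟩ <;> rcases ha with ha | ha <;> rcases hb with hb | hb <;>
      simp [Int.mul_emod, Int.add_emod, Int.sub_emod, hD, ha, hb]
  · push_cast
    rw [← h4]
    linear_combination (-(D : ℚ) * w.den ^ 4) * e

theorem val_even {S : Finset ℕ} (hS : Prs S) {l : ℕ} [hl : Fact l.Prime] (h : l ∉ S) {x y : ℚ}
    (hy : y ≠ 0) (hx : (x, y) ∈ Tw (dsc S)) : Even (padicValRat l x) := by
  have hD : dsc S ≠ 0 := fun h0 => by have := dsc_mod hS; omega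
  obtain ⟨x0, x1, x2⟩ := ne_of_tw hD hy hx
  have h3 := val_sum hS h hy hx
  have h1 : (dsc S : ℚ) * y ^ 2 = x * (x + 1) * (x - 16) := hx
  by_cases hv : padicValRat l x = 0
  · simp [hv]
  rw [padicValRat.add_eq_min x1 x0 one_ne_zero (by rwa [padicValRat.one]), padicValRat.one] at h3
  rw [Int.even_iff]
  by_cases h2 : l = 2
  · subst h2
    have v2 : padicValRat 2 (2 : ℚ) = 1 := padicValRat.self (p := 2) one_lt_two
    have v8 : padicValRat 2 (8 : ℚ) = 3 := by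
      rw [show (8 : ℚ) = 2 ^ 3 by norm_num, padicValRat.pow, v2]; rfl
    have v16 : padicValRat 2 (-16 : ℚ) = 4 := by
      rw [padicValRat.neg, show (16 : ℚ) = 2 ^ 4 by norm_num, padicValRat.pow, v2]; rfl
    by_cases h4 : padicValRat 2 x = 4
    · omega
    rw [sub_eq_add_neg] at h3 x2
    rw [padicValRat.add_eq_min x2 x0 (by norm_num) (by rwa [v16]), v16] at h3
    have k1 : padicValRat 2 x ≠ 1 := fun k => two_aux (dsc_mod hS) (w := x / 2) (z := y / 2)
      (div_ne_zero x0 two_ne_zero) (by rw [padicValRat.div x0 two_ne_zero, k, v2]; rfl)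
      (Or.inl ⟨rfl, rfl⟩) (by push_cast; linear_combination (1 / 4) * h1)
    have k3 : padicValRat 2 x ≠ 3 := fun k => two_aux (dsc_mod hS) (w := x / 8) (z := y / 8)
      (div_ne_zero x0 (by norm_num)) (by rw [padicValRat.div x0 (by norm_num), k, v8]; rfl)
      (Or.inr ⟨rfl, rfl⟩) (by push_cast; linear_combination (1 / 64) * h1)
    omega
  · have v16 : padicValRat l (-16 : ℚ) = 0 := by
      rw [padicValRat.neg, show (16 : ℚ) = ((2 : ℕ) : ℚ) ^ 4 by norm_num, padicValRat.pow,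
        padicValRat.of_nat, padicValNat.eq_zero_of_not_dvd]
      · rfl
      · rw [Nat.prime_dvd_prime_iff_eq hl.out Nat.prime_two]; exact h2
    rw [sub_eq_add_neg] at h3 x2
    rw [padicValRat.add_eq_min x2 x0 (by norm_num) (by rwa [v16]), v16] at h3
    omega

theorem rep {u : ℚ} (hu : u ≠ 0) (S : Finset ℕ)
    (h : ∀ (l : ℕ) [Fact l.Prime], l ∉ S → Even (padicValRat l u)) :
    ∃ a ⊆ S, ∃ r : ℚ, u = dsc a * r ^ 2 ∨ u = -(dsc a * r ^ 2) := by
  obtain ⟨s, b, hsb, hsq⟩ := Nat.sq_mul_squarefree (u.num.natAbs * u.den)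
  have h5 : (u.den : ℚ) ≠ 0 := by exact_mod_cast u.den_nz
  have hs : |u| = s * (b / u.den) ^ 2 := by
    have h1 : ((b : ℚ) ^ 2 * s) = |(u.num : ℚ)| * u.den := by
      have h3 : ((b ^ 2 * s : ℕ) : ℤ) = |u.num| * u.den := by rw [hsb]; push_cast; rfl
      exact_mod_cast h3
    have h4 : |u| * u.den = |(u.num : ℚ)| := by
      rw [← Rat.mul_den_eq_num u, abs_mul, Nat.abs_cast]
    field_simp
    linear_combination (u.den : ℚ) * h4 - h1
  have hb : (b / u.den : ℚ) ≠ 0 := by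
    intro h0
    rw [h0] at hs
    exact hu (by simpa using hs)
  refine ⟨s.primeFactors, fun l hl => ?_, b / u.den, ?_⟩
  · have hp := Nat.prime_of_mem_primeFactors hl
    have := Fact.mk hp
    by_contra hd
    have h2 : padicValNat l s = 1 := by
      rw [← Nat.factorization_def _ hp]
      exact Nat.factorization_eq_one_of_squarefree hsq hp (Nat.dvd_of_mem_primeFactors hl)
    have h1 : padicValRat l |u| = padicValRat l u := by
      rcases abs_choice u with e | e <;> simp [e]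
    have h3 := h l hd
    rw [← h1, hs, padicValRat.mul (by exact_mod_cast hsq.ne_zero) (pow_ne_zero _ hb),
      padicValRat.of_nat, h2, padicValRat.pow, Int.even_iff] at h3
    push_cast at h3
    omega
  · have h1 : |(dsc s.primeFactors : ℚ)| = s := by
      have := abs_dsc s.primeFactors
      rw [← Nat.cast_prod, Nat.prod_primeFactors_of_squarefree hsq] at this
      exact_mod_cast this
    rw [← h1] at hs
    rcases abs_choice u with e | e <;> rcases abs_choice (dsc s.primeFactors : ℚ) with e' | e' <;>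
      rw [e, e'] at hs
    · left; exact hs
    · right; linear_combination hs
    · right; linear_combination -hs
    · left; linear_combination -hs

instance : Fact (Nat.Prime 17) := ⟨by norm_num⟩

theorem step1 {S : Finset ℕ} (hS : Prs S) {x y : ℚ} (hy : y ≠ 0) (hx : (x, y) ∈ Tw (dsc S)) :
    ∃ u v : ℚ, v ≠ 0 ∧ (u, v) ∈ Tw (dsc S) ∧ dl u = dl x ∧ Even (padicValRat 17 (u + 1)) := by
  by_cases he : Even (padicValRat 17 (x + 1))
  · exact ⟨x, y, hy, hx, rfl, he⟩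
  have hD : dsc S ≠ 0 := fun h0 => by have := dsc_mod hS; omega
  obtain ⟨x0, x1, x2⟩ := ne_of_tw hD hy hx
  have h3 := val_sum hS (l := 17) (fun h => (hS _ h).2.2.2 rfl) hy hx
  have h1 : (dsc S : ℚ) * y ^ 2 = x * (x + 1) * (x - 16) := hx
  have u1 : 16 * (x + 1) / (x - 16) + 1 = 17 * x / (x - 16) := by field_simp; ring
  have u2 : 16 * (x + 1) / (x - 16) - 16 = 272 / (x - 16) := by field_simp; ring
  refine ⟨16 * (x + 1) / (x - 16), 272 * y / (x - 16) ^ 2,
    div_ne_zero (mul_ne_zero (by norm_num) hy) (pow_ne_zero _ x2), ?_, ?_, ?_⟩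
  · show (dsc S : ℚ) * _ = 16 * (x + 1) / (x - 16) * (16 * (x + 1) / (x - 16) + 1) *
      (16 * (x + 1) / (x - 16) - 16)
    rw [u1, u2]
    field_simp
    linear_combination 272 * h1
  · unfold dl
    rw [u1, u2]
    field_simp
    ring
  · have v : padicValRat 17 (17 : ℚ) = 1 := padicValRat.self (p := 17) (by norm_num)
    rw [u1, padicValRat.div (mul_ne_zero (by norm_num) x0) x2, padicValRat.mul (by norm_num) x0, v]
    rw [Int.even_iff] at he ⊢
    omega

theorem step2 {S : Finset ℕ} (hS : Prs S) {x y : ℚ} (hy : y ≠ 0) (hx : (x, y) ∈ Tw (dsc S))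
    (he : Even (padicValRat 17 (x + 1))) :
    ∃ u v : ℚ, v ≠ 0 ∧ (u, v) ∈ Tw (dsc S) ∧ dl u = dl x ∧ Even (padicValRat 17 (u + 1)) ∧
      ∃ a ⊆ S, ∃ r : ℚ, (dsc S : ℚ) * u = dsc a * r ^ 2 := by
  have hD : dsc S ≠ 0 := fun h0 => by have := dsc_mod hS; omega
  obtain ⟨x0, x1, x2⟩ := ne_of_tw hD hy hx
  have hd : (dsc S : ℚ) ≠ 0 := Int.cast_ne_zero.2 hD
  obtain ⟨a, ha, r, hr | hr⟩ := rep (mul_ne_zero hd x0) S (fun l _ hl => by
    rw [padicValRat.mul hd x0, val_dsc hS hl, zero_add]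
    exact val_even hS hl hy hx)
  · exact ⟨x, y, hy, hx, rfl, he, a, ha, r, hr⟩
  have h3 := val_sum hS (l := 17) (fun h => (hS _ h).2.2.2 rfl) hy hx
  have h1 : (dsc S : ℚ) * y ^ 2 = x * (x + 1) * (x - 16) := hx
  have u1 : -16 / x + 1 = (x - 16) / x := by field_simp; ring
  have u2 : -16 / x - 16 = -16 * (x + 1) / x := by field_simp; ring
  refine ⟨-16 / x, 16 * y / x ^ 2,
    div_ne_zero (mul_ne_zero (by norm_num) hy) (pow_ne_zero _ x0), ?_, ?_, ?_, a, ha, 4 * r / x, ?_⟩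
  · show (dsc S : ℚ) * _ = -16 / x * (-16 / x + 1) * (-16 / x - 16)
    rw [u1, u2]
    field_simp
    linear_combination h1
  · unfold dl
    rw [u1, u2]
    field_simp
    ring
  · rw [u1, padicValRat.div x2 x0]
    rw [Int.even_iff] at he ⊢
    omega
  · field_simp
    linear_combination (-16) * hr

theorem zero_mem (S : Finset ℕ) : ((∅ : Finset ℕ), (∅ : Finset ℕ)) ∈ Ker S := by
  simp [Ker, ind]

end FinAux

open FinAux in
theorem fin (hD : DescStmt) : FinStmt := by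
  intro S hS hK
  have hD0 : dsc S ≠ 0 := fun h0 => by have := dsc_mod hS; omega
  let U : Set ℚ := {u | ∃ x y : ℚ, y ≠ 0 ∧ (x, y) ∈ Tw (dsc S) ∧ dl x = u}
  have key : ∀ u ∈ U, ∃ w ∈ U, dl w = u ∧ w * (w + 1) * (w - 16) ≠ 0 := by
    rintro _ ⟨x, y, hy, hx, rfl⟩
    obtain ⟨x1, y1, hy1, hx1, e1, he1⟩ := step1 hS hy hx
    obtain ⟨x2, y2, hy2, hx2, e2, he2, a, ha, r, hr⟩ := step2 hS hy1 hx1 he1
    obtain ⟨b, -, hb, r', hr'⟩ := hD S hS a ha x2 y2 r hy2 hx2 hr he2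
    have hab := Finset.card_le_one.1 hK.le _ hb _ (zero_mem S)
    obtain ⟨rfl, rfl⟩ := Prod.mk.inj hab
    obtain ⟨n0, n1, n2⟩ := ne_of_tw hD0 hy2 hx2
    exact ⟨x2, half hD0 hy2 hx2 (r := r) (s := r') (by simpa [dsc] using hr)
      (by simpa [dsc] using hr'), e2.trans e1, mul_ne_zero (mul_ne_zero n0 n1) n2⟩
  choose! s hs using key
  obtain ⟨C, hC⟩ := ht_dl
  have hU : U.Finite := fin_of_inj (C := C) s (fun u hu => (hs u hu).1)
    (fun u hu v hv e => by rw [← (hs u hu).2.1, e, (hs v hv).2.1])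
    (fun u hu => by have := hC _ (hs u hu).2.2; rwa [(hs u hu).2.1] at this)
  obtain ⟨R, hR⟩ := (hU.image (logHeight₁ : ℚ → ℝ)).bddAbove
  have hX : ({x : ℚ | logHeight₁ x ≤ (R - C) / 4} ∪ {0, -1, 16}).Finite :=
    (Northcott.finite_le _).union (Set.toFinite _)
  have hY : ∀ x : ℚ, {P : ℚ × ℚ | P ∈ Tw (dsc S) ∧ P.1 = x}.Finite := by
    intro x
    rcases Set.eq_empty_or_nonempty {P : ℚ × ℚ | P ∈ Tw (dsc S) ∧ P.1 = x} with
      h | ⟨⟨_, y⟩, hy, rfl⟩
    · rw [h]; exact Set.finite_empty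
    · rename_i x
      refine (Set.toFinite {(x, y), (x, -y)}).subset ?_
      rintro ⟨_, z⟩ ⟨hz, rfl⟩
      have h1 : (dsc S : ℚ) * z ^ 2 = dsc S * y ^ 2 := hz.trans (Eq.symm hy)
      rcases sq_eq_sq_iff_eq_or_eq_neg.1 (mul_left_cancel₀ (Int.cast_ne_zero.2 hD0) h1) with
        rfl | rfl <;> simp
  refine (hX.biUnion fun x _ => hY x).subset ?_
  rintro ⟨x, y⟩ hx
  simp only [Set.mem_iUnion]
  refine ⟨x, ?_, hx, rfl⟩
  by_cases hy : y = 0
  · right
    have h1 : (dsc S : ℚ) * y ^ 2 = x * (x + 1) * (x - 16) := hx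
    have h2 : x * (x + 1) * (x - 16) = 0 := by rw [← h1, hy]; ring
    rcases mul_eq_zero.1 h2 with h | h
    · rcases mul_eq_zero.1 h with h | h
      · simp [h]
      · simp [eq_neg_of_add_eq_zero_left h]
    · simp [sub_eq_zero.1 h]
  · left
    obtain ⟨n0, n1, n2⟩ := ne_of_tw hD0 hy hx
    have a1 := hC x (mul_ne_zero (mul_ne_zero n0 n1) n2)
    have a2 := hR ⟨dl x, ⟨x, y, hy, hx, rfl⟩, rfl⟩
    show logHeight₁ x ≤ _
    linarith

end Pool.Agent.Lib.MP_d6ddbd_nt.G
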