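import Pool.Agent.Lib.MP_d6ddbd_nt.G.Stmt
import Pool.Agent.Lib.MP_f64879_nt.LS

/-! Double oscillation of the Jacobi symbol, from the large sieve. -/

open Finset Pool.Agent.Lib.MP_164d34_nt.Fam

noncomputable section

namespace Pool.Agent.Lib.MP_d6ddbd_nt.G

namespace BilAux

theorem abs_jac (a : ℤ) (b : ℕ) : |(jacobiSym a b : ℝ)| ≤ 1 := by
  rcases jacobiSym.trichotomy a b with h | h | h <;> simp [h]

/-- The Jacobi symbol as a Dirichlet character. -/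
noncomputable def jc (k : ℕ) [NeZero k] : DirichletCharacter ℂ k where
  toFun x := (jacobiSym x.val k : ℂ)
  map_one' := by
    rw [ZMod.val_one_eq_one_mod, Int.natCast_mod, ← jacobiSym.mod_left]
    simp
  map_mul' x y := by
    rw [ZMod.val_mul, Int.natCast_mod, ← jacobiSym.mod_left, Nat.cast_mul, jacobiSym.mul_left,
      Int.cast_mul]
  map_nonunit' x hx := by
    rw [Int.cast_eq_zero, jacobiSym.eq_zero_iff_not_coprime, Int.gcd_natCast_natCast]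
    intro h
    apply hx
    rw [← ZMod.natCast_zmod_val x]
    exact (ZMod.isUnit_iff_coprime _ _).2 h

theorem jc_apply (k : ℕ) [NeZero k] (n : ℕ) : jc k n = (jacobiSym n k : ℂ) := by
  change ((jacobiSym (n : ZMod k).val k : ℤ) : ℂ) = _
  rw [ZMod.val_natCast, Int.natCast_mod, ← jacobiSym.mod_left]

theorem jc_prim (k : ℕ) [NeZero k] (h1 : Squarefree k) (h2 : Odd k) : (jc k).IsPrimitive := by
  by_contra h
  obtain ⟨e, he⟩ := (jc k).conductor_dvd_level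
  have e1 : e ≠ 1 := by
    rintro rfl
    exact h (by rw [DirichletCharacter.IsPrimitive]; omega)
  obtain ⟨p, hp, e', rfl⟩ := Nat.exists_prime_and_dvd e1
  have := Fact.mk hp
  set c := (jc k).conductor with hc
  have hk : k = p * (c * e') := by rw [he]; ring
  have k0 := NeZero.ne k
  have hco : p.Coprime (c * e') := Nat.coprime_of_squarefree_mul (hk ▸ h1)
  have p2 : p ≠ 2 := by
    rintro rfl
    exact (Nat.not_even_iff_odd.2 h2) ⟨c * e', by omega⟩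
  obtain ⟨a, ha⟩ := FiniteField.exists_nonsquare (F := ZMod p) (by rwa [ZMod.ringChar_zmod_n])
  obtain ⟨z, z1, z2⟩ := Nat.chineseRemainder hco a.val 1
  have j1 : jacobiSym z p = -1 := ZMod.nonsquare_iff_jacobiSym_eq_neg_one.2 (by
    rwa [Int.cast_natCast, (ZMod.natCast_eq_natCast_iff _ _ _).2 z1, ZMod.natCast_zmod_val])
  have j2 : jacobiSym z (c * e') = 1 := by
    rw [jacobiSym.mod_left' (a₂ := 1) (by exact_mod_cast z2), jacobiSym.one_left]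
  have j3 : jacobiSym z k = -1 := by
    rw [hk, jacobiSym.mul_right' _ hp.ne_zero (by rintro e; simp [e] at hk; omega), j1, j2, mul_one]
  have j4 : IsCoprime (z : ℤ) k := Int.isCoprime_iff_gcd_eq_one.2 (by
    by_contra e
    rw [jacobiSym.eq_zero_iff_not_coprime.2 e] at j3
    omega)
  have j5 := (jc k).primitiveCharacter_apply_of_isCoprime j4
  have j6 : (z : ZMod c) = 1 := by
    rw [(ZMod.natCast_eq_natCast_iff _ _ _).2 (z2.of_mul_right e'), Nat.cast_one]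
  rw [Int.cast_natCast, Int.cast_natCast, j6, map_one, jc_apply, j3] at j5
  norm_num at j5

theorem harm {N : ℕ} {T : ℝ} (h : (N : ℝ) ≤ T) (hT : 1 ≤ T) :
    ∑ a ∈ Icc 1 N, ((a : ℝ))⁻¹ ≤ 1 + Real.log T := by
  have h1 := harmonic_le_one_add_log N
  simp only [harmonic_eq_sum_Icc, Rat.cast_sum, Rat.cast_inv, Rat.cast_natCast] at h1
  refine h1.trans (add_le_add le_rfl ?_)
  rcases N.eq_zero_or_pos with rfl | h0
  · simpa using Real.log_nonneg hT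
  · exact Real.log_le_log (by exact_mod_cast h0) h

theorem card_hyp {M : ℕ} {T : ℝ} (h : (M : ℝ) ≤ T) (hT : 1 ≤ T) :
    (#{x ∈ Icc 1 M ×ˢ Icc 1 M | x.1 * x.2 ≤ M} : ℝ) ≤ M * (1 + Real.log T) := by
  rw [card_filter, sum_product]
  push_cast
  refine le_trans (sum_le_sum fun a ha => ?_) ((mul_sum _ _ _).ge.trans
    (mul_le_mul_of_nonneg_left (harm h hT) (Nat.cast_nonneg M)))
  have a0 := (mem_Icc.1 ha).1
  rw [sum_boole]
  have h1 : #{b ∈ Icc 1 M | a * b ≤ M} ≤ M / a := by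
    refine (card_le_card (t := Icc 1 (M / a)) fun b hb => ?_).trans (by simp)
    obtain ⟨h2, h3⟩ := mem_filter.1 hb
    exact mem_Icc.2 ⟨(mem_Icc.1 h2).1, (Nat.le_div_iff_mul_le a0).2 (by rwa [mul_comm])⟩
  exact (Nat.cast_le.2 h1).trans Nat.cast_div_le

theorem energy (M H : ℕ) :
    ∑ n ∈ range H, #{x ∈ Icc 1 M ×ˢ Icc 1 M | x.1 * x.2 = n} ^ 2 ≤
      #{x ∈ Icc 1 M ×ˢ Icc 1 M | x.1 * x.2 ≤ M} ^ 2 := by
  set P := Icc 1 M ×ˢ Icc 1 M with hP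
  have h1 : ∑ n ∈ range H, #{x ∈ P | x.1 * x.2 = n} ^ 2 =
      #{z ∈ P ×ˢ P | z.1.1 * z.1.2 = z.2.1 * z.2.2 ∧ z.1.1 * z.1.2 ∈ range H} := by
    rw [card_eq_sum_card_fiberwise (f := fun z => z.1.1 * z.1.2) (t := range H)
      (fun z hz => (mem_filter.1 hz).2.2)]
    refine sum_congr rfl fun n hn => ?_
    rw [pow_two, ← card_product]
    congr 1
    ext z
    simp only [mem_product, mem_filter]
    constructor
    · rintro ⟨⟨h1, h2⟩, h3, h4⟩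
      exact ⟨⟨⟨h1, h3⟩, h2.trans h4.symm, h2 ▸ hn⟩, h2⟩
    · rintro ⟨⟨⟨h1, h3⟩, h2, -⟩, h4⟩
      exact ⟨⟨h1, h4⟩, h3, h2 ▸ h4⟩
  rw [h1, pow_two, ← card_product]
  refine card_le_card_of_surjOn
    (fun z => ((z.1.1 * z.1.2, z.2.1 * z.2.2), (z.1.1 * z.2.1, z.1.2 * z.2.2))) ?_
  rintro ⟨⟨m1, m2⟩, m3, m4⟩ hz
  simp only [hP, coe_filter, mem_product, mem_Icc, Set.mem_ofPred_eq] at hz
  obtain ⟨⟨⟨⟨a1, b1⟩, a2, b2⟩, ⟨a3, b3⟩, a4, b4⟩, h2, -⟩ := hz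
  obtain ⟨a, b, ⟨c, rfl⟩, ⟨d, rfl⟩, rfl⟩ := exists_dvd_and_dvd_of_dvd_mul (Dvd.intro _ h2)
  obtain rfl : m2 = c * d := Nat.eq_of_mul_eq_mul_left a1 (by rw [h2]; ring)
  have a0 : 0 < a := Nat.pos_of_mul_pos_right a1
  have b0 : 0 < b := Nat.pos_of_mul_pos_left a1
  have c0 : 0 < c := Nat.pos_of_mul_pos_right a2
  have d0 : 0 < d := Nat.pos_of_mul_pos_left a2
  refine ⟨((a, b), (c, d)), ?_, rfl⟩
  simp only [hP, coe_product, coe_filter, mem_product, mem_Icc, Set.mem_prod, Set.mem_ofPred_eq]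
  exact ⟨⟨⟨⟨a0, (Nat.le_mul_of_pos_right a b0).trans b1⟩, b0,
    (Nat.le_mul_of_pos_left b a0).trans b1⟩, b1⟩, ⟨⟨c0, (Nat.le_mul_of_pos_right c d0).trans b2⟩,
    d0, (Nat.le_mul_of_pos_left d c0).trans b2⟩, b2⟩

/-- The inner sum. -/
noncomputable def A (α : ℕ → ℝ) (M k : ℕ) : ℝ := ∑ m ∈ Icc 1 M, α m * jacobiSym m k

theorem rect {α : ℕ → ℝ} (hα : ∀ m, |α m| ≤ 1) (s : Finset ℕ) {E M : ℕ} {T : ℝ}
    (hs : ∀ k ∈ s, Squarefree k ∧ Odd k ∧ k ≤ E) (h : (M : ℝ) ≤ T) (hT : 1 ≤ T) :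
    (∑ k ∈ s, |A α M k|) ^ 4 ≤
      (E : ℝ) ^ 3 * (22 * ((E : ℝ) ^ 2 + M ^ 2 + 2) * (M * (1 + Real.log T)) ^ 2) := by
  have hs' : s ⊆ Icc 1 E := fun k hk => mem_Icc.2 ⟨(hs k hk).2.1.pos, (hs k hk).2.2⟩
  have hc : (#s : ℝ) ≤ E := by exact_mod_cast (card_le_card hs').trans (by simp)
  set P := Icc 1 M ×ˢ Icc 1 M with hP
  let g : ℕ → ℝ := fun n => ∑ x ∈ P with x.1 * x.2 = n, α x.1 * α x.2
  have h1 : ∀ k, A α M k ^ 2 = ∑ n ∈ range (M ^ 2 + 1), g n * jacobiSym n k := fun k => by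
    rw [pow_two, A, sum_mul_sum, ← sum_product', ← sum_fiberwise_of_maps_to (g := fun x => x.1 * x.2)
      (t := range (M ^ 2 + 1)) fun x hx => by
        obtain ⟨h1, h2⟩ := mem_product.1 hx
        exact mem_range.2 (Nat.lt_succ_of_le (pow_two M ▸ Nat.mul_le_mul (mem_Icc.1 h1).2
          (mem_Icc.1 h2).2))]
    refine sum_congr rfl fun n _ => ?_
    rw [sum_mul]
    refine sum_congr rfl fun x hx => ?_
    rw [← (mem_filter.1 hx).2, Nat.cast_mul, jacobiSym.mul_left]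
    push_cast
    ring
  have h2 := MP_f64879_nt.ls_mul (fun n => (g n : ℂ)) (range (M ^ 2 + 1)) subset_rfl E
  have h3 : ∑ k ∈ s, |A α M k| ^ 4 ≤ ∑ f ∈ Icc 1 E, ∑ χ ∈ prim f,
      ‖∑ n ∈ range (M ^ 2 + 1), (g n : ℂ) * χ n‖ ^ 2 := by
    refine le_trans (sum_le_sum fun k hk => ?_) (sum_le_sum_of_subset_of_nonneg hs'
      fun _ _ _ => sum_nonneg fun _ _ => sq_nonneg _)
    have : NeZero k := ⟨(hs k hk).2.1.pos.ne'⟩
    refine le_trans (le_of_eq ?_) (single_le_sum (f := fun χ : DirichletCharacter ℂ k =>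
      ‖∑ n ∈ range (M ^ 2 + 1), (g n : ℂ) * χ n‖ ^ 2) (fun _ _ => sq_nonneg _)
      (g2_prim.2 (jc_prim k (hs k hk).1 (hs k hk).2.1)))
    have h4 : ∑ n ∈ range (M ^ 2 + 1), (g n : ℂ) * jc k n = ((A α M k ^ 2 : ℝ) : ℂ) := by
      rw [h1]
      push_cast
      exact sum_congr rfl fun n _ => by rw [jc_apply]
    rw [h4, Complex.norm_real, Real.norm_eq_abs, abs_pow, ← pow_mul]
  have h4 : ∑ n ∈ range (M ^ 2 + 1), ‖(g n : ℂ)‖ ^ 2 ≤ (M * (1 + Real.log T)) ^ 2 := by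
    refine le_trans (sum_le_sum (g := fun n => (#{x ∈ P | x.1 * x.2 = n} : ℝ) ^ 2) fun n _ => ?_)
      (le_trans ?_ (pow_le_pow_left₀ (Nat.cast_nonneg _) (card_hyp h hT) 2))
    · refine pow_le_pow_left₀ (norm_nonneg _) ?_ 2
      rw [Complex.norm_real, Real.norm_eq_abs]
      refine (abs_sum_le_sum_abs _ _).trans ((sum_le_card_nsmul _ _ 1 fun x _ => ?_).trans (by simp))
      rw [abs_mul]
      exact mul_le_one₀ (hα _) (abs_nonneg _) (hα _)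
    · exact_mod_cast energy M (M ^ 2 + 1)
  refine (pow_sum_le_card_mul_sum_pow (fun _ _ => abs_nonneg _) 3).trans
    (mul_le_mul (pow_le_pow_left₀ (Nat.cast_nonneg _) hc 3) (h3.trans (h2.trans ?_))
      (sum_nonneg fun _ _ => by positivity) (by positivity))
  push_cast
  exact mul_le_mul (le_of_eq (by ring)) h4 (sum_nonneg fun _ _ => sq_nonneg _) (by positivity)

theorem block {α : ℕ → ℝ} (hα : ∀ m, |α m| ≤ 1) (s : Finset ℕ) {T δ x : ℝ} (hT : 1 ≤ T)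
    (hδ : 0 < δ) (hx : 1 ≤ x)
    (hs : ∀ k ∈ s, Squarefree k ∧ Odd k ∧ 1 ≤ δ ^ 8 * k ∧ (k : ℝ) ^ 2 ≤ T ∧ x ≤ T / k ∧
      T / k ≤ 3 * x) :
    ∑ k ∈ s, |A α ⌊x⌋₊ k| ≤ 7 * T * δ ^ 2 * (1 + Real.log T) := by
  have hL : 1 ≤ 1 + Real.log T := le_add_of_nonneg_right (Real.log_nonneg hT)
  rcases s.eq_empty_or_nonempty with rfl | ⟨k, hk⟩
  · rw [sum_empty]
    positivity
  obtain ⟨-, k1, k2, k3, k4, k5⟩ := hs k hk
  have k0 : (1 : ℝ) ≤ k := by exact_mod_cast k1.pos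
  have x0 : 0 < x := by linarith
  have hM : (⌊x⌋₊ : ℝ) ≤ x := Nat.floor_le x0.le
  have h1 := rect hα s (E := ⌊T / x⌋₊) (M := ⌊x⌋₊) (T := T) (fun j hj => by
    obtain ⟨j1, j2, -, -, j3, -⟩ := hs j hj
    have j0 : (0 : ℝ) < j := by exact_mod_cast j2.pos
    refine ⟨j1, j2, Nat.le_floor ?_⟩
    rw [le_div_iff₀ j0] at j3
    rw [le_div_iff₀ x0]
    linarith) (hM.trans (k4.trans (div_le_self (by linarith) k0))) hT
  obtain ⟨K, hK⟩ : ∃ K, K = T / x := ⟨_, rfl⟩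
  have hT' : T = K * x := by rw [hK]; field_simp
  rw [← hK] at h1
  rw [le_div_iff₀ (by linarith)] at k4
  rw [div_le_iff₀ (by linarith)] at k5
  have K1 : (k : ℝ) ≤ K := le_of_mul_le_mul_right (by linarith) x0
  have K2 : K ≤ 3 * k := le_of_mul_le_mul_right (by linarith) x0
  have K3 : (k : ℝ) ≤ 3 * x := le_of_mul_le_mul_right (by nlinarith) (show (0 : ℝ) < k by linarith)
  have K0 : 0 ≤ K := by linarith
  have hE : (⌊K⌋₊ : ℝ) ≤ K := Nat.floor_le K0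
  have K4 : 1 ≤ δ ^ 8 * K := k2.trans (mul_le_mul_of_nonneg_left K1 (by positivity))
  refine le_of_pow_le_pow_left₀ four_ne_zero (by positivity) (h1.trans ?_)
  set L := 1 + Real.log T
  have h2 : (⌊K⌋₊ : ℝ) ^ 2 + (⌊x⌋₊ : ℝ) ^ 2 + 2 ≤ 84 * x ^ 2 := by
    have e1 : (⌊K⌋₊ : ℝ) ^ 2 ≤ (9 * x) ^ 2 := by
      gcongr
      linarith
    have e2 : (⌊x⌋₊ : ℝ) ^ 2 ≤ x ^ 2 := by gcongr
    nlinarith
  calc _ ≤ K ^ 3 * (22 * (84 * x ^ 2) * (x * L) ^ 2) := by gcongr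
    _ = 1848 * (K ^ 3 * x ^ 4) * 1 * L ^ 2 * 1 := by ring
    _ ≤ 2401 * (K ^ 3 * x ^ 4) * (δ ^ 8 * K) * L ^ 2 * L ^ 2 := by
      gcongr
      · norm_num
      · exact one_le_pow₀ hL
    _ = _ := by rw [hT']; ring

/-- The sum over the hyperbolic region. -/
noncomputable def F (α β : ℕ → ℝ) (T : ℝ) : ℝ :=
  ∑ k ∈ Icc 1 ⌊T⌋₊, ∑ m ∈ Icc 1 ⌊T⌋₊,
    if ((m * k : ℕ) : ℝ) ≤ T then α m * β k * jacobiSym m k else 0

theorem A_sub {α : ℕ → ℝ} (hα : ∀ m, |α m| ≤ 1) {M N : ℕ} (h : M ≤ N) (k : ℕ) :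
    |A α N k| ≤ |A α M k| + (N - M) := by
  induction N, h using Nat.le_induction with
  | base => simp
  | succ N h ih =>
    rw [A, sum_Icc_succ_top (by omega), ← A]
    have h1 : |α (N + 1) * (jacobiSym ((N + 1 : ℕ) : ℤ) k : ℝ)| ≤ 1 := by
      rw [abs_mul]
      exact mul_le_one₀ (hα _) (abs_nonneg _) (abs_jac _ _)
    refine (abs_add_le _ _).trans ?_
    push_cast at h1 ⊢
    linarith

theorem core {α β : ℕ → ℝ} {T δ : ℝ} (hT : 2 ≤ T) (hδ : 0 < δ) (hδ1 : δ ≤ 1)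
    (hα : ∀ m, |α m| ≤ 1) (hβ : ∀ k, |β k| ≤ 1)
    (hs : ∀ k, β k ≠ 0 → Squarefree k ∧ Odd k ∧ 1 ≤ δ ^ 8 * k ∧ (k : ℝ) ^ 2 ≤ T) :
    |F α β T| ≤ 75 * (δ * T * Real.log T ^ 2) := by
  have T1 : 1 ≤ T := by linarith
  have hl : 1 / 2 ≤ Real.log T :=
    le_trans (by linarith [Real.log_two_gt_d9]) (Real.log_le_log two_pos hT)
  set s := {k ∈ Icc 1 ⌊T⌋₊ | β k ≠ 0} with hs'
  have h1 : F α β T = ∑ k ∈ s, β k * A α ⌊T / k⌋₊ k := by
    rw [F, hs', sum_filter]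
    refine sum_congr rfl fun k hk => ?_
    have k0 : (1 : ℝ) ≤ k := by exact_mod_cast (mem_Icc.1 hk).1
    by_cases h0 : β k = 0
    · simp [h0]
    rw [if_pos h0, ← sum_filter, A, mul_sum]
    refine sum_congr ?_ fun m _ => by ring
    ext m
    simp only [mem_filter, mem_Icc]
    rw [Nat.le_floor_iff (by positivity), Nat.le_floor_iff (by positivity),
      le_div_iff₀ (by linarith), Nat.cast_mul]
    exact ⟨fun h => ⟨h.1.1, h.2⟩, fun h => ⟨⟨h.1, le_trans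
      (le_mul_of_one_le_right (Nat.cast_nonneg _) k0) h.2⟩, h.2⟩⟩
  let u : ℕ → ℕ := fun k => ⌊Real.log (T / k) / δ⌋₊
  have h2 : ∀ k ∈ s, (1 : ℝ) ≤ k ∧ (k : ℝ) ≤ T / k ∧ Real.exp (δ * u k) ≤ T / k ∧
      T / k ≤ Real.exp (δ * u k) * Real.exp δ := fun k hk => by
    obtain ⟨k1, k2⟩ := mem_filter.1 hk
    have k0 : (1 : ℝ) ≤ k := by exact_mod_cast (mem_Icc.1 k1).1
    have k3 : (k : ℝ) ≤ T / k := by
      rw [le_div_iff₀ (by linarith), ← pow_two]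
      exact (hs k k2).2.2.2
    have k4 : 0 ≤ Real.log (T / k) := Real.log_nonneg (k0.trans k3)
    have k5 := Nat.floor_le (div_nonneg k4 hδ.le)
    have k6 := (Nat.lt_floor_add_one (Real.log (T / k) / δ)).le
    rw [le_div_iff₀ hδ] at k5
    rw [div_le_iff₀ hδ] at k6
    refine ⟨k0, k3, ?_, ?_⟩
    · rw [← Real.le_log_iff_exp_le (by linarith)]
      linarith
    · rw [← Real.exp_add, ← Real.log_le_iff_le_exp (by linarith)]
      linarith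
  have h3 : ∀ k ∈ s, |β k * A α ⌊T / k⌋₊ k| ≤
      |A α ⌊Real.exp (δ * u k)⌋₊ k| + 2 * δ * T * (k : ℝ)⁻¹ := fun k hk => by
    obtain ⟨k0, k1, k2, k3⟩ := h2 k hk
    rw [abs_mul]
    refine (mul_le_of_le_one_left (abs_nonneg _) (hβ k)).trans
      ((A_sub hα (Nat.floor_mono k2) k).trans (add_le_add le_rfl ?_))
    have k4 : (⌊T / k⌋₊ : ℝ) ≤ T / k := Nat.floor_le (by positivity)
    have k5 := (Nat.lt_floor_add_one (Real.exp (δ * u k))).le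
    have k6 : 1 ≤ δ * k := (hs k (mem_filter.1 hk).2).2.2.1.trans
      (mul_le_mul_of_nonneg_right (pow_le_of_le_one hδ.le hδ1 (by norm_num)) (by positivity))
    have k7 : δ * k ≤ δ * (T / k) := by gcongr
    have k8 : T / k * (1 - δ) ≤ Real.exp (δ * u k) := by
      have e1 : 1 - δ ≤ Real.exp (-δ) := by linarith [Real.add_one_le_exp (-δ)]
      refine (mul_le_mul_of_nonneg_left e1 (by positivity)).trans ?_
      rw [Real.exp_neg, ← div_eq_mul_inv, div_le_iff₀ (Real.exp_pos _)]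
      exact k3
    rw [mul_assoc (2 * δ), ← div_eq_mul_inv]
    linarith
  have h4 : ∑ k ∈ s, (k : ℝ)⁻¹ ≤ 1 + Real.log T :=
    (sum_le_sum_of_subset_of_nonneg (filter_subset _ _) fun _ _ _ => by positivity).trans
      (harm (Nat.floor_le (by linarith)) T1)
  have h5 : ∑ k ∈ s, |A α ⌊Real.exp (δ * u k)⌋₊ k| ≤
      (⌊Real.log T / δ⌋₊ + 1 : ℕ) * (7 * T * δ ^ 2 * (1 + Real.log T)) := by
    rw [← sum_fiberwise_of_maps_to (g := u) (t := range (⌊Real.log T / δ⌋₊ + 1)) fun k hk => by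
      obtain ⟨k0, k1, -⟩ := h2 k hk
      refine mem_range.2 (Nat.lt_succ_of_le (Nat.floor_mono ?_))
      gcongr
      exact div_le_self (by linarith) k0]
    refine (sum_le_card_nsmul _ _ _ fun v _ => ?_).trans (by rw [card_range, nsmul_eq_mul])
    rw [sum_congr rfl (g := fun k => |A α ⌊Real.exp (δ * v)⌋₊ k|) fun k hk => by
      rw [(mem_filter.1 hk).2]]
    refine block hα _ T1 hδ (Real.one_le_exp (by positivity)) fun k hk => ?_
    obtain ⟨k1, rfl⟩ := mem_filter.1 hk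
    obtain ⟨-, -, k2, k3⟩ := h2 k k1
    obtain ⟨j1, j2, j3, j4⟩ := hs k (mem_filter.1 k1).2
    refine ⟨j1, j2, j3, j4, k2, k3.trans ?_⟩
    rw [mul_comm]
    gcongr
    exact (Real.exp_le_exp.2 hδ1).trans (by linarith [Real.exp_one_lt_d9])
  have h6 : ((⌊Real.log T / δ⌋₊ + 1 : ℕ) : ℝ) ≤ 3 * Real.log T / δ := by
    have e1 : (⌊Real.log T / δ⌋₊ : ℝ) ≤ Real.log T / δ := Nat.floor_le (by positivity)
    have e2 : Real.log T ≤ Real.log T / δ := le_div_self (by linarith) hδ hδ1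
    push_cast
    rw [mul_div_assoc]
    linarith
  rw [h1]
  refine (abs_sum_le_sum_abs _ _).trans ((sum_le_sum h3).trans ?_)
  rw [sum_add_distrib, ← mul_sum]
  have h7 : 1 + Real.log T ≤ 3 * Real.log T := by linarith
  have h8 : 1 + Real.log T ≤ 6 * Real.log T ^ 2 := by nlinarith
  calc _ ≤ 3 * Real.log T / δ * (7 * T * δ ^ 2 * (3 * Real.log T)) +
        2 * δ * T * (6 * Real.log T ^ 2) := by
        refine add_le_add (h5.trans ?_) (mul_le_mul_of_nonneg_left (h4.trans h8) (by positivity))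
        gcongr
    _ = _ := by
      field_simp
      ring

/-- The character modulo four. -/
noncomputable def c4 (n : ℕ) : ℝ := if n % 4 = 3 then -1 else 1

theorem recip {m k : ℕ} (hm : Odd m) (hk : Odd k) :
    (jacobiSym m k : ℝ) = (1 + c4 m + c4 k - c4 m * c4 k) / 2 * jacobiSym k m := by
  rw [← jacobiSym.quadratic_reciprocity_if (Nat.odd_iff.1 hm) (Nat.odd_iff.1 hk), c4, c4]
  by_cases h1 : m % 4 = 3 <;> by_cases h2 : k % 4 = 3 <;> simp [h1, h2] <;> ring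

theorem abs_c4 {α : ℕ → ℝ} (hα : ∀ m, |α m| ≤ 1) (m : ℕ) : |α m * c4 m| ≤ 1 := by
  rw [c4]
  split_ifs <;> simpa using hα m

end BilAux

open BilAux in
theorem bil : BilStmt := by
  refine ⟨225, by norm_num, fun α β T Y hY hT hα hβ sα sβ => ?_⟩
  obtain ⟨δ, hδ⟩ : ∃ δ, δ = (Y ^ (1 / 8 : ℝ))⁻¹ := ⟨_, rfl⟩
  have Y1 : 1 ≤ Y ^ (1 / 8 : ℝ) := Real.one_le_rpow (by linarith) (by norm_num)
  have d0 : 0 < δ := by rw [hδ]; positivity
  have d1 : δ ≤ 1 := hδ ▸ inv_le_one_of_one_le₀ Y1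
  have d8 : ∀ k : ℕ, Y < k → 1 ≤ δ ^ 8 * k := fun k hk => by
    have e : (Y ^ (1 / 8 : ℝ)) ^ 8 = Y := by
      rw [← Real.rpow_natCast, ← Real.rpow_mul (by linarith)]
      norm_num
    rw [hδ, inv_pow, e, ← div_eq_inv_mul, le_div_iff₀ (by linarith)]
    linarith
  let α₁ : ℕ → ℝ := fun m => if (m : ℝ) ^ 2 ≤ T then α m else 0
  let β₁ : ℕ → ℝ := fun m => if (m : ℝ) ^ 2 ≤ T then β m else 0
  let β₂ : ℕ → ℝ := fun m => if (m : ℝ) ^ 2 ≤ T then 0 else β m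
  have a1 : ∀ m, |α₁ m| ≤ 1 := fun m => by
    simp only [α₁]
    split_ifs <;> simp [hα]
  have b1 : ∀ m, |β₁ m| ≤ 1 := fun m => by
    simp only [β₁]
    split_ifs <;> simp [hβ]
  have b2 : ∀ m, |β₂ m| ≤ 1 := fun m => by
    simp only [β₂]
    split_ifs <;> simp [hβ]
  have cut : ∀ γ : ℕ → ℝ, (∀ m, γ m ≠ 0 → Squarefree m ∧ Odd m ∧ Y < m) → ∀ m : ℕ,
      (if (m : ℝ) ^ 2 ≤ T then γ m else 0) ≠ 0 →
      Squarefree m ∧ Odd m ∧ 1 ≤ δ ^ 8 * m ∧ (m : ℝ) ^ 2 ≤ T := fun γ h m hm => by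
    split_ifs at hm with h1
    · exact ⟨(h m hm).1, (h m hm).2.1, d8 m (h m hm).2.2, h1⟩
    · exact absurd rfl hm
  have s2 : ∀ m, α₁ m * c4 m ≠ 0 → Squarefree m ∧ Odd m ∧ 1 ≤ δ ^ 8 * m ∧ (m : ℝ) ^ 2 ≤ T :=
    fun m hm => cut α sα m (left_ne_zero_of_mul hm)
  have c0 := abs_le.1 (core hT d0 d1 hα b1 (cut β sβ))
  have c1 := abs_le.1 (core hT d0 d1 b2 a1 (cut α sα))
  have c2 := abs_le.1 (core hT d0 d1 b2 (abs_c4 a1) s2)
  have c3 := abs_le.1 (core hT d0 d1 (abs_c4 b2) a1 (cut α sα))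
  have c5 := abs_le.1 (core hT d0 d1 (abs_c4 b2) (abs_c4 a1) s2)
  have key : ∑ m ∈ Icc 1 ⌊T⌋₊, ∑ k ∈ Icc 1 ⌊T⌋₊ with ((m * k : ℕ) : ℝ) ≤ T,
      α m * β k * jacobiSym m k = F α β₁ T + (F β₂ α₁ T + F β₂ (fun m => α₁ m * c4 m) T +
        F (fun m => β₂ m * c4 m) α₁ T - F (fun m => β₂ m * c4 m) (fun m => α₁ m * c4 m) T) / 2 := by
    rw [F, sum_comm]
    simp only [F, ← sum_add_distrib, ← sum_sub_distrib, sum_div, sum_filter]
    refine sum_congr rfl fun m hm => sum_congr rfl fun k hk => ?_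
    rw [mul_comm k m]
    split_ifs with h
    · by_cases h1 : (k : ℝ) ^ 2 ≤ T
      · simp [β₁, β₂, h1]
      have k0 : (0 : ℝ) ≤ k := Nat.cast_nonneg k
      have m0 : (0 : ℝ) ≤ m := Nat.cast_nonneg m
      have h2 : (m : ℝ) ^ 2 ≤ T := by
        push_cast at h
        by_contra h3
        nlinarith [mul_self_nonneg ((m : ℝ) - k), mul_nonneg m0 k0]
      simp only [α₁, β₁, β₂, h1, h2, if_true, if_false]
      by_cases e1 : α m = 0
      · simp [e1]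
      by_cases e2 : β k = 0
      · simp [e2]
      rw [recip (sα m e1).2.1 (sβ k e2).2.1]
      ring
    · simp
  have e : 225 * T * Real.log T ^ 2 / Y ^ (1 / 8 : ℝ) = 225 * (δ * T * Real.log T ^ 2) := by
    rw [hδ]
    ring
  rw [key, e, abs_le]
  constructor <;> linarith [c0.1, c0.2, c1.1, c1.2, c2.1, c2.2, c3.1, c3.2, c5.1, c5.2]

end Pool.Agent.Lib.MP_d6ddbd_nt.G
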