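import Pool.Agent.Lib.MP_d6ddbd_nt.G.MStmt

/-! Tuples of coprime squarefree numbers and labellings of the primes of their product. -/

open Finset

noncomputable section

namespace Pool.Agent.Lib.MP_d6ddbd_nt.G

namespace Brg

variable {V : Type} [Fintype V] [LinearOrder V]

/-- The primes with the label `u`. -/
noncomputable def fb (S : Finset ℕ) (f : S → V) (u : V) : Finset ℕ :=
  (univ.filter fun p => f p = u).map (Function.Embedding.subtype _)

/-- The product of the primes with the label `u`. -/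
noncomputable def nf (S : Finset ℕ) (f : S → V) (u : V) : ℕ := ∏ p ∈ fb S f u, p

omit [Fintype V] in
theorem mem_fb {S : Finset ℕ} {f : S → V} {u : V} {p : ℕ} :
    p ∈ fb S f u ↔ ∃ h : p ∈ S, f ⟨p, h⟩ = u := by
  simp [fb]

omit [Fintype V] in
theorem pf_nf {S : Finset ℕ} (hS : ∀ p ∈ S, p.Prime) (f : S → V) (u : V) :
    (nf S f u).primeFactors = fb S f u :=
  Nat.primeFactors_prod fun p hp => hS p (mem_fb.1 hp).1

theorem sum_fb {M : Type} [AddCommMonoid M] (S : Finset ℕ) (f : S → V) (g : ℕ → V → M) :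
    ∑ u, ∑ p ∈ fb S f u, g p u = ∑ p : S, g p (f p) := by
  rw [← Finset.sum_fiberwise univ f]
  refine sum_congr rfl fun u _ => ?_
  rw [fb, sum_map]
  exact sum_congr rfl fun p hp => by rw [(mem_filter.1 hp).2]; rfl

theorem prod_nf (S : Finset ℕ) (f : S → V) : ∏ u, nf S f u = ∏ p ∈ S, p := by
  rw [← Finset.prod_coe_sort S, ← Finset.prod_fiberwise univ f]
  refine prod_congr rfl fun u _ => ?_
  rw [nf, fb, prod_map]
  rfl

omit [Fintype V] in
theorem ok_nf {S : Finset ℕ} (hS : Prs S) (f : S → V) : Ok (nf S f) := by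
  have hp : ∀ p ∈ S, p.Prime := fun p h => (hS p h).1
  refine ⟨fun u => ⟨?_, fun p h => ?_⟩, fun u v huv => ?_⟩
  · refine Finset.squarefree_prod_of_pairwise_isCoprime (fun p h q h' hpq => ?_) fun p h => ?_
    · exact Nat.coprime_iff_isRelPrime.1
        ((Nat.coprime_primes (hp p (mem_fb.1 h).1) (hp q (mem_fb.1 h').1)).2 hpq)
    · exact (hp p (mem_fb.1 h).1).squarefree
  · rw [pf_nf hp] at h
    exact hS p (mem_fb.1 h).1
  · refine Nat.Coprime.prod_left fun p h => Nat.Coprime.prod_right fun q h' => ?_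
    obtain ⟨h1, e1⟩ := mem_fb.1 h
    obtain ⟨h2, e2⟩ := mem_fb.1 h'
    refine (Nat.coprime_primes (hp p h1) (hp q h2)).2 fun e => huv ?_
    subst e
    rw [← e1, ← e2]

theorem gg_nf (ψ : V → V → ZMod 2) (l₁ l₂ : V → ZMod 2) {S : Finset ℕ} (hS : Prs S) (f : S → V) :
    GG ψ l₁ l₂ (nf S f) = ((4 : ℝ) ^ S.card)⁻¹ * (sg (Ph ψ l₁ l₂ S f) : ℝ) := by
  have hp : ∀ p ∈ S, p.Prime := fun p h => (hS p h).1
  have h1 : ∑ u, (nf S f u).primeFactors.card = S.card := by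
    simp only [pf_nf hp, card_eq_sum_ones]
    rw [sum_fb S f fun _ _ => 1, Finset.sum_coe_sort S fun _ => 1]
  have h2 : ∑ u, ∑ v, AL (nf S f u) (nf S f v) * ψ u v =
      ∑ p : S, ∑ q : S, al p q * ψ (f p) (f q) := by
    simp only [AL, pf_nf hp, sum_mul]
    rw [← sum_fb S f fun p u => ∑ q : S, al p q * ψ u (f q)]
    refine sum_congr rfl fun u _ => ?_
    rw [sum_comm]
    exact sum_congr rfl fun p _ => sum_fb S f fun q v => al p q * ψ u v
  have h3 : ∑ u, (EP (nf S f u) * l₁ u + GA (nf S f u) * l₂ u) =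
      ∑ p : S, (ep p * l₁ (f p) + ga p * l₂ (f p)) := by
    simp only [EP, GA, pf_nf hp, sum_mul, ← sum_add_distrib]
    exact sum_fb S f fun p u => ep p * l₁ u + ga p * l₂ u
  rw [GG, if_pos (ok_nf hS f), h1, h2, h3, Ph]

omit [LinearOrder V] in
theorem sq_prod {N : V → ℕ} (h : Ok N) :
    Squarefree (∏ u, N u) ∧ Prs (∏ u, N u).primeFactors := by
  refine ⟨Finset.squarefree_prod_of_pairwise_isCoprime
    (fun u _ v _ huv => Nat.coprime_iff_isRelPrime.1 (h.2 u v huv)) fun u _ => (h.1 u).1,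
    fun p hp => ?_⟩
  have h1 := Nat.prime_of_mem_primeFactors hp
  obtain ⟨u, -, hu⟩ := (Prime.dvd_finsetProd_iff h1.prime _).1 (Nat.dvd_of_mem_primeFactors hp)
  exact (h.1 u).2 p (Nat.mem_primeFactors.2 ⟨h1, hu, (h.1 u).1.ne_zero⟩)

theorem ex_nf {N : V → ℕ} (h : Ok N) {n : ℕ} (hn : ∏ u, N u = n) :
    ∃ f : n.primeFactors → V, nf _ f = N := by
  have h0 : ∀ p : n.primeFactors, ∃ u, (p : ℕ) ∣ N u := fun p => by
    have h1 := Nat.prime_of_mem_primeFactors p.2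
    have h2 := Nat.dvd_of_mem_primeFactors p.2
    obtain ⟨u, -, hu⟩ := (Prime.dvd_finsetProd_iff h1.prime _).1 (h2.trans hn.symm.dvd)
    exact ⟨u, hu⟩
  choose f hf using h0
  refine ⟨f, funext fun u => ?_⟩
  rw [nf, ← Nat.prod_primeFactors_of_squarefree (h.1 u).1]
  refine prod_congr ?_ fun _ _ => rfl
  ext p
  rw [mem_fb]
  constructor
  · rintro ⟨h1, rfl⟩
    exact Nat.mem_primeFactors.2 ⟨Nat.prime_of_mem_primeFactors h1, hf ⟨p, h1⟩, (h.1 _).1.ne_zero⟩
  · intro hp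
    have h1 := Nat.prime_of_mem_primeFactors hp
    have h2 := Nat.dvd_of_mem_primeFactors hp
    have h3 : p ∈ n.primeFactors := Nat.mem_primeFactors.2
      ⟨h1, hn ▸ h2.trans (dvd_prod_of_mem N (mem_univ u)), hn ▸ (sq_prod h).1.ne_zero⟩
    refine ⟨h3, ?_⟩
    by_contra hne
    exact h1.one_lt.ne' (Nat.eq_one_of_dvd_coprimes (h.2 _ _ hne) (hf ⟨p, h3⟩) h2)

end Brg

open Brg in
theorem bridge : BridgeStmt := by
  classical
  intro V _ _ ψ l₁ l₂ W X
  have e1 : SS ψ l₁ l₂ X (tW W X) =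
      ∑ N ∈ (Fintype.piFinset (tW W X)).filter (fun N => ∏ u, N u ≤ X ∧ Ok N), GG ψ l₁ l₂ N := by
    rw [SS, ← filter_filter, sum_filter (p := fun N => Ok N)]
    refine sum_congr rfl fun N _ => ?_
    split_ifs with h
    · rfl
    · rw [GG, if_neg h]
  have hm : ∀ N ∈ (Fintype.piFinset (tW W X)).filter (fun N => ∏ u, N u ≤ X ∧ Ok N),
      ∏ u, N u ∈ Sq X := fun N hN => by
    obtain ⟨-, h1, h2⟩ := mem_filter.1 hN
    have h3 := sq_prod h2
    simp only [Sq, mem_filter, mem_Icc]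
    exact ⟨⟨Nat.pos_of_ne_zero h3.1.ne_zero, h1⟩, h3⟩
  rw [e1, ← sum_fiberwise_of_maps_to hm]
  refine sum_congr rfl fun n hn => ?_
  simp only [Sq, mem_filter, mem_Icc] at hn
  obtain ⟨⟨-, hX⟩, hsq, hP⟩ := hn
  have hp : ∀ p ∈ n.primeFactors, p.Prime := fun p h => (hP p h).1
  have hpr : ∀ f : n.primeFactors → V, ∏ u, nf _ f u = n := fun f => by
    rw [prod_nf, Nat.prod_primeFactors_of_squarefree hsq]
  rw [TT, mul_sum]
  symm
  refine sum_bij (fun f _ => nf _ f) (fun f hf => ?_) (fun f _ g _ e => ?_) (fun N hN => ?_)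
    fun f _ => (gg_nf ψ l₁ l₂ hP f).symm
  · rw [Fintype.mem_piFinset] at hf
    refine mem_filter.2 ⟨mem_filter.2 ⟨Fintype.mem_piFinset.2 fun u => ?_,
      (hpr f).le.trans hX, ok_nf hP f⟩, hpr f⟩
    have h1 : nf _ f u ∣ n := (dvd_prod_of_mem _ (mem_univ u)).trans (hpr f).dvd
    rw [tW]
    split_ifs with hu
    · exact mem_Icc.2 ⟨Nat.pos_of_ne_zero (ne_zero_of_dvd_ne_zero hsq.ne_zero h1),
        (Nat.le_of_dvd (Nat.pos_of_ne_zero hsq.ne_zero) h1).trans hX⟩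
    · refine mem_singleton.2 (prod_eq_one fun p h => ?_)
      obtain ⟨h2, rfl⟩ := mem_fb.1 h
      exact absurd (hf _) hu
  · funext p
    have h1 : (p : ℕ) ∈ fb _ g (f p) := by
      rw [← pf_nf hp, ← e, pf_nf hp]
      exact mem_fb.2 ⟨p.2, rfl⟩
    exact (mem_fb.1 h1).2.symm
  · obtain ⟨h1, h2⟩ := mem_filter.1 hN
    obtain ⟨h3, -, h4⟩ := mem_filter.1 h1
    obtain ⟨f, rfl⟩ := ex_nf h4 h2
    refine ⟨f, Fintype.mem_piFinset.2 fun p => ?_, rfl⟩
    by_contra hu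
    have h5 := Fintype.mem_piFinset.1 h3 (f p)
    rw [tW, if_neg hu, mem_singleton] at h5
    have h6 : (p : ℕ) ∈ (nf _ f (f p)).primeFactors := by
      rw [pf_nf hp]
      exact mem_fb.2 ⟨p.2, rfl⟩
    rw [h5] at h6
    simp at h6

end Pool.Agent.Lib.MP_d6ddbd_nt.G
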