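import Pool.Agent.Lib.MP_d6ddbd_nt.G.Stmt

/-! Reciprocity, easy facts on the kernel, and the auxiliary prime. -/

open Finset

namespace Pool.Agent.Lib.MP_d6ddbd_nt.G

namespace KerAux

theorem odd_cases {p : ℕ} (hp : Odd p) : p % 4 = 1 ∨ p % 4 = 3 := by
  obtain ⟨k, rfl⟩ := hp; omega

theorem jac_ps {p q : ℕ} (hp : Odd p) (hq : Odd q) : jacobiSym (ps q) p = jacobiSym p q := by
  unfold ps
  rcases odd_cases hq with h | h
  · rw [if_neg (by omega), jacobiSym.quadratic_reciprocity_one_mod_four h hp]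
  · rw [if_pos h, jacobiSym.neg _ hp]
    rcases odd_cases hp with h' | h'
    · rw [ZMod.χ₄_nat_one_mod_four h', one_mul, jacobiSym.quadratic_reciprocity_one_mod_four' hq h']
    · rw [ZMod.χ₄_nat_three_mod_four h', jacobiSym.quadratic_reciprocity_three_mod_four h h']
      ring

theorem al_eq {p q : ℕ} (hp : Odd p) (hq : Odd q) :
    al p q = if jacobiSym p q = -1 then 1 else 0 := by rw [al, jac_ps hp hq]

theorem add_self (x : ZMod 2) : x + x = 0 := by revert x; decide

theorem mul_self (x : ZMod 2) : x * x = x := by revert x; decide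

theorem eq_one {x : ZMod 2} (h : x ≠ 0) : x = 1 := by revert x; decide

theorem eq_of_add {x y : ZMod 2} (h : x + y = 0) : x = y := by revert x y; decide

theorem mem_ker {S : Finset ℕ} {x : Finset ℕ × Finset ℕ} :
    x ∈ Ker S ↔ x.1 ⊆ S ∧ x.2 ⊆ S ∧ Sys S (ind x.1) (ind x.2) := by
  simp only [Ker, Sys, mem_filter, mem_product, mem_powerset, and_assoc]

theorem ind_empty (p : ℕ) : ind ∅ p = 0 := by simp [ind]

theorem zero_mem (S : Finset ℕ) : (∅, ∅) ∈ Ker S :=
  mem_ker.2 ⟨empty_subset _, empty_subset _, fun p _ => by simp [ind_empty]⟩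

theorem exists_other {S : Finset ℕ} (h : (Ker S).card = 2) :
    ∃ x, x ≠ (∅, ∅) ∧ Ker S = {(∅, ∅), x} := by
  obtain ⟨x, y, hxy, e⟩ := card_eq_two.1 h
  have := zero_mem S
  rw [e, mem_insert, mem_singleton] at this
  rcases this with h | h
  · exact ⟨y, h ▸ hxy.symm, by rw [e, h]⟩
  · exact ⟨x, h ▸ hxy, by rw [e, h, pair_comm]⟩

theorem transp (T : Finset ℕ) (M : ℕ → ℕ → ZMod 2)
    (h : ∀ b : ℕ → ZMod 2, (∀ p ∈ T, ∑ q ∈ T, M p q * b q = 0) → ∀ p ∈ T, b p = 0)
    (b : ℕ → ZMod 2) (hb : ∀ p ∈ T, ∑ q ∈ T, M q p * b q = 0) : ∀ p ∈ T, b p = 0 := by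
  let A : Matrix T T (ZMod 2) := Matrix.of fun p q => M p q
  have h1 : Function.Injective A.mulVec := by
    refine (injective_iff_map_eq_zero A.mulVecLin).2 fun v hv => funext fun p => ?_
    have := h (fun n => if hn : n ∈ T then v ⟨n, hn⟩ else 0) (fun r hr => ?_) p p.2
    · simpa using this
    · rw [← sum_coe_sort]
      simpa [A, Matrix.mulVec, dotProduct] using congrFun hv ⟨r, hr⟩
  have h2 := Matrix.vecMul_injective_iff_isUnit.2 (Matrix.mulVec_injective_iff_isUnit.1 h1)
  have h3 : (fun q : T => b q) = 0 := h2 (funext fun p => by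
    have := hb p p.2
    rw [← sum_coe_sort] at this
    simpa [A, Matrix.vecMul, dotProduct, mul_comm] using this)
  exact fun p hp => congrFun h3 ⟨p, hp⟩

theorem diagfix (M : ℕ → ℕ → ZMod 2) (T : Finset ℕ) : ∃ d : ℕ → ZMod 2, ∀ b : ℕ → ZMod 2,
    (∀ p ∈ T, ∑ q ∈ T, M p q * b q + d p * b p = 0) → ∀ p ∈ T, b p = 0 := by
  induction T using Finset.induction_on with
  | empty => exact ⟨0, fun _ _ _ h => absurd h (notMem_empty _)⟩
  | insert x T hx ih =>
    obtain ⟨d, hd⟩ := ih
    by_contra hc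
    push Not at hc
    have key : ∀ c : ZMod 2, ∃ b : ℕ → ZMod 2, b x = 1 ∧ ∑ q ∈ T, M x q * b q + M x x + c = 0 ∧
        ∀ p ∈ T, ∑ q ∈ T, M p q * b q + d p * b p + M p x = 0 := by
      intro c
      obtain ⟨b, h1, p, hp, h2⟩ := hc (Function.update d x c)
      have h3 : ∀ p ∈ T, ∑ q ∈ T, M p q * b q + d p * b p + M p x * b x = 0 := fun p hp => by
        have := h1 p (mem_insert_of_mem hp)
        rw [sum_insert hx, Function.update_of_ne (ne_of_mem_of_not_mem hp hx)] at this
        linear_combination this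
      have h4 : b x = 1 := eq_one fun h0 => by
        rcases mem_insert.1 hp with rfl | hp
        · exact h2 h0
        · exact h2 (hd b (fun r hr => by simpa [h0] using h3 r hr) p hp)
      refine ⟨b, h4, ?_, fun p hp => by simpa [h4] using h3 p hp⟩
      have := h1 x (mem_insert_self _ _)
      rw [sum_insert hx, Function.update_self, h4] at this
      linear_combination this
    obtain ⟨b, -, b2, b3⟩ := key 0
    obtain ⟨c, -, c2, c3⟩ := key 1
    have h5 := hd (fun n => b n - c n) fun p hp => by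
      simp only [mul_sub, sum_sub_distrib]
      linear_combination b3 p hp - c3 p hp
    have h6 : ∑ q ∈ T, M x q * b q = ∑ q ∈ T, M x q * c q :=
      sum_congr rfl fun q hq => by rw [sub_eq_zero.1 (h5 q hq)]
    exact one_ne_zero (α := ZMod 2) (by linear_combination c2 - b2 + h6)

theorem lap (T : Finset ℕ) (M : ℕ → ZMod 2) (b : ℕ → ZMod 2) (x : ZMod 2) :
    ∑ q ∈ T, M q * (x + b q) = (∑ q ∈ T, M q) * x + ∑ q ∈ T, M q * b q := by
  simp only [mul_add, sum_add_distrib, sum_mul]

theorem diag (h : RecStmt) {T : Finset ℕ} (hT : Adm T) {p : ℕ} (hp : p ∈ T) :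
    ∑ q ∈ T, al q p = ∑ q ∈ T, al p q := by
  have h1 : ∑ q ∈ T, (al p q + al q p) = ∑ q ∈ T, (ep p * ep q + if p = q then ep p else 0) := by
    refine sum_congr rfl fun q hq => ?_
    split_ifs with e
    · rw [← e, add_self, mul_self, add_self]
    · rw [add_zero, h.2 p q (hT.1 p hp).1 (hT.1 q hq).1 (hT.1 p hp).2.1 (hT.1 q hq).2.1 e]
  rw [sum_add_distrib, sum_add_distrib, ← mul_sum, hT.2.1, sum_ite_eq, if_pos hp, mul_one,
    add_self] at h1
  exact (eq_of_add h1).symm

theorem rec_lap (h : RecStmt) {T : Finset ℕ} (hT : Adm T) (b : ℕ → ZMod 2) {p : ℕ} (hp : p ∈ T) :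
    ∑ q ∈ T, al q p * (b p + b q) =
      ∑ q ∈ T, al p q * (b p + b q) + ep p * (b p + ∑ q ∈ T, ep q * b q) := by
  have h1 : ep p * (b p + ∑ q ∈ T, ep q * b q) = ∑ q ∈ T, ep p * ep q * (b p + b q) := by
    simp only [mul_assoc]
    rw [← mul_sum, lap, hT.2.1, one_mul]
  rw [h1, ← sum_add_distrib]
  refine sum_congr rfl fun q hq => ?_
  by_cases e : p = q
  · rw [← e, add_self, mul_zero, mul_zero, add_zero]
  · rw [← h.2 p q (hT.1 p hp).1 (hT.1 q hq).1 (hT.1 p hp).2.1 (hT.1 q hq).2.1 e, ← add_mul,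
      ← add_assoc, add_self, zero_add]

theorem sum_lap (h : RecStmt) {T : Finset ℕ} (hT : Adm T) (b : ℕ → ZMod 2) :
    ∑ p ∈ T, ∑ q ∈ T, al q p * (b p + b q) = 0 := by
  simp only [lap]
  rw [sum_add_distrib, sum_comm (f := fun p q => al q p * b q), ← sum_add_distrib]
  refine sum_eq_zero fun p hp => ?_
  rw [← sum_mul, diag h hT hp, add_self]

theorem const_of_gT {T : Finset ℕ} (hg : gT T = 1) (b : ℕ → ZMod 2)
    (hb : ∀ p ∈ T, ∑ q ∈ T, al q p * (b p + b q) = 0) : ∃ c, ∀ p ∈ T, b p = c := by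
  have h1 : ∀ B ∈ T.powerset, (∀ p ∈ T, ∑ q ∈ T, al q p * (ind B p + ind B q) = 0) →
      B = ∅ ∨ B = T := by
    by_contra hc
    rw [gT, if_neg hc] at hg
    exact zero_ne_one hg
  have h2 : ∀ p ∈ T, ind (T.filter fun q => b q ≠ 0) p = b p := fun p hp => by
    by_cases e : b p = 0
    · simp [ind, e]
    · simp [ind, hp, eq_one e]
  rcases h1 _ (mem_powerset.2 (filter_subset (fun q => b q ≠ 0) T)) (fun p hp =>
    (sum_congr rfl fun q hq => by rw [h2 p hp, h2 q hq]).trans (hb p hp)) with e | e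
  · exact ⟨0, fun p hp => by rw [← h2 p hp, e, ind_empty]⟩
  · exact ⟨1, fun p hp => by rw [← h2 p hp, e, ind, if_pos hp]⟩

theorem const_of_gT' (h : RecStmt) {T : Finset ℕ} (hT : Adm T) (hg : gT T = 1) {p₀ : ℕ}
    (h0 : p₀ ∈ T) (b : ℕ → ZMod 2) (hb : ∀ p ∈ T, ∑ q ∈ T, al p q * (b p + b q) = 0) :
    ∃ c, ∀ p ∈ T, b p = c := by
  have key := transp T (fun p q => al q p + (if p = q then ∑ r ∈ T, al r p else 0) +
    if q = p₀ then ep p else 0) (fun v hv => ?_) (fun n => b n + ∑ q ∈ T, ep q * b q) fun p hp => ?_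
  · exact ⟨_, fun p hp => eq_of_add (key p hp)⟩
  · have h1 : ∀ p ∈ T, ∑ q ∈ T, al q p * (v p + v q) + ep p * v p₀ = 0 := fun p hp => by
      have := hv p hp
      simp only [add_mul, sum_add_distrib, ite_mul, zero_mul, sum_ite_eq, sum_ite_eq', if_pos hp,
        if_pos h0] at this
      rw [lap]
      linear_combination this
    have h2 := sum_eq_zero h1
    rw [sum_add_distrib, sum_lap h hT, ← sum_mul, hT.2.1, zero_add, one_mul] at h2
    obtain ⟨c, hc⟩ := const_of_gT hg v fun p hp => by simpa [h2] using h1 p hp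
    exact fun p hp => by rw [hc p hp, ← hc p₀ h0, h2]
  · have h1 := hb p hp
    have h2 : ∑ q ∈ T, ep q * (b q + ∑ r ∈ T, ep r * b r) = 0 := by
      simp only [mul_add, sum_add_distrib, ← sum_mul]
      rw [hT.2.1, one_mul, add_self]
    have h3 : ∑ q ∈ T, (if p = p₀ then ep q else 0) * (b q + ∑ r ∈ T, ep r * b r) = 0 := by
      split_ifs
      · exact h2
      · simp
    simp only [add_mul, sum_add_distrib]
    rw [h3]
    simp only [ite_mul, zero_mul, sum_ite_eq', if_pos hp, mul_add, sum_add_distrib, ← sum_mul]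
    rw [lap] at h1
    rw [diag h hT hp]
    linear_combination h1 + add_self ((∑ q ∈ T, al p q) * ∑ r ∈ T, ep r * b r)

end KerAux

open KerAux

theorem recip : RecStmt := by
  refine ⟨fun p hp => ?_, fun p q hp hq hp2 hq2 hpq => ?_⟩
  · have : jacobiSym (ps p) p = 0 := by
      rw [jacobiSym.mod_left, Int.emod_eq_zero_of_dvd (by unfold ps; split_ifs <;> simp),
        jacobiSym.zero_left hp.one_lt]
    simp [al, this]
  have op := hp.odd_of_ne_two hp2
  have oq := hq.odd_of_ne_two hq2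
  have h1 := jacobiSym.eq_one_or_neg_one (a := p) (b := q)
    (by simpa using (Nat.coprime_primes hp hq).2 hpq)
  rw [al_eq op oq, al_eq oq op, ep, ep]
  rcases odd_cases op with a | a
  · rw [← jacobiSym.quadratic_reciprocity_one_mod_four a oq, add_self, if_neg (by omega), zero_mul]
  rcases odd_cases oq with b | b
  · rw [jacobiSym.quadratic_reciprocity_one_mod_four b op, add_self, if_neg (c := q % 4 = 3)
      (by omega), mul_zero]
  rw [jacobiSym.quadratic_reciprocity_three_mod_four b a, if_pos a, if_pos b]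
  rcases h1 with e | e <;> simp [e]

theorem ker (h : RecStmt) : KerStmt := by
  refine ⟨fun T => ?_, fun T p hp => ?_, fun T hT => ?_, fun e he hg => ?_, ?_,
    fun q h1 h2 => ⟨?_, ?_⟩, fun T a b hT hg ⟨p₀, h0, g0⟩ hs hz => ?_⟩
  · by_cases hc : (Ker T).card = 2
    · obtain ⟨x, -, e⟩ := exists_other hc
      have : lam T = ind x.1 := funext fun p => by
        simp only [lam, ind, hc, true_and]
        simp [e]
      rw [this]
      exact ⟨_, (mem_ker.1 (show x ∈ Ker T by simp [e])).2.2⟩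
    · have : lam T = 0 := funext fun p => by simp [lam, hc]
      rw [this]
      exact ⟨0, fun p _ => by simp⟩
  · exact if_neg fun ⟨_, x, hx, hx'⟩ => hp ((mem_ker.1 hx).1 hx')
  · obtain ⟨x, hx, e⟩ := exists_other hT.1
    have hm : x ∈ Ker T := by simp [e]
    obtain ⟨p, hp⟩ : x.1.Nonempty := nonempty_iff_ne_empty.2 fun e1 =>
      hx (Prod.ext e1 (hT.2 x hm e1))
    exact ⟨p, (mem_ker.1 hm).1 hp, if_pos ⟨hT.1, x, hm, hp⟩⟩
  · refine if_neg fun hc => he.ne_empty ?_
    have hm : (e, e) ∈ Ker e := mem_ker.2 ⟨Subset.refl _, Subset.refl _, fun p hp => by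
      have : ∑ q ∈ e, al p q * (ind e p + ind e q) = 0 := sum_eq_zero fun q hq => by
        rw [ind, ind, if_pos hp, if_pos hq, add_self, mul_zero]
      simp only [this, add_self, hg p hp, mul_zero, zero_mul, and_self]⟩
    exact congrArg Prod.fst (card_le_one.1 hc.le _ hm _ (zero_mem e))
  · exact if_pos (by simp [Ker])
  · have e : Ker {q} = {(∅, ∅), ({q}, {q})} := by
      ext ⟨x, y⟩
      simp only [mem_ker, subset_singleton_iff, Sys, mem_singleton, forall_eq, sum_singleton,
        add_self, h1, h2, mul_zero, zero_mul, one_mul, and_true, mem_insert, Prod.mk.injEq]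
      constructor
      · rintro ⟨rfl | rfl, rfl | rfl, h⟩ <;> simp [ind] at h ⊢
      · rintro (⟨rfl, rfl⟩ | ⟨rfl, rfl⟩) <;> simp [add_self]
    exact if_pos ⟨by rw [e, card_pair (by simp)], ({q}, {q}), by simp [e], by simp⟩
  · exact if_pos fun B hB _ => subset_singleton_iff.1 (mem_powerset.1 hB)
  obtain ⟨β, hβ⟩ := const_of_gT' h hT hg h0 b fun p hp => (hs p hp).2.trans (hz p hp)
  have h1 : ∀ p ∈ T, ∑ q ∈ T, al q p * (a p + a q) = ep p * (β + ∑ q ∈ T, ep q * a q) :=
    fun p hp => by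
      rw [rec_lap h hT a hp, (hs p hp).1, hβ p hp]
      linear_combination add_self (ep p * a p)
  have h2 := sum_congr rfl h1
  rw [sum_lap h hT, ← sum_mul, hT.2.1, one_mul] at h2
  obtain ⟨c, hc⟩ := const_of_gT hg a fun p hp => by rw [h1 p hp, ← h2, mul_zero]
  have h3 := hz p₀ h0
  rw [g0, one_mul] at h3
  exact fun p hp => by rw [hc p hp, ← hc p₀ h0, h3]

theorem aux (_h : RecStmt) : AuxStmt := by
  intro e he
  obtain ⟨d, hd⟩ := diagfix (fun p r => al r p + if p = r then ∑ s ∈ e, al s p else 0) e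
  have hn : ∀ p ∈ e, ∃ n : ℕ, n.Coprime p ∧ (if jacobiSym n p = -1 then 1 else 0) = d p := by
    intro p hp
    by_cases h0 : d p = 0
    · exact ⟨1, Nat.coprime_one_left _, by simp [jacobiSym.one_left, h0]⟩
    have : Fact p.Prime := ⟨(he.1 p hp).1⟩
    obtain ⟨a, ha⟩ := FiniteField.exists_nonsquare (F := ZMod p)
      (by rw [ZMod.ringChar_zmod_n]; exact (he.1 p hp).2.1)
    have h1 : jacobiSym a.val p = -1 :=
      ZMod.nonsquare_iff_jacobiSym_eq_neg_one.2 (by simpa using ha)
    refine ⟨a.val, ?_, by rw [if_pos h1, eq_one h0]⟩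
    by_contra hc
    have := jacobiSym.eq_zero_iff_not_coprime.2 (show (a.val : ℤ).gcd p ≠ 1 by rwa [Int.gcd_natCast_natCast])
    omega
  choose! n hn1 hn2 using hn
  have h68 : 68 ∉ e := fun h => by have := (he.1 _ h).1; norm_num at this
  have hco : ∀ p ∈ e, Nat.Coprime 68 p := fun p hp => by
    obtain ⟨h1, h2, -, h3⟩ := he.1 p hp
    rw [show 68 = 2 * 2 * 17 from rfl]
    exact (((Nat.coprime_primes Nat.prime_two h1).2 h2.symm).mul_left
      ((Nat.coprime_primes Nat.prime_two h1).2 h2.symm)).mul_left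
      ((Nat.coprime_primes (by norm_num) h1).2 h3.symm)
  have hne : ∀ i ∈ insert 68 e, id i ≠ 0 := fun i hi => by
    rcases mem_insert.1 hi with rfl | hi
    · norm_num
    · exact (he.1 i hi).1.ne_zero
  obtain ⟨k, hk⟩ := Nat.chineseRemainderOfFinset (Function.update n 68 35) id (insert 68 e) hne (by
    intro i hi j hj hij
    rcases mem_insert.1 (mem_coe.1 hi) with rfl | hi <;> rcases mem_insert.1 (mem_coe.1 hj) with rfl | hj
    · exact absurd rfl hij
    · exact hco j hj
    · exact (hco i hi).symm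
    · exact (Nat.coprime_primes (he.1 i hi).1 (he.1 j hj).1).2 hij)
  have k1 : k ≡ 35 [MOD 68] := by simpa using hk 68 (mem_insert_self _ _)
  have k2 : ∀ p ∈ e, k ≡ n p [MOD p] := fun p hp => by
    have := hk p (mem_insert_of_mem hp)
    rwa [Function.update_of_ne (ne_of_mem_of_not_mem hp h68)] at this
  obtain ⟨q, hq1, hq, hq2⟩ := Nat.forall_exists_prime_gt_and_modEq 17 (q := ∏ i ∈ insert 68 e, i)
    (a := k) (prod_ne_zero_iff.2 hne) (Nat.Coprime.prod_right fun i hi => by
      rcases mem_insert.1 hi with rfl | hi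
      · rw [Nat.Coprime, k1.gcd_eq]; norm_num
      · rw [Nat.Coprime, (k2 i hi).gcd_eq]; exact hn1 i hi)
  have q1 : q % 68 = 35 :=
    (hq2.of_dvd (dvd_prod_of_mem (fun i => i) (mem_insert_self _ _))).trans k1
  have q2 : ∀ p ∈ e, q ≡ n p [MOD p] := fun p hp =>
    (hq2.of_dvd (dvd_prod_of_mem (fun i => i) (mem_insert_of_mem hp))).trans (k2 p hp)
  have oq : Odd q := hq.odd_of_ne_two (by omega)
  have hqe : q ∉ e := fun h => by
    have h1 := (q2 q h).gcd_eq
    rw [hn1 q h, Nat.gcd_self] at h1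
    exact hq.ne_one h1
  have e1 : ep q = 1 := if_pos (by omega)
  have e2 : ga q = 0 := by
    have h1 := jacobiSym.quadratic_reciprocity_one_mod_four (a := 17) (by norm_num) oq
    have h2 : jacobiSym q 17 = jacobiSym 1 17 := jacobiSym.mod_left' (by omega)
    rw [h2, jacobiSym.one_left] at h1
    exact if_neg (by rw [show (17 : ℤ) = (17 : ℕ) from rfl, h1]; norm_num)
  have e3 : ∀ p ∈ e, al q p = d p := fun p hp => by
    rw [al_eq oq ((he.1 p hp).1.odd_of_ne_two (he.1 p hp).2.1), ← hn2 p hp,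
      jacobiSym.mod_left' (a₂ := n p) (by exact_mod_cast q2 p hp)]
  refine ⟨q, hqe, e1, e2, ⟨fun p hp => ?_, by rw [sum_insert hqe, e1, he.2.1, add_zero],
    by rw [sum_insert hqe, e2, he.2.2, add_zero]⟩, if_pos fun B hB hs => ?_⟩
  · rcases mem_insert.1 hp with rfl | hp
    · exact ⟨hq, by omega, by omega, by omega⟩
    · exact he.1 p hp
  have h1 := hd (fun p => ind B p + ind B q) fun p hp => by
    have h2 := hs p (mem_insert_of_mem hp)
    rw [sum_insert hqe, e3 p hp, lap] at h2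
    simp only [add_mul, sum_add_distrib, ite_mul, zero_mul, sum_ite_eq, if_pos hp, mul_add,
      ← sum_mul]
    linear_combination h2 + add_self ((∑ s ∈ e, al s p) * ind B q)
  by_cases hqB : q ∈ B
  · refine Or.inr ((mem_powerset.1 hB).antisymm (insert_subset hqB fun p hp => ?_))
    have := eq_of_add (h1 p hp)
    by_contra hc
    simp [ind, hqB, hc] at this
  · refine Or.inl (eq_empty_of_forall_notMem fun p hp => ?_)
    rcases mem_insert.1 (mem_powerset.1 hB hp) with rfl | hp'
    · exact hqB hp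
    · have := eq_of_add (h1 p hp')
      simp [ind, hqB, hp] at this

end Pool.Agent.Lib.MP_d6ddbd_nt.G
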