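import Pool.Agent.Lib.MP_d6ddbd_nt.G.MStmt
import Pool.Agent.Lib.MP_d6ddbd_nt.G.Ker

/-! Two linked variables that are not small: double oscillation of the Jacobi symbol. -/

open Finset Filter Function

noncomputable section

namespace Pool.Agent.Lib.MP_d6ddbd_nt.G

namespace CA

theorem sg_add (x y : ZMod 2) : sg (x + y) = sg x * sg y := by
  revert x y; decide

theorem sg_sum {ι : Type*} (s : Finset ι) (f : ι → ZMod 2) :
    sg (∑ i ∈ s, f i) = ∏ i ∈ s, sg (f i) := by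
  classical
  induction s using Finset.induction_on with
  | empty => simp [sg]
  | insert a s ha ih => rw [sum_insert ha, prod_insert ha, sg_add, ih]

theorem abs_sg (x : ZMod 2) : |(sg x : ℝ)| = 1 := by
  unfold sg; split_ifs <;> simp

theorem jac_left (s : Finset ℕ) (n : ℕ) :
    jacobiSym ((∏ p ∈ s, p : ℕ) : ℤ) n = ∏ p ∈ s, jacobiSym p n := by
  induction s using Finset.induction_on with
  | empty => simp [jacobiSym.one_left]
  | insert a s ha ih => rw [prod_insert ha, prod_insert ha, Nat.cast_mul, jacobiSym.mul_left, ih]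

theorem jac_right (a : ℤ) (s : Finset ℕ) (hs : ∀ p ∈ s, p ≠ 0) :
    jacobiSym a (∏ p ∈ s, p) = ∏ p ∈ s, jacobiSym a p := by
  induction s using Finset.induction_on with
  | empty => simp
  | insert b s hb ih =>
    have h := fun p hp => hs p (mem_insert_of_mem hp)
    rw [prod_insert hb, prod_insert hb, jacobiSym.mul_right' _ (hs b (mem_insert_self _ _))
      (prod_ne_zero_iff.2 h), ih h]

theorem sg_AL {m k : ℕ} (hm : Squarefree m) (hk : Squarefree k) (pm : Prs m.primeFactors)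
    (pk : Prs k.primeFactors) (h : m.Coprime k) : sg (AL m k) = jacobiSym m k := by
  conv_rhs => rw [← Nat.prod_primeFactors_of_squarefree hm, jac_left]
  rw [AL, sg_sum]
  refine prod_congr rfl fun p hp => ?_
  conv_rhs => rw [← Nat.prod_primeFactors_of_squarefree hk,
    jac_right _ _ fun q hq => (pk q hq).1.ne_zero]
  rw [sg_sum]
  refine prod_congr rfl fun q hq => ?_
  have hc : p.Coprime q := (h.coprime_dvd_left (Nat.dvd_of_mem_primeFactors hp)).coprime_dvd_right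
    (Nat.dvd_of_mem_primeFactors hq)
  rw [al, KerAux.jac_ps ((pm p hp).1.odd_of_ne_two (pm p hp).2.1) ((pk q hq).1.odd_of_ne_two (pk q hq).2.1)]
  rcases jacobiSym.eq_one_or_neg_one (a := p) (b := q) (by rwa [Int.gcd_natCast_natCast]) with
    e | e <;> simp [e, sg]

theorem odd_of {m : ℕ} (hm : Squarefree m) (pm : Prs m.primeFactors) : Odd m := by
  by_contra h
  exact (pm 2 (Nat.mem_primeFactors.2 ⟨Nat.prime_two, (Nat.not_odd_iff_even.1 h).two_dvd,
    hm.ne_zero⟩)).2.1 rfl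

variable {V : Type} [Fintype V] [LinearOrder V]

theorem box (t : V → Finset ℕ) (u : V) (F : (V → ℕ) → ℝ) :
    ∑ N ∈ Fintype.piFinset t, F N =
      ∑ N ∈ Fintype.piFinset (update t u {1}), ∑ m ∈ t u, F (update N u m) := by
  rw [← sum_product']
  refine sum_nbij' (fun N => (update N u 1, N u)) (fun x => update x.1 u x.2) ?_ ?_ ?_ ?_ ?_
  · intro N hN
    simp only [mem_product, Fintype.mem_piFinset] at hN ⊢
    refine ⟨fun a => ?_, hN u⟩
    by_cases h : a = u
    · subst h; simp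
    · simp [h, hN a]
  · intro x hx
    simp only [mem_product, Fintype.mem_piFinset] at hx ⊢
    intro a
    by_cases h : a = u
    · subst h; simp [hx.2]
    · simpa [h] using hx.1 a
  · intro N _; simp
  · intro x hx
    simp only [mem_product, Fintype.mem_piFinset] at hx
    have := hx.1 u
    simp only [update_self, mem_singleton] at this
    ext a
    · simp only [update_idem]
      rw [← this, update_eq_self]
    · simp
  · intro N _; simp

theorem sum_two {M : Type*} [AddCommMonoid M] {u v : V} (h : u ≠ v) (f : V → M) :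
    ∑ a, f a = f u + f v + ∑ a ∈ (univ.erase u).erase v, f a := by
  rw [add_assoc, add_sum_erase _ _ (mem_erase.2 ⟨h.symm, mem_univ v⟩),
    add_sum_erase _ _ (mem_univ u)]

theorem prod_two {M : Type*} [CommMonoid M] {u v : V} (h : u ≠ v) (f : V → M) :
    ∏ a, f a = f u * f v * ∏ a ∈ (univ.erase u).erase v, f a := by
  rw [mul_assoc, mul_prod_erase _ _ (mem_erase.2 ⟨h.symm, mem_univ v⟩),
    mul_prod_erase _ _ (mem_univ u)]

/-- Two coordinates replaced. -/
def up (N : V → ℕ) (u v : V) (m k : ℕ) : V → ℕ := update (update N v k) u m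

omit [Fintype V] in
theorem up_u (N : V → ℕ) (u v : V) (m k : ℕ) : up N u v m k u = m := by simp [up]

omit [Fintype V] in
theorem up_v (N : V → ℕ) {u v : V} (h : u ≠ v) (m k : ℕ) : up N u v m k v = k := by
  simp [up, h.symm]

omit [Fintype V] in
theorem up_ne (N : V → ℕ) {u v a : V} (hu : a ≠ u) (hv : a ≠ v) (m k : ℕ) :
    up N u v m k a = N a := by simp [up, hu, hv]

theorem up_er (N : V → ℕ) {u v a : V} (ha : a ∈ (univ.erase u).erase v) (m k : ℕ) :
    up N u v m k a = N a := up_ne N (mem_erase.1 (mem_erase.1 ha).2).1 (mem_erase.1 ha).1 m k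

theorem sum_up {M : Type*} [AddCommMonoid M] (N : V → ℕ) {u v : V} (h : u ≠ v) (m k : ℕ)
    (g : V → ℕ → M) : ∑ a, g a (up N u v m k a) =
      g u m + g v k + ∑ a ∈ (univ.erase u).erase v, g a (N a) := by
  rw [sum_two h, up_u, up_v N h, sum_congr rfl fun a ha => by rw [up_er N ha]]

/-- The phase of a tuple. -/
def Φ (ψ : V → V → ZMod 2) (l₁ l₂ : V → ZMod 2) (N : V → ℕ) : ZMod 2 :=
  ∑ u, ∑ v, AL (N u) (N v) * ψ u v + ∑ u, (EP (N u) * l₁ u + GA (N u) * l₂ u)

theorem AL_one (m : ℕ) : AL m 1 = 0 := by simp [AL]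

theorem one_AL (m : ℕ) : AL 1 m = 0 := by simp [AL]

theorem phase (ψ : V → V → ZMod 2) (l₁ l₂ : V → ZMod 2) (hψ : ∀ u, ψ u u = 0) (N : V → ℕ)
    {u v : V} (h : u ≠ v) (h1 : ψ u v = 1) (h0 : ψ v u = 0) (m k : ℕ) :
    Φ ψ l₁ l₂ (up N u v m k) = Φ ψ l₁ l₂ (up N u v m 1) +
      (Φ ψ l₁ l₂ (up N u v 1 k) - Φ ψ l₁ l₂ (up N u v 1 1)) + AL m k := by
  have e : ∀ m k, Φ ψ l₁ l₂ (up N u v m k) = AL m k +
      ∑ b ∈ (univ.erase u).erase v, AL m (N b) * ψ u b +
      ∑ b ∈ (univ.erase u).erase v, AL k (N b) * ψ v b +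
      ∑ a ∈ (univ.erase u).erase v, (AL (N a) m * ψ a u + AL (N a) k * ψ a v +
        ∑ b ∈ (univ.erase u).erase v, AL (N a) (N b) * ψ a b) +
      (EP m * l₁ u + GA m * l₂ u + (EP k * l₁ v + GA k * l₂ v) +
        ∑ a ∈ (univ.erase u).erase v, (EP (N a) * l₁ a + GA (N a) * l₂ a)) := by
    intro m k
    have i := fun x a => sum_up N h m k fun b y => AL x y * ψ a b
    simp only [Φ, i]
    rw [sum_up N h m k fun a x => AL x m * ψ a u + AL x k * ψ a v +
      ∑ b ∈ (univ.erase u).erase v, AL x (N b) * ψ a b,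
      sum_up N h m k fun a x => EP x * l₁ a + GA x * l₂ a]
    simp only [hψ, h1, h0, mul_zero, mul_one, zero_add]
  simp only [e, AL_one, one_AL, sum_add_distrib, zero_mul, sum_const_zero]
  ring

/-- Squarefree with admissible prime factors. -/
def Gd (m : ℕ) : Prop := Squarefree m ∧ Prs m.primeFactors

theorem gd_one : Gd 1 := ⟨squarefree_one, by simp [Prs]⟩

omit [Fintype V] in
theorem ok_up (N : V → ℕ) {u v : V} (h : u ≠ v) (m k : ℕ) :
    Ok (up N u v m k) ↔ (Gd m ∧ ∀ a, a ≠ u → a ≠ v → m.Coprime (N a)) ∧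
      (Gd k ∧ ∀ a, a ≠ u → a ≠ v → k.Coprime (N a)) ∧ m.Coprime k ∧
      ∀ a, a ≠ u → a ≠ v → Gd (N a) ∧ ∀ b, b ≠ u → b ≠ v → a ≠ b → (N a).Coprime (N b) := by
  constructor
  · rintro ⟨h1, h2⟩
    refine ⟨⟨by simpa only [up_u, Gd] using h1 u, fun a hu hv => ?_⟩,
      ⟨by simpa only [up_v N h, Gd] using h1 v, fun a hu hv => ?_⟩, ?_, fun a hu hv =>
      ⟨by simpa only [up_ne N hu hv, Gd] using h1 a, fun b bu bv hab => ?_⟩⟩
    · simpa only [up_u, up_ne N hu hv] using h2 u a hu.symm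
    · simpa only [up_v N h, up_ne N hu hv] using h2 v a hv.symm
    · simpa only [up_u, up_v N h] using h2 u v h
    · simpa only [up_ne N hu hv, up_ne N bu bv] using h2 a b hab
  · rintro ⟨⟨g1, c1⟩, ⟨g2, c2⟩, c, r⟩
    refine ⟨fun a => ?_, fun a b hab => ?_⟩
    · by_cases hu : a = u
      · rw [hu, up_u]; exact g1
      by_cases hv : a = v
      · rw [hv, up_v N h]; exact g2
      rw [up_ne N hu hv]; exact (r a hu hv).1
    by_cases hu : a = u
    · subst hu
      by_cases bv : b = v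
      · rw [bv, up_u, up_v N h]; exact c
      · rw [up_u, up_ne N hab.symm bv]; exact c1 b hab.symm bv
    by_cases hv : a = v
    · subst hv
      by_cases bu : b = u
      · rw [bu, up_u, up_v N h]; exact c.symm
      · rw [up_v N h, up_ne N bu hab.symm]; exact c2 b bu hab.symm
    rw [up_ne N hu hv]
    by_cases bu : b = u
    · rw [bu, up_u]; exact (c1 a hu hv).symm
    by_cases bv : b = v
    · rw [bv, up_v N h]; exact (c2 a hu hv).symm
    rw [up_ne N bu bv]; exact (r a hu hv).2 b bu bv hab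

omit [Fintype V] in
theorem ok_iff (N : V → ℕ) {u v : V} (h : u ≠ v) (m k : ℕ) :
    Ok (up N u v m k) ↔ Ok (up N u v m 1) ∧ Ok (up N u v 1 k) ∧ m.Coprime k := by
  simp only [ok_up N h, gd_one, Nat.coprime_one_left_iff, Nat.coprime_one_right_iff, implies_true,
    and_self, true_and]
  tauto

omit [LinearOrder V] in
theorem abs_GG (ψ : V → V → ZMod 2) (l₁ l₂ : V → ZMod 2) (N : V → ℕ) : |GG ψ l₁ l₂ N| ≤ 1 := by
  unfold GG
  split_ifs
  · rw [abs_mul, abs_sg, mul_one, abs_inv, abs_pow]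
    exact inv_le_one_of_one_le₀ (one_le_pow₀ (by norm_num))
  · simp

omit [LinearOrder V] in
theorem GG_ok (ψ : V → V → ZMod 2) (l₁ l₂ : V → ZMod 2) {N : V → ℕ} (h : Ok N) :
    GG ψ l₁ l₂ N = ((4 : ℝ) ^ ∑ u, (N u).primeFactors.card)⁻¹ * (sg (Φ ψ l₁ l₂ N) : ℝ) := by
  unfold GG; rw [if_pos h]; rfl

omit [LinearOrder V] in
theorem GG_not (ψ : V → V → ZMod 2) (l₁ l₂ : V → ZMod 2) {N : V → ℕ} (h : ¬ Ok N) :
    GG ψ l₁ l₂ N = 0 := by
  unfold GG; rw [if_neg h]

theorem split (ψ : V → V → ZMod 2) (l₁ l₂ : V → ZMod 2) (hψ : ∀ u, ψ u u = 0) (N : V → ℕ)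
    {u v : V} (h : u ≠ v) (h1 : ψ u v = 1) (h0 : ψ v u = 0) :
    ∃ α β : ℕ → ℝ, (∀ m, |α m| ≤ 1) ∧ (∀ k, |β k| ≤ 1) ∧ (∀ m, α m ≠ 0 → Gd m) ∧
      (∀ k, β k ≠ 0 → Gd k) ∧ ∀ m k, k ≠ 0 →
        GG ψ l₁ l₂ (up N u v m k) = α m * β k * jacobiSym m k := by
  classical
  refine ⟨fun m => GG ψ l₁ l₂ (up N u v m 1), fun k => if Ok (up N u v 1 k) then
    ((4 : ℝ) ^ k.primeFactors.card)⁻¹ * (sg (Φ ψ l₁ l₂ (up N u v 1 k) - Φ ψ l₁ l₂ (up N u v 1 1)) : ℝ)
    else 0, fun m => abs_GG _ _ _ _, fun k => ?_, fun m hm => ?_, fun k hk => ?_, fun m k hk => ?_⟩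
  · dsimp only
    split_ifs
    · rw [abs_mul, abs_sg, mul_one, abs_inv, abs_pow]
      exact inv_le_one_of_one_le₀ (one_le_pow₀ (by norm_num))
    · simp
  · exact ((ok_up N h m 1).1 (by_contra fun e => hm (GG_not _ _ _ e))).1.1
  · exact ((ok_up N h 1 k).1 (by_contra fun e => hk (if_neg e))).2.1.1
  by_cases o : Ok (up N u v m k)
  · obtain ⟨o1, o2, c⟩ := (ok_iff N h m k).1 o
    obtain ⟨⟨g1, -⟩, ⟨g2, -⟩, -⟩ := (ok_up N h m k).1 o
    have e := fun m k => sum_up N h m k fun _ x => x.primeFactors.card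
    simp only [GG_ok _ _ _ o, GG_ok _ _ _ o1, if_pos o2, phase ψ l₁ l₂ hψ N h h1 h0 m k, sg_add,
      sg_AL g1.1 g2.1 g1.2 g2.2 c, e, Nat.primeFactors_one, card_empty, pow_add]
    push_cast
    field_simp
  · rw [GG_not _ _ _ o]
    rw [ok_iff N h, not_and_or, not_and_or] at o
    rcases o with o | o | o
    · simp [GG_not _ _ _ o]
    · simp [o]
    · have : NeZero k := ⟨hk⟩
      rw [jacobiSym.eq_zero_iff_not_coprime.2 (by rwa [Int.gcd_natCast_natCast])]
      simp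

theorem inner {C : ℝ} (hC : 0 ≤ C) (hB : ∀ (α β : ℕ → ℝ) (T Y : ℝ), 2 ≤ Y → 2 ≤ T →
    (∀ m, |α m| ≤ 1) → (∀ k, |β k| ≤ 1) → (∀ m, α m ≠ 0 → Squarefree m ∧ Odd m ∧ Y < m) →
    (∀ k, β k ≠ 0 → Squarefree k ∧ Odd k ∧ Y < k) →
    |∑ m ∈ Icc 1 ⌊T⌋₊, ∑ k ∈ Icc 1 ⌊T⌋₊ with ((m * k : ℕ) : ℝ) ≤ T, α m * β k * jacobiSym m k| ≤
      C * T * Real.log T ^ 2 / Y ^ (1 / 8 : ℝ))
    {α β : ℕ → ℝ} (ha : ∀ m, |α m| ≤ 1) (hb : ∀ k, |β k| ≤ 1) (ga : ∀ m, α m ≠ 0 → Gd m)
    (gb : ∀ k, β k ≠ 0 → Gd k) {Y : ℝ} (hY : 2 ≤ Y) {s t : Finset ℕ} (hs : ∀ m ∈ s, Y < m)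
    (ht : ∀ k ∈ t, Y < k) {X M : ℕ} (hM : 1 ≤ M) :
    |∑ k ∈ t, ∑ m ∈ s, if m * k * M ≤ X then α m * β k * jacobiSym m k else 0| ≤
      C * X * Real.log X ^ 2 / Y ^ (1 / 8 : ℝ) * (M : ℝ)⁻¹ := by
  have M0 : (0 : ℝ) < M := by exact_mod_cast hM
  have M1 : (1 : ℝ) ≤ M := by exact_mod_cast hM
  have iT : ∀ n : ℕ, n * M ≤ X ↔ (n : ℝ) ≤ X / M := fun n => by
    rw [le_div_iff₀ M0]; exact_mod_cast Iff.rfl
  have s1 : ∀ m ∈ s, 1 ≤ m := fun m hm => by
    have := hs m hm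
    exact_mod_cast (show (1 : ℝ) ≤ m by linarith)
  have t1 : ∀ k ∈ t, 1 ≤ k := fun k hk => by
    have := ht k hk
    exact_mod_cast (show (1 : ℝ) ≤ k by linarith)
  by_cases hT : 2 ≤ (X : ℝ) / M
  swap
  · rw [sum_eq_zero, abs_zero]
    · positivity
    refine fun k hk => sum_eq_zero fun m hm => if_neg fun e => hT ?_
    have := (iT _).1 e
    have h1 : (m : ℝ) ≤ (m * k : ℕ) := by exact_mod_cast Nat.le_mul_of_pos_right m (t1 k hk)
    linarith [hs m hm]
  have key := hB (fun m => if m ∈ s then α m else 0) (fun k => if k ∈ t then β k else 0) (X / M) Y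
    hY hT (fun m => by split_ifs <;> simp [ha])
    (fun k => by split_ifs <;> simp [hb])
    (fun m hm => by
      by_cases e : m ∈ s
      · rw [if_pos e] at hm
        exact ⟨(ga m hm).1, odd_of (ga m hm).1 (ga m hm).2, hs m e⟩
      · exact absurd (if_neg e) hm)
    (fun k hk => by
      by_cases e : k ∈ t
      · rw [if_pos e] at hk
        exact ⟨(gb k hk).1, odd_of (gb k hk).1 (gb k hk).2, ht k e⟩
      · exact absurd (if_neg e) hk)
  have e : (∑ k ∈ t, ∑ m ∈ s, if m * k * M ≤ X then α m * β k * jacobiSym m k else 0) =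
      ∑ m ∈ Icc 1 ⌊(X : ℝ) / M⌋₊, ∑ k ∈ Icc 1 ⌊(X : ℝ) / M⌋₊ with ((m * k : ℕ) : ℝ) ≤ X / M,
        (if m ∈ s then α m else 0) * (if k ∈ t then β k else 0) * jacobiSym m k := by
    rw [sum_comm]
    simp only [sum_filter, ← sum_product', iT]
    refine sum_congr_of_eq_on_inter ?_ ?_ ?_
    · rintro ⟨m, k⟩ h1 h2
      refine if_neg fun e => h2 ?_
      rw [mem_product] at h1 ⊢
      have a1 := s1 _ h1.1
      have a2 := t1 _ h1.2
      have := Nat.le_floor e
      exact ⟨mem_Icc.2 ⟨a1, (Nat.le_mul_of_pos_right m a2).trans this⟩,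
        mem_Icc.2 ⟨a2, (Nat.le_mul_of_pos_left k a1).trans this⟩⟩
    · rintro ⟨m, k⟩ - h2
      rw [mem_product, not_and_or] at h2
      rcases h2 with e | e <;> simp [show _ from e]
    · rintro ⟨m, k⟩ h1 -
      rw [mem_product] at h1
      simp only [if_pos h1.1, if_pos h1.2]
  rw [e]
  refine key.trans ?_
  have l0 : 0 ≤ Real.log (X / M) := Real.log_nonneg (by linarith)
  have l1 : Real.log (X / M) ≤ Real.log X :=
    Real.log_le_log (by linarith) (div_le_self (by positivity) M1)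
  calc _ ≤ C * (X / M) * Real.log X ^ 2 / Y ^ (1 / 8 : ℝ) := by gcongr
    _ = _ := by ring

theorem main (h : BilStmt) (ψ : V → V → ZMod 2) (l₁ l₂ : V → ZMod 2) (hψ : ∀ u, ψ u u = 0)
    (ε : ℝ) (hε : 0 < ε) : ∀ᶠ X : ℕ in atTop,
    ∀ t : V → Finset ℕ, (∀ u, t u ⊆ Icc 1 X) → ∀ u v, ψ u v = 1 → ψ v u = 0 →
      (∀ m ∈ t u, sm (Fintype.card V) X < m) → (∀ k ∈ t v, sm (Fintype.card V) X < k) →
      |SS ψ l₁ l₂ X t| ≤ ε * X := by
  obtain ⟨C, hC, hB⟩ := h
  have hL := Real.tendsto_log_atTop.comp (tendsto_natCast_atTop_atTop (R := ℝ))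
  filter_upwards [hL.eventually_ge_atTop 2,
    hL.eventually_ge_atTop (C * 2 ^ (Fintype.card V - 2) / ε)] with X L2 Lε t ht u v h1 h0 hu hv
  simp only [comp] at L2 Lε
  have h : u ≠ v := by
    rintro rfl
    exact absurd (h1.symm.trans h0) (by decide)
  obtain ⟨j, hj⟩ : ∃ j, ((univ.erase u).erase v).card = j := ⟨_, rfl⟩
  have hk : Fintype.card V = j + 2 := by
    have e1 := card_erase_add_one (mem_erase.2 ⟨h.symm, mem_univ v⟩)
    have e2 := card_erase_add_one (mem_univ u)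
    rw [card_univ] at e2
    omega
  rw [hk] at hu hv Lε
  have hY : 2 ≤ sm (j + 2) X := L2.trans (le_self_pow₀ (by linarith) (by omega))
  have eY : sm (j + 2) X ^ (1 / 8 : ℝ) = Real.log X ^ (j + 3) := by
    rw [sm, mul_comm, pow_mul, one_div]
    exact_mod_cast Real.pow_rpow_inv_natCast (x := Real.log X ^ (j + 2 + 1)) (n := 8)
      (by positivity) (by norm_num)
  set t' := update (update t u {1}) v {1} with ht'
  have tu : t' u = {1} := by simp [ht', h]
  have tv : t' v = {1} := by simp [ht']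
  have ta : ∀ a ∈ (univ.erase u).erase v, t' a = t a := fun a ha => by
    simp [ht', (mem_erase.1 ha).1, (mem_erase.1 (mem_erase.1 ha).2).1]
  rw [SS, sum_filter, box t u, box _ v, update_of_ne h.symm, ← ht']
  refine (abs_sum_le_sum_abs _ _).trans ((sum_le_sum (g := fun N => C * X * Real.log X ^ 2 /
    Real.log X ^ (j + 3) * ∏ a, (N a : ℝ)⁻¹) fun N hN => ?_).trans ?_)
  · rw [Fintype.mem_piFinset] at hN
    obtain ⟨α, β, ha, hb, ga, gb, e⟩ := split ψ l₁ l₂ hψ N h h1 h0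
    have nu : N u = 1 := by simpa [tu] using hN u
    have nv : N v = 1 := by simpa [tv] using hN v
    have hM : 1 ≤ ∏ a ∈ (univ.erase u).erase v, N a :=
      one_le_prod' fun a ha => (mem_Icc.1 (ht a (ta a ha ▸ hN a))).1
    have := inner hC hB ha hb ga gb hY hu hv (X := X) hM
    rw [eY] at this
    rw [prod_two h, nu, nv, Nat.cast_one, inv_one, one_mul, one_mul, prod_inv_distrib,
      ← Nat.cast_prod]
    refine le_of_eq_of_le (congrArg _ (sum_congr rfl fun k hk => sum_congr rfl fun m _ => ?_)) this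
    change (if ∏ a, up N u v m k a ≤ X then GG ψ l₁ l₂ (up N u v m k) else 0) = _
    rw [prod_two h, up_u, up_v N h, prod_congr rfl fun a ha => up_er N ha m k,
      e m k (by have := (mem_Icc.1 (ht v hk)).1; omega)]
  rw [← mul_sum, ← prod_univ_sum t' fun _ n => (n : ℝ)⁻¹, prod_two h, tu, tv]
  have b : ∏ a ∈ (univ.erase u).erase v, ∑ n ∈ t' a, (n : ℝ)⁻¹ ≤ (2 * Real.log X) ^ j := by
    rw [← hj, ← prod_const]
    refine prod_le_prod (fun a _ => by positivity) fun a ha => ?_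
    have := harmonic_le_one_add_log X
    simp only [harmonic_eq_sum_Icc, Rat.cast_sum, Rat.cast_inv, Rat.cast_natCast] at this
    rw [ta a ha]
    exact (sum_le_sum_of_subset_of_nonneg (ht a) fun _ _ _ => by positivity).trans (by linarith)
  have L0 : 0 < Real.log X := by linarith
  rw [Nat.add_sub_cancel, div_le_iff₀ hε] at Lε
  simp only [sum_singleton, Nat.cast_one, inv_one, one_mul]
  calc _ ≤ C * X * Real.log X ^ 2 / Real.log X ^ (j + 3) * (2 * Real.log X) ^ j := by gcongr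
    _ = C * 2 ^ j / Real.log X * X := by rw [mul_pow]; field_simp; ring
    _ ≤ _ := by gcongr; rw [div_le_iff₀ L0]; linarith

end CA

theorem caseA (_hR : RecStmt) (h : BilStmt) : CaseA := by
  intro V _ _ ψ l₁ l₂ hψ ε hε
  filter_upwards [CA.main h ψ l₁ l₂ hψ ε hε] with X H t ht u v huv hu hv
  have : ∀ x y : ZMod 2, x ≠ y → x = 1 ∧ y = 0 ∨ y = 1 ∧ x = 0 := by decide
  rcases this _ _ huv with e | e
  · exact H t ht u v e.1 e.2 hu hv
  · exact H t ht v u e.1 e.2 hv hu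

end Pool.Agent.Lib.MP_d6ddbd_nt.G
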