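import Pool.Agent.Lib.MP_d6ddbd_nt.G.CaseB1

/-! A large variable linked only to small ones. -/

open Finset Filter

noncomputable section

namespace Pool.Agent.Lib.MP_d6ddbd_nt.G

namespace CB

/-- The sum over the moving variable as a difference of two initial sums. -/
lemma window {s : Finset ℕ} {X M : ℕ} (hM : 1 ≤ M) {y K : ℝ} (hy : 0 ≤ y) (hK : 0 ≤ K)
    (hs : ∀ m, m ∈ s ↔ m ≤ X ∧ y < m) (P : ℕ → Prop) [DecidablePred P] (w : ℕ → ℝ)
    (h : ∀ z : ℝ, y ≤ z → z ≤ X / M → |∑ m ∈ Icc 1 ⌊z⌋₊ with P m, w m| ≤ K * z) :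
    |∑ m ∈ s with (m * M ≤ X ∧ P m), w m| ≤ 2 * K * (X / M) := by
  have hM' : (0 : ℝ) < M := by exact_mod_cast hM
  have hle (m : ℕ) : m * M ≤ X ↔ (m : ℝ) ≤ X / M := by
    rw [le_div_iff₀ hM']; exact_mod_cast Iff.rfl
  by_cases hc : y ≤ X / M
  · have e : s.filter (fun m => m * M ≤ X ∧ P m) =
        (Icc 1 ⌊(X / M : ℝ)⌋₊).filter P \ (Icc 1 ⌊y⌋₊).filter P := by
      ext m
      simp only [mem_filter, Finset.mem_sdiff, mem_Icc, hs, Nat.le_floor_iff hy,
        Nat.le_floor_iff (hy.trans hc), ← hle]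
      constructor
      · rintro ⟨⟨_, h2⟩, h3, h4⟩
        have : 0 < m := by exact_mod_cast hy.trans_lt h2
        exact ⟨⟨⟨this, h3⟩, h4⟩, fun h5 => absurd h5.1.2 (not_le.2 h2)⟩
      · rintro ⟨⟨⟨h1, h2⟩, h3⟩, h4⟩
        refine ⟨⟨(Nat.le_mul_of_pos_right m hM).trans h2, ?_⟩, h2, h3⟩
        by_contra h5
        exact h4 ⟨⟨h1, not_lt.1 h5⟩, h3⟩
    rw [e, sum_sdiff_eq_sub (filter_subset_filter _ (Icc_subset_Icc_right (Nat.floor_mono hc)))]
    have h1 := h _ hc le_rfl
    have h2 := h _ le_rfl hc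
    have h3 := mul_le_mul_of_nonneg_left hc hK
    refine (abs_sub _ _).trans ?_
    linarith
  · rw [sum_eq_zero, abs_zero]
    · positivity
    · intro m hm
      obtain ⟨h1, h2, _⟩ := mem_filter.1 hm
      exact absurd (((hs m).1 h1).2.le.trans ((hle m).1 h2)) hc

end CB

open CB in
theorem caseB (hR : RecStmt) (h : SwStmt) : CaseB := by
  intro V _ _ ψ l₁ l₂ hψ ε hε
  set k := Fintype.card V with hk
  obtain ⟨C, hC0, hC⟩ := h (k + 1) (8 * (k + 1) * k + 1) (1 / (8 * (k + 1))) (by positivity)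
  have hlog : Tendsto (fun X : ℕ => Real.log X) atTop atTop :=
    Real.tendsto_log_atTop.comp tendsto_natCast_atTop_atTop
  filter_upwards [eventually_ge_atTop 102, hlog.eventually_ge_atTop 17,
    hlog.eventually_ge_atTop (2 * C * 2 ^ k / ε)] with X hX hL hL2 t ht u hu hsm hex
  obtain ⟨v, hv, hv1⟩ := hex
  have hX' : (102 : ℝ) ≤ X := by exact_mod_cast hX
  have hL0 : 0 < Real.log X := by linarith
  have hne {w : V} (hw : ψ u w ≠ ψ w u) : w ≠ u := by rintro rfl; exact hw rfl
  have ht' (w : V) : Function.update t u {1} w ⊆ Icc 1 X := by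
    by_cases hw : w = u
    · subst hw; rw [Function.update_self, singleton_subset_iff, mem_Icc]; omega
    · rw [Function.update_of_ne hw]; exact ht w
  have key : ∀ N ∈ Fintype.piFinset (Function.update t u {1}),
      |∑ m ∈ t u, if ∏ a, Function.update N u m a ≤ X then
        GG ψ l₁ l₂ (Function.update N u m) else 0| ≤
        2 * (C / Real.log X ^ (k + 1)) * X * ((∏ a, N a : ℕ) : ℝ)⁻¹ := by
    intro N hN
    rw [Fintype.mem_piFinset] at hN
    have h1 : N u = 1 := by simpa using hN u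
    have hw {w : V} (hw : ψ u w ≠ ψ w u) : N w ∈ t w := by
      simpa only [Function.update_of_ne (hne hw)] using hN w
    have hM : 1 ≤ ∏ a, N a := one_le_prod' fun a _ => (mem_Icc.1 (ht' a (hN a))).1
    have hM' : (1 : ℝ) ≤ (∏ a, N a : ℕ) := by exact_mod_cast hM
    by_cases hO : Ok N
    · have e : (∑ m ∈ t u, if ∏ a, Function.update N u m a ≤ X then
          GG ψ l₁ l₂ (Function.update N u m) else 0) = GG ψ l₁ l₂ N *
          ∑ m ∈ t u with (m * ∏ a, N a ≤ X ∧ Squarefree m ∧ m.Coprime (102 * ∏ a, N a)),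
            ((4 : ℝ) ^ m.primeFactors.card)⁻¹ * jacobiSym (dd ψ l₁ l₂ N u) m := by
        rw [sum_filter, mul_sum]
        refine sum_congr rfl fun m _ => ?_
        rw [prod_upd h1]
        by_cases a1 : m * ∏ a, N a ≤ X
        · by_cases a2 : Squarefree m ∧ m.Coprime (102 * ∏ a, N a)
          · rw [if_pos a1, if_pos ⟨a1, a2⟩, phase hR l₁ l₂ (hψ u) h1 hO a2.1 a2.2]
          · rw [if_pos a1, if_neg fun a => a2 a.2, mul_zero, GG,
              if_neg fun a => a2 ((ok_update h1 m).1 a).2]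
        · rw [if_neg a1, if_neg fun a => a1 a.1, mul_zero]
      rw [e, abs_mul, mul_assoc _ (X : ℝ), ← div_eq_mul_inv]
      refine (mul_le_of_le_one_left (abs_nonneg _) (abs_GG _ _ _ _)).trans ?_
      have hlg : 1 ≤ lg k X := Real.one_le_exp (by positivity)
      refine window hM (zero_le_one.trans hlg) (by positivity) hu _ _ fun z hz1 hz2 => ?_
      have hMX : ((∏ a, N a : ℕ) : ℝ) ≤ X := by
        have := (le_div_iff₀ (zero_lt_one.trans_le hM')).1 (hlg.trans (hz1.trans hz2))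
        rwa [one_mul] at this
      rw [div_mul_eq_mul_div]
      refine hC X z _ _ (by linarith) hz1 (hz2.trans (div_le_self (by positivity) hM'))
        (dd_nsq ψ l₁ l₂ hO hv fun a => hv1 (a ▸ hw hv)) ?_ (by omega) ?_ ⟨51 * ∏ a, N a, by ring⟩
      · refine (abs_dd ψ l₁ l₂ hO u (Y := sm k X) (one_le_pow₀ (by linarith))
          fun w a => hsm w a _ (hw a)).trans ?_
        rw [sm, ← pow_mul, pow_succ']
        exact mul_le_mul_of_nonneg_right hL (by positivity)
      · rw [Nat.cast_mul, pow_two]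
        exact mul_le_mul (by exact_mod_cast hX) hMX (by positivity) (by positivity)
    · rw [sum_eq_zero, abs_zero]
      · positivity
      · intro m _
        rw [GG, if_neg fun a => hO ((ok_update h1 m).1 a).1, ite_self]
  rw [SS, sum_filter, split t u]
  refine (abs_sum_le_sum_abs _ _).trans ((sum_le_sum key).trans ?_)
  rw [← mul_sum]
  have h2 : (1 + Real.log X) ^ k ≤ 2 ^ k * Real.log X ^ k := by
    rw [← mul_pow]
    exact pow_le_pow_left₀ (by positivity) (by linarith) k
  refine (mul_le_mul_of_nonneg_left ((harm _ X ht').trans h2) (by positivity)).trans ?_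
  have e : 2 * (C / Real.log X ^ (k + 1)) * X * (2 ^ k * Real.log X ^ k) =
      2 * C * 2 ^ k / Real.log X * X := by
    rw [pow_succ]
    field_simp
  rw [e]
  refine mul_le_mul_of_nonneg_right ?_ (by positivity)
  rw [div_le_iff₀ hL0, mul_comm ε]
  exact (div_le_iff₀ hε).1 hL2

end Pool.Agent.Lib.MP_d6ddbd_nt.G
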