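import Pool.Agent.Lib.MP_d6ddbd_nt.G.Box

/-! Tuples with at most three large variables are negligible. -/

open Finset Filter

namespace Pool.Agent.Lib.MP_d6ddbd_nt.G

namespace CC

variable {V : Type} [Fintype V] [LinearOrder V]

open Classical in
theorem gg0 (N : V → ℕ) : GG 0 0 0 N =
    if Ok N then ((4 : ℝ) ^ ∑ u, (N u).primeFactors.card)⁻¹ else 0 := by
  simp [GG, sg]

theorem gg0_nonneg (N : V → ℕ) : 0 ≤ GG 0 0 0 N := by
  rw [gg0]
  split_ifs <;> positivity

theorem abs_gg (ψ : V → V → ZMod 2) (l₁ l₂ : V → ZMod 2) (N : V → ℕ) :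
    |GG ψ l₁ l₂ N| = GG 0 0 0 N := by
  have h : ∀ z, |(sg z : ℝ)| = 1 := fun z => by unfold sg; split_ifs <;> simp
  rw [gg0, GG]
  split_ifs
  · rw [abs_mul, h, mul_one, abs_of_nonneg (by positivity)]
  · simp

theorem gg0_mono {N B : V → ℕ} (h : ∀ u, B u = N u ∨ B u = 1) : GG 0 0 0 N ≤ GG 0 0 0 B := by
  by_cases hN : Ok N
  · have hB : Ok B := by
      refine ⟨fun u => ?_, fun u v huv => ?_⟩
      · rcases h u with e | e <;> rw [e]
        · exact hN.1 u
        · simp [Prs]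
      · rcases h u with e | e <;> rcases h v with e' | e' <;> rw [e, e']
        · exact hN.2 u v huv
        all_goals simp
    rw [gg0, gg0, if_pos hN, if_pos hB]
    refine inv_anti₀ (by positivity) (pow_le_pow_right₀ (by norm_num) (sum_le_sum fun u _ => ?_))
    rcases h u with e | e <;> simp [e]
  · rw [gg0, if_neg hN]
    exact gg0_nonneg B

theorem ss0_le (hB : BridgeStmt) {W : Finset V} (hW : W.card ≤ 3) (Y : ℕ) :
    SS 0 0 0 Y (tW W Y) ≤
      ∑ n ∈ Icc 1 Y with Squarefree n, (3 / 4 : ℝ) ^ n.primeFactors.card := by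
  rw [hB]
  refine (sum_le_sum (g := fun n => (3 / 4 : ℝ) ^ n.primeFactors.card) fun n _ => ?_).trans
    (sum_le_sum_of_subset_of_nonneg (fun n hn => ?_) fun _ _ _ => by positivity)
  · have h3 : (W.card : ℝ) ≤ 3 := by exact_mod_cast hW
    simp only [TT, Ph, sg, Pi.zero_apply, mul_zero, sum_const_zero, add_zero, if_true, Int.cast_one,
      sum_const, Fintype.card_piFinset, prod_const, card_univ, Fintype.card_coe, nsmul_eq_mul,
      mul_one, Nat.cast_pow]
    rw [div_pow, div_eq_inv_mul]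
    gcongr
  · simp only [Sq, mem_filter] at hn ⊢
    exact ⟨hn.1, hn.2.1⟩

theorem inner (t : V → Finset ℕ) (ht : ∀ u, ∀ k ∈ t u, 1 ≤ k) (W : Finset V) (X : ℕ) {A : V → ℕ}
    (hA : A ∈ Fintype.piFinset fun u => if u ∈ W then {1} else t u) :
    ∑ B ∈ Fintype.piFinset fun u => if u ∈ W then t u else {1},
      (if ∏ u, (if u ∈ W then B u else A u) ≤ X then GG 0 0 0 fun u => if u ∈ W then B u else A u
        else 0) ≤ SS 0 0 0 (X / ∏ u, A u) (tW W (X / ∏ u, A u)) := by
  rw [Fintype.mem_piFinset] at hA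
  have hA1 : ∀ u ∈ W, A u = 1 := fun u hu => by simpa [hu] using hA u
  have hM : 0 < ∏ u, A u := prod_pos fun u _ => by
    by_cases hu : u ∈ W
    · rw [hA1 u hu]; exact one_pos
    · exact ht u _ (by simpa [hu] using hA u)
  rw [← sum_filter, SS]
  refine (sum_le_sum (g := fun B => GG 0 0 0 B) fun B hB => gg0_mono fun u => ?_).trans
    (sum_le_sum_of_subset_of_nonneg (fun B hB => ?_) fun B _ _ => gg0_nonneg B)
  · have := Fintype.mem_piFinset.1 (mem_filter.1 hB).1 u
    by_cases hu : u ∈ W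
    · simp [hu]
    · exact Or.inr (by simpa [hu] using this)
  · obtain ⟨h1, h2⟩ := mem_filter.1 hB
    rw [Fintype.mem_piFinset] at h1
    have hB1 : ∀ u ∉ W, B u = 1 := fun u hu => by simpa [hu] using h1 u
    have hp : ∀ u, 1 ≤ B u := fun u => by
      by_cases hu : u ∈ W
      · exact ht u _ (by simpa [hu] using h1 u)
      · rw [hB1 u hu]
    have e : ∏ u, (if u ∈ W then B u else A u) = (∏ u, B u) * ∏ u, A u := by
      rw [← prod_mul_distrib]
      refine prod_congr rfl fun u _ => ?_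
      by_cases hu : u ∈ W
      · simp [hu, hA1 u hu]
      · simp [hu, hB1 u hu]
    rw [e, ← Nat.le_div_iff_mul_le hM] at h2
    refine mem_filter.2 ⟨Fintype.mem_piFinset.2 fun u => ?_, h2⟩
    by_cases hu : u ∈ W
    · simp only [tW, hu, if_true, mem_Icc]
      exact ⟨hp u, (single_le_prod' (fun v _ => hp v) (mem_univ u)).trans h2⟩
    · simp [tW, hu, hB1 u hu]

end CC

open CC in
theorem caseC (hB : BridgeStmt) (h : HtStmt) : CaseC := by
  intro V _ _ ψ l₁ l₂ ε hε
  obtain ⟨C, hC, hH⟩ := h.1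
  set k := Fintype.card V with hk
  have hr : Tendsto (fun X : ℕ => Real.log X ^ (1 / 8 : ℝ)) atTop atTop :=
    (tendsto_rpow_atTop (by norm_num)).comp
      (Real.tendsto_log_atTop.comp tendsto_natCast_atTop_atTop)
  filter_upwards [hr.eventually_ge_atTop 2, hr.eventually_ge_atTop k,
    hr.eventually_ge_atTop (C * 2 ^ (k + 1) / ε), eventually_ge_atTop 1] with X h2 h3 h4 hX t ht W
    hW hs
  have hX0 : (0 : ℝ) < X := by exact_mod_cast hX
  have hL0 : 0 ≤ Real.log X := Real.log_natCast_nonneg X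
  set L := Real.log X with hL
  set r := L ^ (1 / 8 : ℝ) with hrd
  have hr8 : r ^ 8 = L := by
    rw [hrd, ← Real.rpow_natCast, ← Real.rpow_mul hL0]
    norm_num
  have hr0 : 0 < r := by linarith
  have hr6 : 2 ≤ r ^ 6 := h2.trans (le_self_pow₀ (by linarith) (by norm_num))
  have hr2 : 4 ≤ r ^ 2 := by
    have := pow_le_pow_left₀ (by norm_num) h2 2
    linarith
  have hL2 : r ^ 2 ≤ L / 2 := by
    have := mul_le_mul_of_nonneg_left hr6 (sq_nonneg r)
    rw [← hr8]
    linarith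
  have hL1 : 1 ≤ L := by linarith
  set d := L ^ (1 / (8 * (k + 1)) : ℝ) with hd
  have hd1 : 1 ≤ d := Real.one_le_rpow hL1 (by positivity)
  have hdk : d ^ (k + 1) = r := by
    rw [hd, hrd, ← Real.rpow_natCast, ← Real.rpow_mul hL0]
    congr 1
    push_cast
    field_simp
  have hdr : d ≤ r := hdk ▸ le_self_pow₀ hd1 (by omega)
  have hdk' : d ^ k ≤ r := hdk ▸ pow_le_pow_right₀ hd1 (by omega)
  have hlg : lg k X = Real.exp d := rfl
  have he1 : 1 ≤ Real.exp d := Real.one_le_exp (by linarith)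
  have ht1 : ∀ u, ∀ m ∈ t u, 1 ≤ m := fun u m hm => (mem_Icc.1 (ht u hm)).1
  have hbox : ∀ u, ∀ m ∈ (if u ∈ W then {1} else t u : Finset ℕ), 1 ≤ m ∧ (m : ℝ) ≤ Real.exp d := by
    intro u m hm
    by_cases hu : u ∈ W
    · obtain rfl : m = 1 := by simpa [hu] using hm
      exact ⟨le_rfl, by simpa using he1⟩
    · rw [if_neg hu] at hm
      exact ⟨ht1 u m hm, hs u hu m hm⟩
  have key : ∀ A ∈ Fintype.piFinset fun u => if u ∈ W then {1} else t u,
      SS 0 0 0 (X / ∏ u, A u) (tW W (X / ∏ u, A u)) ≤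
        C * X / (r ^ 2 / 2) * (((∏ u, A u : ℕ) : ℝ))⁻¹ := by
    intro A hA
    rw [Fintype.mem_piFinset] at hA
    have hM : 0 < ∏ u, A u := prod_pos fun u _ => (hbox u _ (hA u)).1
    have hM' : (0 : ℝ) < (∏ u, A u : ℕ) := by exact_mod_cast hM
    have hM1 : ((∏ u, A u : ℕ) : ℝ) ≤ Real.exp d ^ k := by
      rw [Nat.cast_prod, hk, ← card_univ, ← prod_const]
      exact prod_le_prod (fun u _ => by positivity) fun u _ => (hbox u _ (hA u)).2
    have hM2 : Real.log (∏ u, A u : ℕ) ≤ L / 2 := by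
      have h5 := Real.log_le_log hM' hM1
      rw [Real.log_pow, Real.log_exp] at h5
      have h6 : (k : ℝ) * d ≤ r * r := mul_le_mul h3 hdr (by linarith) hr0.le
      linarith
    have hq : L / 2 ≤ Real.log (X / (∏ u, A u : ℕ)) := by
      rw [Real.log_div hX0.ne' hM'.ne']
      linarith
    have hq2 : (2 : ℝ) ≤ X / (∏ u, A u : ℕ) := by
      have h5 := Real.log_le_sub_one_of_pos (div_pos hX0 hM')
      linarith
    have h5 := hH _ hq2
    rw [Nat.floor_div_eq_div] at h5
    refine (ss0_le hB hW _).trans (h5.trans ?_)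
    have h6 : r ^ 2 / 2 ≤ Real.log (X / (∏ u, A u : ℕ)) ^ (1 / 4 : ℝ) := by
      have h7 : r ^ 2 / 2 = ((r ^ 2 / 2) ^ 4) ^ (1 / 4 : ℝ) := by
        rw [← Real.rpow_natCast (r ^ 2 / 2), ← Real.rpow_mul (by positivity)]
        norm_num
      rw [h7]
      refine Real.rpow_le_rpow (by positivity) (le_trans ?_ hq) (by norm_num)
      rw [← hr8]
      have : 0 ≤ r ^ 8 := by positivity
      linarith [show (r ^ 2 / 2) ^ 4 = r ^ 8 / 16 by ring]
    calc _ ≤ C * (X / (∏ u, A u : ℕ)) / (r ^ 2 / 2) :=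
          div_le_div_of_nonneg_left (by positivity) (by positivity) h6
      _ = _ := by ring
  have h5 := Box.harm _ he1 hbox
  rw [Real.log_exp] at h5
  have h6 : (1 + d) ^ k ≤ 2 ^ k * r := by
    calc (1 + d) ^ k ≤ (2 * d) ^ k := pow_le_pow_left₀ (by linarith) (by linarith) k
      _ = 2 ^ k * d ^ k := mul_pow _ _ _
      _ ≤ _ := by gcongr
  calc |SS ψ l₁ l₂ X t| ≤ ∑ N ∈ Fintype.piFinset t with ∏ u, N u ≤ X, GG 0 0 0 N :=
        (abs_sum_le_sum_abs _ _).trans (sum_le_sum fun N _ => (abs_gg ψ l₁ l₂ N).le)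
    _ ≤ ∑ A ∈ Fintype.piFinset fun u => if u ∈ W then {1} else t u,
          C * X / (r ^ 2 / 2) * (((∏ u, A u : ℕ) : ℝ))⁻¹ := by
        rw [sum_filter, Box.split t W]
        exact sum_le_sum fun A hA => (inner t ht1 W X hA).trans (key A hA)
    _ ≤ C * X / (r ^ 2 / 2) * (2 ^ k * r) := by
        rw [← mul_sum]
        exact mul_le_mul_of_nonneg_left (h5.trans h6) (by positivity)
    _ = C * 2 ^ (k + 1) / r * X := by
        field_simp
        ring
    _ ≤ ε * X := by
        refine mul_le_mul_of_nonneg_right ?_ hX0.le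
        rw [div_le_iff₀ hr0]
        rw [div_le_iff₀ hε] at h4
        linarith

end Pool.Agent.Lib.MP_d6ddbd_nt.G
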