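import Pool.Agent.Lib.MP_d6ddbd_nt.G.Defs

/-! Statements of the pieces of the arithmetic half. -/

open Finset Filter

noncomputable section

namespace Pool.Agent.Lib.MP_d6ddbd_nt.G

/-- The linear system of the descent, for functions. -/
def Sys (S : Finset ℕ) (a b : ℕ → ZMod 2) : Prop := ∀ p ∈ S,
  ∑ q ∈ S, al p q * (a p + a q) = ep p * (a p + b p) ∧
  ∑ q ∈ S, al p q * (b p + b q) = ga p * a p

/-- The sign attached to an element of `ZMod 2`. -/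
def sg (z : ZMod 2) : ℤ := if z = 0 then 1 else -1

/-- The point is defined over the field generated by the square roots of the `p*`, `p ∈ S`. -/
def Fix (S : Finset ℕ) (P : Pt) : Prop :=
  ∀ σ : ℂ ≃+* ℂ, (∀ p ∈ S, sgn σ p = 0) → act σ P = P

/-! ### Linear algebra over `ZMod 2` -/

/-- Quadratic reciprocity. -/
def RecStmt : Prop :=
  (∀ p : ℕ, p.Prime → al p p = 0) ∧
  ∀ p q : ℕ, p.Prime → q.Prime → p ≠ 2 → q ≠ 2 → p ≠ q → al p q + al q p = ep p * ep q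

/-- The convolution identity. -/
def ConvStmt : Prop := ∀ T : Finset ℕ, Adm T → ∀ p ∈ T,
  ∑ e ∈ T.powerset with (∑ q ∈ e, ep q = 0 ∧ ∑ q ∈ e, ga q = 0), sS e * lam (T \ e) p = gT T

/-- Easy facts on the kernel. -/
def KerStmt : Prop :=
  (∀ T : Finset ℕ, ∃ b, Sys T (lam T) b) ∧
  (∀ (T : Finset ℕ) (p : ℕ), p ∉ T → lam T p = 0) ∧
  (∀ T : Finset ℕ, Good T → ∃ p ∈ T, lam T p = 1) ∧
  (∀ e : Finset ℕ, e.Nonempty → (∀ p ∈ e, ga p = 0) → sS e = 0) ∧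
  sS ∅ = 1 ∧
  (∀ q : ℕ, ep q = 1 → ga q = 0 → lam {q} q = 1 ∧ gT {q} = 1) ∧
  (∀ (T : Finset ℕ) (a b : ℕ → ZMod 2), Adm T → gT T = 1 → (∃ p ∈ T, ga p = 1) → Sys T a b →
    (∀ p ∈ T, ga p * a p = 0) → ∀ p ∈ T, a p = 0)

/-- The auxiliary prime. -/
def AuxStmt : Prop := ∀ e : Finset ℕ, Pos e → ∃ q : ℕ, q ∉ e ∧ ep q = 1 ∧ ga q = 0 ∧
  Adm (insert q e) ∧ gT (insert q e) = 1

/-- The parity of the dimension of the kernel. -/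
def ParStmt : Prop :=
  (∀ T : Finset ℕ, Adm T → (Ker T).card = 2 ∨ 8 ≤ (Ker T).card) ∧
  ∀ T : Finset ℕ, Pos T → (Ker T).card = 1 ∨ 4 ≤ (Ker T).card

/-! ### Fields -/

/-- Automorphisms of `ℂ` and multiquadratic fields. -/
def FieldStmt : Prop :=
  (∀ p : ℕ, sq p ^ 2 = ps p) ∧
  (∀ (σ : ℂ ≃+* ℂ) (p : ℕ), σ (sq p) = sg (sgn σ p) * sq p) ∧
  (∀ (σ τ : ℂ ≃+* ℂ) (p : ℕ), sgn (σ.trans τ) p = sgn σ p + sgn τ p) ∧
  (∀ S : Finset ℕ, (∀ p ∈ S, p.Prime) → ∀ e : ℕ → ZMod 2,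
    ∃ σ : ℂ ≃+* ℂ, ∀ p ∈ S, sgn σ p = e p) ∧
  (∀ S : Finset ℕ, (∀ p ∈ S, p.Prime ∧ p ≠ 2) →
    ∃ σ : ℂ ≃+* ℂ, (∀ p ∈ S, sgn σ p = 0) ∧ σ Complex.I = -Complex.I) ∧
  ∀ y : ℂ, (∀ σ : ℂ ≃+* ℂ, σ y = y) → ∃ r : ℚ, y = r

/-! ### The curve -/

/-- The points which do not reduce to the node form a subgroup that meets the multiples of `T0`
trivially. -/
def CurveStmt : Prop :=
  (4 : ℤ) • T0 = 0 ∧ (∀ σ : ℂ ≃+* ℂ, act σ T0 = T0) ∧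
  (∀ (σ τ : ℂ ≃+* ℂ) (P : Pt), act (σ.trans τ) P = act τ (act σ P)) ∧
  (∀ P : Pt, act (RingEquiv.refl ℂ) P = P) ∧
  ∀ O : ValuationSubring ℂ, (17 : ℂ) ∈ O.nonunits → ∃ E : AddSubgroup Pt,
    (∀ P, P ∈ E ↔ In0 O P) ∧ ∀ j : ℤ, j • T0 ∈ E → 4 ∣ j

/-- The torsion over the genus field. -/
def TorsStmt : Prop := ∀ S : Finset ℕ, Prs S → ∀ P : Pt, Fix S P → IsOfFinAddOrder P →
  ∃ n j : ℤ, Odd n ∧ n • P = j • T0

/-- The local conditions satisfied by a rational point of the twist. -/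
def DescStmt : Prop := ∀ S : Finset ℕ, Prs S → ∀ a ⊆ S, ∀ x y r : ℚ, y ≠ 0 → (x, y) ∈ Tw (dsc S) →
  (dsc S : ℚ) * x = dsc a * r ^ 2 → Even (padicValRat 17 (x + 1)) →
    ∃ b ⊆ S, (a, b) ∈ Ker S ∧ ∃ r' : ℚ, (dsc S : ℚ) * (x + 1) = dsc b * r' ^ 2

/-- The Selmer constraint on the components of an isotypic point. -/
def SelStmt : Prop := ∀ S : Finset ℕ, Prs S → ∀ O : ValuationSubring ℂ, (17 : ℂ) ∈ O.nonunits →
  ∀ (V : Pt) (μ : ℕ → ZMod 2) (k : ℤ), Fix S V →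
    (∀ σ : ℂ ≃+* ℂ, IsOfFinAddOrder (act σ V - sg (∑ p ∈ S, sgn σ p) • V)) →
    (∀ σ : ℂ ≃+* ℂ, In0 O (act σ V - (2 * ((∑ p ∈ S, μ p * sgn σ p).val : ℤ) + k) • T0)) →
    ∃ b, Sys S μ b

/-- A point of infinite order in the eigenspace gives infinitely many points of the twist. -/
def InfStmt : Prop := ∀ S : Finset ℕ, Prs S → ∀ P : Pt, ¬ IsOfFinAddOrder P →
  (∀ σ : ℂ ≃+* ℂ, act σ P = sg (∑ p ∈ S, sgn σ p) • P) → (Tw (dsc S)).Infinite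

/-- The descent: finitely many points when the kernel is trivial. -/
def FinStmt : Prop := ∀ S : Finset ℕ, Prs S → (Ker S).card = 1 → (Tw (dsc S)).Finite

/-- The main theorem on genus points. -/
def IndStmt : Prop := GeomStmt → ∀ S : Finset ℕ, Adm S → Good S → (Tw (dsc S)).Infinite

/-! ### Analytic number theory -/

/-- Double oscillation of the Jacobi symbol. -/
def BilStmt : Prop := ∃ C : ℝ, 0 ≤ C ∧ ∀ (α β : ℕ → ℝ) (T Y : ℝ), 2 ≤ Y → 2 ≤ T →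
  (∀ m, |α m| ≤ 1) → (∀ k, |β k| ≤ 1) →
  (∀ m, α m ≠ 0 → Squarefree m ∧ Odd m ∧ Y < m) → (∀ k, β k ≠ 0 → Squarefree k ∧ Odd k ∧ Y < k) →
  |∑ m ∈ Icc 1 ⌊T⌋₊, ∑ k ∈ Icc 1 ⌊T⌋₊ with ((m * k : ℕ) : ℝ) ≤ T, α m * β k * jacobiSym m k| ≤
    C * T * Real.log T ^ 2 / Y ^ (1 / 8 : ℝ)

/-- A Siegel-Walfisz bound for the weight `4 ^ (-ω)`. -/
def SwStmt : Prop := ∀ (A B : ℕ) (η : ℝ), 0 < η → ∃ C : ℝ, 0 ≤ C ∧ ∀ (X y : ℝ) (d : ℤ) (r : ℕ),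
  3 ≤ X → Real.exp (Real.log X ^ η) ≤ y → y ≤ X → ¬ IsSquare d → (|d| : ℝ) ≤ Real.log X ^ B →
  1 ≤ r → (r : ℝ) ≤ X ^ 2 → 2 ∣ r →
  |∑ m ∈ Icc 1 ⌊y⌋₊ with (Squarefree m ∧ m.Coprime r),
    ((4 : ℝ) ^ m.primeFactors.card)⁻¹ * jacobiSym d m| ≤ C * y / Real.log X ^ A

/-- Upper bounds for mean values of multiplicative functions. -/
def HtStmt : Prop :=
  (∃ C : ℝ, 0 ≤ C ∧ ∀ X : ℝ, 2 ≤ X →
    ∑ n ∈ Icc 1 ⌊X⌋₊ with Squarefree n, (3 / 4 : ℝ) ^ n.primeFactors.card ≤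
      C * X / Real.log X ^ (1 / 4 : ℝ)) ∧
  ∀ (e g : ZMod 2) (ε : ℝ), 0 < ε → ∀ᶠ X : ℕ in atTop,
    ∑ n ∈ Icc 1 X with Squarefree n,
      (1 / 2 : ℝ) ^ (n.primeFactors.filter fun p => ep p = e ∧ ga p = g).card ≤ ε * X

/-- The squarefree numbers up to `X`, prime to `102`, with `n ≡ 1 + 2 e mod 4` and `17` a residue. -/
noncomputable def Cl (e : ZMod 2) (X : ℕ) : Finset ℕ := by
  classical exact (Icc 1 X).filter fun n => Squarefree n ∧ Prs n.primeFactors ∧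
    ∑ p ∈ n.primeFactors, ep p = e ∧ ∑ p ∈ n.primeFactors, ga p = 0

/-- The classes have positive density. -/
def ClStmt : Prop := ∃ c : ℝ, 0 < c ∧ ∀ e : ZMod 2, ∀ᶠ X : ℕ in atTop, c * X ≤ (Cl e X).card

/-- The first moments. -/
def MomStmt : Prop := ∀ (e : ZMod 2) (ε : ℝ), 0 < ε → ∀ᶠ X : ℕ in atTop,
  ∑ n ∈ Cl e X, ((Ker n.primeFactors).card : ℝ) ≤ 3 * (Cl e X).card + ε * X ∧
  ∑ n ∈ Cl e X, (((Ker n.primeFactors).filter fun x => x.1 = ∅).card : ℝ) ≤ (Cl e X).card + ε * X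

end Pool.Agent.Lib.MP_d6ddbd_nt.G
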