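import Pool.Agent.Lib.MP_d6ddbd_nt.G.ConvC
import Pool.Agent.Lib.MP_d6ddbd_nt.G.Stmt

/-!
The convolution identity for the residue symbols.
-/

open Finset Module

noncomputable section

namespace Pool.Agent.Lib.MP_d6ddbd_nt.G

namespace Cv

/-- Reciprocity on `S`. -/
def Rc (S : Finset ℕ) : Prop := ∀ p ∈ S, ∀ q ∈ S, p ≠ q → al p q + al q p = ep p * ep q

theorem Rc.mono {S T : Finset ℕ} (h : Rc T) (hS : S ⊆ T) : Rc S :=
  fun p hp q hq => h p (hS hp) q (hS hq)

theorem Rc.pt {S : Finset ℕ} (h : Rc S) {p q : ℕ} (hp : p ∈ S) (hq : q ∈ S) :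
    al p q + al q p = ep p * ep q + if q = p then ep p else 0 := by
  split_ifs with hpq
  · rw [hpq, add_self', mul_self', add_self']
  · rw [h p hp q hq (Ne.symm hpq), add_zero]

theorem ind_of_mem {S : Finset ℕ} {p : ℕ} (hp : p ∈ S) : ind S p = 1 := if_pos hp

theorem ind_mem {A S : Finset ℕ} (h : A ⊆ S) : ind A ∈ sup S :=
  fun _ hp => if_neg fun h' => hp (h h')

theorem ind_empty : ind ∅ = 0 := funext fun _ => if_neg (notMem_empty _)

theorem ind_eq_one {A : Finset ℕ} {p : ℕ} : ind A p = 1 ↔ p ∈ A := by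
  unfold ind; split_ifs with h <;> simp [h]

theorem ind_inj {A B : Finset ℕ} (h : ind A = ind B) : A = B := by
  ext p; rw [← ind_eq_one, h, ind_eq_one]

theorem exists_ind {S : Finset ℕ} {a : ℕ → F} (ha : a ∈ sup S) : ∃ A ⊆ S, ind A = a := by
  refine ⟨S.filter fun p => a p = 1, filter_subset _ _, funext fun p => ?_⟩
  unfold ind
  split_ifs with h
  · exact (mem_filter.1 h).2.symm
  · by_cases hp : p ∈ S
    · exact ((f01 _).resolve_right fun h' => h (mem_filter.2 ⟨hp, h'⟩)).symm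
    · exact (ha p hp).symm

theorem sup_ext {S : Finset ℕ} (f : (ℕ → F) →ₗ[F] F) (h : ∀ p ∈ S, f (Pi.single p 1) = 0)
    {a : ℕ → F} (ha : a ∈ sup S) : f a = 0 := by
  have e : a = ∑ p ∈ S, a p • Pi.single p (1 : F) := funext fun q => by
    rw [Finset.sum_apply]
    by_cases hq : q ∈ S
    · rw [sum_eq_single_of_mem q hq (fun p _ hp => by simp [hp.symm])]; simp
    · rw [ha q hq]
      exact (sum_eq_zero fun p hp => by simp [show q ≠ p from fun h' => hq (h' ▸ hp)]).symm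
  rw [e, map_sum]
  exact sum_eq_zero fun p hp => by rw [map_smul, h p hp, smul_zero]

theorem dg_ind (e : ℕ → F) (S : Finset ℕ) (a : ℕ → F) : dg e S (ind S) a = ∑ p ∈ S, e p * a p :=
  sum_congr rfl fun p hp => by rw [ind_of_mem hp, mul_one]

theorem dg_self (e : ℕ → F) (S : Finset ℕ) (a : ℕ → F) : dg e S a a = ∑ p ∈ S, e p * a p :=
  sum_congr rfl fun p _ => by rw [mul_assoc, mul_self']

theorem bet_ind (A : ℕ → ℕ → F) (S : Finset ℕ) (a : ℕ → F) : bet A S a (ind S) = 0 :=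
  sum_eq_zero fun p hp => sum_eq_zero fun q hq => by
    rw [ind_of_mem hp, ind_of_mem hq, add_self', mul_zero]

theorem bet_single (A : ℕ → ℕ → F) {S : Finset ℕ} {p : ℕ} (hp : p ∈ S) (b : ℕ → F) :
    bet A S (Pi.single p 1) b = ∑ q ∈ S, A p q * (b p + b q) := by
  rw [bet_apply, sum_eq_single_of_mem p hp (fun q _ hq => by simp [hq])]
  simp

theorem bet_rec {S : Finset ℕ} (h : Rc S) (a b : ℕ → F) :
    bet al S a b = bet al S b a + (∑ p ∈ S, ep p * a p) * (∑ p ∈ S, ep p * b p) + dg ep S a b := by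
  have h1 : bet al S a b + bet al S b a = ∑ p ∈ S, ∑ q ∈ S, (al p q + al q p) * (a p * b q) := by
    have h2 : ∑ p ∈ S, ∑ q ∈ S, al q p * (a p * b q) = ∑ p ∈ S, ∑ q ∈ S, al p q * (a q * b p) :=
      sum_comm
    simp only [add_mul, sum_add_distrib]
    rw [h2]
    simp only [bet_apply, ← sum_add_distrib]
    exact sum_congr rfl fun p _ => sum_congr rfl fun q _ => by
      linear_combination add_self' (al p q * a p * b p)
  have h2 : ∑ p ∈ S, ∑ q ∈ S, (al p q + al q p) * (a p * b q) =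
      (∑ p ∈ S, ep p * a p) * (∑ p ∈ S, ep p * b p) + dg ep S a b := by
    rw [sum_mul_sum, dg_apply, ← sum_add_distrib]
    refine sum_congr rfl fun p hp => ?_
    have h3 : ep p * a p * b p = ∑ q ∈ S, (if q = p then ep p else 0) * (a p * b q) := by
      rw [sum_eq_single_of_mem p hp (fun q _ hq => by simp [hq]), if_pos rfl, mul_assoc]
    rw [h3, ← sum_add_distrib]
    exact sum_congr rfl fun q hq => by rw [h.pt hp hq]; ring
  linear_combination h1 + h2 - add_self' (bet al S b a)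

theorem r1 {S : Finset ℕ} (h : Rc S) (h1 : ∑ p ∈ S, ep p + ∑ p ∈ S, ga p = 1) :
    ¬ ND (fm al ep ga S) (WW S S) := by
  intro hn
  have h2 : ∀ e : ℕ → F, ∑ p ∈ S, e p * ind S p = ∑ p ∈ S, e p := fun e =>
    sum_congr rfl fun p hp => by rw [ind_of_mem hp, mul_one]
  have hc : ∀ z : Z, fm al ep ga S (ind S, (∑ p ∈ S, ep p) • ind S) z =
      ∑ p ∈ S, ga p * z.1 p + ∑ p ∈ S, ep p * z.2 p := fun z => by
    rw [fm_apply]
    simp only [map_smul, LinearMap.smul_apply, smul_eq_mul]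
    rw [bet_rec h (ind S), bet_ind, bet_ind, dg_ind, dg_ind, h2]
    linear_combination add_self' ((∑ p ∈ S, ep p) * ∑ p ∈ S, ep p * z.2 p)
  refine Nat.not_even_iff_odd.2 (wu (fm_comm al ep ga S) hn
    (w := (ind S, (∑ p ∈ S, ep p) • ind S))
    ⟨ind_mem Subset.rfl, Submodule.smul_mem _ _ (ind_mem Subset.rfl)⟩ (fun z _ => ?_) ?_)
    (even_WW S)
  · rw [hc, fm_apply, dg_self, dg_self]
    linear_combination -add_self' (bet al S z.1 z.2)
  · rw [hc, ← dg_ind ep]
    simp only [map_smul, smul_eq_mul]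
    rw [dg_ind, h2, h2, mul_self', add_comm, h1]

/-- The map from the kernel to the radical. -/
noncomputable def ph (S : Finset ℕ) (x : Finset ℕ × Finset ℕ) : Z :=
  (ind x.1, ind x.2 + (∑ p ∈ S, ep p * ind x.1 p) • ind S)

theorem ph_zero (S : Finset ℕ) : ph S (∅, ∅) = 0 := by simp [ph, ind_empty]

theorem ph_inj (S : Finset ℕ) {x y : Finset ℕ × Finset ℕ} (h : ph S x = ph S y) : x = y := by
  have h1 : x.1 = y.1 := ind_inj (congrArg Prod.fst h :)
  have h2 := congrArg Prod.snd h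
  simp only [ph, h1, add_left_inj] at h2
  exact Prod.ext h1 (ind_inj h2)

theorem rad_iff {S : Finset ℕ} (h : Rc S) (a b : ℕ → F) :
    (∀ w ∈ WW S S, fm al ep ga S (a, b + (∑ p ∈ S, ep p * a p) • ind S) w = 0) ↔ Sys S a b := by
  have h1 : ∀ p ∈ S, fm al ep ga S (a, b + (∑ p ∈ S, ep p * a p) • ind S) (Pi.single p 1, 0) =
      ∑ q ∈ S, al p q * (b p + b q) + ga p * a p := fun p hp => by
    rw [fm_apply]
    simp only [map_zero, map_add, map_smul, bet_ind, smul_zero, add_zero]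
    rw [dg_single ga hp, bet_single al hp, add_comm]
  have h2 : ∀ p ∈ S, fm al ep ga S (a, b + (∑ p ∈ S, ep p * a p) • ind S) (0, Pi.single p 1) =
      ∑ q ∈ S, al p q * (a p + a q) + ep p * (a p + b p) := fun p hp => by
    rw [fm_apply]
    simp only [map_zero, LinearMap.zero_apply, add_zero, zero_add]
    rw [bet_rec h a, bet_single al hp, ← dg_ind ep S (Pi.single p 1), dg_single ep hp,
      dg_single ep hp, dg_single ep hp, Pi.add_apply, Pi.smul_apply, ind_of_mem hp, smul_eq_mul]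
    linear_combination add_self' (ep p * ∑ p ∈ S, ep p * a p)
  constructor
  · intro h0 p hp
    have g1 := h0 (Pi.single p 1, 0) ⟨single_mem hp, zero_mem _⟩
    have g2 := h0 (0, Pi.single p 1) ⟨zero_mem _, single_mem hp⟩
    rw [h1 p hp] at g1
    rw [h2 p hp] at g2
    exact ⟨CharTwo.add_eq_zero.1 g2, CharTwo.add_eq_zero.1 g1⟩
  · intro h0 w hw
    have e : w = (w.1, 0) + (0, w.2) := by simp
    rw [e, map_add]
    have g1 := sup_ext (fm al ep ga S (a, b + (∑ p ∈ S, ep p * a p) • ind S) ∘ₗ .inl F _ _)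
      (fun p hp => (h1 p hp).trans (CharTwo.add_eq_zero.2 (h0 p hp).2)) hw.1
    have g2 := sup_ext (fm al ep ga S (a, b + (∑ p ∈ S, ep p * a p) • ind S) ∘ₗ .inr F _ _)
      (fun p hp => (h2 p hp).trans (CharTwo.add_eq_zero.2 (h0 p hp).1)) hw.2
    exact (congrArg₂ (· + ·) g1 g2).trans (add_zero _)

theorem mem_Ker {S : Finset ℕ} {x : Finset ℕ × Finset ℕ} :
    x ∈ Ker S ↔ (x.1 ⊆ S ∧ x.2 ⊆ S) ∧ Sys S (ind x.1) (ind x.2) := by
  simp only [Ker, mem_filter, mem_product, mem_powerset, Sys]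

theorem zero_mem_Ker (S : Finset ℕ) : (∅, ∅) ∈ Ker S := by
  simp [mem_Ker, Sys, ind_empty]

theorem ph_mem {S : Finset ℕ} (h : Rc S) {x : Finset ℕ × Finset ℕ} (hx : x ∈ Ker S) :
    ph S x ∈ WW S S ∧ ∀ w ∈ WW S S, fm al ep ga S (ph S x) w = 0 :=
  ⟨⟨ind_mem (mem_Ker.1 hx).1.1, Submodule.add_mem _ (ind_mem (mem_Ker.1 hx).1.2)
    (Submodule.smul_mem _ _ (ind_mem Subset.rfl))⟩, (rad_iff h _ _).2 (mem_Ker.1 hx).2⟩

theorem ph_surj {S : Finset ℕ} (h : Rc S) {z : Z} (hz : z ∈ WW S S)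
    (hz' : ∀ w ∈ WW S S, fm al ep ga S z w = 0) : ∃ x ∈ Ker S, ph S x = z := by
  obtain ⟨A, hA, hA'⟩ := exists_ind hz.1
  obtain ⟨B, hB, hB'⟩ := exists_ind (Submodule.add_mem _ hz.2
    (Submodule.smul_mem _ (∑ p ∈ S, ep p * z.1 p) (ind_mem (Subset.rfl (s := S)))))
  have e : ph S (A, B) = z := by
    refine Prod.ext hA' ?_
    simp only [ph, hA', hB']
    rw [add_assoc, zadd, add_zero]
  refine ⟨(A, B), mem_Ker.2 ⟨⟨hA, hB⟩, (rad_iff h _ _).1 ?_⟩, e⟩
  rw [← e] at hz'
  exact hz'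

theorem sS_eq {S : Finset ℕ} (h : Rc S) : sS S = DD al ep ga S S := by
  have : (Ker S).card = 1 ↔ ND (fm al ep ga S) (WW S S) := by
    constructor
    · intro h1 z hz hz'
      obtain ⟨x, hx, rfl⟩ := ph_surj h hz hz'
      rw [card_le_one.1 h1.le x hx _ (zero_mem_Ker S), ph_zero]
    · intro h1
      exact card_eq_one.2 ⟨_, eq_singleton_iff_unique_mem.2 ⟨zero_mem_Ker S, fun x hx =>
        ph_inj S ((h1 _ (ph_mem h hx).1 (ph_mem h hx).2).trans (ph_zero S).symm)⟩⟩
  unfold sS DD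
  split_ifs with h1
  · rw [iv_pos (this.1 h1)]
  · rw [iv_neg (mt this.2 h1)]

theorem lam_eq {S : Finset ℕ} (h : Rc S) (h1 : ∑ p ∈ S, ep p + ∑ p ∈ S, ga p = 1) (p : ℕ) :
    lam S p = DD al ep ga (S.erase p) S ∨ p ∉ S := by
  refine or_iff_not_imp_right.2 fun hp => ?_
  have : ((Ker S).card = 2 ∧ ∃ x ∈ Ker S, p ∈ x.1) ↔ ND (fm al ep ga S) (WW (S.erase p) S) := by
    rw [nd_hyper (W := WW S S) (W₁ := WW (S.erase p) S) (u := pr p ∘ₗ .fst F _ _)
      (fm_comm al ep ga S) (fun z => ⟨fun hz =>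
      ⟨⟨fun q hq => hz.1 q fun h' => hq (mem_of_mem_erase h'), hz.2⟩, hz.1 p (notMem_erase p S)⟩,
      fun hz => ⟨fun q hq => by
        by_cases h' : q = p
        · rw [h']; exact hz.2
        · exact hz.1.1 q fun h2 => hq (mem_erase.2 ⟨h', h2⟩), hz.1.2⟩⟩) (r1 h h1)]
    constructor
    · rintro ⟨h2, x, hx, hpx⟩
      have hne : (∅, ∅) ≠ x := fun h3 => by rw [← h3] at hpx; exact notMem_empty _ hpx
      have h3 : {(∅, ∅), x} = Ker S := eq_of_subset_of_card_le
        (insert_subset (zero_mem_Ker S) (singleton_subset_iff.2 hx)) (by rw [h2, card_pair hne])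
      refine ⟨ph S x, (ph_mem h hx).1, (ph_mem h hx).2, ind_of_mem hpx, fun z hz hz' => ?_⟩
      obtain ⟨y, hy, rfl⟩ := ph_surj h hz hz'
      rw [← h3, mem_insert, mem_singleton] at hy
      exact hy.imp (fun h4 => by rw [h4, ph_zero]) fun h4 => by rw [h4]
    · rintro ⟨r, hr, hr', hu, h2⟩
      obtain ⟨x, hx, rfl⟩ := ph_surj h hr hr'
      have hpx : p ∈ x.1 := ind_eq_one.1 hu
      have hne : (∅, ∅) ≠ x := fun h3 => by rw [← h3] at hpx; exact notMem_empty _ hpx
      refine ⟨card_eq_two.2 ⟨_, _, hne, Subset.antisymm (fun y hy => ?_)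
        (insert_subset (zero_mem_Ker S) (singleton_subset_iff.2 hx))⟩, x, hx, hpx⟩
      rw [mem_insert, mem_singleton]
      exact (h2 _ (ph_mem h hy).1 (ph_mem h hy).2).imp
        (fun h4 => ph_inj S (h4.trans (ph_zero S).symm)) (ph_inj S)
  unfold lam DD
  split_ifs with h2
  · rw [iv_pos (this.1 h2)]
  · rw [iv_neg (mt this.2 h2)]

theorem lam_zero {S : Finset ℕ} {p : ℕ} (hp : p ∉ S) : lam S p = 0 :=
  if_neg fun ⟨_, _, hx, h⟩ => hp ((mem_Ker.1 hx).1.1 h)

theorem gT_eq {T : Finset ℕ} (h : Rc T) (h1 : ∑ p ∈ T, ep p = 1) {p : ℕ} (hp : p ∈ T) :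
    gT T = DD al (Pi.single p 1) 0 (T.erase p) T := by
  have h2 : ∀ a : ℕ → F, ∀ r ∈ T, bet al T a (Pi.single r 1) = ∑ q ∈ T, al q r * (a r + a q) := by
    intro a r hr
    have e1 : ∑ q ∈ T, (al r q + al q r) * (a r + a q) =
        ep r * ∑ q ∈ T, ep q * (a r + a q) := by
      rw [mul_sum]
      refine sum_congr rfl fun q hq => ?_
      by_cases hrq : r = q
      · rw [hrq, add_self', add_self']; ring
      · rw [h r hr q hq hrq]; ring
    simp only [add_mul, mul_add, sum_add_distrib, ← sum_mul, h1] at e1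
    rw [bet_rec h a, bet_single al hr, ← dg_ind ep T (Pi.single r 1), dg_single ep hr,
      dg_single ep hr, ind_of_mem hr]
    simp only [mul_add, sum_add_distrib, ← sum_mul]
    linear_combination e1 - add_self' ((∑ q ∈ T, al q r) * a r) - add_self' (∑ q ∈ T, al q r * a q)
      + add_self' (ep r * a r) + add_self' (ep r * ∑ q ∈ T, ep q * a q)
  have hsub : ∀ {a : ℕ → F}, a ∈ sup (T.erase p) → a ∈ sup T := fun ha q hq =>
    ha q fun h' => hq (mem_of_mem_erase h')
  have hf : ∀ z w : Z, fm al (Pi.single p 1) 0 T z w =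
      bet al T z.1 w.2 + bet al T w.1 z.2 + z.2 p * w.2 p := fun z w => by
    rw [fm_apply, dg_apply, dg_apply, sum_eq_single_of_mem p hp (f := fun q =>
      (Pi.single p 1 : ℕ → F) q * z.2 q * w.2 q) (fun q _ hq => by simp [hq])]
    simp
  have h3 : (∀ B ∈ T.powerset, (∀ r ∈ T, ∑ q ∈ T, al q r * (ind B r + ind B q) = 0) →
      B = ∅ ∨ B = T) ↔ ∀ a ∈ sup (T.erase p), (∀ b ∈ sup T, bet al T a b = 0) → a = 0 := by
    constructor
    · intro h0 a ha ha'
      obtain ⟨A, hA, rfl⟩ := exists_ind ha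
      rcases h0 A (mem_powerset.2 (hA.trans (erase_subset _ _))) (fun r hr => by
        rw [← h2 _ r hr, ha' _ (single_mem hr)]) with h4 | h4
      · rw [h4, ind_empty]
      · exact absurd (hA (h4 ▸ hp)) (notMem_erase p T)
    · intro h0 B hB hB'
      rw [mem_powerset] at hB
      have h4 : ∀ b ∈ sup T, bet al T (ind B) b = 0 := fun b hb =>
        sup_ext _ (fun r hr => (h2 _ r hr).trans (hB' r hr)) hb
      by_cases hpB : p ∈ B
      · refine Or.inr (ind_inj ?_)
        have h5 := h0 (ind B - ind T) (fun q hq => ?_) fun b hb => ?_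
        · exact sub_eq_zero.1 h5
        · by_cases h' : q = p
          · rw [h', Pi.sub_apply, ind_of_mem hpB, ind_of_mem hp, sub_self]
          · exact Submodule.sub_mem _ (ind_mem hB) (ind_mem Subset.rfl) q
              fun h2 => hq (mem_erase.2 ⟨h', h2⟩)
        · rw [map_sub, LinearMap.sub_apply, h4 b hb, zero_sub, neg_eq_zero]
          exact sup_ext _ (fun r hr => (h2 _ r hr).trans (sum_eq_zero fun q hq => by
            rw [ind_of_mem hr, ind_of_mem hq, add_self', mul_zero])) hb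
      · exact Or.inl (ind_inj ((h0 _ (ind_mem fun q hq =>
          mem_erase.2 ⟨fun h' => hpB (h' ▸ hq), hB hq⟩) h4).trans ind_empty.symm))
  have h4 : (∀ a ∈ sup (T.erase p), (∀ b ∈ sup T, bet al T a b = 0) → a = 0) ↔
      ND (fm al (Pi.single p 1) 0 T) (WW (T.erase p) T) := by
    constructor
    · intro h0 z hz hz'
      have g1 : z.2 p = 0 := by
        have := hz' (0, ind T) ⟨zero_mem _, ind_mem Subset.rfl⟩
        simpa [hf, bet_ind, ind_of_mem hp] using this
      have g2 : z.1 = 0 := h0 _ hz.1 fun b hb => by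
        have := hz' (0, b) ⟨zero_mem _, hb⟩
        simpa [hf, g1] using this
      have g3 : ND (bet al T) (sup (T.erase p)) := fun a ha ha' => h0 a ha fun b hb => by
        have := ha' (b - b p • ind T) fun q hq => by
          by_cases h' : q = p
          · simp [h', ind_of_mem hp]
          · exact Submodule.sub_mem _ hb (Submodule.smul_mem _ _ (ind_mem Subset.rfl)) q
              fun h2 => hq (mem_erase.2 ⟨h', h2⟩)
        simpa [bet_ind] using this
      refine Prod.ext g2 (funext fun q => ?_)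
      obtain ⟨a, ha, ha'⟩ := g3.surj (pr q)
      have g4 := ha' z.2 fun r hr => by
        by_cases h' : r = p
        · rw [h', g1]
        · exact hz.2 r fun h2 => hr (mem_erase.2 ⟨h', h2⟩)
      have g5 := hz' (a, 0) ⟨ha, zero_mem _⟩
      simp only [hf, map_zero, Pi.zero_apply, mul_zero, zero_add, add_zero] at g5
      exact g4.symm.trans g5
    · intro h0 a ha ha'
      exact (congrArg Prod.fst (h0 (a, 0) ⟨ha, zero_mem _⟩ fun w hw => by
        simp [hf, ha' _ hw.2]) :)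
  unfold gT DD
  split_ifs with h5
  · rw [iv_pos (h4.1 (h3.1 h5))]
  · rw [iv_neg fun h6 => h5 (h3.2 (h4.2 h6))]

end Cv

open Cv

theorem conv (h : RecStmt) : ConvStmt := by
  intro T hT p hp
  have hR : Rc T := fun p hp q hq hpq =>
    h.2 p q (hT.1 p hp).1 (hT.1 q hq).1 (hT.1 p hp).2.1 (hT.1 q hq).2.1 hpq
  rw [gT_eq hR hT.2.1 hp, ← main ga p _ T rfl hp al ep hT.2.1, sum_filter,
    ← sum_subset (powerset_mono.2 (erase_subset p T)) fun s hs hs' => ?_]
  · refine sum_congr rfl fun s hs => ?_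
    rw [mem_powerset] at hs
    have hsT := hs.trans (erase_subset p T)
    have e1 := hT.2.1
    have e2 := hT.2.2
    rw [← sum_sdiff hsT] at e1 e2
    unfold tm
    split_ifs with h1
    · rw [h1.1, add_zero] at e1
      rw [h1.2, add_zero] at e2
      rw [h1.1, add_zero, one_mul, sS_eq (hR.mono hsT),
        (lam_eq (hR.mono sdiff_subset) (by rw [e1, e2, add_zero]) p).resolve_right
          (not_not.2 (mem_sdiff.2 ⟨hp, fun h' => notMem_erase p T (hs h')⟩))]
    · rcases f01 (∑ q ∈ s, ep q) with h2 | h2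
      · have h3 : ∑ q ∈ s, ga q = 1 := (f01 _).resolve_left fun h3 => h1 ⟨h2, h3⟩
        rw [DD, iv_neg (r1 (hR.mono hsT) (by rw [h2, h3, zero_add])), mul_zero, zero_mul]
      · rw [h2, add_self', zero_mul, zero_mul]
  · rw [mem_powerset] at hs hs'
    rw [lam_zero fun h' => hs' fun q hq => mem_erase.2 ⟨fun h2 => (mem_sdiff.1 h').2 (h2 ▸ hq),
      hs hq⟩, mul_zero, ite_self]

end Pool.Agent.Lib.MP_d6ddbd_nt.G
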