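import Pool.Agent.Lib.MP_d6ddbd_nt.G.Stmt

/-! The local conditions of the `2`-descent. -/

open Finset

noncomputable section

namespace Pool.Agent.Lib.MP_d6ddbd_nt.G

namespace DescAux

/-- A quadratic character modulo `p ^ e` together with a uniformiser `π = ± p`. -/
structure Ch (p : ℕ) (π : ℤ) (e : ℕ) (χ : ℤ → ℤ) : Prop where
  prime : p.Prime
  unif : π = p ∨ π = -p
  epos : 1 ≤ e
  mul : ∀ a b, χ (a * b) = χ a * χ b
  unit : ∀ a, ¬ (p : ℤ) ∣ a → χ a = 1 ∨ χ a = -1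
  per : ∀ a b, χ (a + p ^ e * b) = χ a

/-- The character of the unit part, written additively. -/
noncomputable def lg (p : ℕ) (π : ℤ) (χ : ℤ → ℤ) (u : ℚ) : ZMod 2 := by
  classical exact if ∃ A B : ℤ, ¬ (p : ℤ) ∣ A ∧ ¬ (p : ℤ) ∣ B ∧
    u * B = (π : ℚ) ^ padicValRat p u * A ∧ χ (A * B) = -1 then 1 else 0

variable {p : ℕ} {π : ℤ} {e : ℕ} {χ : ℤ → ℤ}

theorem Ch.pz (h : Ch p π e χ) : Prime (p : ℤ) := Nat.prime_iff_prime_int.1 h.prime

theorem Ch.ne (h : Ch p π e χ) : (π : ℚ) ≠ 0 := by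
  have := h.prime.ne_zero
  rcases h.unif with h1 | h1 <;> simp [h1, this]

theorem Ch.val_pi (h : Ch p π e χ) : padicValRat p (π : ℚ) = 1 := by
  have h1 := padicValRat.self h.prime.one_lt
  rcases h.unif with h2 | h2 <;> simp [h2, h1]

theorem val_int {A : ℤ} (hA : ¬ (p : ℤ) ∣ A) : padicValRat p (A : ℚ) = 0 := by
  rw [padicValRat.of_int, padicValInt.eq_zero_of_not_dvd hA]
  rfl

theorem ne_of_not_dvd {A : ℤ} (hA : ¬ (p : ℤ) ∣ A) : (A : ℚ) ≠ 0 := by
  rintro h
  rw [Int.cast_eq_zero] at h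
  exact hA (h ▸ dvd_zero _)

theorem Ch.sq (h : Ch p π e χ) {A : ℤ} (hA : ¬ (p : ℤ) ∣ A) : χ A * χ A = 1 := by
  rcases h.unit A hA with h1 | h1 <;> simp [h1]

theorem Ch.nd (h : Ch p π e χ) {A B : ℤ} (hA : ¬ (p : ℤ) ∣ A) (hB : ¬ (p : ℤ) ∣ B) :
    ¬ (p : ℤ) ∣ A * B := fun h1 => (h.pz.dvd_or_dvd h1).elim hA hB

theorem Ch.spec (h : Ch p π e χ) {u : ℚ} {A B k : ℤ} (hA : ¬ (p : ℤ) ∣ A) (hB : ¬ (p : ℤ) ∣ B)
    (hu : u * B = (π : ℚ) ^ k * A) :
    padicValRat p u = k ∧ lg p π χ u = if χ (A * B) = -1 then 1 else 0 := by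
  have := Fact.mk h.prime
  have hA0 := ne_of_not_dvd hA
  have hB0 := ne_of_not_dvd hB
  have hk : (π : ℚ) ^ k ≠ 0 := zpow_ne_zero _ h.ne
  have hu0 : u ≠ 0 := by
    rintro rfl
    exact mul_ne_zero hk hA0 (by rw [← hu, zero_mul])
  have hv : padicValRat p u = k := by
    have h1 := congrArg (padicValRat p) hu
    rw [padicValRat.mul hu0 hB0, padicValRat.mul hk hA0, val_int hA, val_int hB,
      padicValRat.zpow, h.val_pi] at h1
    simpa using h1
  refine ⟨hv, ?_⟩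
  classical
  unfold lg
  refine if_congr ⟨?_, fun h1 => ⟨A, B, hA, hB, by rw [hv, hu], h1⟩⟩ rfl rfl
  rintro ⟨A', B', hA', hB', h1, h2⟩
  rw [hv] at h1
  have h3 : A * B' = A' * B := by
    have h4 : (π : ℚ) ^ k * (A * B') = (π : ℚ) ^ k * (A' * B) := by
      linear_combination (B : ℚ) * h1 - (B' : ℚ) * hu
    exact_mod_cast mul_left_cancel₀ hk h4
  have h5 : χ (A * B) * (χ B' * χ B') = χ (A' * B') * (χ B * χ B) := by
    simp only [← h.mul]
    congr 1
    linear_combination B * B' * h3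
  rw [h.sq hB', h.sq hB, h2] at h5
  simpa using h5

theorem Ch.fac (h : Ch p π e χ) {n : ℤ} (hn : n ≠ 0) :
    ∃ (k : ℕ) (A : ℤ), ¬ (p : ℤ) ∣ A ∧ n = π ^ k * A := by
  have hp : Prime π := by
    rcases h.unif with h1 | h1
    · exact h1 ▸ h.pz
    · exact h1 ▸ h.pz.neg
  obtain ⟨k, A, h1, h2⟩ := WfDvdMonoid.max_power_factor hn hp.irreducible
  refine ⟨k, A, fun h3 => h1 ?_, h2⟩
  rcases h.unif with h4 | h4
  · exact h4 ▸ h3
  · exact h4 ▸ (neg_dvd.2 h3)

theorem Ch.ex (h : Ch p π e χ) {u : ℚ} (hu : u ≠ 0) :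
    ∃ A B k : ℤ, ¬ (p : ℤ) ∣ A ∧ ¬ (p : ℤ) ∣ B ∧ u * B = (π : ℚ) ^ k * A := by
  obtain ⟨i, A, hA, h1⟩ := h.fac (Rat.num_ne_zero.2 hu)
  obtain ⟨j, B, hB, h2⟩ := h.fac (n := (u.den : ℤ)) (by exact_mod_cast u.den_nz)
  refine ⟨A, B, (i : ℤ) - j, hA, hB, ?_⟩
  have h3 : u * (u.den : ℤ) = u.num := by exact_mod_cast Rat.mul_den_eq_num u
  rw [h1, h2] at h3
  push_cast at h3
  rw [zpow_sub₀ h.ne, zpow_natCast, zpow_natCast]
  have := pow_ne_zero j h.ne
  field_simp
  linear_combination h3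

theorem Ch.lg_mul (h : Ch p π e χ) {u w : ℚ} (hu : u ≠ 0) (hw : w ≠ 0) :
    lg p π χ (u * w) = lg p π χ u + lg p π χ w := by
  obtain ⟨A, B, k, hA, hB, h1⟩ := h.ex hu
  obtain ⟨A', B', k', hA', hB', h2⟩ := h.ex hw
  have h3 : u * w * ((B * B' : ℤ) : ℚ) = (π : ℚ) ^ (k + k') * ((A * A' : ℤ) : ℚ) := by
    rw [zpow_add₀ h.ne]
    push_cast
    linear_combination w * B' * h1 + (π : ℚ) ^ k * A * h2
  rw [(h.spec (h.nd hA hA') (h.nd hB hB') h3).2, (h.spec hA hB h1).2, (h.spec hA' hB' h2).2]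
  have h4 : χ (A * A' * (B * B')) = χ (A * B) * χ (A' * B') := by
    rw [← h.mul]
    congr 1
    ring
  rw [h4]
  rcases h.unit _ (h.nd hA hB) with h5 | h5 <;> rcases h.unit _ (h.nd hA' hB') with h6 | h6 <;>
    rw [h5, h6] <;> decide

theorem Ch.lg_sq (h : Ch p π e χ) {u : ℚ} (hu : u ≠ 0) : lg p π χ (u ^ 2) = 0 := by
  rw [pow_two, h.lg_mul hu hu, CharTwo.add_self_eq_zero]

theorem Ch.add (h : Ch p π e χ) {u w z : ℚ} (hu : u ≠ 0) (hw : w ≠ 0) (hz : z = u + w)
    (hv : padicValRat p u + e ≤ padicValRat p w) :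
    padicValRat p z = padicValRat p u ∧ lg p π χ z = lg p π χ u := by
  obtain ⟨A, B, k, hA, hB, h1⟩ := h.ex hu
  obtain ⟨A', B', k', hA', hB', h2⟩ := h.ex hw
  obtain ⟨e1, e2⟩ := h.spec hA hB h1
  rw [e1, (h.spec hA' hB' h2).1] at hv
  obtain ⟨d, hd⟩ := Int.le.dest hv
  obtain ⟨c, hc⟩ : ∃ c : ℤ, π ^ e = p ^ e * c := by
    rcases h.unif with h3 | h3
    · exact ⟨1, by simp [h3]⟩
    · exact ⟨(-1) ^ e, by rw [h3, ← mul_pow]; simp⟩
  have h3 : z * ((B * B' : ℤ) : ℚ) =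
      (π : ℚ) ^ k * ((A * B' + p ^ e * (c * π ^ d * A' * B) : ℤ) : ℚ) := by
    have h4 : (π : ℚ) ^ k' = (π : ℚ) ^ k * ((p : ℚ) ^ e * c) * (π : ℚ) ^ d := by
      have h5 : (π : ℚ) ^ e = (p : ℚ) ^ e * c := by exact_mod_cast hc
      rw [← hd, zpow_add₀ h.ne, zpow_add₀ h.ne, zpow_natCast, zpow_natCast, h5]
    rw [h4] at h2
    rw [hz]
    push_cast
    linear_combination (B' : ℚ) * h1 + (B : ℚ) * h2
  have h6 : ¬ (p : ℤ) ∣ A * B' + p ^ e * (c * π ^ d * A' * B) := by
    intro h7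
    have h8 : (p : ℤ) ∣ p ^ e * (c * π ^ d * A' * B) :=
      Dvd.dvd.mul_right (dvd_pow_self _ (by have := h.epos; omega)) _
    exact h.nd hA hB' ((dvd_add_left h8).1 h7)
  obtain ⟨e3, e4⟩ := h.spec h6 (h.nd hB hB') h3
  refine ⟨e3.trans e1.symm, ?_⟩
  rw [e4, e2, h.mul, h.per]
  have h9 : χ (A * B') * χ (B * B') = χ (A * B) * (χ B' * χ B') := by
    simp only [h.mul]
    ring
  rw [h9, h.sq hB', mul_one]

theorem Ch.lg_int (h : Ch p π e χ) {A : ℤ} (hA : ¬ (p : ℤ) ∣ A) :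
    lg p π χ (A : ℚ) = if χ A = -1 then 1 else 0 := by
  have h1 : ¬ (p : ℤ) ∣ 1 := h.pz.not_dvd_one
  have h2 := (h.spec (u := A) (k := 0) hA h1 (by simp)).2
  simpa using h2

theorem Ch.lg_one (h : Ch p π e χ) : lg p π χ 1 = 0 := by
  simpa using h.lg_sq one_ne_zero

theorem Ch.lg_pi (h : Ch p π e χ) : lg p π χ (π : ℚ) = 0 := by
  have h1 : ¬ (p : ℤ) ∣ 1 := h.pz.not_dvd_one
  have h2 := (h.spec (u := π) (k := 1) h1 h1 (by simp)).2
  rw [h2, h.mul, h.sq h1]
  decide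

theorem ch_triv {l : ℕ} (hl : l.Prime) : Ch l l 1 fun _ => 1 :=
  ⟨hl, Or.inl rfl, le_rfl, fun _ _ => by simp, fun _ _ => Or.inl rfl, fun _ _ => rfl⟩

theorem ps_cases (q : ℕ) : ps q = q ∨ ps q = -q := by
  unfold ps
  split_ifs <;> simp

theorem ch_jac (hp : p.Prime) : Ch p (ps p) 1 fun a => jacobiSym a p := by
  refine ⟨hp, ps_cases p, le_rfl, fun a b => jacobiSym.mul_left a b p, fun a ha => ?_,
    fun a b => ?_⟩
  · refine jacobiSym.eq_one_or_neg_one ?_
    rw [← Int.isCoprime_iff_gcd_eq_one]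
    exact ((Nat.prime_iff_prime_int.1 hp).irreducible.coprime_iff_not_dvd.2 ha).symm
  · refine jacobiSym.mod_left' ?_
    simp

theorem ch_four : Ch 2 2 2 fun a => ZMod.χ₄ (a : ZMod 4) := by
  refine ⟨Nat.prime_two, Or.inl rfl, by norm_num, fun a b => by rw [Int.cast_mul, map_mul],
    fun a ha => ?_, fun a b => ?_⟩
  · rw [ZMod.χ₄_int_eq_if_mod_four]
    have : a % 2 ≠ 0 := fun h => ha (Int.dvd_of_emod_eq_zero h)
    rw [if_neg this]
    split_ifs <;> simp
  · have h4 : (4 : ZMod 4) = 0 := by decide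
    push_cast
    rw [h4]
    simp

theorem ps_ne {q : ℕ} (hq : q.Prime) : (ps q : ℚ) ≠ 0 := (ch_jac hq).ne

theorem not_dvd_ps {l q : ℕ} (hl : l.Prime) (hq : q.Prime) (h : l ≠ q) : ¬ (l : ℤ) ∣ ps q := by
  intro h1
  have h2 : (l : ℤ) ∣ q := by
    rcases ps_cases q with h3 | h3
    · exact h3 ▸ h1
    · exact dvd_neg.1 (h3 ▸ h1)
  exact h ((Nat.prime_dvd_prime_iff_eq hl hq).1 (Int.natCast_dvd_natCast.1 h2))

theorem dsc_ne {a : Finset ℕ} (ha : ∀ q ∈ a, q.Prime) : (dsc a : ℚ) ≠ 0 := by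
  unfold dsc
  push_cast
  exact prod_ne_zero_iff.2 fun q hq => ps_ne (ha q hq)

theorem lg_dsc (h : Ch p π e χ) (a : Finset ℕ) (ha : ∀ q ∈ a, q.Prime) :
    lg p π χ (dsc a : ℚ) = ∑ q ∈ a, lg p π χ (ps q : ℚ) := by
  induction a using Finset.induction_on with
  | empty => simpa [dsc] using h.lg_one
  | insert q a hq ih =>
    have h1 : ∀ q ∈ a, q.Prime := fun r hr => ha r (mem_insert_of_mem hr)
    have h2 : dsc (insert q a) = ps q * dsc a := prod_insert hq
    rw [h2, sum_insert hq, Int.cast_mul,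
      h.lg_mul (ps_ne (ha q (mem_insert_self _ _))) (dsc_ne h1), ih h1]

theorem val_dsc {l : ℕ} (hl : l.Prime) (a : Finset ℕ) (ha : ∀ q ∈ a, q.Prime) :
    padicValRat l (dsc a : ℚ) = if l ∈ a then 1 else 0 := by
  have := Fact.mk hl
  induction a using Finset.induction_on with
  | empty => simp [dsc]
  | insert q a hq ih =>
    have h1 : ∀ q ∈ a, q.Prime := fun r hr => ha r (mem_insert_of_mem hr)
    have h2 : dsc (insert q a) = ps q * dsc a := prod_insert hq
    have h3 := ha q (mem_insert_self _ _)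
    rw [h2, Int.cast_mul, padicValRat.mul (ps_ne h3) (dsc_ne h1), ih h1]
    by_cases h4 : l = q
    · subst h4
      rw [(ch_jac hl).val_pi]
      simp [hq]
    · rw [val_int (not_dvd_ps hl h3 h4)]
      simp [h4]

/-- The valuation modulo two. -/
noncomputable def vm (l : ℕ) (u : ℚ) : ZMod 2 := ((padicValRat l u : ℤ) : ZMod 2)

theorem vm_mul {l : ℕ} (hl : l.Prime) {u w : ℚ} (hu : u ≠ 0) (hw : w ≠ 0) :
    vm l (u * w) = vm l u + vm l w := by
  have := Fact.mk hl
  unfold vm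
  rw [padicValRat.mul hu hw, Int.cast_add]

theorem vm_sq {l : ℕ} (hl : l.Prime) {u : ℚ} (hu : u ≠ 0) : vm l (u ^ 2) = 0 := by
  rw [pow_two, vm_mul hl hu hu, CharTwo.add_self_eq_zero]

theorem vm_dsc {l : ℕ} (hl : l.Prime) (a : Finset ℕ) (ha : ∀ q ∈ a, q.Prime) :
    vm l (dsc a : ℚ) = ind a l := by
  unfold vm ind
  rw [val_dsc hl a ha]
  split_ifs <;> simp

theorem vm_zero_iff (l : ℕ) (u : ℚ) : vm l u = 0 ↔ Even (padicValRat l u) := by
  unfold vm
  rw [ZMod.intCast_zmod_eq_zero_iff_dvd, even_iff_two_dvd]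
  rfl

/-- A rational number with even valuations is a square up to sign. -/
theorem sq_of_even {u : ℚ} (hu : u ≠ 0) (h : ∀ l : ℕ, l.Prime → vm l u = 0) :
    ∃ r : ℚ, u = r ^ 2 ∨ u = -r ^ 2 := by
  have hd : (u.den : ℚ) ≠ 0 := by exact_mod_cast u.den_nz
  have hN : u.num.natAbs * u.den ≠ 0 :=
    mul_ne_zero (Int.natAbs_ne_zero.2 (Rat.num_ne_zero.2 hu)) u.den_nz
  obtain ⟨a, b, h1, h2⟩ := Nat.sq_mul_squarefree (u.num.natAbs * u.den)
  have hb : b ≠ 0 := by
    rintro rfl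
    exact hN (by simpa using h1.symm)
  have hb' : (b : ℚ) ≠ 0 := by exact_mod_cast hb
  have ha' : (a : ℚ) ≠ 0 := by exact_mod_cast h2.ne_zero
  have h3 : |u| * (u.den : ℚ) ^ 2 = (b : ℚ) ^ 2 * a := by
    have h4 : ((b ^ 2 * a : ℕ) : ℚ) = ((u.num.natAbs * u.den : ℕ) : ℚ) := by rw [h1]
    have h5 : |u| * u.den = |(u.num : ℚ)| := by
      rw [← Rat.mul_den_eq_num u, abs_mul, abs_of_nonneg (Nat.cast_nonneg (α := ℚ) u.den)]
    push_cast [Nat.cast_natAbs] at h4
    rw [h4, ← h5]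
    ring
  have ha : a = 1 := by
    by_contra h4
    obtain ⟨l, hl, h5⟩ := Nat.exists_prime_and_dvd h4
    have := Fact.mk hl
    have h6 := congrArg (vm l) h3
    have h7 : vm l |u| = 0 := by
      rcases abs_choice u with h8 | h8
      · rw [h8, h l hl]
      · rw [h8, ← h l hl]
        unfold vm
        rw [padicValRat.neg]
    rw [vm_mul hl (abs_ne_zero.2 hu) (pow_ne_zero _ hd), vm_mul hl (pow_ne_zero _ hb') ha',
      vm_sq hl hd, vm_sq hl hb', h7] at h6
    have h9 : padicValNat l a = 1 := by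
      have h10 := (Nat.squarefree_iff_factorization_le_one h2.ne_zero).1 h2 l
      have h11 := one_le_padicValNat_of_dvd h2.ne_zero h5
      rw [Nat.factorization_def _ hl] at h10
      omega
    unfold vm at h6
    rw [padicValRat.of_nat, h9] at h6
    simp at h6
  subst ha
  refine ⟨b / u.den, ?_⟩
  have h4 : |u| = ((b : ℚ) / u.den) ^ 2 := by
    field_simp
    simpa using h3
  rcases abs_choice u with h8 | h8
  · exact Or.inl (h8.symm.trans h4)
  · right
    rw [← h4, h8, neg_neg]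

theorem nd_small {l : ℕ} (hl : l.Prime) {q : ℕ} (hq : q.Prime) (h : l ≠ q) (k : ℕ) :
    ¬ (l : ℤ) ∣ (q : ℤ) ^ k := fun h1 =>
  h ((Nat.prime_dvd_prime_iff_eq hl hq).1 (Int.natCast_dvd_natCast.1
    ((Nat.prime_iff_prime_int.1 hl).dvd_of_dvd_pow h1)))

theorem val_c {l : ℕ} (hl : l.Prime) {q : ℕ} (hq : q.Prime) (h : l ≠ q) (k : ℕ) {c : ℚ}
    (hc : c = (q : ℚ) ^ k ∨ c = -(q : ℚ) ^ k) : padicValRat l c = 0 := by
  have h1 := val_int (nd_small hl hq h k)
  push_cast at h1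
  rcases hc with h2 | h2
  · rw [h2, h1]
  · rw [h2, padicValRat.neg, h1]

/-- The valuation of `x + 1` away from `17` and the discriminant. -/
theorem even_val {l : ℕ} (hl : l.Prime) (h17 : l ≠ 17) {x : ℚ} (h1 : x + 1 ≠ 0)
    (hv : vm l x + vm l (x + 1) + vm l (x - 16) = 0) : vm l (x + 1) = 0 := by
  have hc := ch_triv hl
  have v1 : padicValRat l (-1) = 0 := by simp
  have v17 : padicValRat l 17 = 0 := val_c hl (q := 17) (by norm_num) h17 1 (by norm_num)
  have v17' : padicValRat l (-17) = 0 := by rw [padicValRat.neg, v17]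
  rcases lt_trichotomy (padicValRat l (x + 1)) 0 with h | h | h
  · have e1 := (hc.add (u := x + 1) (w := -1) (z := x) h1 (by norm_num) (by ring)
      (by rw [v1]; omega)).1
    have e2 := (hc.add (u := x + 1) (w := -17) (z := x - 16) h1 (by norm_num) (by ring)
      (by rw [v17']; omega)).1
    unfold vm at hv ⊢
    rw [e1, e2, CharTwo.add_self_eq_zero, zero_add] at hv
    exact hv
  · unfold vm
    rw [h]
    rfl
  · have e1 := (hc.add (u := -1) (w := x + 1) (z := x) (by norm_num) h1 (by ring)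
      (by rw [v1]; omega)).1
    have e2 := (hc.add (u := -17) (w := x + 1) (z := x - 16) (by norm_num) h1 (by ring)
      (by rw [v17']; omega)).1
    unfold vm at hv ⊢
    rw [e1, e2, v1, v17'] at hv
    simpa using hv

/-- The local conditions at a prime of the discriminant. -/
theorem loc (hp : p.Prime) (hp2 : p ≠ 2) (h17 : p ≠ 17) {x : ℚ} (h0 : x ≠ 0) (h1 : x + 1 ≠ 0)
    (h2 : x - 16 ≠ 0) (hv : vm p x + vm p (x + 1) + vm p (x - 16) = 1) {L : ℚ → ZMod 2}
    (hL : L = lg p (ps p) fun a => jacobiSym a p) :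
    vm p x * (L x + L (x + 1) + L (x - 16)) + L x = ep p * (vm p x + vm p (x + 1)) ∧
    vm p (x + 1) * (L x + L (x + 1) + L (x - 16)) + L (x + 1) = ga p * (vm p x + 1) := by
  have hc := ch_jac hp
  have v1 : padicValRat p 1 = 0 := by simp
  have v1' : padicValRat p (-1) = 0 := by simp
  have v17 : padicValRat p 17 = 0 := val_c hp (q := 17) (by norm_num) h17 1 (by norm_num)
  have v17' : padicValRat p (-17) = 0 := by rw [padicValRat.neg, v17]
  have v16 : padicValRat p 16 = 0 := val_c hp (q := 2) (by norm_num) hp2 4 (by norm_num)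
  have v16' : padicValRat p (-16) = 0 := by rw [padicValRat.neg, v16]
  have l1 : L 1 = 0 := hL ▸ hc.lg_one
  have l1' : L (-1) = ep p := by
    have h3 := hc.lg_int (A := -1) fun h => hc.pz.not_dvd_one (dvd_neg.1 h)
    have h4 := hp.odd_of_ne_two hp2
    rw [jacobiSym.at_neg_one h4, ZMod.χ₄_nat_eq_if_mod_four] at h3
    rw [hL]
    refine Eq.trans (by simpa using h3) ?_
    unfold ep
    have h5 := Nat.odd_iff.1 h4
    refine if_congr ?_ rfl rfl
    split_ifs <;> simp <;> omega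
  have l17 : L 17 = ga p := by
    have h3 := hc.lg_int (A := 17)
      (by simpa using nd_small hp (q := 17) (by norm_num) h17 1)
    rw [hL]
    exact Eq.trans (by simp) h3
  have l16 : L 16 = 0 := by
    have h3 := hc.lg_sq (u := 4) (by norm_num)
    rw [hL]
    exact Eq.trans (by norm_num) h3
  have l16' : L (-16) = ep p := by
    have h3 := hc.lg_mul (u := -1) (w := 16) (by norm_num) (by norm_num)
    rw [← hL, l1', l16, add_zero] at h3
    exact Eq.trans (by norm_num) h3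
  have l17' : L (-17) = ep p + ga p := by
    have h3 := hc.lg_mul (u := -1) (w := 17) (by norm_num) (by norm_num)
    rw [← hL, l1', l17] at h3
    exact Eq.trans (by norm_num) h3
  have add : ∀ {u w z : ℚ}, u ≠ 0 → w ≠ 0 → z = u + w → padicValRat p u < padicValRat p w →
      padicValRat p z = padicValRat p u ∧ L z = L u := fun hu hw hz h =>
    hL ▸ hc.add hu hw hz (by omega)
  unfold vm at hv ⊢
  by_cases c1 : padicValRat p x < 0
  · obtain ⟨e1, e2⟩ := add (z := x + 1) h0 one_ne_zero rfl (by omega)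
    obtain ⟨e3, e4⟩ := add (w := -16) (z := x - 16) h0 (by norm_num) (by ring) (by omega)
    rw [e1, e3] at hv
    rw [e1, e2, e4]
    revert hv
    generalize ((padicValRat p x : ℤ) : ZMod 2) = s
    generalize L x = t
    generalize ep p = c
    generalize ga p = g
    revert s t c g
    decide
  by_cases c2 : 0 < padicValRat p x
  · obtain ⟨e1, e2⟩ := add (u := 1) (z := x + 1) one_ne_zero h0 (by ring) (by omega)
    obtain ⟨e3, e4⟩ := add (u := -16) (z := x - 16) (by norm_num) h0 (by ring) (by omega)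
    rw [e1, e3, v1, v16'] at hv
    rw [e1, e2, e4, v1, l1, l16']
    revert hv
    generalize ((padicValRat p x : ℤ) : ZMod 2) = s
    generalize L x = t
    generalize ep p = c
    generalize ga p = g
    revert s t c g
    decide
  by_cases c3 : 0 < padicValRat p (x + 1)
  · obtain ⟨e1, e2⟩ := add (u := -1) (z := x) (by norm_num) h1 (by ring) (by omega)
    obtain ⟨e3, e4⟩ := add (u := -17) (z := x - 16) (by norm_num) h1 (by ring) (by omega)
    rw [e1, e3, v1', v17'] at hv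
    rw [e1, e2, e4, v1', l1', l17']
    revert hv
    generalize ((padicValRat p (x + 1) : ℤ) : ZMod 2) = s
    generalize L (x + 1) = t
    generalize ep p = c
    generalize ga p = g
    revert s t c g
    decide
  by_cases c4 : 0 < padicValRat p (x - 16)
  · obtain ⟨e1, e2⟩ := add (u := 16) (z := x) (by norm_num) h2 (by ring) (by omega)
    obtain ⟨e3, e4⟩ := add (u := 17) (z := x + 1) (by norm_num) h2 (by ring) (by omega)
    rw [e1, e2, e3, e4, v16, v17, l16, l17]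
    generalize L (x - 16) = t
    generalize ep p = c
    generalize ga p = g
    revert t c g
    decide
  exfalso
  have d1 : padicValRat p (x + 1) = 0 := by
    by_contra h
    have := (add (w := -1) (z := x) h1 (by norm_num) (by ring) (by omega)).1
    omega
  have d2 : padicValRat p (x - 16) = 0 := by
    by_contra h
    have := (add (w := 16) (z := x) h2 (by norm_num) (by ring) (by omega)).1
    omega
  have d0 : padicValRat p x = 0 := by omega
  rw [d0, d1, d2] at hv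
  revert hv
  decide

/-- The condition at the prime two. -/
theorem loc_two {x : ℚ} (h0 : x ≠ 0) (h1 : x + 1 ≠ 0) (hv : vm 2 x = 0) (hw : vm 2 (x + 1) = 0)
    {L : ℚ → ZMod 2} (hL : L = lg 2 2 fun a => ZMod.χ₄ (a : ZMod 4)) (hx : L x = 0) :
    L (x + 1) = 0 := by
  have hc := ch_four
  have v1 : padicValRat 2 1 = 0 := by simp
  have v1' : padicValRat 2 (-1) = 0 := by simp
  have l1' : L (-1) = 1 := by
    have h3 := hc.lg_int (A := -1) (by decide)
    rw [hL]
    exact Eq.trans (by simp) (h3.trans (by decide))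
  obtain ⟨s, hs⟩ := (vm_zero_iff _ _).1 hv
  obtain ⟨t, ht⟩ := (vm_zero_iff _ _).1 hw
  rcases lt_trichotomy s 0 with h | h | h
  · rw [← hx, hL]
    exact (hc.add h0 one_ne_zero rfl (by omega)).2
  · exfalso
    rcases lt_trichotomy t 0 with h' | h' | h'
    · have := (hc.add (w := -1) (z := x) h1 (by norm_num) (by ring) (by omega)).1
      omega
    · obtain ⟨A, B, k, hA, hB, h3⟩ := hc.ex h0
      have h4 := (hc.spec hA hB h3).1
      have h5 : k = 0 := by omega
      rw [h5] at h3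
      have h6 : (x + 1) * B = ((A + B : ℤ) : ℚ) := by
        push_cast at h3 ⊢
        linear_combination h3
      have hB0 := ne_of_not_dvd hB
      have h7 : A + B ≠ 0 := by
        intro h8
        rw [h8] at h6
        exact mul_ne_zero h1 hB0 (by simpa using h6)
      obtain ⟨j, C, hC, h8⟩ := hc.fac h7
      have h9 := (hc.spec (u := x + 1) (k := j) hC hB (by rw [h6, h8]; simp)).1
      have h10 : j = 0 := by omega
      rw [h10] at h8
      simp only [Nat.cast_ofNat] at hA hB hC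
      omega
    · have := (hc.add (u := -1) (z := x) (by norm_num) h1 (by ring) (by omega)).2
      rw [← hL, hx, l1'] at this
      exact absurd this (by decide)
  · rw [hL, ← hc.lg_one]
    exact (hc.add (u := 1) one_ne_zero h0 (by ring) (by omega)).2

theorem lg_two_dsc (a : Finset ℕ) (ha : ∀ q ∈ a, q.Prime ∧ q ≠ 2) :
    lg 2 2 (fun a => ZMod.χ₄ (a : ZMod 4)) (dsc a : ℚ) = 0 := by
  rw [lg_dsc ch_four a fun q hq => (ha q hq).1]
  refine sum_eq_zero fun q hq => ?_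
  rw [ch_four.lg_int (not_dvd_ps Nat.prime_two (ha q hq).1 (ha q hq).2.symm), if_neg]
  have h1 := Nat.odd_iff.1 ((ha q hq).1.odd_of_ne_two (ha q hq).2)
  have h2 : ps q % 4 = 1 := by
    unfold ps
    split_ifs <;> omega
  rw [ZMod.χ₄_int_one_mod_four h2]
  decide

theorem lg_jac_dsc (h : RecStmt) (hp : p.Prime) {S a : Finset ℕ} (hS : ∀ q ∈ S, q.Prime)
    (ha : a ⊆ S) :
    lg p (ps p) (fun a => jacobiSym a p) (dsc a : ℚ) = ∑ q ∈ S, al p q * ind a q := by
  rw [lg_dsc (ch_jac hp) a fun q hq => hS q (ha hq)]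
  have h1 : ∑ q ∈ S, al p q * ind a q = ∑ q ∈ a, al p q := by
    rw [← sum_subset ha fun q _ hq => by simp [ind, hq]]
    exact sum_congr rfl fun q hq => by simp [ind, hq]
  rw [h1]
  refine sum_congr rfl fun q hq => ?_
  by_cases h2 : p = q
  · subst h2
    rw [(ch_jac hp).lg_pi, h.1 p hp]
  · exact (ch_jac hp).lg_int (not_dvd_ps hp (hS q (ha hq)) h2)

end DescAux

open DescAux in
theorem desc (h : RecStmt) : DescStmt := by
  intro S hS a ha x y r hy hxy hr h17
  have hP : ∀ q ∈ S, q.Prime := fun q hq => (hS q hq).1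
  have hD := dsc_ne hP
  have hxy' : (dsc S : ℚ) * y ^ 2 = x * (x + 1) * (x - 16) := hxy
  have hn : x * (x + 1) * (x - 16) ≠ 0 := hxy' ▸ mul_ne_zero hD (pow_ne_zero _ hy)
  have h0 : x ≠ 0 := left_ne_zero_of_mul (left_ne_zero_of_mul hn)
  have h1 : x + 1 ≠ 0 := right_ne_zero_of_mul (left_ne_zero_of_mul hn)
  have h2 : x - 16 ≠ 0 := right_ne_zero_of_mul hn
  have hr0 : r ≠ 0 := by
    rintro rfl
    exact mul_ne_zero hD h0 (by simpa using hr)
  have hA := dsc_ne fun q hq => hP q (ha hq)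
  have hv : ∀ l : ℕ, l.Prime → vm l x + vm l (x + 1) + vm l (x - 16) = ind S l := by
    intro l hl
    rw [← vm_mul hl h0 h1, ← vm_mul hl (mul_ne_zero h0 h1) h2, ← hxy',
      vm_mul hl hD (pow_ne_zero _ hy), vm_sq hl hy, vm_dsc hl S hP, add_zero]
  have hva : ∀ l : ℕ, l.Prime → ind S l + vm l x = ind a l := by
    intro l hl
    rw [← vm_dsc hl S hP, ← vm_mul hl hD h0, hr, vm_mul hl hA (pow_ne_zero _ hr0), vm_sq hl hr0,
      vm_dsc hl a fun q hq => hP q (ha hq), add_zero]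
  have hev : ∀ l : ℕ, l.Prime → l ∉ S → vm l (x + 1) = 0 := by
    intro l hl hlS
    by_cases h3 : l = 17
    · subst h3
      exact (vm_zero_iff _ _).2 h17
    · exact even_val hl h3 h1 (by rw [hv l hl]; simp [ind, hlS])
  set b := S.filter fun q => vm q (x + 1) = 0 with hb
  have hbS : b ⊆ S := filter_subset _ _
  have hB := dsc_ne fun q hq => hP q (hbS hq)
  have hvb : ∀ l : ℕ, l.Prime → ind S l + vm l (x + 1) = ind b l := by
    intro l hl
    by_cases h3 : l ∈ S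
    · unfold ind
      simp only [hb, mem_filter, h3, true_and, if_true]
      generalize vm l (x + 1) = s
      revert s
      decide
    · have h4 : l ∉ b := fun h5 => h3 (hbS h5)
      simp [ind, h3, h4, hev l hl h3]
  have h2S : 2 ∉ S := fun h3 => (hS 2 h3).2.1 rfl
  have hu : (dsc S : ℚ) * (x + 1) * dsc b ≠ 0 := mul_ne_zero (mul_ne_zero hD h1) hB
  obtain ⟨s, hs⟩ := sq_of_even hu fun l hl => by
    rw [vm_mul hl (mul_ne_zero hD h1) hB, vm_mul hl hD h1, vm_dsc hl S hP, hvb l hl,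
      vm_dsc hl b fun q hq => hP q (hbS hq), CharTwo.add_self_eq_zero]
  have hs0 : s ≠ 0 := by
    rintro rfl
    exact hu (by simpa using hs)
  have hS2 : ∀ c ⊆ S, ∀ q ∈ c, q.Prime ∧ q ≠ 2 := fun c hc q hq =>
    ⟨hP q (hc hq), (hS q (hc hq)).2.1⟩
  have hs1 : (dsc S : ℚ) * (x + 1) * dsc b = s ^ 2 := by
    refine hs.resolve_right fun h3 => ?_
    have h4 := congrArg (lg 2 2 fun a => ZMod.χ₄ (a : ZMod 4)) hr
    rw [ch_four.lg_mul hD h0, ch_four.lg_mul hA (pow_ne_zero _ hr0), ch_four.lg_sq hr0,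
      lg_two_dsc S (hS2 S subset_rfl), lg_two_dsc a (hS2 a ha), zero_add, zero_add] at h4
    have h5 : vm 2 x = 0 := by
      have h6 := hva 2 Nat.prime_two
      have h7 : 2 ∉ a := fun h8 => h2S (ha h8)
      simpa [ind, h2S, h7] using h6
    have h6 := loc_two h0 h1 h5 (hev 2 Nat.prime_two h2S) rfl h4
    have h7 := congrArg (lg 2 2 fun a => ZMod.χ₄ (a : ZMod 4)) h3
    have h8 := ch_four.lg_int (A := -1) (by decide)
    rw [ch_four.lg_mul (mul_ne_zero hD h1) hB, ch_four.lg_mul hD h1, h6,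
      lg_two_dsc S (hS2 S subset_rfl), lg_two_dsc b (hS2 b hbS), neg_eq_neg_one_mul,
      ch_four.lg_mul (by norm_num) (pow_ne_zero _ hs0), ch_four.lg_sq hs0] at h7
    rw [Int.cast_neg, Int.cast_one] at h8
    rw [h8] at h7
    revert h7
    decide
  have hr' : (dsc S : ℚ) * (x + 1) = dsc b * (s / dsc b) ^ 2 := by
    field_simp
    linear_combination hs1
  refine ⟨b, hbS, ?_, _, hr'⟩
  unfold Ker
  simp only [mem_filter, mem_product, mem_powerset]
  refine ⟨⟨ha, hbS⟩, fun p hp => ?_⟩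
  have hc := ch_jac (hP p hp)
  have i1 : ind S p = 1 := by simp [ind, hp]
  have e1 := hv p (hP p hp)
  have e2 := hva p (hP p hp)
  have e3 := hvb p (hP p hp)
  rw [i1] at e1 e2 e3
  obtain ⟨k1, k2⟩ := loc (hP p hp) (hS p hp).2.1 (hS p hp).2.2.2 h0 h1 h2 e1 rfl
  rw [← hc.lg_mul h0 h1, ← hc.lg_mul (mul_ne_zero h0 h1) h2, ← hxy',
    hc.lg_mul hD (pow_ne_zero _ hy), hc.lg_sq hy, add_zero] at k1 k2
  have m1 := congrArg (lg p (ps p) fun a => jacobiSym a p) hr
  have m2 := congrArg (lg p (ps p) fun a => jacobiSym a p) hr'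
  have hs2 := div_ne_zero hs0 hB
  rw [hc.lg_mul hD h0, hc.lg_mul hA (pow_ne_zero _ hr0), hc.lg_sq hr0, add_zero,
    lg_jac_dsc h (hP p hp) hP ha] at m1
  rw [hc.lg_mul hD h1, hc.lg_mul hB (pow_ne_zero _ hs2), hc.lg_sq hs2, add_zero,
    lg_jac_dsc h (hP p hp) hP hbS] at m2
  have m0 : lg p (ps p) (fun a => jacobiSym a p) (dsc S : ℚ) = ∑ q ∈ S, al p q := by
    rw [lg_jac_dsc h (hP p hp) hP subset_rfl]
    exact sum_congr rfl fun q hq => by simp [ind, hq]
  simp only [mul_add (al p _), sum_add_distrib, ← sum_mul]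
  rw [← m0, ← m1, ← m2, ← e2, ← e3]
  revert k1 k2
  generalize lg p (ps p) (fun a => jacobiSym a p) = L
  generalize L (dsc S : ℚ) = d
  generalize L x = t
  generalize L (x + 1) = t'
  generalize vm p x = v
  generalize vm p (x + 1) = v'
  generalize ep p = c
  generalize ga p = g
  revert d t t' v v' c g
  decide

end Pool.Agent.Lib.MP_d6ddbd_nt.G
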