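import Pool.Agent.Lib.MP_d6ddbd_nt.G.Stmt
import Pool.Agent.Lib.MP_d6ddbd_nt.Gal

/-! Automorphisms of the complex numbers and multiquadratic fields. -/

open Finset

namespace Pool.Agent.Lib.MP_d6ddbd_nt.G

namespace FieldAux

/-- `1` if `σ` moves `z`. -/
noncomputable def sn (σ : ℂ ≃+* ℂ) (z : ℂ) : ZMod 2 := by
  classical exact if σ z = z then 0 else 1

theorem rat {y : ℂ} (h : ∀ σ : ℂ ≃+* ℂ, σ y = y) : ∃ r : ℚ, y = r := by
  have h1 := mem_of_fix (x := 0) isIntegral_zero fun σ _ => h σ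
  rw [IntermediateField.adjoin_zero] at h1
  obtain ⟨r, hr⟩ := IntermediateField.mem_bot.1 h1
  exact ⟨r, hr.symm⟩

theorem sn_zero {σ : ℂ ≃+* ℂ} {z : ℂ} (h : σ z = z) : sn σ z = 0 := if_pos h

theorem sn_one {σ : ℂ ≃+* ℂ} {z : ℂ} (h : σ z ≠ z) : sn σ z = 1 := if_neg h

theorem neg {z : ℂ} {a : ℤ} (h : z ^ 2 = a) {σ : ℂ ≃+* ℂ} (h1 : σ z ≠ z) : σ z = -z :=
  (sq_eq_sq_iff_eq_or_eq_neg.1 (by rw [← map_pow, h, map_intCast])).resolve_left h1

theorem app {z : ℂ} {a : ℤ} (h : z ^ 2 = a) (σ : ℂ ≃+* ℂ) : σ z = sg (sn σ z) * z := by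
  by_cases h1 : σ z = z
  · simp [sn_zero h1, sg, h1]
  · simp [sn_one h1, sg, neg h h1]

theorem trans {z : ℂ} {a : ℤ} (h : z ^ 2 = a) (σ τ : ℂ ≃+* ℂ) :
    sn (σ.trans τ) z = sn σ z + sn τ z := by
  have e : σ.trans τ z = τ (σ z) := rfl
  by_cases h1 : σ z = z <;> by_cases h2 : τ z = z
  · rw [sn_zero h1, sn_zero h2, sn_zero (by rw [e, h1, h2]), add_zero]
  · rw [sn_zero h1, sn_one h2, sn_one (by rwa [e, h1]), zero_add]
  · rw [sn_one h1, sn_zero h2, sn_one (by rw [e, neg h h1, map_neg, h2, ← neg h h1]; exact h1),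
      add_zero]
  · rw [sn_one h1, sn_one h2, sn_zero (by rw [e, neg h h1, map_neg, neg h h2, neg_neg])]
    rfl

theorem sg_add (x y : ZMod 2) : sg (x + y) = sg x * sg y := by
  revert x y
  decide

theorem prod {ι : Type} (T : Finset ι) (z : ι → ℂ) (a : ι → ℤ) (h : ∀ i, z i ^ 2 = a i)
    (σ : ℂ ≃+* ℂ) : σ (∏ i ∈ T, z i) = sg (∑ i ∈ T, sn σ (z i)) * ∏ i ∈ T, z i := by
  classical
  induction T using Finset.induction_on with
  | empty => simp [sg]
  | insert i T hi ih =>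
    rw [prod_insert hi, sum_insert hi, map_mul, ih, app (h i), sg_add, Int.cast_mul]
    ring

theorem indep {ι : Type} (S : Finset ι) (z : ι → ℂ) (a : ι → ℤ) (h : ∀ i, z i ^ 2 = a i)
    (hS : ∀ T ⊆ S, T.Nonempty → ¬ IsSquare (∏ i ∈ T, a i)) (e : ι → ZMod 2) :
    ∃ σ : ℂ ≃+* ℂ, ∀ i ∈ S, sn σ (z i) = e i := by
  classical
  have two : ∀ c : ZMod 2, c = 0 ∨ c = 1 := by decide
  let U : Submodule (ZMod 2) (S → ZMod 2) :=
    { carrier := Set.range fun (σ : ℂ ≃+* ℂ) (i : S) => sn σ (z i)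
      add_mem' := by
        rintro _ _ ⟨σ, rfl⟩ ⟨τ, rfl⟩
        exact ⟨σ.trans τ, funext fun i => trans (h i) σ τ⟩
      zero_mem' := ⟨RingEquiv.refl ℂ, funext fun i => sn_zero rfl⟩
      smul_mem' := fun c x hx => by
        rcases two c with rfl | rfl
        · rw [zero_smul]
          exact ⟨RingEquiv.refl ℂ, funext fun i => sn_zero rfl⟩
        · rwa [one_smul] }
  have hU : U = ⊤ := by
    by_contra hc
    obtain ⟨f, hf, hk⟩ := U.exists_le_ker_of_lt_top (lt_top_iff_ne_top.2 hc)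
    set T : Finset S := univ.filter fun i => f (fun j => if i = j then 1 else 0) = 1 with hT
    have h1 : ∀ x, f x = ∑ i ∈ T, x i := fun x => by
      rw [f.pi_apply_eq_sum_univ, hT, sum_filter]
      refine sum_congr rfl fun i _ => ?_
      rcases two (f fun j => if i = j then 1 else 0) with h2 | h2 <;> simp [h2]
    obtain ⟨r, hr⟩ := rat (y := ∏ i ∈ T, z i) fun σ => by
      rw [prod T (fun i => z i) (fun i => a i) (fun i => h i), ← h1,
        LinearMap.mem_ker.1 (hk ⟨σ, rfl⟩)]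
      simp [sg]
    refine hS (T.map (Function.Embedding.subtype _)) (fun i hi => ?_) (map_nonempty.2 ?_) ?_
    · obtain ⟨j, -, rfl⟩ := mem_map.1 hi
      exact j.2
    · refine nonempty_iff_ne_empty.2 fun h0 => hf (LinearMap.ext fun x => ?_)
      rw [h1, h0, sum_empty, LinearMap.zero_apply]
    · refine Rat.isSquare_intCast_iff.1 ⟨r, (Rat.cast_injective (α := ℂ)) ?_⟩
      rw [Rat.cast_mul, ← hr, ← pow_two, ← prod_pow, prod_map, Rat.cast_intCast, Int.cast_prod]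
      exact prod_congr rfl fun i _ => (h i).symm
  obtain ⟨σ, hσ⟩ : (fun i : S => e i) ∈ U := hU ▸ Submodule.mem_top
  exact ⟨σ, fun i hi => congrFun hσ ⟨i, hi⟩⟩

theorem sq_sq (p : ℕ) : sq p ^ 2 = ps p := by
  rw [sq, one_div]
  exact Complex.cpow_ofNat_inv_pow _ 2

theorem key (S : Finset ℕ) (hS : ∀ p ∈ S, p.Prime) (e : ℕ → ZMod 2) :
    ∃ σ : ℂ ≃+* ℂ, sn σ Complex.I = e 0 ∧ ∀ p ∈ S, sgn σ p = e p := by
  obtain ⟨σ, hσ⟩ := indep (insert 0 S) (fun i => if i = 0 then Complex.I else sq i)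
    (fun i => if i = 0 then -1 else ps i) (fun i => by
      split_ifs
      · simp
      · exact sq_sq i) (fun T hT h0 ⟨m, hm⟩ => by
      have hp : ∀ p ∈ T.erase 0, p.Prime := fun p hp =>
        hS p ((mem_insert.1 (hT (mem_of_mem_erase hp))).resolve_left (ne_of_mem_erase hp))
      have h1 : ∏ i ∈ T.erase 0, i = m.natAbs * m.natAbs := by
        rw [← Int.natAbs_mul, ← hm, ← Int.natAbsHom_apply, map_prod,
          ← prod_erase T (a := 0) (by simp)]
        refine prod_congr rfl fun i hi => ?_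
        rw [if_neg (ne_of_mem_erase hi), ps]
        split_ifs <;> simp
      have h2 : Squarefree (∏ i ∈ T.erase 0, i) := squarefree_prod_of_pairwise_isCoprime
        (fun p h3 q h4 h5 => Nat.coprime_iff_isRelPrime.1
          ((Nat.coprime_primes (hp p h3) (hp q h4)).2 h5)) fun p h3 => (hp p h3).squarefree
      rw [Nat.isUnit_iff.1 (h2 _ h1.symm.dvd), mul_one] at h1
      have h3 : T = {0} := by
        refine (h0.subset_singleton_iff.1 fun p h4 => mem_singleton.2 ?_)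
        by_contra h5
        have h6 := mem_erase.2 ⟨h5, h4⟩
        exact (hp p h6).one_lt.ne' (Nat.dvd_one.1 (h1 ▸ dvd_prod_of_mem (fun i => i) h6))
      rw [h3, prod_singleton, if_pos rfl] at hm
      nlinarith [mul_self_nonneg m]) e
  refine ⟨σ, by simpa using hσ 0 (mem_insert_self _ _), fun p hp => ?_⟩
  have h1 := hσ p (mem_insert_of_mem hp)
  rwa [if_neg (hS p hp).ne_zero] at h1

end FieldAux

open FieldAux in
theorem field : FieldStmt := by
  refine ⟨sq_sq, fun σ p => app (sq_sq p) σ, fun σ τ p => trans (sq_sq p) σ τ,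
    fun S hS e => (key S hS e).imp fun _ h => h.2, fun S hS => ?_, fun _ => rat⟩
  obtain ⟨σ, h1, h2⟩ := key S (fun p hp => (hS p hp).1) fun i => if i = 0 then 1 else 0
  refine ⟨σ, fun p hp => by rw [h2 p hp, if_neg (hS p hp).1.ne_zero],
    neg (a := -1) (by simp) fun h => ?_⟩
  rw [sn_zero h, if_pos rfl] at h1
  exact zero_ne_one h1

end Pool.Agent.Lib.MP_d6ddbd_nt.G
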