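import Pool.Agent.Lib.MP_d6ddbd_nt.G.FStmt

/-! Assembly of the final statement. -/

set_option autoImplicit false

open Finset Filter

noncomputable section

namespace Pool.Agent.Lib.MP_d6ddbd_nt.G

namespace FinalAux

theorem dsc_cases {S : Finset ℕ} (hS : ∀ p ∈ S, p % 2 = 1) :
    (∑ p ∈ S, ep p = 0 ∧ dsc S = (∏ p ∈ S, p : ℕ) ∧ (∏ p ∈ S, p) % 4 = 1) ∨
    (∑ p ∈ S, ep p = 1 ∧ dsc S = -(∏ p ∈ S, p : ℕ) ∧ (∏ p ∈ S, p) % 4 = 3) := by
  induction S using Finset.induction_on with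
  | empty => left; simp [dsc]
  | insert p S hp ih =>
    have h1 := hS p (mem_insert_self _ _)
    have h2 : dsc (insert p S) = ps p * dsc S := Finset.prod_insert hp
    rw [Finset.sum_insert hp, Finset.prod_insert hp, h2, Nat.mul_mod]
    have h4 : p % 4 = 1 ∨ p % 4 = 3 := by omega
    rcases ih (fun q hq => hS q (mem_insert_of_mem hq)) with ⟨a, b, c⟩ | ⟨a, b, c⟩ <;>
      rcases h4 with h | h <;> rw [a, b, c, h]
    · left; simp [ep, ps, h]
    · right; simp [ep, ps, h]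
    · right; simp [ep, ps, h]
    · left; simp [ep, ps, h]; rfl

theorem jac_cases {S : Finset ℕ} (hS : ∀ p ∈ S, p.Prime ∧ p ≠ 17) :
    (∑ p ∈ S, ga p = 0 ∧ jacobiSym 17 (∏ p ∈ S, p) = 1) ∨
    (∑ p ∈ S, ga p = 1 ∧ jacobiSym 17 (∏ p ∈ S, p) = -1) := by
  induction S using Finset.induction_on with
  | empty => left; simp
  | insert p S hp ih =>
    obtain ⟨h1, h2⟩ := hS p (mem_insert_self _ _)
    have h0 : ∏ q ∈ S, q ≠ 0 :=
      Finset.prod_ne_zero_iff.2 fun q hq => (hS q (mem_insert_of_mem hq)).1.ne_zero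
    rw [Finset.sum_insert hp, Finset.prod_insert hp, jacobiSym.mul_right' _ h1.ne_zero h0]
    have h4 : jacobiSym 17 p = 1 ∨ jacobiSym 17 p = -1 := by
      refine jacobiSym.eq_one_or_neg_one ?_
      exact (Nat.coprime_primes (by norm_num : Nat.Prime 17) h1).2 h2.symm
    rcases ih (fun q hq => hS q (mem_insert_of_mem hq)) with ⟨a, b⟩ | ⟨a, b⟩ <;>
      rcases h4 with h | h <;> rw [a, b, h]
    · left; simp [ga, h]
    · right; simp [ga, h]
    · right; simp [ga, h]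
    · left; simp [ga, h]; rfl

theorem odd_of {S : Finset ℕ} (hS : Prs S) : ∀ p ∈ S, p % 2 = 1 := fun p hp =>
  (hS p hp).1.eq_two_or_odd.resolve_left (hS p hp).2.1

theorem prs_iff {n : ℕ} (hn : n ≠ 0) : Prs n.primeFactors ↔ n % 2 = 1 ∧ n.Coprime 51 := by
  constructor
  · intro h
    have k : ∀ p : ℕ, p.Prime → p ∣ n → p ≠ 2 ∧ p ≠ 3 ∧ p ≠ 17 := fun p hp hd =>
      (h p (Nat.mem_primeFactors.2 ⟨hp, hd, hn⟩)).2
    have k2 : ¬ 2 ∣ n := fun hd => (k 2 Nat.prime_two hd).1 rfl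
    have k3 : ¬ 3 ∣ n := fun hd => (k 3 Nat.prime_three hd).2.1 rfl
    have k17 : ¬ 17 ∣ n := fun hd => (k 17 (by norm_num) hd).2.2 rfl
    refine ⟨by omega, ?_⟩
    exact Nat.Coprime.mul_right (m := 3) (n := 17)
      ((Nat.Prime.coprime_iff_not_dvd Nat.prime_three).2 k3).symm
      ((Nat.Prime.coprime_iff_not_dvd (by norm_num)).2 k17).symm
  · rintro ⟨h1, h2⟩ p hp
    have hd := Nat.dvd_of_mem_primeFactors hp
    refine ⟨Nat.prime_of_mem_primeFactors hp, ?_, ?_, ?_⟩ <;> rintro rfl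
    · omega
    · have := Nat.dvd_gcd hd (by norm_num : 3 ∣ 51)
      rw [h2] at this; omega
    · have := Nat.dvd_gcd hd (by norm_num : 17 ∣ 51)
      rw [h2] at this; omega

theorem mem_cl {e : ZMod 2} {X n : ℕ} : n ∈ Cl e X ↔ n ≤ X ∧ Squarefree n ∧ Prs n.primeFactors ∧
    ∑ p ∈ n.primeFactors, ep p = e ∧ ∑ p ∈ n.primeFactors, ga p = 0 := by
  unfold Cl
  simp only [mem_filter, mem_Icc]
  exact ⟨fun h => ⟨h.1.2, h.2⟩, fun h => ⟨⟨Nat.pos_of_ne_zero h.2.1.ne_zero, h.1⟩, h.2⟩⟩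

theorem mem_cl' {e : ZMod 2} {k : ℕ} (h : e = 0 ∧ k = 1 ∨ e = 1 ∧ k = 3) {X n : ℕ} :
    n ∈ Cl e X ↔ n ≤ X ∧ Squarefree n ∧ n % 4 = k ∧ n.Coprime 51 ∧ jacobiSym 17 n = 1 := by
  rw [mem_cl]
  refine and_congr_right fun _ => and_congr_right fun hs => ?_
  have key : Prs n.primeFactors →
      ((∑ p ∈ n.primeFactors, ep p = e ∧ ∑ p ∈ n.primeFactors, ga p = 0) ↔
        (n % 4 = k ∧ jacobiSym 17 n = 1)) := by
    intro hp
    have a1 := dsc_cases (odd_of hp)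
    have a2 := jac_cases (S := n.primeFactors) fun p h => ⟨(hp p h).1, (hp p h).2.2.2⟩
    rw [Nat.prod_primeFactors_of_squarefree hs] at a1 a2
    rcases h with ⟨rfl, rfl⟩ | ⟨rfl, rfl⟩ <;> rcases a1 with ⟨a, -, c⟩ | ⟨a, -, c⟩ <;>
      rcases a2 with ⟨d, f⟩ | ⟨d, f⟩ <;> simp [a, c, d, f]
  constructor
  · rintro ⟨hp, h1⟩
    exact ⟨((key hp).1 h1).1, ((prs_iff hs.ne_zero).1 hp).2, ((key hp).1 h1).2⟩
  · rintro ⟨h1, h2, h3⟩
    have hp := (prs_iff hs.ne_zero).2 ⟨by omega, h2⟩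
    exact ⟨hp, (key hp).2 ⟨h1, h3⟩⟩

theorem zero_mem (S : Finset ℕ) : ((∅ : Finset ℕ), (∅ : Finset ℕ)) ∈ Ker S := by
  simp [Ker, ind]

theorem pt1 {S : Finset ℕ} (h : (Ker S).card = 2 ∨ 8 ≤ (Ker S).card) :
    (14 : ℝ) ≤ (Ker S).card + 6 * (((Ker S).filter fun x => x.1 = ∅).card : ℝ) +
      6 * (if Good S then 1 else 0) := by
  have h0 : ((∅ : Finset ℕ), (∅ : Finset ℕ)) ∈ (Ker S).filter fun x => x.1 = ∅ :=
    mem_filter.2 ⟨zero_mem S, rfl⟩
  have h1 : 1 ≤ ((Ker S).filter fun x => x.1 = ∅).card := Finset.card_pos.2 ⟨_, h0⟩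
  have : 14 ≤ (Ker S).card + 6 * ((Ker S).filter fun x => x.1 = ∅).card +
      6 * (if Good S then 1 else 0) := by
    split_ifs with hg
    · omega
    · rcases h with h | h
      · have : 1 < ((Ker S).filter fun x => x.1 = ∅).card := by
          by_contra hc
          refine hg ⟨h, fun x hx h1 => ?_⟩
          rw [Finset.card_le_one.1 (not_lt.1 hc) x (mem_filter.2 ⟨hx, h1⟩) _ h0]
        omega
      · omega
  exact_mod_cast this

theorem pt0 {S : Finset ℕ} (h : (Ker S).card = 1 ∨ 4 ≤ (Ker S).card) :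
    (4 : ℝ) ≤ (Ker S).card + 3 * (if (Ker S).card = 1 then 1 else 0) := by
  have : 4 ≤ (Ker S).card + 3 * (if (Ker S).card = 1 then 1 else 0) := by
    split_ifs <;> omega
  exact_mod_cast this

theorem count (hP : ParStmt) (hC : ClStmt) (hM : MomStmt) (ε : ℝ) (hε : 0 < ε) :
    ∀ᶠ X : ℕ in atTop,
      (5 / 6 - ε) * ((Cl 1 X).card : ℝ) ≤ ((Cl 1 X).filter fun n => Good n.primeFactors).card ∧
      (1 / 3 - ε) * ((Cl 0 X).card : ℝ) ≤
        ((Cl 0 X).filter fun n => (Ker n.primeFactors).card = 1).card := by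
  obtain ⟨c, hc, hC⟩ := hC
  have hd : 0 < ε * c / 2 := by positivity
  filter_upwards [hC 0, hC 1, hM 0 _ hd, hM 1 _ hd] with X c0 c1 m0 m1
  have c0' := mul_le_mul_of_nonneg_left c0 hε.le
  have c1' := mul_le_mul_of_nonneg_left c1 hε.le
  have hX : 0 ≤ ε * (c * X) := by positivity
  constructor
  · have := Finset.sum_le_sum (s := Cl 1 X) fun n hn => pt1 (hP.1 n.primeFactors (mem_cl.1 hn).2.2)
    rw [Finset.sum_add_distrib, Finset.sum_add_distrib, ← Finset.mul_sum, ← Finset.mul_sum,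
      Finset.sum_boole, Finset.sum_const, nsmul_eq_mul] at this
    linarith [m1.1, m1.2]
  · have := Finset.sum_le_sum (s := Cl 0 X) fun n hn => pt0 (hP.2 n.primeFactors (mem_cl.1 hn).2.2)
    rw [Finset.sum_add_distrib, ← Finset.mul_sum, Finset.sum_boole, Finset.sum_const,
      nsmul_eq_mul] at this
    linarith [m0.1]

end FinalAux

open FinalAux in
theorem final (hG : GeomStmt) (hI : IndStmt) (hF : FinStmt) (hP : ParStmt) (hC : ClStmt)
    (hM : MomStmt) (hA : CompStmt) : FinalStmt := by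
  obtain ⟨A, hc, h1, h0⟩ := hA
  have s1 : ∀ X : ℕ, {n : ℕ | n ≤ X ∧ Squarefree n ∧ n % 4 = 3 ∧ n.Coprime 51 ∧
      jacobiSym 17 n = 1} = (Cl 1 X : Set ℕ) := fun X => by
    ext n; exact (mem_cl' (Or.inr ⟨rfl, rfl⟩)).symm
  have s0 : ∀ X : ℕ, {n : ℕ | n ≤ X ∧ Squarefree n ∧ n % 4 = 1 ∧ n.Coprime 51 ∧
      jacobiSym 17 n = 1} = (Cl 0 X : Set ℕ) := fun X => by
    ext n; exact (mem_cl' (Or.inl ⟨rfl, rfl⟩)).symm
  have t1 : ∀ X : ℕ, {n : ℕ | n ≤ X ∧ Squarefree n ∧ n % 4 = 3 ∧ n.Coprime 51 ∧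
      jacobiSym 17 n = 1 ∧ A (-(n : ℤ)) = some true} =
        ((Cl 1 X).filter fun n => Good n.primeFactors : Finset ℕ) := fun X => by
    ext n
    rw [Finset.mem_coe, mem_filter, Set.mem_ofPred_eq, h1, Int.natAbs_neg, Int.natAbs_natCast]
    constructor
    · rintro ⟨a, b, c, d, e, -, -, -, g⟩
      exact ⟨(mem_cl' (Or.inr ⟨rfl, rfl⟩)).2 ⟨a, b, c, d, e⟩, g⟩
    · rintro ⟨h, g⟩
      obtain ⟨a, b, c, d, e⟩ := (mem_cl' (Or.inr ⟨rfl, rfl⟩)).1 h
      exact ⟨a, b, c, d, e, by omega, b, (mem_cl.1 h).2.2, g⟩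
  have t0 : ∀ X : ℕ, {n : ℕ | n ≤ X ∧ Squarefree n ∧ n % 4 = 1 ∧ n.Coprime 51 ∧
      jacobiSym 17 n = 1 ∧ A (n : ℤ) = some false} =
        ((Cl 0 X).filter fun n => (Ker n.primeFactors).card = 1 : Finset ℕ) := fun X => by
    ext n
    rw [Finset.mem_coe, mem_filter, Set.mem_ofPred_eq, h0, Int.natAbs_natCast]
    constructor
    · rintro ⟨a, b, c, d, e, -, -, -, g⟩
      exact ⟨(mem_cl' (Or.inl ⟨rfl, rfl⟩)).2 ⟨a, b, c, d, e⟩, g⟩
    · rintro ⟨h, g⟩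
      obtain ⟨a, b, c, d, e⟩ := (mem_cl' (Or.inl ⟨rfl, rfl⟩)).1 h
      exact ⟨a, b, c, d, e, by omega, b, (mem_cl.1 h).2.2, g⟩
  refine ⟨A, hc, fun D b hb => ?_, fun ε hε => ?_, ?_⟩
  · cases b
    · obtain ⟨a, b, c, d⟩ := (h0 D).1 hb
      have e : dsc D.natAbs.primeFactors = D := by
        rcases dsc_cases (odd_of c.1) with ⟨-, f, -⟩ | ⟨f, -, -⟩
        · rw [f, Nat.prod_primeFactors_of_squarefree b]; omega
        · rw [c.2.1] at f; exact absurd f (by decide)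
      have := hF _ c.1 d
      rw [e] at this
      exact ⟨fun h => absurd this h, fun h => by simp at h⟩
    · obtain ⟨a, b, c, d⟩ := (h1 D).1 hb
      have e : dsc D.natAbs.primeFactors = D := by
        rcases dsc_cases (odd_of c.1) with ⟨f, -, -⟩ | ⟨-, f, -⟩
        · rw [c.2.1] at f; exact absurd f (by decide)
        · rw [f, Nat.prod_primeFactors_of_squarefree b]; omega
      have := hI hG _ c d
      rw [e] at this
      exact ⟨fun _ => rfl, fun _ => this⟩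
  · filter_upwards [count hP hC hM ε hε] with X hX
    rw [s1, s0, t1, t0]
    simp only [Set.ncard_coe_finset]
    exact hX
  · have hX := count hP hC hM (1 / 12) (by norm_num)
    obtain ⟨c, hc0, hC⟩ := hC
    refine ⟨c / 4, by positivity, ?_⟩
    filter_upwards [hX, hC 0, hC 1] with X hX c0 c1
    have hf : ∀ p : ℕ → Prop, {n : ℕ | n ≤ X ∧ p n}.Finite := fun p =>
      (Set.finite_Iic X).subset fun n hn => hn.1
    have u1 := Set.ncard_le_ncard (s := {n : ℕ | n ≤ X ∧ Squarefree n ∧ n % 4 = 3 ∧ n.Coprime 51 ∧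
      jacobiSym 17 n = 1 ∧ A (-(n : ℤ)) = some true})
      (t := {n : ℕ | n ≤ X ∧ Squarefree n ∧ A (-(n : ℤ)) = some true})
      (fun n hn => ⟨hn.1, hn.2.1, hn.2.2.2.2.2⟩) (hf _)
    have u0 := Set.ncard_le_ncard (s := {n : ℕ | n ≤ X ∧ Squarefree n ∧ n % 4 = 1 ∧ n.Coprime 51 ∧
      jacobiSym 17 n = 1 ∧ A (n : ℤ) = some false})
      (t := {n : ℕ | n ≤ X ∧ Squarefree n ∧ A (n : ℤ) = some false})
      (fun n hn => ⟨hn.1, hn.2.1, hn.2.2.2.2.2⟩) (hf _)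
    rw [t1, Set.ncard_coe_finset] at u1
    rw [t0, Set.ncard_coe_finset] at u0
    have v1 := (Nat.cast_le (α := ℝ)).2 u1
    have v0 := (Nat.cast_le (α := ℝ)).2 u0
    have hX0 : 0 ≤ c * X := by positivity
    constructor <;> linarith [hX.1, hX.2]

end Pool.Agent.Lib.MP_d6ddbd_nt.G
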