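import Pool.Agent.Lib.MP_d6ddbd_nt.G.MStmt

/-! Only the maximal unlinked sets contribute to the first moment. -/

open Finset Filter

noncomputable section

namespace Pool.Agent.Lib.MP_d6ddbd_nt.G

namespace HBa

/-- The size class of a number. -/
noncomputable def sz (a b : ℝ) (m : ℕ) : Fin 4 := by
  classical exact if b < m then 3 else if a < m then 2 else if 1 < m then 1 else 0

theorem sz_three {a b : ℝ} {m : ℕ} : sz a b m = 3 ↔ b < m := by
  unfold sz
  split_ifs with h1 h2 h3 <;> simp [h1]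

theorem lt_of_sz {a b : ℝ} (hab : a ≤ b) {m : ℕ} (h : 2 ≤ sz a b m) : a < m := by
  unfold sz at h
  split_ifs at h with h1 h2 h3
  · exact hab.trans_lt h1
  · exact h2
  · exact absurd h (by decide)
  · exact absurd h (by decide)

theorem le_of_sz {a b : ℝ} {m : ℕ} (h : ¬ 2 ≤ sz a b m) : (m : ℝ) ≤ a := by
  unfold sz at h
  split_ifs at h with h1 h2 h3
  · exact absurd (by decide) h
  · exact absurd (by decide) h
  · exact not_lt.1 h2
  · exact not_lt.1 h2

theorem sz_one {a b : ℝ} (ha : 1 ≤ a) (hab : a ≤ b) : sz a b 1 = 0 := by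
  unfold sz
  rw [if_neg (by push_cast; linarith), if_neg (by push_cast; linarith), if_neg (lt_irrefl _)]

theorem le_of_sz_zero {a b : ℝ} {m : ℕ} (h : sz a b m = 0) : m ≤ 1 := by
  unfold sz at h
  split_ifs at h with h1 h2 h3
  · exact absurd h (by decide)
  · exact absurd h (by decide)
  · exact absurd h (by decide)
  · exact not_lt.1 h3

theorem thresholds (k : ℕ) : ∀ᶠ X : ℕ in atTop, 1 ≤ X ∧ 1 ≤ sm k X ∧ sm k X ≤ lg k X := by
  have h0 : Tendsto (fun X : ℕ => Real.log X) atTop atTop :=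
    Real.tendsto_log_atTop.comp tendsto_natCast_atTop_atTop
  have h1 : Tendsto (fun X : ℕ => Real.log X ^ (1 / (8 * (k + 1)) : ℝ)) atTop atTop :=
    (tendsto_rpow_atTop (by positivity)).comp h0
  have h2 := h1.eventually ((Real.tendsto_exp_div_pow_atTop
    (8 * (k + 1) * (8 * (k + 1)))).eventually_ge_atTop 1)
  filter_upwards [eventually_ge_atTop 1, h0.eventually_ge_atTop 1, h2] with X hX hl he
  refine ⟨hX, one_le_pow₀ hl, ?_⟩
  have hp : 0 < Real.log X := by linarith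
  rw [le_div_iff₀ (pow_pos (Real.rpow_pos_of_pos hp _) _), one_mul, pow_mul] at he
  have e : (Real.log X ^ (1 / (8 * (k + 1)) : ℝ)) ^ (8 * (k + 1)) = Real.log X := by
    have := Real.rpow_inv_natCast_pow hp.le (n := 8 * (k + 1)) (by omega)
    rw [one_div]
    exact_mod_cast this
  rw [e] at he
  exact he

variable {V : Type} [Fintype V] [LinearOrder V]

/-- The part of a box with a given pattern of sizes. -/
noncomputable def bx (a b : ℝ) (W : Finset V) (X : ℕ) (P : V → Fin 4) (u : V) : Finset ℕ :=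
  (tW W X u).filter fun m => sz a b m = P u

/-- The pattern attached to a set. -/
def pat (U : Finset V) (u : V) : Fin 4 := if u ∈ U then 3 else 0

omit [Fintype V] in
theorem pat_inj : Function.Injective (pat (V := V)) := fun U W e => by
  ext u
  have := congrFun e u
  unfold pat at this
  split_ifs at this with h1 h2 h2
  · exact iff_of_true h1 h2
  · exact absurd this (by decide)
  · exact absurd this (by decide)
  · exact iff_of_false h1 h2

theorem split (ψ : V → V → ZMod 2) (l₁ l₂ : V → ZMod 2) (a b : ℝ) (W : Finset V) (X : ℕ) :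
    SS ψ l₁ l₂ X (tW W X) = ∑ P : V → Fin 4, SS ψ l₁ l₂ X (bx a b W X P) := by
  unfold SS
  rw [← sum_fiberwise _ fun (N : V → ℕ) u => sz a b (N u)]
  refine sum_congr rfl fun P _ => sum_congr ?_ fun _ _ => rfl
  ext N
  simp only [mem_filter, Fintype.mem_piFinset, bx, funext_iff, forall_and]
  tauto

omit [Fintype V] in
theorem bx_sub (a b : ℝ) (W : Finset V) {X : ℕ} (hX : 1 ≤ X) (P : V → Fin 4) (u : V) :
    bx a b W X P u ⊆ Icc 1 X := by
  refine (filter_subset _ _).trans ?_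
  unfold tW
  split_ifs
  · exact Subset.rfl
  · exact singleton_subset_iff.2 (mem_Icc.2 ⟨le_rfl, hX⟩)

omit [Fintype V] in
theorem sz_bx {a b : ℝ} {W : Finset V} {X : ℕ} {P : V → Fin 4} {u : V} {m : ℕ}
    (h : m ∈ bx a b W X P u) : sz a b m = P u := (mem_filter.1 h).2

theorem bx_pat (a b : ℝ) (U : Finset V) {X : ℕ} (hX : 1 ≤ X) :
    bx a b U X (pat U) = bx a b univ X (pat U) := by
  funext u
  unfold bx tW pat
  rw [if_pos (mem_univ u)]
  split_ifs with h
  · rfl
  · ext m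
    simp only [mem_filter, mem_singleton, mem_Icc]
    constructor
    · rintro ⟨rfl, h2⟩
      exact ⟨⟨le_rfl, hX⟩, h2⟩
    · rintro ⟨h1, h2⟩
      exact ⟨le_antisymm (le_of_sz_zero h2) h1.1, h2⟩

theorem SS_empty (ψ : V → V → ZMod 2) (l₁ l₂ : V → ZMod 2) (X : ℕ) {t : V → Finset ℕ} {u : V}
    (h : t u = ∅) : SS ψ l₁ l₂ X t = 0 := by
  unfold SS
  refine sum_eq_zero fun N hN => ?_
  have := Fintype.mem_piFinset.1 (mem_filter.1 hN).1 u
  rw [h] at this
  exact absurd this (notMem_empty _)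

end HBa

open HBa

theorem hb (hA : CaseA) (hB : CaseB) (hC : CaseC) : HBStmt := by
  intro V _ _ ψ l₁ l₂ h0 h4 ε hε
  obtain ⟨S, hS⟩ : ∃ S, S = (powersetCard 4 univ).filter fun U => Unl ψ U := ⟨_, rfl⟩
  have hS' : ∀ U, U ∈ S ↔ U.card = 4 ∧ Unl ψ U := fun U => by
    rw [hS, mem_filter, mem_powersetCard_univ]
  rw [← hS]
  obtain ⟨M, hM⟩ : ∃ M : ℕ, M = Fintype.card (V → Fin 4) := ⟨_, rfl⟩
  obtain ⟨δ, hδ, hδε⟩ : ∃ δ : ℝ, 0 < δ ∧ (M + S.card * M) * δ ≤ ε := by
    refine ⟨ε / (M + S.card * M + 1), by positivity, ?_⟩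
    rw [← mul_div_assoc, div_le_iff₀ (by positivity)]
    nlinarith
  filter_upwards [hA V ψ l₁ l₂ h0 δ hδ, hB V ψ l₁ l₂ h0 δ hδ, hC V ψ l₁ l₂ δ hδ,
    thresholds (Fintype.card V)] with X hA hB hC ⟨hX, ha, hab⟩
  generalize sm (Fintype.card V) X = a at hA hB ha hab
  generalize lg (Fintype.card V) X = b at hB hC hab
  have hδX : 0 ≤ δ * X := by positivity
  have hC' : ∀ W P, (univ.filter fun u => P u = 3).card ≤ 3 →
      |SS ψ l₁ l₂ X (bx a b W X P)| ≤ δ * X := fun W P h =>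
    hC _ (bx_sub a b W hX P) _ h fun u hu k hk => not_lt.1 fun h1 =>
      hu (mem_filter.2 ⟨mem_univ _, (sz_bx hk).symm.trans (sz_three.2 h1)⟩)
  have h1 : ∀ U ∈ S, ∀ P, P ≠ pat U → |SS ψ l₁ l₂ X (bx a b U X P)| ≤ δ * X := by
    intro U hU P hP
    by_cases h : ∃ u, u ∉ U ∧ P u ≠ 0
    · obtain ⟨u, hu, hu0⟩ := h
      rw [SS_empty (u := u), abs_zero]
      · exact hδX
      · refine eq_empty_of_forall_notMem fun m hm => hu0 ?_
        have h2 := (mem_filter.1 hm).1
        rw [tW, if_neg hu, mem_singleton] at h2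
        rw [← sz_bx hm, h2, sz_one ha hab]
    · push Not at h
      refine hC' U P (Nat.lt_succ_iff.1 ?_)
      refine lt_of_lt_of_eq (card_lt_card
        (Finset.ssubset_iff_subset_ne.2 ⟨fun u hu => ?_, fun e => ?_⟩)) ((hS' U).1 hU).1
      · by_contra h2
        exact absurd ((h u h2).symm.trans (mem_filter.1 hu).2) (by decide)
      · refine hP (funext fun u => ?_)
        unfold pat
        split_ifs with h2
        · rw [← e] at h2
          exact (mem_filter.1 h2).2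
        · exact h u h2
  have h2 : ∀ P, P ∉ S.image pat → |SS ψ l₁ l₂ X (bx a b univ X P)| ≤ δ * X := by
    intro P hP
    by_cases hl : ∃ u v, ψ u v ≠ ψ v u ∧ 2 ≤ P u ∧ 2 ≤ P v
    · obtain ⟨u, v, huv, hu, hv⟩ := hl
      exact hA _ (bx_sub a b _ hX P) u v huv (fun m hm => lt_of_sz hab (by rwa [sz_bx hm]))
        fun m hm => lt_of_sz hab (by rwa [sz_bx hm])
    by_cases h3 : (univ.filter fun u => P u = 3).card ≤ 3
    · exact hC' _ P h3
    have hT : Unl ψ (univ.filter fun u => 2 ≤ P u) := fun u hu v hv => by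
      by_contra h
      exact hl ⟨u, v, h, (mem_filter.1 hu).2, (mem_filter.1 hv).2⟩
    have hT4 := h4 _ hT
    have e : (univ.filter fun u => P u = 3) = univ.filter fun u => 2 ≤ P u :=
      eq_of_subset_of_card_le (fun u hu => mem_filter.2 ⟨mem_univ _, by
        rw [(mem_filter.1 hu).2]; decide⟩) (by omega)
    obtain ⟨U, hU⟩ : ∃ U, U = univ.filter fun u => P u = 3 := ⟨_, rfl⟩
    rw [← e] at hT hT4
    rw [← hU] at hT hT4 h3 e
    have hU3 : ∀ u, u ∈ U ↔ P u = 3 := fun u => by rw [hU]; simp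
    have hU2 : ∀ u, u ∈ U ↔ 2 ≤ P u := fun u => by rw [e]; simp
    have hc : U.card = 4 := by omega
    obtain ⟨v, hv⟩ := Function.ne_iff.1
      (show P ≠ pat U from fun e => hP (mem_image.2 ⟨U, (hS' U).2 ⟨hc, hT⟩, e.symm⟩))
    have hvU : v ∉ U := fun h => hv (by rw [pat, if_pos h]; exact (hU3 v).1 h)
    rw [pat, if_neg hvU] at hv
    obtain ⟨u, hu, huv⟩ : ∃ u ∈ U, ψ u v ≠ ψ v u := by
      by_contra h
      push Not at h
      have h5 := h4 (insert v U) fun x hx y hy => by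
        rcases mem_insert.1 hx with hx' | hx' <;> rcases mem_insert.1 hy with hy' | hy'
        · rw [hx', hy']
        · rw [hx', h y hy']
        · rw [hy', h x hx']
        · exact hT x hx' y hy'
      rw [card_insert_of_notMem hvU] at h5
      omega
    refine hB _ (bx_sub a b _ hX P) u (fun m => ?_) (fun w hw k hk => le_of_sz (b := b) ?_)
      ⟨v, huv, fun h => hv (by rw [← sz_bx h, sz_one ha hab])⟩
    · rw [bx, tW, if_pos (mem_univ u), mem_filter, mem_Icc, (hU3 u).1 hu, sz_three]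
      refine ⟨fun h => ⟨h.1.2, h.2⟩, fun h => ⟨⟨?_, h.1⟩, h.2⟩⟩
      have : (1 : ℝ) ≤ m := by linarith [h.2]
      exact_mod_cast this
    · rw [sz_bx hk]
      exact fun h => hl ⟨u, w, hw, (hU2 u).1 hu, h⟩
  have e1 : SS ψ l₁ l₂ X (tW univ X) = ∑ P ∈ (S.image pat)ᶜ, SS ψ l₁ l₂ X (bx a b univ X P) +
      ∑ U ∈ S, SS ψ l₁ l₂ X (bx a b univ X (pat U)) := by
    rw [split ψ l₁ l₂ a b, ← sum_compl_add_sum (S.image pat), sum_image pat_inj.injOn]
  have e2 : ∑ U ∈ S, SS ψ l₁ l₂ X (tW U X) =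
      ∑ U ∈ S, ∑ P ∈ univ.erase (pat U), SS ψ l₁ l₂ X (bx a b U X P) +
        ∑ U ∈ S, SS ψ l₁ l₂ X (bx a b univ X (pat U)) := by
    rw [← sum_add_distrib]
    refine sum_congr rfl fun U _ => ?_
    rw [split ψ l₁ l₂ a b, ← bx_pat a b U hX, sum_erase_add _ _ (mem_univ _)]
  have h3 : ∀ (s : Finset (V → Fin 4)) (F : (V → Fin 4) → ℝ), (∀ P ∈ s, |F P| ≤ δ * X) →
      |∑ P ∈ s, F P| ≤ M * (δ * X) := fun s F h => by
    refine (abs_sum_le_sum_abs _ _).trans ((sum_le_card_nsmul _ _ _ h).trans ?_)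
    rw [nsmul_eq_mul, hM]
    exact mul_le_mul_of_nonneg_right (by exact_mod_cast card_le_univ s) hδX
  have h5 := h3 _ _ fun P hP => h2 P (mem_compl.1 hP)
  have h6 := (abs_sum_le_sum_abs _ _).trans (sum_le_card_nsmul S _ _ fun U hU =>
    h3 (univ.erase (pat U)) _ fun P hP => h1 U hU P (ne_of_mem_erase hP))
  rw [e1, e2, add_sub_add_right_eq_sub]
  rw [nsmul_eq_mul] at h6
  refine (abs_sub _ _).trans ((add_le_add h5 h6).trans ?_)
  have h7 := mul_le_mul_of_nonneg_right hδε (Nat.cast_nonneg (α := ℝ) X)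
  linarith

end Pool.Agent.Lib.MP_d6ddbd_nt.G
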