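import Pool.Agent.Lib.MP_d6ddbd_nt.G.MStmt

/-! The main term of the first moment. -/

open Finset Filter

noncomputable section

namespace Pool.Agent.Lib.MP_d6ddbd_nt.G

namespace MainTAux

/-- The characters of the Klein four group, with integer values. -/
def chz (x y : ZMod 2 × ZMod 2) : ℤ := sg (x.1 * y.1 + x.2 * y.2)

/-- The characters of the Klein four group. -/
noncomputable def ch (x y : ZMod 2 × ZMod 2) : ℝ := chz x y

theorem chz_add : ∀ x y z, chz x (y + z) = chz x y * chz x z := by decide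

theorem chz_zero : ∀ x, chz x 0 = 1 := by decide

theorem chz_orth : ∀ y z, ∑ x, chz x y * chz x z = if y = z then 4 else 0 := by decide

theorem chz_sep : ∀ x x', x ≠ x' → ∃ k, chz x k + chz x' k = 0 := by decide

theorem sg_abs : ∀ z, |sg z| = 1 := by decide

theorem ch_abs (x y : ZMod 2 × ZMod 2) : |ch x y| = 1 := by
  rw [ch, ← Int.cast_abs, chz, sg_abs, Int.cast_one]

theorem ch_sum {P : Type} (x : ZMod 2 × ZMod 2) (s : Finset P) (κ : P → ZMod 2 × ZMod 2) :
    ch x (∑ p ∈ s, κ p) = ∏ p ∈ s, ch x (κ p) := by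
  classical
  induction s using Finset.induction_on with
  | empty => simp [ch, chz_zero]
  | insert p s hp ih => rw [sum_insert hp, prod_insert hp, ← ih, ch, chz_add, Int.cast_mul]; rfl

theorem ch_orth (y z : ZMod 2 × ZMod 2) : ∑ x, ch x y * ch x z = if y = z then 4 else 0 := by
  have := congrArg (Int.cast : ℤ → ℝ) (chz_orth y z)
  push_cast at this
  exact this

section Core

variable {ι P : Type} [Fintype ι] [DecidableEq ι] [Fintype P] [DecidableEq P]

/-- The Fourier coefficient. -/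
noncomputable def hat (Φ : (ι → ZMod 2 × ZMod 2) → ℝ) (ξ : ι → ZMod 2 × ZMod 2) : ℝ :=
  (∑ c, Φ c * ∏ u, ch (ξ u) (c u)) / 256

theorem card_fun (hι : Fintype.card ι = 4) : Fintype.card (ι → ZMod 2 × ZMod 2) = 256 := by
  rw [Fintype.card_fun, hι, Fintype.card_prod, ZMod.card]
  norm_num

theorem hat_le (hι : Fintype.card ι = 4) {Φ : (ι → ZMod 2 × ZMod 2) → ℝ} (hΦ : ∀ c, |Φ c| ≤ 1)
    (ξ : ι → ZMod 2 × ZMod 2) : |hat Φ ξ| ≤ 1 := by
  rw [hat, abs_div, abs_of_pos (by norm_num : (0 : ℝ) < 256), div_le_one (by norm_num)]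
  refine (abs_sum_le_sum_abs _ _).trans ((sum_le_card_nsmul _ _ 1 fun c _ => ?_).trans ?_)
  · rw [abs_mul, abs_prod]
    simpa [ch_abs] using hΦ c
  · simp [card_fun hι]

theorem inversion (hι : Fintype.card ι = 4) (Φ : (ι → ZMod 2 × ZMod 2) → ℝ)
    (c' : ι → ZMod 2 × ZMod 2) : Φ c' = ∑ ξ, hat Φ ξ * ∏ u, ch (ξ u) (c' u) := by
  have h1 : ∀ c : ι → ZMod 2 × ZMod 2,
      ∑ ξ : ι → ZMod 2 × ZMod 2, (∏ u, ch (ξ u) (c u)) * ∏ u, ch (ξ u) (c' u) =
        if c = c' then 256 else 0 := fun c => by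
    simp only [← prod_mul_distrib]
    rw [← Fintype.piFinset_univ,
      ← prod_univ_sum (fun _ => univ) fun u x => ch x (c u) * ch x (c' u)]
    simp only [ch_orth]
    split_ifs with h
    · simp [h, hι]
      norm_num
    · obtain ⟨u, hu⟩ := Function.ne_iff.1 h
      exact prod_eq_zero (mem_univ u) (if_neg hu)
  simp only [hat, div_mul_eq_mul_div, sum_mul, mul_assoc]
  rw [← sum_div, sum_comm]
  simp only [← mul_sum, h1, mul_ite, mul_zero, sum_ite_eq', mem_univ, if_true]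
  ring

/-- The mean value of a character. -/
noncomputable def ww (κ : P → ZMod 2 × ZMod 2) (ξ : ι → ZMod 2 × ZMod 2) : ℝ :=
  ∏ p, (∑ u, ch (ξ u) (κ p)) / 4

theorem expand (hι : Fintype.card ι = 4) (Φ : (ι → ZMod 2 × ZMod 2) → ℝ)
    (κ : P → ZMod 2 × ZMod 2) :
    ((4 : ℝ) ^ Fintype.card P)⁻¹ * ∑ f : P → ι, Φ (fun u => ∑ p with f p = u, κ p) =
      ∑ ξ, hat Φ ξ * ww κ ξ := by
  have h1 : ∀ (f : P → ι) (ξ : ι → ZMod 2 × ZMod 2),
      ∏ u, ch (ξ u) (∑ p with f p = u, κ p) = ∏ p, ch (ξ (f p)) (κ p) := fun f ξ => by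
    rw [← prod_fiberwise univ f]
    refine prod_congr rfl fun u _ => ?_
    rw [ch_sum]
    exact prod_congr rfl fun p hp => by rw [(mem_filter.1 hp).2]
  have h2 : ∀ ξ : ι → ZMod 2 × ZMod 2,
      ((4 : ℝ) ^ Fintype.card P)⁻¹ * ∑ f : P → ι, ∏ p, ch (ξ (f p)) (κ p) = ww κ ξ := fun ξ => by
    rw [ww, prod_div_distrib, prod_univ_sum (fun _ => univ) fun p u => ch (ξ u) (κ p),
      Fintype.piFinset_univ, prod_const, card_univ, div_eq_inv_mul]
  rw [sum_congr rfl fun f _ => inversion hι Φ _, sum_comm, mul_sum]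
  refine sum_congr rfl fun ξ _ => ?_
  simp only [h1]
  rw [← mul_sum, mul_left_comm, h2]

omit [DecidableEq ι] [DecidableEq P] in
theorem ww_const (hι : Fintype.card ι = 4) (κ : P → ZMod 2 × ZMod 2) (x : ZMod 2 × ZMod 2) :
    ww κ (fun _ : ι => x) = ch x (∑ p, κ p) := by
  rw [ww, ch_sum]
  refine prod_congr rfl fun p _ => ?_
  rw [sum_const, card_univ, hι, nsmul_eq_mul]
  push_cast
  ring

omit [DecidableEq P] in
theorem ww_le (hι : Fintype.card ι = 4) (κ : P → ZMod 2 × ZMod 2) {ξ : ι → ZMod 2 × ZMod 2}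
    {u v : ι} (h : ξ u ≠ ξ v) :
    |ww κ ξ| ≤ ∑ k, (1 / 2 : ℝ) ^ (univ.filter fun p => κ p = k).card := by
  obtain ⟨k, hk⟩ := chz_sep _ _ h
  have huv : u ≠ v := fun e => h (by rw [e])
  have hk' : ch (ξ u) k + ch (ξ v) k = 0 := by
    rw [ch, ch]
    exact_mod_cast hk
  refine le_trans ?_ (single_le_sum (f := fun k => (1 / 2 : ℝ) ^ (univ.filter fun p => κ p = k).card)
    (fun _ _ => by positivity) (mem_univ k))
  rw [ww, abs_prod, ← prod_const, prod_filter]
  refine prod_le_prod (fun _ _ => abs_nonneg _) fun p _ => ?_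
  rw [abs_div, abs_of_pos (by norm_num : (0 : ℝ) < 4), div_le_iff₀ (by norm_num)]
  split_ifs with hp
  · rw [hp, ← sum_sdiff (subset_univ {u, v}), sum_pair huv, hk', add_zero]
    refine (abs_sum_le_sum_abs _ _).trans ?_
    simp only [ch_abs]
    rw [sum_const, card_univ_sdiff, hι, card_pair huv]
    norm_num
  · refine (abs_sum_le_sum_abs _ _).trans ?_
    simp [ch_abs, hι]

theorem core (hι : Fintype.card ι = 4) {Φ : (ι → ZMod 2 × ZMod 2) → ℝ} (hΦ : ∀ c, |Φ c| ≤ 1)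
    (κ : P → ZMod 2 × ZMod 2) :
    |((4 : ℝ) ^ Fintype.card P)⁻¹ * ∑ f : P → ι, Φ (fun u => ∑ p with f p = u, κ p) -
      (∑ c, if ∑ u, c u = ∑ p, κ p then Φ c else 0) / 64| ≤
      256 * ∑ k, (1 / 2 : ℝ) ^ (univ.filter fun p => κ p = k).card := by
  have : Nonempty ι := Fintype.card_pos_iff.1 (by omega)
  obtain ⟨u₀⟩ := this
  let C : Finset (ι → ZMod 2 × ZMod 2) := univ.image fun x _ => x
  have h1 : ∑ ξ ∈ C, hat Φ ξ * ww κ ξ = (∑ c, if ∑ u, c u = ∑ p, κ p then Φ c else 0) / 64 := by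
    rw [sum_image fun x _ y _ h => congrFun h u₀]
    simp only [ww_const hι, hat, ← ch_sum, div_mul_eq_mul_div, sum_mul, mul_assoc]
    rw [← sum_div, sum_comm]
    simp only [← mul_sum, ch_orth]
    rw [sum_div, sum_div]
    refine sum_congr rfl fun c _ => ?_
    split_ifs <;> ring
  rw [expand hι, ← h1, ← sum_sdiff (subset_univ C), add_sub_cancel_right]
  refine (abs_sum_le_sum_abs _ _).trans ((sum_le_card_nsmul _ _
    (∑ k, (1 / 2 : ℝ) ^ (univ.filter fun p => κ p = k).card) fun ξ hξ => ?_).trans ?_)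
  · have h2 : ∃ u, ξ u ≠ ξ u₀ := by
      by_contra h
      push Not at h
      exact (mem_sdiff.1 hξ).2 (mem_image.2 ⟨ξ u₀, mem_univ _, funext fun u => (h u).symm⟩)
    obtain ⟨u, hu⟩ := h2
    rw [abs_mul]
    exact (mul_le_of_le_one_left (abs_nonneg _) (hat_le hι hΦ ξ)).trans (ww_le hι κ hu)
  · rw [nsmul_eq_mul]
    refine mul_le_mul_of_nonneg_right ?_ (by positivity)
    have := card_le_univ (univ \ C)
    rw [card_fun hι] at this
    exact_mod_cast this

end Core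

variable {V : Type} [Fintype V] [LinearOrder V]

/-- The upper triangular part. -/
def th (ψ : V → V → ZMod 2) (u v : V) : ZMod 2 := if u < v then ψ u v else 0

/-- The phase as a function of the class sums. -/
def ph (ψ : V → V → ZMod 2) (l₁ l₂ : V → ZMod 2) (U : Finset V) (c : U → ZMod 2 × ZMod 2) :
    ZMod 2 :=
  ∑ u : U, (c u).1 * ∑ v : U, (c v).1 * th ψ u v + ∑ u : U, (c u).1 * l₁ u +
    ∑ u : U, (c u).2 * l₂ u

omit [Fintype V] in
theorem fib {P : Type} [Fintype P] {U : Finset V} (f : P → U) (a : P → ZMod 2) (h : U → ZMod 2) :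
    ∑ u : U, (∑ p with f p = u, a p) * h u = ∑ p, a p * h (f p) := by
  rw [← sum_fiberwise univ f]
  refine sum_congr rfl fun u _ => ?_
  rw [sum_mul]
  exact sum_congr rfl fun p hp => by rw [(mem_filter.1 hp).2]

omit [Fintype V] in
theorem ph_eq (hR : RecStmt) {ψ : V → V → ZMod 2} (l₁ l₂ : V → ZMod 2) (h0 : ∀ u, ψ u u = 0)
    {U : Finset V} (hU : Unl ψ U) {S : Finset ℕ} (hS : Prs S) (f : S → U) :
    Ph ψ l₁ l₂ S (fun p => f p) =
      ph ψ l₁ l₂ U (fun u => ∑ p with f p = u, (ep p, ga p)) := by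
  have h1 : ∀ u v : U, ψ u v = th ψ u v + th ψ v u := fun u v => by
    rcases lt_trichotomy (u : V) v with h | h | h
    · simp [th, h, h.not_gt]
    · simp [th, h, h0]
    · simp [th, h, h.not_gt, hU u u.2 v v.2]
  have h2 : ∑ p : S, ∑ q : S, al p q * ψ (f p) (f q) =
      ∑ p : S, ep p * ∑ q : S, ep q * th ψ (f p) (f q) := by
    simp only [h1, mul_add, sum_add_distrib]
    rw [sum_comm (f := fun p q : S => al p q * th ψ (f q) (f p)), ← sum_add_distrib]
    refine sum_congr rfl fun p _ => ?_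
    rw [← sum_add_distrib, mul_sum]
    refine sum_congr rfl fun q _ => ?_
    rw [← add_mul, ← mul_assoc]
    by_cases h : p = q
    · simp [h, th]
    · rw [hR.2 p q (hS p p.2).1 (hS q q.2).1 (hS p p.2).2.1 (hS q q.2).2.1
        fun e => h (Subtype.ext e)]
  simp only [Ph, ph, Prod.fst_sum, Prod.snd_sum, fib, h2, sum_add_distrib, add_assoc]

/-- The indicator function of a subset of `U`. -/
def id' (U A : Finset V) (u : U) : ZMod 2 := if (u : V) ∈ A then 1 else 0

omit [Fintype V] in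
theorem id_sum {U A : Finset V} (hA : A ⊆ U) (h : V → ZMod 2) :
    ∑ u : U, id' U A u * h u = ∑ u ∈ A, h u := by
  simp only [id', ite_mul, one_mul, zero_mul]
  rw [sum_coe_sort U fun u => if u ∈ A then h u else 0, sum_ite_mem, inter_eq_right.2 hA]

omit [Fintype V] in
theorem sum_id (U : Finset V) (F : (U → ZMod 2) → ℝ) :
    ∑ a, F a = ∑ A ∈ U.powerset, F (id' U A) := by
  symm
  refine sum_bij (fun A _ => id' U A) (fun _ _ => mem_univ _) (fun A hA B hB h => ?_)
    (fun a _ => ?_) fun _ _ => rfl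
  · have key : ∀ u ∈ U, u ∈ A ↔ u ∈ B := fun u hu => by
      have := congrFun h ⟨u, hu⟩
      simp only [id'] at this
      by_cases h1 : u ∈ A <;> by_cases h2 : u ∈ B <;> simp_all
    ext u
    exact ⟨fun h => (key u (mem_powerset.1 hA h)).1 h, fun h => (key u (mem_powerset.1 hB h)).2 h⟩
  · refine ⟨U.filter fun u => ∃ h : u ∈ U, a ⟨u, h⟩ = 1, mem_powerset.2 (filter_subset _ _),
      funext fun u => ?_⟩
    have h2 : ∀ z : ZMod 2, (if z = 1 then 1 else 0) = z := by decide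
    simp [id', h2]

omit [Fintype V] in
theorem cZ_eq (ψ : V → V → ZMod 2) (l₁ l₂ : V → ZMod 2) (U : Finset V) (e g : ZMod 2) :
    (∑ c : U → ZMod 2 × ZMod 2, if ∑ u, c u = (e, g) then (sg (ph ψ l₁ l₂ U c) : ℝ) else 0) =
      cZ ψ l₁ l₂ U e g := by
  rw [← (Equiv.arrowProdEquivProdArrow U (fun _ => ZMod 2) fun _ => ZMod 2).symm.sum_comp,
    Fintype.sum_prod_type, sum_id, cZ, sum_filter, Int.cast_sum]
  refine sum_congr rfl fun A hA => ?_
  rw [sum_id, sum_filter]
  have hc : ∀ B ⊆ U, ∑ u : U, id' U B u = B.card := fun B hB => by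
    simpa using id_sum hB fun _ => 1
  rw [mem_powerset] at hA
  have key : ∀ B ⊆ U, (∑ u, (Equiv.arrowProdEquivProdArrow U (fun _ => ZMod 2)
      fun _ => ZMod 2).symm (id' U A, id' U B) u = (e, g) ↔ (A.card : ZMod 2) = e ∧
        (B.card : ZMod 2) = g) ∧ ph ψ l₁ l₂ U ((Equiv.arrowProdEquivProdArrow U (fun _ => ZMod 2)
      fun _ => ZMod 2).symm (id' U A, id' U B)) =
      ∑ u ∈ A, ∑ v ∈ A with u < v, ψ u v + ∑ u ∈ A, l₁ u + ∑ u ∈ B, l₂ u := fun B hB => by
    constructor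
    · rw [Prod.ext_iff, Prod.fst_sum, Prod.snd_sum, ← hc A hA, ← hc B hB]
      rfl
    · change ∑ u : U, id' U A u * ∑ v : U, id' U A v * th ψ u v + ∑ u : U, id' U A u * l₁ u +
        ∑ u : U, id' U B u * l₂ u = _
      rw [id_sum hA l₁, id_sum hB l₂, id_sum hA fun u => ∑ v : U, id' U A v * th ψ u v]
      simp only [fun u => id_sum hA (th ψ u), sum_filter]
      rfl
  split_ifs with h
  · rw [Int.cast_sum]
    refine sum_congr rfl fun B hB => ?_
    obtain ⟨h1, h2⟩ := key B (mem_powerset.1 hB)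
    simp only [h1, h2, h, true_and]
    split_ifs <;> simp
  · rw [Int.cast_zero]
    refine sum_eq_zero fun B hB => if_neg fun h1 => h ((key B (mem_powerset.1 hB)).1.1 h1).1

end MainTAux

open MainTAux in
theorem mainT (hR : RecStmt) : MainStmt := by
  intro V _ _ ψ l₁ l₂ h0 U hU hc S hS
  have key := core (ι := U) (P := S) (by simpa using hc)
    (Φ := fun c => (sg (ph ψ l₁ l₂ U c) : ℝ))
    (fun c => by rw [← Int.cast_abs, sg_abs, Int.cast_one]) fun p => (ep p, ga p)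
  have e1 : ∑ p : S, (ep p, ga p) = (∑ p ∈ S, ep p, ∑ p ∈ S, ga p) := by
    rw [Prod.ext_iff, Prod.fst_sum, Prod.snd_sum]
    exact ⟨sum_coe_sort S ep, sum_coe_sort S ga⟩
  have e2 : ∑ f : S → U, (sg (ph ψ l₁ l₂ U fun u => ∑ p with f p = u, (ep p, ga p)) : ℝ) =
      ∑ f ∈ Fintype.piFinset fun _ : S => U, (sg (Ph ψ l₁ l₂ S f) : ℝ) := by
    refine sum_bij (fun f _ p => (f p : V)) (fun f _ => Fintype.mem_piFinset.2 fun p => (f p).2)
      (fun f _ f' _ h => funext fun p => Subtype.ext (congrFun h p))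
      (fun f hf => ⟨fun p => ⟨f p, Fintype.mem_piFinset.1 hf p⟩, mem_univ _, rfl⟩) fun f _ => ?_
    rw [ph_eq hR l₁ l₂ h0 hU hS]
  have e3 : ∀ e g : ZMod 2, (univ.filter fun p : S => (ep p, ga p) = (e, g)).card =
      (S.filter fun p => ep p = e ∧ ga p = g).card := fun e g => by
    simp only [Prod.mk.injEq]
    rw [card_filter, card_filter]
    exact sum_coe_sort S fun p => if ep p = e ∧ ga p = g then 1 else 0
  rw [e1, e2, cZ_eq, Fintype.card_coe, Fintype.sum_prod_type] at key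
  simp only [e3] at key
  exact key

end Pool.Agent.Lib.MP_d6ddbd_nt.G
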