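import Pool.Agent.Lib.MP_d6ddbd_nt.G.Mom1

/-! The expansions of the size of the kernel and the first moments. -/

open Finset Filter

noncomputable section

namespace Pool.Agent.Lib.MP_d6ddbd_nt.G

namespace MomAux

theorem sg_add (x y : ZMod 2) : sg (x + y) = sg x * sg y := by revert x y; decide

theorem sg_sum {ι : Type*} (s : Finset ι) (f : ι → ZMod 2) :
    sg (∑ i ∈ s, f i) = ∏ i ∈ s, sg (f i) := by
  classical
  induction s using Finset.induction_on with
  | empty => rfl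
  | insert a s h ih => rw [sum_insert h, prod_insert h, sg_add, ih]

theorem sg_four (x x' z z' : ZMod 2) :
    ∑ y : ZMod 2 × ZMod 2, sg (y.1 * (x + x') + y.2 * (z + z')) =
      if x = x' ∧ z = z' then 4 else 0 := by
  revert x x' z z'
  decide

section

variable {V A : Type} [Fintype V] [LinearOrder V] [Fintype A] [DecidableEq A]

/-- The system for functions on the subtype. -/
def Sol (a b : A → ZMod 2) (S : Finset ℕ) (g : S → A) : Prop := ∀ p : S,
  ∑ q : S, al p q * (a (g p) + a (g q)) = ep p * (a (g p) + b (g p)) ∧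
  ∑ q : S, al p q * (b (g p) + b (g q)) = ga p * a (g p)

omit [LinearOrder V] [DecidableEq A] in
open Classical in
theorem TT_eq {e : V → A × (ZMod 2 × ZMod 2)} (he : Function.Bijective e) (a b : A → ZMod 2)
    (S : Finset ℕ) :
    TT (ψ e a b) (l₁ e a b) (l₂ e a) univ S = ((univ.filter (Sol a b S)).card : ℝ) := by
  let E : (S → V) ≃ (S → A) × (S → ZMod 2 × ZMod 2) :=
    ((Equiv.refl S).arrowCongr (Equiv.ofBijective e he)).trans (Equiv.arrowProdEquivProdArrow _ _ _)
  have h1 : ∀ f : S → V, Ph (ψ e a b) (l₁ e a b) (l₂ e a) S f = ∑ p : S,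
      (((E f).2 p).1 * (∑ q : S, al p q * (a ((E f).1 p) + a ((E f).1 q)) +
        ep p * (a ((E f).1 p) + b ((E f).1 p))) +
      ((E f).2 p).2 * (∑ q : S, al p q * (b ((E f).1 p) + b ((E f).1 q)) +
        ga p * a ((E f).1 p))) := fun f => by
    rw [Ph, ← sum_add_distrib]
    refine sum_congr rfl fun p _ => ?_
    change _ = (e (f p)).2.1 * (∑ q : S, al p q * (a (e (f p)).1 + a (e (f q)).1) +
        ep p * (a (e (f p)).1 + b (e (f p)).1)) +
      (e (f p)).2.2 * (∑ q : S, al p q * (b (e (f p)).1 + b (e (f q)).1) + ga p * a (e (f p)).1)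
    rw [mul_add, mul_add (e (f p)).2.2, mul_sum, mul_sum, add_add_add_comm, ← sum_add_distrib]
    unfold ψ l₁ l₂
    congr 1
    · exact sum_congr rfl fun q _ => by ring
    · ring
  have h2 : ∑ f : S → V, sg (Ph (ψ e a b) (l₁ e a b) (l₂ e a) S f) =
      ∑ g : S → A, if Sol a b S g then 4 ^ S.card else 0 := by
    simp only [h1]
    rw [E.sum_comp (fun x => sg (∑ p : S,
      ((x.2 p).1 * (∑ q : S, al p q * (a (x.1 p) + a (x.1 q)) + ep p * (a (x.1 p) + b (x.1 p))) +
      (x.2 p).2 * (∑ q : S, al p q * (b (x.1 p) + b (x.1 q)) + ga p * a (x.1 p))))),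
      Fintype.sum_prod_type]
    refine sum_congr rfl fun g _ => ?_
    simp only [sg_sum]
    rw [← Fintype.piFinset_univ, ← prod_univ_sum (fun _ => univ) (fun (p : S) (y : ZMod 2 × ZMod 2) => sg
      (y.1 * (∑ q : S, al p q * (a (g p) + a (g q)) + ep p * (a (g p) + b (g p))) +
      y.2 * (∑ q : S, al p q * (b (g p) + b (g q)) + ga p * a (g p))))]
    simp only [sg_four]
    rw [prod_ite_zero, prod_const, card_univ, Fintype.card_coe]
    congr 1
    simp only [mem_univ, true_imp_iff, Sol]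
  rw [TT, Fintype.piFinset_univ, ← Int.cast_sum, h2, ← sum_filter, sum_const, nsmul_eq_mul]
  push_cast
  field_simp

/-- The support of a function on the subtype. -/
def supp (S : Finset ℕ) (h : S → ZMod 2) : Finset ℕ :=
  (univ.filter fun p => h p = 1).map (Function.Embedding.subtype _)

theorem supp_sub (S : Finset ℕ) (h : S → ZMod 2) : supp S h ⊆ S := fun p hp => by
  obtain ⟨q, -, rfl⟩ := Finset.mem_map.1 hp
  exact q.2

theorem ind_supp (S : Finset ℕ) (h : S → ZMod 2) (p : S) : ind (supp S h) p = h p := by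
  have h1 : (p : ℕ) ∈ supp S h ↔ h p = 1 :=
    (Finset.mem_map' (Function.Embedding.subtype _)).trans (by simp)
  rw [ind, if_congr h1 rfl rfl]
  generalize h p = z
  revert z
  decide

theorem supp_ind {S x : Finset ℕ} (hx : x ⊆ S) : supp S (fun p => ind x p) = x := by
  ext p
  simp only [supp, ind, Finset.mem_map, mem_filter, mem_univ, true_and, Function.Embedding.coe_subtype,
    ite_eq_left_iff, zero_ne_one, imp_false, not_not]
  exact ⟨fun ⟨q, h1, h2⟩ => h2 ▸ h1, fun h => ⟨⟨p, hx h⟩, h, rfl⟩⟩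

omit [DecidableEq A] in
open Classical in
theorem card_sol {a b : A → ZMod 2} (hab : ∀ c d, a c = a d → b c = b d → c = d) (S : Finset ℕ) :
    (univ.filter (Sol a b S)).card =
      ((Ker S).filter fun x => ∀ p ∈ S, ∃ c, a c = ind x.1 p ∧ b c = ind x.2 p).card := by
  have key : ∀ g : S → A, Sol a b S g ↔
      (supp S fun p => a (g p), supp S fun p => b (g p)) ∈ Ker S := fun g => by
    simp only [Ker, mem_filter, mem_product, mem_powerset, supp_sub, true_and, Sol]
    rw [Subtype.forall' (p := (· ∈ S))]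
    refine forall_congr' fun p => ?_
    rw [← sum_coe_sort S, ← sum_coe_sort S]
    simp only [ind_supp]
  refine card_bij (fun g _ => (supp S fun p => a (g p), supp S fun p => b (g p))) (fun g hg => ?_)
    (fun g _ g' _ h => funext fun p => ?_) fun x hx => ?_
  · exact mem_filter.2 ⟨(key g).1 (mem_filter.1 hg).2, fun p hp =>
      ⟨g ⟨p, hp⟩, (ind_supp S (fun p => a (g p)) ⟨p, hp⟩).symm,
        (ind_supp S (fun p => b (g p)) ⟨p, hp⟩).symm⟩⟩
  · refine hab _ _ ?_ ?_
    · have h1 := congrArg (fun x => ind x.1 p) h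
      simpa only [ind_supp] using h1
    · have h1 := congrArg (fun x => ind x.2 p) h
      simpa only [ind_supp] using h1
  · obtain ⟨h1, h2⟩ := mem_filter.1 hx
    choose g h3 h4 using h2
    have h5 := mem_product.1 (mem_filter.1 h1).1
    have h6 : (supp S fun p => a (g p p.2), supp S fun p => b (g p p.2)) = x := by
      simp only [h3, h4, supp_ind (mem_powerset.1 h5.1), supp_ind (mem_powerset.1 h5.2)]
    exact ⟨fun p => g p p.2, mem_filter.2 ⟨mem_univ _, (key _).2 (h6.symm ▸ h1)⟩, h6⟩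

omit [Fintype A] [DecidableEq A] [Fintype V] [LinearOrder V] in
theorem ψ_self (e : V → A × (ZMod 2 × ZMod 2)) (a b : A → ZMod 2) (u : V) : ψ e a b u u = 0 := by
  simp only [ψ, CharTwo.add_self_eq_zero, mul_zero]

omit [Fintype V] in
theorem unl_le {φ : V → V → ZMod 2} (h : NoFive φ) (U : Finset V) (hU : Unl φ U) :
    U.card ≤ 4 := by
  by_contra h1
  obtain ⟨W, h2, h3⟩ := exists_subset_card_eq (s := U) (n := 5) (by omega)
  have h4 : ∀ i j, φ (W.orderEmbOfFin h3 i) (W.orderEmbOfFin h3 j) = _ := fun i j =>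
    hU _ (h2 (W.orderEmbOfFin_mem h3 i)) _ (h2 (W.orderEmbOfFin_mem h3 j))
  have h5 := (W.orderEmbOfFin h3).strictMono
  exact h _ _ (h5 (by decide : (0 : Fin 5) < 1)) (h4 _ _) _ (h5 (by decide : (1 : Fin 5) < 2))
    (h4 _ _) (h4 _ _) _ (h5 (by decide : (2 : Fin 5) < 3)) (h4 _ _) (h4 _ _) (h4 _ _) _
    (h5 (by decide : (3 : Fin 5) < 4)) (h4 _ _) (h4 _ _) (h4 _ _) (h4 _ _)

end

variable {V : Type} [Fintype V] [LinearOrder V]

omit [Fintype V] [LinearOrder V] in
theorem TT_shift (φ : V → V → ZMod 2) (m₁ m₂ : V → ZMod 2) (i j : ZMod 2) (W : Finset V)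
    (S : Finset ℕ) : TT φ (fun u => m₁ u + i) (fun u => m₂ u + j) W S =
      sg (i * ∑ p ∈ S, ep p + j * ∑ p ∈ S, ga p) * TT φ m₁ m₂ W S := by
  rw [TT, TT, mul_left_comm, mul_sum _ _ (sg _ : ℝ)]
  refine congrArg _ (sum_congr rfl fun f _ => ?_)
  rw [← Int.cast_mul, ← sg_add, Ph, Ph, add_left_comm, ← sum_coe_sort S ep, ← sum_coe_sort S ga]
  congr 3
  rw [mul_sum, mul_sum, ← sum_add_distrib, ← sum_add_distrib]
  exact sum_congr rfl fun p _ => by ring

theorem cl_eq (e : ZMod 2) (X : ℕ) : Cl e X = (Sq X).filter fun n =>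
    ∑ p ∈ n.primeFactors, ep p = e ∧ ∑ p ∈ n.primeFactors, ga p = 0 := by
  ext n
  simp only [Cl, Sq, mem_filter, and_assoc]

theorem cl_sum (hB : BridgeStmt) (φ : V → V → ZMod 2) (m₁ m₂ : V → ZMod 2) (e : ZMod 2) (X : ℕ)
    (W : Finset V) : ∑ n ∈ Cl e X, TT φ m₁ m₂ W n.primeFactors = ∑ y : ZMod 2 × ZMod 2,
      (sg (y.1 * e) : ℝ) / 4 * SS φ (fun u => m₁ u + y.1) (fun u => m₂ u + y.2) X (tW W X) := by
  simp only [hB V, TT_shift, mul_sum (Sq X)]
  rw [sum_comm, cl_eq, sum_filter]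
  refine sum_congr rfl fun n _ => ?_
  have h1 := congrArg (Int.cast : ℤ → ℝ)
    (sg_four (∑ p ∈ n.primeFactors, ep p) e (∑ p ∈ n.primeFactors, ga p) 0)
  have h2 : ∀ y : ZMod 2 × ZMod 2, (sg (y.1 * e) : ℝ) / 4 *
      (sg (y.1 * ∑ p ∈ n.primeFactors, ep p + y.2 * ∑ p ∈ n.primeFactors, ga p) *
        TT φ m₁ m₂ W n.primeFactors) =
      (sg (y.1 * (∑ p ∈ n.primeFactors, ep p + e) + y.2 * (∑ p ∈ n.primeFactors, ga p + 0)) : ℝ) *
        (TT φ m₁ m₂ W n.primeFactors / 4) := fun y => by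
    rw [add_zero, mul_add, add_right_comm, sg_add _ (y.1 * e), Int.cast_mul]
    ring
  simp only [h2]
  rw [← sum_mul, ← Int.cast_sum, h1]
  split_ifs
  · push_cast
    ring
  · simp

theorem abs_sg (z : ZMod 2) : |(sg z : ℝ)| = 1 := by
  unfold sg
  split_ifs <;> simp

theorem moment (hB : BridgeStmt) (hH : HBStmt) (hM : MainStmt) (h : HtStmt) {F : Finset ℕ → ℕ}
    {c : ℤ} (hF : Expd F c) (e : ZMod 2) (ε : ℝ) (hε : 0 < ε) : ∀ᶠ X : ℕ in atTop,
      ∑ n ∈ Cl e X, (F n.primeFactors : ℝ) ≤ c * (Cl e X).card + ε * X := by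
  obtain ⟨V, _, _, φ, m₁, m₂, h0, h4, hT, hc⟩ := hF
  set 𝒰 := (powersetCard 4 (univ : Finset V)).filter (Unl φ) with h𝒰
  have hN : (0 : ℝ) < 1 + 1024 * 𝒰.card := by positivity
  have hδ := div_pos hε hN
  set δ := ε / (1 + 1024 * 𝒰.card) with hδ'
  filter_upwards [eventually_all.2 fun y : ZMod 2 × ZMod 2 =>
      hH V φ (fun u => m₁ u + y.1) (fun u => m₂ u + y.2) h0 h4 δ hδ,
    eventually_all.2 fun y : ZMod 2 × ZMod 2 => h.2 y.1 y.2 δ hδ] with X a1 a2
  have b1 : ∑ n ∈ Cl e X, TT φ m₁ m₂ univ n.primeFactors -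
      ∑ U ∈ 𝒰, ∑ n ∈ Cl e X, TT φ m₁ m₂ U n.primeFactors ≤ δ * X := by
    simp only [cl_sum hB]
    rw [sum_comm (s := 𝒰), ← sum_sub_distrib]
    refine (sum_le_card_nsmul _ _ (δ * X / 4) fun y _ => ?_).trans_eq ?_
    · rw [← mul_sum, ← mul_sub]
      refine (le_abs_self _).trans ?_
      rw [abs_mul, abs_div, abs_sg, Nat.abs_ofNat]
      linarith [a1 y]
    · rw [card_univ, Fintype.card_prod, ZMod.card, nsmul_eq_mul]
      push_cast
      ring
  have b2 : ∀ U ∈ 𝒰, ∑ n ∈ Cl e X, TT φ m₁ m₂ U n.primeFactors ≤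
      (cZ φ m₁ m₂ U e 0 : ℝ) / 64 * (Cl e X).card + 1024 * (δ * X) := fun U hU => by
    obtain ⟨u1, u2⟩ := mem_filter.1 hU
    have c1 : ∀ n ∈ Cl e X, TT φ m₁ m₂ U n.primeFactors ≤ (cZ φ m₁ m₂ U e 0 : ℝ) / 64 +
        256 * ∑ y : ZMod 2 × ZMod 2,
          (1 / 2 : ℝ) ^ (n.primeFactors.filter fun p => ep p = y.1 ∧ ga p = y.2).card :=
      fun n hn => by
        simp only [Cl, mem_filter] at hn
        have d1 := hM V φ m₁ m₂ h0 U u2 (mem_powersetCard.1 u1).2 _ hn.2.2.1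
        rw [hn.2.2.2.1, hn.2.2.2.2] at d1
        rw [Fintype.sum_prod_type]
        linarith [(abs_le.1 d1).2]
    refine (sum_le_sum c1).trans ?_
    rw [sum_add_distrib, sum_const, nsmul_eq_mul, mul_comm, ← mul_sum, sum_comm]
    have c2 : ∑ y : ZMod 2 × ZMod 2, ∑ n ∈ Cl e X,
        (1 / 2 : ℝ) ^ (n.primeFactors.filter fun p => ep p = y.1 ∧ ga p = y.2).card ≤
        4 * (δ * X) := by
      refine (sum_le_card_nsmul _ _ (δ * X) fun y _ => le_trans ?_ (a2 y)).trans_eq ?_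
      · refine sum_le_sum_of_subset_of_nonneg (fun n hn => ?_) fun _ _ _ => by positivity
        simp only [Cl, mem_filter] at hn ⊢
        exact ⟨hn.1, hn.2.1⟩
      · rw [card_univ, Fintype.card_prod, ZMod.card, nsmul_eq_mul]
        norm_num
    linarith
  have b3 := sum_le_sum b2
  rw [sum_add_distrib, ← sum_mul, ← sum_div, ← Int.cast_sum, hc e, sum_const, nsmul_eq_mul] at b3
  have b4 : δ * X + 𝒰.card * (1024 * (δ * X)) = ε * X := by
    rw [hδ']
    field_simp
  simp only [hT]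
  push_cast at b3
  linarith

end MomAux

open MomAux in
theorem expd : ExpStmt := by
  refine ⟨⟨Fin 16, inferInstance, inferInstance, _, _, _, ψ_self _ _ _, unl_le unl16,
    fun S => ?_, sum16⟩, Fin 8, inferInstance, inferInstance, _, _, _, ψ_self _ _ _, unl_le unl8,
    fun S => ?_, sum8⟩
  · rw [TT_eq bij16, card_sol fun c d => Prod.ext, filter_true_of_mem fun x _ p _ =>
      ⟨(ind x.1 p, ind x.2 p), rfl, rfl⟩]
  · rw [TT_eq bij8, card_sol (b := id) fun c d _ h => h]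
    refine congrArg _ (congrArg _ (filter_congr fun x hx => ?_))
    have h1 := mem_powerset.1 (mem_product.1 (mem_filter.1 hx).1).1
    refine ⟨fun h p _ => ⟨ind x.2 p, by simp [h, ind], rfl⟩, fun h => ?_⟩
    refine eq_empty_of_forall_notMem fun p hp => ?_
    obtain ⟨c, h2, -⟩ := h p (h1 hp)
    simp [ind, hp] at h2

theorem mom (hB : BridgeStmt) (hH : HBStmt) (hM : MainStmt) (hE : ExpStmt) (h : HtStmt) :
    MomStmt := fun e ε hε => by
  filter_upwards [MomAux.moment hB hH hM h hE.1 e ε hε, MomAux.moment hB hH hM h hE.2 e ε hε]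
    with X h1 h2
  exact ⟨by simpa using h1, by simpa using h2⟩

end Pool.Agent.Lib.MP_d6ddbd_nt.G
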