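import Pool.Agent.Lib.MP_d6ddbd_nt.G.Stmt

/-! The parity of the dimension of the kernel. -/

open Finset Module Matrix

noncomputable section

namespace Pool.Agent.Lib.MP_d6ddbd_nt.G

namespace ParAux

/-- The radical of an alternating form has even codimension. -/
theorem alt_even {K : Type} [Field K] (n : ℕ) : ∀ (V : Type) [AddCommGroup V] [Module K V]
    [FiniteDimensional K V] (B : V →ₗ[K] V →ₗ[K] K), (∀ v, B v v = 0) → finrank K V = n →
    Even (n + finrank K (LinearMap.ker B)) := by
  induction n using Nat.strong_induction_on with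
  | _ n ih =>
  intro V _ _ _ B hB hn
  by_cases h0 : B = 0
  · subst h0
    rw [LinearMap.ker_zero, finrank_top, hn]
    exact ⟨n, rfl⟩
  have hs : ∀ x y, B x y = - B y x := fun x y => by
    have := hB (x + y)
    simp only [map_add, LinearMap.add_apply, hB] at this
    linear_combination this
  obtain ⟨x, y, hxy⟩ : ∃ x y, B x y = 1 := by
    by_contra hc
    apply h0
    ext x y
    by_contra h
    exact hc ⟨x, (B x y)⁻¹ • y, by
      rw [map_smul, smul_eq_mul]
      exact inv_mul_cancel₀ h⟩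
  have hyx : B y x = -1 := by rw [hs, hxy]
  let f : V →ₗ[K] K × K := (B x).prod (B y)
  have hf : LinearMap.range f = ⊤ := by
    rw [eq_top_iff]
    rintro ⟨a, b⟩ -
    refine ⟨a • y - b • x, ?_⟩
    simp [f, hB, hxy, hyx]
  have hU : finrank K (LinearMap.ker f) + 2 = n := by
    have := LinearMap.finrank_range_add_finrank_ker f
    rw [hf, finrank_top, hn] at this
    simp only [finrank_prod, finrank_self] at this
    omega
  let B' : LinearMap.ker f →ₗ[K] LinearMap.ker f →ₗ[K] K :=
    B.compl₁₂ (LinearMap.ker f).subtype (LinearMap.ker f).subtype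
  have hk : (LinearMap.ker B').map (LinearMap.ker f).subtype = LinearMap.ker B := by
    ext u
    constructor
    · rintro ⟨⟨u, hu⟩, hu', rfl⟩
      have hu2 : B x u = 0 ∧ B y u = 0 := by simpa [f] using hu
      have hw : ∀ w, B x w = 0 → B y w = 0 → B u w = 0 := fun w h1 h2 => by
        have := LinearMap.congr_fun (LinearMap.mem_ker.1 hu') ⟨w, by simp [f, h1, h2]⟩
        simpa [B'] using this
      refine LinearMap.mem_ker.2 (LinearMap.ext fun v => ?_)
      have h1 := hw (v - B x v • y + B y v • x) (by simp [hB, hxy]) (by simp [hB, hyx])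
      simp only [map_add, map_sub, map_smul, smul_eq_mul] at h1
      rw [hs u y, hs u x, hu2.1, hu2.2] at h1
      simpa using h1
    · intro hu
      have hu0 : ∀ v, B u v = 0 := fun v => LinearMap.congr_fun (LinearMap.mem_ker.1 hu) v
      refine ⟨⟨u, ?_⟩, ?_, rfl⟩
      · simp [f, hs x u, hs y u, hu0]
      · refine LinearMap.mem_ker.2 (LinearMap.ext fun v => ?_)
        simp [B', hu0]
  have h1 := ih _ (by omega) (LinearMap.ker f) B' (fun v => hB v) rfl
  rw [← hk, Submodule.finrank_map_subtype_eq, ← hU]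
  obtain ⟨m, hm⟩ := h1
  exact ⟨m + 1, by omega⟩

theorem add_self (x : ZMod 2) : x + x = 0 := by revert x; decide

theorem mul_self (x : ZMod 2) : x * x = x := by revert x; decide

theorem eq_one {x : ZMod 2} (h : x ≠ 0) : x = 1 := by revert x; decide

theorem eq_of_add {x y : ZMod 2} (h : x + y = 0) : x = y := by revert x y; decide

theorem sum_symm {κ : Type} [Fintype κ] [DecidableEq κ] (g : κ → κ → ZMod 2)
    (h : ∀ i j, g i j = g j i) : ∑ i, ∑ j, g i j = ∑ i, g i i := by
  have : ∑ i, ∑ j, (g i j + if i = j then g i i else 0) = 0 := by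
    rw [← Finset.sum_product']
    refine Finset.sum_involution (fun x _ => x.swap) ?_ ?_ (fun _ _ => by simp) (fun _ _ => rfl)
    · rintro ⟨i, j⟩ -
      by_cases hij : i = j
      · subst hij
        simp [add_self]
      · simp [hij, Ne.symm hij, h j i, add_self]
    · rintro ⟨i, j⟩ - hne he
      have : j = i := congrArg Prod.fst he
      subst this
      simp [add_self] at hne
  simp only [sum_add_distrib, sum_ite_eq, mem_univ, if_true] at this
  exact eq_of_add this

/-- The dimension of the kernel of a symmetric matrix over `ZMod 2`. -/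
theorem sym_par {κ : Type} [Fintype κ] [DecidableEq κ] (N : Matrix κ κ (ZMod 2))
    (hN : ∀ i j, N i j = N j i) (x₀ : κ → ZMod 2) (h₀ : N *ᵥ x₀ = N.diag) :
    (N.diag ⬝ᵥ x₀ = 0 → Even (Fintype.card κ + finrank (ZMod 2) (LinearMap.ker N.mulVecLin))) ∧
    (N.diag ⬝ᵥ x₀ = 1 → Odd (Fintype.card κ + finrank (ZMod 2) (LinearMap.ker N.mulVecLin))) := by
  set d := N.diag with hd
  have hq : ∀ u, (N *ᵥ u) ⬝ᵥ u = d ⬝ᵥ u := fun u => by
    have := sum_symm (fun i j => N i j * u j * u i) fun i j => by rw [hN i j]; ring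
    simp only [dotProduct, mulVec, sum_mul]
    rw [this]
    exact sum_congr rfl fun i _ => by rw [mul_assoc, mul_self]; rfl
  let B : (κ → ZMod 2) →ₗ[ZMod 2] (κ → ZMod 2) →ₗ[ZMod 2] ZMod 2 :=
    LinearMap.mk₂ (ZMod 2) (fun u v => (N *ᵥ u) ⬝ᵥ v + (d ⬝ᵥ u) * (d ⬝ᵥ v))
      (fun u u' v => by rw [mulVec_add, add_dotProduct, dotProduct_add]; ring)
      (fun c u v => by rw [mulVec_smul, smul_dotProduct, dotProduct_smul]; simp; ring)
      (fun u v v' => by rw [dotProduct_add, dotProduct_add]; ring)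
      (fun c u v => by rw [dotProduct_smul, dotProduct_smul]; simp; ring)
  have hB : ∀ u v, B u v = (N *ᵥ u) ⬝ᵥ v + (d ⬝ᵥ u) * (d ⬝ᵥ v) := fun u v => rfl
  have hker : ∀ u, u ∈ LinearMap.ker B ↔ N *ᵥ u = (d ⬝ᵥ u) • d := fun u => by
    constructor
    · intro hu
      funext i
      have := LinearMap.congr_fun (LinearMap.mem_ker.1 hu) (Pi.single i 1)
      rw [hB, dotProduct_single_one, dotProduct_single_one] at this
      exact eq_of_add this
    · intro hu
      refine LinearMap.mem_ker.2 (LinearMap.ext fun v => ?_)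
      rw [hB, hu, smul_dotProduct, smul_eq_mul]
      exact add_self _
  have hz : ∀ u, N *ᵥ u = 0 → d ⬝ᵥ u = 0 := fun u hu => by rw [← hq, hu, zero_dotProduct]
  have he := alt_even (K := ZMod 2) _ (κ → ZMod 2) B
    (fun v => by rw [hB, hq, mul_self, add_self]) rfl
  rw [finrank_fintype_fun_eq_card] at he
  let D : LinearMap.ker B →ₗ[ZMod 2] ZMod 2 :=
    { toFun := fun u => d ⬝ᵥ u.1
      map_add' := fun u v => dotProduct_add d u.1 v.1
      map_smul' := fun c u => dotProduct_smul c d u.1 }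
  have hD : ∀ u, D u = d ⬝ᵥ u.1 := fun u => rfl
  have hk : (LinearMap.ker D).map (LinearMap.ker B).subtype = LinearMap.ker N.mulVecLin := by
    ext u
    constructor
    · rintro ⟨⟨u, hu⟩, hu', rfl⟩
      have h1 : d ⬝ᵥ u = 0 := LinearMap.mem_ker.1 hu'
      have h2 := (hker u).1 hu
      rw [h1, zero_smul] at h2
      exact LinearMap.mem_ker.2 h2
    · intro hu
      have h1 : N *ᵥ u = 0 := LinearMap.mem_ker.1 hu
      exact ⟨⟨u, (hker u).2 (by rw [h1, hz u h1, zero_smul])⟩, LinearMap.mem_ker.2 (hz u h1), rfl⟩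
  have hr := LinearMap.finrank_range_add_finrank_ker D
  rw [← hk, Submodule.finrank_map_subtype_eq]
  constructor
  · intro hc
    have : LinearMap.range D = ⊥ := by
      rw [eq_bot_iff]
      rintro _ ⟨u, rfl⟩
      by_contra hne
      have h1 : d ⬝ᵥ u.1 = 1 := eq_one hne
      have h2 := (hker u.1).1 u.2
      rw [h1, one_smul] at h2
      have h3 := hz (u.1 + x₀) (by rw [mulVec_add, h2, h₀]; funext i; exact add_self _)
      rw [dotProduct_add, h1, hc] at h3
      revert h3
      decide
    rw [this, finrank_bot, zero_add] at hr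
    rwa [hr]
  · intro hc
    have : LinearMap.range D = ⊤ := by
      rw [eq_top_iff]
      intro c _
      refine ⟨c • ⟨x₀, (hker x₀).2 (by rw [h₀, hc, one_smul])⟩, ?_⟩
      rw [map_smul, hD, hc, smul_eq_mul, mul_one]
    rw [this, finrank_top, finrank_self] at hr
    obtain ⟨m, hm⟩ := he
    exact ⟨m - 1, by omega⟩

/-- The abstract system. -/
theorem abs_par {ι : Type} [Fintype ι] [DecidableEq ι] (al : ι → ι → ZMod 2) (e g : ι → ZMod 2)
    (h : ∀ p q, p ≠ q → al p q + al q p = e p * e q) (hg : ∑ p, g p = 0) :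
    ∃ k : ℕ, Nat.card {x : (ι → ZMod 2) × (ι → ZMod 2) // ∀ p,
      ∑ q, al p q * (x.1 p + x.1 q) = e p * (x.1 p + x.2 p) ∧
      ∑ q, al p q * (x.2 p + x.2 q) = g p * x.1 p} = 2 ^ k ∧
      (∑ p, e p = 1 → Odd k) ∧ (∑ p, e p = 0 → Even k) := by
  let A : Matrix ι ι (ZMod 2) := fun p q => al p q + if p = q then ∑ r, al p r else 0
  have hA : ∀ (b : ι → ZMod 2) p, (A *ᵥ b) p = ∑ q, al p q * (b p + b q) := fun b p => by
    simp only [A, mulVec, dotProduct, add_mul, ite_mul, zero_mul, sum_add_distrib, sum_ite_eq,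
      mem_univ, if_true, mul_add, sum_mul]
    ring
  have hT : ∀ (a : ι → ZMod 2) p, (Aᵀ *ᵥ a) p =
      ∑ q, al p q * (a p + a q) + e p * ∑ q, e q * a q + e p * a p := fun a p => by
    have h1 : ∀ q, al q p * a q = al p q * a q + e p * (e q * a q) +
        if p = q then e p * a p else 0 := fun q => by
      by_cases hpq : p = q
      · subst hpq
        rw [if_pos rfl, ← mul_assoc, mul_self, add_assoc, add_self, add_zero]
      · rw [if_neg hpq, add_zero, ← mul_assoc, ← h p q hpq, add_mul, ← add_assoc, add_self,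
          zero_add]
    simp only [A, mulVec, dotProduct, transpose_apply, add_mul, ite_mul, zero_mul,
      sum_add_distrib, sum_ite_eq', mem_univ, if_true, mul_add, sum_mul, h1, sum_ite_eq, mul_sum]
    ring
  let N : Matrix (ι ⊕ ι) (ι ⊕ ι) (ZMod 2) := fromBlocks (diagonal g) A Aᵀ (diagonal e)
  have hN : ∀ i j, N i j = N j i := by
    rintro (i | i) (j | j)
    · by_cases hij : i = j
      · rw [hij]
      · simp [N, hij, Ne.symm hij]
    · simp [N]
    · simp [N]
    · by_cases hij : i = j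
      · rw [hij]
      · simp [N, hij, Ne.symm hij]
  have hd : N.diag = Sum.elim g e := by
    funext i
    rcases i with i | i <;> simp [N]
  have h1 : ∀ (a b : ι → ZMod 2) p, (N *ᵥ Sum.elim a b) (Sum.inl p) =
      g p * a p + ∑ q, al p q * (b p + b q) := fun a b p => by
    rw [fromBlocks_mulVec]
    simp only [Sum.elim_comp_inl, Sum.elim_comp_inr, Sum.elim_inl, Pi.add_apply, mulVec_diagonal,
      hA]
  have h2 : ∀ (a b : ι → ZMod 2) p, (N *ᵥ Sum.elim a b) (Sum.inr p) =
      ∑ q, al p q * (a p + a q) + e p * (a p + (b p + ∑ q, e q * a q)) := fun a b p => by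
    rw [fromBlocks_mulVec]
    simp only [Sum.elim_comp_inl, Sum.elim_comp_inr, Sum.elim_inr, Pi.add_apply, mulVec_diagonal,
      hT]
    ring
  have hsh : ∀ (b : ι → ZMod 2) (s : ZMod 2) p, ∑ q, al p q * (b p + s + (b q + s)) =
      ∑ q, al p q * (b p + b q) := fun b s p => sum_congr rfl fun q _ => by
    rw [show b p + s + (b q + s) = b p + b q + (s + s) by ring, add_self, add_zero]
  refine ⟨finrank (ZMod 2) (LinearMap.ker N.mulVecLin), ?_, fun he => ?_, fun he => ?_⟩
  · have hc := Module.natCard_eq_pow_finrank (K := ZMod 2) (V := LinearMap.ker N.mulVecLin)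
    rw [Nat.card_zmod] at hc
    rw [← hc]
    refine Nat.card_congr
      { toFun := fun x => ⟨Sum.elim x.1.1 fun p => x.1.2 p + ∑ q, e q * x.1.1 q, ?_⟩
        invFun := fun v => ⟨(fun p => v.1 (Sum.inl p),
          fun p => v.1 (Sum.inr p) + ∑ q, e q * v.1 (Sum.inl q)), ?_⟩
        left_inv := fun x => ?_
        right_inv := fun v => ?_ }
    · refine LinearMap.mem_ker.2 (funext fun i => ?_)
      rcases i with p | p
      · rw [mulVecLin_apply, h1, hsh, (x.2 p).2]
        exact add_self _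
      · rw [mulVecLin_apply, h2, (x.2 p).1, add_assoc (x.1.2 p), add_self, add_zero]
        exact add_self _
    · intro p
      have hv : N *ᵥ Sum.elim (fun p => v.1 (Sum.inl p)) (fun p => v.1 (Sum.inr p)) = 0 := by
        rw [show Sum.elim (fun p => v.1 (Sum.inl p)) (fun p => v.1 (Sum.inr p)) = v.1 from
          funext fun i => by rcases i with i | i <;> rfl]
        exact LinearMap.mem_ker.1 v.2
      have a1 := congrFun hv (Sum.inl p)
      have a2 := congrFun hv (Sum.inr p)
      rw [h1] at a1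
      rw [h2] at a2
      exact ⟨eq_of_add a2, by rw [hsh fun p => v.1 (Sum.inr p)]; exact (eq_of_add a1).symm⟩
    · refine Subtype.ext (Prod.ext rfl (funext fun p => ?_))
      simp only [Sum.elim_inl, Sum.elim_inr]
      rw [add_assoc, add_self, add_zero]
    · refine Subtype.ext (funext fun i => ?_)
      rcases i with p | p
      · rfl
      · simp only [Sum.elim_inr]
        rw [add_assoc, add_self, add_zero]
  · have := (sym_par N hN (Sum.elim 1 1) ?_).2 ?_
    · rw [Fintype.card_sum] at this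
      obtain ⟨m, hm⟩ := this
      exact ⟨m - Fintype.card ι, by omega⟩
    · rw [hd]
      funext i
      rcases i with p | p
      · rw [h1]
        simp [add_self]
      · rw [h2]
        simp [add_self, he]
    · rw [hd, sumElim_dotProduct_sumElim]
      simp [dotProduct, hg, he]
  · have := (sym_par N hN (Sum.elim 1 0) ?_).1 ?_
    · rw [Fintype.card_sum] at this
      obtain ⟨m, hm⟩ := this
      exact ⟨m - Fintype.card ι, by omega⟩
    · rw [hd]
      funext i
      rcases i with p | p
      · simp [h1]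
      · simp [h2, add_self, he]
    · rw [hd, sumElim_dotProduct_sumElim]
      simp [dotProduct, hg]

theorem ind_filter (T : Finset ℕ) (a : T → ZMod 2) (p : T) :
    ind (T.filter fun n => ∃ h : n ∈ T, a ⟨n, h⟩ = 1) p = a p := by
  unfold ind
  split_ifs with hp
  · obtain ⟨_, h⟩ := (mem_filter.1 hp).2
    exact h.symm
  · by_contra hne
    exact hp (mem_filter.2 ⟨p.2, p.2, eq_one (Ne.symm hne)⟩)

theorem filter_ind {T A : Finset ℕ} (h : A ⊆ T) :
    (T.filter fun n => ∃ _ : n ∈ T, ind A n = 1) = A := by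
  ext n
  rw [mem_filter]
  constructor
  · rintro ⟨-, -, h1⟩
    by_contra hn
    simp [ind, hn] at h1
  · intro hn
    exact ⟨h hn, h hn, by simp [ind, hn]⟩

theorem card_ker (T : Finset ℕ) : (Ker T).card =
    Nat.card {x : (T → ZMod 2) × (T → ZMod 2) // ∀ p : T,
      ∑ q : T, al p q * (x.1 p + x.1 q) = ep p * (x.1 p + x.2 p) ∧
      ∑ q : T, al p q * (x.2 p + x.2 q) = ga p * x.1 p} := by
  rw [← Nat.card_eq_finsetCard]
  have hm : ∀ x : Finset ℕ × Finset ℕ, x ∈ Ker T ↔ (x.1 ⊆ T ∧ x.2 ⊆ T) ∧ ∀ p : T,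
      ∑ q : T, al p q * (ind x.1 p + ind x.1 q) = ep p * (ind x.1 p + ind x.2 p) ∧
      ∑ q : T, al p q * (ind x.2 p + ind x.2 q) = ga p * ind x.1 p := fun x => by
    simp only [Ker, mem_filter, mem_product, mem_powerset, Subtype.forall]
    refine and_congr_right fun _ => forall₂_congr fun p _ => ?_
    rw [sum_coe_sort T fun q => al p q * (ind x.1 p + ind x.1 q),
      sum_coe_sort T fun q => al p q * (ind x.2 p + ind x.2 q)]
  refine Nat.card_congr
    { toFun := fun x => ⟨(fun p => ind x.1.1 p, fun p => ind x.1.2 p), ((hm _).1 x.2).2⟩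
      invFun := fun v => ⟨(T.filter fun n => ∃ h : n ∈ T, v.1.1 ⟨n, h⟩ = 1,
        T.filter fun n => ∃ h : n ∈ T, v.1.2 ⟨n, h⟩ = 1), (hm _).2
          ⟨⟨filter_subset _ _, filter_subset _ _⟩, fun p => by
            simp only [ind_filter]
            exact v.2 p⟩⟩
      left_inv := fun x => Subtype.ext (Prod.ext (filter_ind ((hm _).1 x.2).1.1)
        (filter_ind ((hm _).1 x.2).1.2))
      right_inv := fun v => Subtype.ext (Prod.ext (funext fun p => ind_filter T _ p)
        (funext fun p => ind_filter T _ p)) }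

theorem pow_par (h : RecStmt) (T : Finset ℕ) (hT : Prs T) (hg : ∑ p ∈ T, ga p = 0) :
    ∃ k : ℕ, (Ker T).card = 2 ^ k ∧ (∑ p ∈ T, ep p = 1 → Odd k) ∧ (∑ p ∈ T, ep p = 0 → Even k) := by
  obtain ⟨k, h1, h2⟩ := abs_par (ι := T) (fun p q => al p q) (fun p => ep p) (fun p => ga p)
    (fun p q hpq => h.2 p q (hT _ p.2).1 (hT _ q.2).1 (hT _ p.2).2.1 (hT _ q.2).2.1
      fun e => hpq (Subtype.ext e)) (by rw [sum_coe_sort T ga]; exact hg)
  rw [sum_coe_sort T ep] at h2
  exact ⟨k, (card_ker T).trans h1, h2⟩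

end ParAux

theorem par (h : RecStmt) : ParStmt := by
  refine ⟨fun T hT => ?_, fun T hT => ?_⟩
  · obtain ⟨k, h1, h2, -⟩ := ParAux.pow_par h T hT.1 hT.2.2
    obtain ⟨m, rfl⟩ := h2 hT.2.1
    rw [h1]
    rcases m with _ | m
    · exact Or.inl rfl
    · exact Or.inr (le_trans (by norm_num : 8 ≤ 2 ^ 3)
        (Nat.pow_le_pow_right (by norm_num) (by omega)))
  · obtain ⟨k, h1, -, h2⟩ := ParAux.pow_par h T hT.1 hT.2.2
    obtain ⟨m, rfl⟩ := h2 hT.2.1
    rw [h1]
    rcases m with _ | m
    · exact Or.inl rfl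
    · exact Or.inr (le_trans (by norm_num : 4 ≤ 2 ^ 2)
        (Nat.pow_le_pow_right (by norm_num) (by omega)))

end Pool.Agent.Lib.MP_d6ddbd_nt.G
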