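import Pool.Agent.Lib.MP_d6ddbd_nt.G.Sw3
import Pool.Agent.Lib.MP_d6ddbd_nt.G.Stmt
import Pool.Agent.Lib.MP_0820eb_co.Dens.CharSum

/-! A Siegel-Walfisz bound for the weight `4 ^ (-ω)`. -/

namespace Pool.Agent.Lib.MP_d6ddbd_nt.G

open Finset ArithmeticFunction SwAux MP_0820eb_co.Dens

theorem SwAux.aa_eq (d : ℤ) [NeZero (4 * d.natAbs)] {r n : ℕ} (hr : 2 ∣ r) (hn : n ≠ 0) :
    aa (charsum_kr d).primitiveCharacter (r * d.natAbs) n = ((if Squarefree n ∧ n.Coprime r then
      ((4 : ℝ) ^ n.primeFactors.card)⁻¹ * jacobiSym d n else 0 : ℝ) : ℂ) := by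
  rw [aa, bb]
  by_cases h1 : Squarefree n
  swap
  · simp [h1]
  by_cases h2 : n.Coprime r
  swap
  · simp [h2, Nat.coprime_mul_iff_right]
  by_cases h3 : n.Coprime d.natAbs
  swap
  · have : NeZero n := ⟨hn⟩
    rw [jacobiSym.eq_zero_iff_not_coprime.2 (by
      rw [Int.gcd_eq_natAbs, Int.natAbs_natCast]; exact fun h => h3 (Nat.Coprime.symm h))]
    simp [h3, Nat.coprime_mul_iff_right]
  have h4 : Odd n := Nat.coprime_two_right.1 (h2.coprime_dvd_right hr)
  have h5 : n.Coprime (4 * d.natAbs) :=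
    (Nat.Coprime.pow_right 2 (Nat.coprime_two_right.2 h4)).mul_right h3
  have h6 := (charsum_kr d).primitiveCharacter_apply_of_isCoprime (Nat.isCoprime_iff_coprime.2 h5)
  have h7 : charsum_kr d n = (jacobiSym d (n : ZMod (4 * d.natAbs)).val : ℂ) :=
    if_pos ((ZMod.isUnit_iff_coprime _ _).2 h5)
  have h8 : n.primeFactors.card = cardFactors n := by
    rw [← (cardDistinctFactors_eq_cardFactors_iff_squarefree hn).2 h1, cardDistinctFactors_apply,
      Nat.primeFactors, List.card_toFinset]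
  rw [Int.cast_natCast, Int.cast_natCast, h7, ZMod.val_natCast, ← jacobiSym.mod_right _ h4] at h6
  rw [if_pos (h2.mul_right h3), if_pos ⟨h1, h2⟩, moebius_apply_of_squarefree h1, h6, h8]
  push_cast
  rw [← mul_assoc, ← mul_pow, ← inv_pow]
  norm_num

theorem SwAux.om_le {n : ℕ} (hn : n ≠ 0) : (n.primeFactors.card : ℝ) ≤ 2 * Real.log n := by
  have h1 : 2 ^ n.primeFactors.card ≤ n :=
    (pow_card_le_prod _ _ 2 fun p hp => (Nat.prime_of_mem_primeFactors hp).two_le).trans
      (Nat.le_of_dvd (Nat.pos_of_ne_zero hn) n.prod_primeFactors_dvd)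
  have h2 := Real.log_le_log (x := 2 ^ n.primeFactors.card) (y := n) (by positivity) (mod_cast h1)
  rw [Real.log_pow] at h2
  nlinarith [Real.log_two_gt_d9, n.primeFactors.card.cast_nonneg (α := ℝ)]

theorem sw : SwStmt := by
  intro A B η hη
  obtain ⟨m, hm⟩ := exists_nat_ge ((3 * A + B + 2 : ℕ) / η)
  rw [div_le_iff₀' hη] at hm
  have m1 : 2 ≤ m + 1 := by
    rcases m with _ | m
    · norm_num at hm
      exact absurd hm (not_le.2 (by positivity))
    · omega
  obtain ⟨C₁, hC₁, h1⟩ := dB m1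
  obtain ⟨C₂, hC₂, h2⟩ := sharp m
  refine ⟨C₂ * C₁ * (2 * B + 8) * Real.exp 1 + (2 * Real.exp 1 * (2 ^ m * m.factorial) + 3),
    by positivity, fun X y d r hX hy hyX hd hdX hr hrX h2r => ?_⟩
  have hd0 : d.natAbs ≠ 0 := Int.natAbs_ne_zero.2 (by rintro rfl; exact hd IsSquare.zero)
  have : NeZero (4 * d.natAbs) := ⟨by omega⟩
  have : NeZero (charsum_kr d).conductor := ⟨(charsum_kr d).conductor_ne_zero⟩
  have L1 : 1 ≤ Real.log X := by
    rw [Real.le_log_iff_exp_le (by linarith)]; linarith [Real.exp_one_lt_d9]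
  have y0 : 0 < y := (Real.exp_pos _).trans_le hy
  have u1 := (Real.le_log_iff_exp_le y0).2 hy
  have u2 := Real.log_le_log y0 hyX
  have d1 : (d.natAbs : ℝ) ≤ Real.log X ^ B := by rwa [Nat.cast_natAbs, Int.cast_abs]
  have r1 : Real.log (r * d.natAbs : ℕ) ≤ Real.log (X ^ 2 * Real.log X ^ B) :=
    Real.log_le_log (by positivity) (by push_cast; gcongr)
  rw [Real.log_mul (by positivity) (by positivity), Real.log_pow, Real.log_pow] at r1
  obtain ⟨u, rfl⟩ : ∃ u, y = Real.exp u := ⟨_, (Real.exp_log y0).symm⟩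
  rw [Real.log_exp] at u1 u2
  generalize Real.log X = L at *
  have u0 : 0 < u := lt_of_lt_of_le (by positivity) u1
  have u3 : L ^ (3 * A + B + 2) ≤ u ^ m :=
    calc _ ≤ L ^ (η * m) := by
          rw [← Real.rpow_natCast]; exact Real.rpow_le_rpow_of_exponent_le L1 hm
      _ ≤ _ := by rw [Real.rpow_mul_natCast (by linarith)]; gcongr
  have b1 : L ^ B ≤ L ^ (B + 1) := pow_le_pow_right₀ L1 (by omega)
  have b2 : L ≤ L ^ (B + 1) := le_self_pow₀ L1 (by omega)
  have b3 : (0 : ℝ) ≤ B := B.cast_nonneg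
  have b4 : 1 / L ≤ 1 := (div_le_one (by linarith)).2 L1
  have b5 : 0 < 1 / L := by positivity
  have h3 := h2 _ (1 + 1 / L) (C₁ * ((2 * B + 8) * L ^ (B + 1)) / (1 / L)) (1 / L ^ A) u
    (aa_le (charsum_kr d).primitiveCharacter (r * d.natAbs)) (by simp [aa]) (by linarith)
    (by linarith) (by positivity) (by positivity)
    ((div_le_one (by positivity)).2 (one_le_pow₀ L1)) u0 fun s hs j hj => by
      refine (h1 _ _ (charsum_kr d).primitiveCharacter_isPrimitive (fun h => charsum_kr_ne hd ?_) _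
        ((2 * B + 8) * L ^ (B + 1)) (by positivity) ?_ ?_ s (by linarith) (by linarith) j
          hj).trans_eq (by rw [hs, add_sub_cancel_left])
      · rw [← (charsum_kr d).changeLevel_primitiveCharacter, h, map_one]
      · have : ((charsum_kr d).conductor : ℝ) ≤ (4 * d.natAbs : ℕ) := by
          exact_mod_cast Nat.le_of_dvd (by omega) (charsum_kr d).conductor_dvd_level
        push_cast at this
        nlinarith [pow_pos (show 0 < L by linarith) B]
      · refine (om_le (by positivity)).trans ?_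
        have : Real.log L ≤ L ^ (B + 1) := (Real.log_le_self (by linarith)).trans b2
        push_cast at r1 ⊢
        nlinarith
  rw [sum_congr rfl fun n hn => aa_eq d h2r (by have := (mem_Icc.1 hn).1; omega),
    ← Complex.ofReal_sum, Complex.norm_real, Real.norm_eq_abs, ← sum_filter] at h3
  refine h3.trans ?_
  have c1 : Real.exp ((1 + 1 / L) * u) ≤ Real.exp u * Real.exp 1 := by
    rw [← Real.exp_add, add_mul, one_mul, one_div_mul_eq_div]
    gcongr
    exact (div_le_one (by linarith)).2 u2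
  have c2 : Real.exp (u / 2 + 1) ≤ Real.exp 1 * (2 ^ m * m.factorial) * Real.exp u / L ^ A := by
    have c3 := Real.pow_div_factorial_le_exp (u / 2) (by linarith) m
    have c4 : L ^ A ≤ u ^ m := (pow_le_pow_right₀ L1 (by omega)).trans u3
    rw [div_pow, div_div, div_le_iff₀ (by positivity)] at c3
    rw [le_div_iff₀ (by positivity), Real.exp_add]
    calc _ ≤ Real.exp (u / 2) * Real.exp 1 * (Real.exp (u / 2) * (2 ^ m * m.factorial)) := by
          gcongr
          exact c4.trans c3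
      _ = _ := by
          nth_rewrite 3 [← add_halves u]
          rw [Real.exp_add]
          ring
  have c3 : 1 ≤ Real.exp (u / 2 + 1) := Real.one_le_exp (by linarith)
  calc _ ≤ C₂ * (C₁ * ((2 * B + 8) * L ^ (B + 1)) / (1 / L)) * (Real.exp u * Real.exp 1) /
        (1 / L ^ A) ^ 2 / L ^ (3 * A + B + 2) + (2 * (Real.exp 1 * (2 ^ m * m.factorial) *
          Real.exp u / L ^ A) + 3 * (1 / L ^ A) * Real.exp u) := by
        refine add_le_add ?_ (by linarith)
        gcongr
    _ = _ := by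
        field_simp
        ring

end Pool.Agent.Lib.MP_d6ddbd_nt.G
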