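import Pool.Agent.Lib.MP_d6ddbd_nt.G.IndB
import Pool.Agent.Lib.MP_d6ddbd_nt.G.Ker
import Pool.Agent.Lib.MP_d6ddbd_nt.G.Conv
import Pool.Agent.Lib.MP_d6ddbd_nt.G.Par
import Pool.Agent.Lib.MP_d6ddbd_nt.G.Field
import Pool.Agent.Lib.MP_d6ddbd_nt.G.Curve
import Pool.Agent.Lib.MP_d6ddbd_nt.G.Desc
import Pool.Agent.Lib.MP_d6ddbd_nt.G.Fin
import Pool.Agent.Lib.MP_d6ddbd_nt.G.Bil
import Pool.Agent.Lib.MP_d6ddbd_nt.G.Sw
import Pool.Agent.Lib.MP_d6ddbd_nt.G.Ht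
import Pool.Agent.Lib.MP_d6ddbd_nt.G.Brg
import Pool.Agent.Lib.MP_d6ddbd_nt.G.CaseA
import Pool.Agent.Lib.MP_d6ddbd_nt.G.CaseB
import Pool.Agent.Lib.MP_d6ddbd_nt.G.CaseC
import Pool.Agent.Lib.MP_d6ddbd_nt.G.HB
import Pool.Agent.Lib.MP_d6ddbd_nt.G.MainT
import Pool.Agent.Lib.MP_d6ddbd_nt.G.Mom
import Pool.Agent.Lib.MP_d6ddbd_nt.G.Comp
import Pool.Agent.Lib.MP_d6ddbd_nt.G.Final
import Pool.Agent.Lib.MP_d6ddbd_nt.GF.Geom
import Pool.Agent.Lib.MP_d6ddbd_nt.K.GKZ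

/-! Everything assembled. -/

namespace Pool.Agent.Lib.MP_d6ddbd_nt.G

theorem indAll : IndStmt :=
  induct field curve (tors field curve) (sel field curve (tors field curve) (desc recip))
    (inf field curve) (ker recip) (conv recip) (aux recip)

theorem momAll : MomStmt :=
  mom bridge (hb (caseA recip bil) (caseB recip sw) (caseC bridge ht)) (mainT recip) expd ht

theorem geomAll : GeomStmt := GF.geom_of K.gkz

theorem finalAll : FinalStmt :=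
  final geomAll indAll (fin (desc recip)) (par recip) cl momAll comp

end Pool.Agent.Lib.MP_d6ddbd_nt.G
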