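import Pool.Agent.Lib.MP_d6ddbd_nt.G.MStmt

/-! Sums over boxes. -/

open Finset

namespace Pool.Agent.Lib.MP_d6ddbd_nt.G.Box

variable {V : Type} [Fintype V] [DecidableEq V]

/-- Splitting of a box sum along a set of variables. -/
theorem split {M : Type*} [AddCommMonoid M] (t : V → Finset ℕ) (W : Finset V)
    (F : (V → ℕ) → M) :
    ∑ N ∈ Fintype.piFinset t, F N =
      ∑ A ∈ Fintype.piFinset fun u => if u ∈ W then {1} else t u,
        ∑ B ∈ Fintype.piFinset fun u => if u ∈ W then t u else {1},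
          F fun u => if u ∈ W then B u else A u := by
  rw [← sum_product']
  refine sum_nbij' (fun N => (fun u => if u ∈ W then 1 else N u, fun u => if u ∈ W then N u else 1))
    (fun x u => if u ∈ W then x.2 u else x.1 u) (fun N hN => ?_) (fun x hx => ?_) (fun N _ => ?_)
    (fun x hx => ?_) (fun N _ => ?_)
  · rw [Fintype.mem_piFinset] at hN
    simp only [mem_product, Fintype.mem_piFinset]
    refine ⟨fun u => ?_, fun u => ?_⟩ <;> split_ifs <;> simp [hN u]
  · simp only [mem_product, Fintype.mem_piFinset] at hx ⊢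
    intro u
    have h1 := hx.1 u
    have h2 := hx.2 u
    split_ifs at h1 h2 ⊢ <;> assumption
  · funext u
    by_cases h : u ∈ W <;> simp [h]
  · simp only [mem_product, Fintype.mem_piFinset] at hx
    refine Prod.ext (funext fun u => ?_) (funext fun u => ?_)
    · have h1 := hx.1 u
      by_cases h : u ∈ W
      · simp only [h, if_true, mem_singleton] at h1 ⊢
        exact h1.symm
      · simp [h]
    · have h1 := hx.2 u
      by_cases h : u ∈ W
      · simp [h]
      · simp only [h, if_false, mem_singleton] at h1 ⊢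
        exact h1.symm
  · congr 1
    funext u
    by_cases h : u ∈ W <;> simp [h]

/-- Splitting of a box sum along one variable. -/
theorem upd {M : Type*} [AddCommMonoid M] (t : V → Finset ℕ) (u : V) (F : (V → ℕ) → M) :
    ∑ N ∈ Fintype.piFinset t, F N =
      ∑ N ∈ Fintype.piFinset (Function.update t u {1}), ∑ m ∈ t u, F (Function.update N u m) := by
  rw [← sum_product']
  refine sum_nbij' (fun N => (Function.update N u 1, N u)) (fun x => Function.update x.1 u x.2)
    (fun N hN => ?_) (fun x hx => ?_) (fun N _ => ?_) (fun x hx => ?_) (fun N _ => ?_)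
  · rw [Fintype.mem_piFinset] at hN
    simp only [mem_product, Fintype.mem_piFinset]
    refine ⟨fun v => ?_, hN u⟩
    by_cases h : v = u
    · subst h; simp
    · simp [h, hN v]
  · simp only [mem_product, Fintype.mem_piFinset] at hx ⊢
    intro v
    by_cases h : v = u
    · subst h; simpa using hx.2
    · simpa [h] using hx.1 v
  · simp
  · simp only [mem_product, Fintype.mem_piFinset] at hx
    have h1 : x.1 u = 1 := by simpa using hx.1 u
    refine Prod.ext ?_ (by simp)
    simp [← h1]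
  · simp

theorem harm_one {s : Finset ℕ} {Y : ℝ} (hY : 1 ≤ Y) (h : ∀ k ∈ s, 1 ≤ k ∧ (k : ℝ) ≤ Y) :
    ∑ k ∈ s, (k : ℝ)⁻¹ ≤ 1 + Real.log Y := by
  have h0 : 1 ≤ ⌊Y⌋₊ := Nat.le_floor (by simpa using hY)
  have h1 : ∑ k ∈ s, (k : ℝ)⁻¹ ≤ ∑ k ∈ Icc 1 ⌊Y⌋₊, (k : ℝ)⁻¹ :=
    sum_le_sum_of_subset_of_nonneg
      (fun k hk => mem_Icc.2 ⟨(h k hk).1, Nat.le_floor (h k hk).2⟩) fun _ _ _ => by positivity
  have h2 := harmonic_le_one_add_log ⌊Y⌋₊
  rw [harmonic_eq_sum_Icc] at h2
  push_cast at h2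
  have h3 : Real.log ⌊Y⌋₊ ≤ Real.log Y :=
    Real.log_le_log (by exact_mod_cast h0) (Nat.floor_le (by linarith))
  linarith

/-- The harmonic sum over a box. -/
theorem harm (t : V → Finset ℕ) {Y : ℝ} (hY : 1 ≤ Y) (h : ∀ u, ∀ k ∈ t u, 1 ≤ k ∧ (k : ℝ) ≤ Y) :
    ∑ N ∈ Fintype.piFinset t, (((∏ u, N u : ℕ) : ℝ))⁻¹ ≤ (1 + Real.log Y) ^ Fintype.card V := by
  have h1 : ∑ N ∈ Fintype.piFinset t, (((∏ u, N u : ℕ) : ℝ))⁻¹ = ∏ u, ∑ k ∈ t u, (k : ℝ)⁻¹ := by
    rw [prod_univ_sum]
    refine sum_congr rfl fun N _ => ?_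
    rw [Nat.cast_prod, prod_inv_distrib]
  rw [h1, ← card_univ, ← prod_const]
  exact prod_le_prod (fun u _ => sum_nonneg fun _ _ => by positivity) fun u _ => harm_one hY (h u)

end Pool.Agent.Lib.MP_d6ddbd_nt.G.Box
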