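import Pool.Agent.Lib.MP_d6ddbd_nt.G.Defs
import Pool.Agent.Lib.MP_d6ddbd_nt.K.DefsX

/-! The two presentations of the complex points of `X₀(17)` agree. -/

open WeierstrassCurve

noncomputable section

namespace Pool.Agent.Lib.MP_d6ddbd_nt.G

theorem EE_eq : K.EE = W17.toAffine.baseChange ℂ := by
  ext <;> simp [K.EE, W17, Affine.baseChange, WeierstrassCurve.baseChange]

/-- Transport of points along an equality of curves. -/
def tr {W W' : Affine ℂ} (h : W = W') : W.Point ≃+ W'.Point := by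
  subst h
  exact AddEquiv.refl _

theorem tr_some {W W' : Affine ℂ} (h : W = W') (x y : ℂ) (h1 : W.Nonsingular x y)
    (h2 : W'.Nonsingular x y) : tr h (.some x y h1) = .some x y h2 := by
  subst h
  rfl

/-- The identification. -/
def br : K.EE.Point ≃+ Pt := tr EE_eq

theorem EE_ns (x y : ℂ) : K.EE.Nonsingular x y ↔ y ^ 2 = x * (x ^ 2 + 30 * x + 289) := by
  rw [EE_eq, ns_iff]

theorem br_pt {x y : ℂ} (h : y ^ 2 = x * (x ^ 2 + 30 * x + 289)) :
    br (K.pt x y) = .some x y ((ns_iff x y).2 h) := by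
  rw [K.pt, dif_pos ((EE_ns x y).2 h)]
  exact tr_some _ _ _ _ _

theorem br_TT : br K.TT = T0 := br_pt (by norm_num)

theorem act_some (σ : ℂ ≃+* ℂ) {x y : ℂ} (h : (W17.toAffine.baseChange ℂ).Nonsingular x y)
    (h' : (W17.toAffine.baseChange ℂ).Nonsingular (σ x) (σ y)) :
    act σ (.some x y h) = .some (σ x) (σ y) h' := rfl

theorem act_br_pt (σ : ℂ ≃+* ℂ) {x y : ℂ} (h : y ^ 2 = x * (x ^ 2 + 30 * x + 289)) :
    act σ (br (K.pt x y)) = br (K.pt (σ x) (σ y)) := by
  have h' : σ y ^ 2 = σ x * (σ x ^ 2 + 30 * σ x + 289) := by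
    simpa [map_ofNat] using congrArg σ h
  rw [br_pt h, br_pt h']
  rfl

end Pool.Agent.Lib.MP_d6ddbd_nt.G
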