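import Pool.Agent.Lib.MP_d6ddbd_nt.G.MStmt

/-! Symbols of tuples in which one variable moves. -/

open Finset Filter

noncomputable section

namespace Pool.Agent.Lib.MP_d6ddbd_nt.G.CB

lemma sg_zero : sg 0 = 1 := by simp [sg]

lemma sg_add (x y : ZMod 2) : sg (x + y) = sg x * sg y := by
  revert x y; decide

lemma sg_sum {ι : Type*} (s : Finset ι) (f : ι → ZMod 2) :
    sg (∑ i ∈ s, f i) = ∏ i ∈ s, sg (f i) := by
  classical
  induction s using Finset.induction_on with
  | empty => simp [sg_zero]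
  | insert a s ha ih => rw [sum_insert ha, prod_insert ha, sg_add, ih]

lemma abs_sg (x : ZMod 2) : |(sg x : ℝ)| = 1 := by
  unfold sg; split_ifs <;> simp

lemma sg_ite {z : ℤ} (h : z = 1 ∨ z = -1) : sg (if z = -1 then 1 else 0) = z := by
  rcases h with rfl | rfl <;> decide

lemma J_prod_right (a : ℤ) (S : Finset ℕ) (h : ∀ p ∈ S, p ≠ 0) :
    jacobiSym a (∏ p ∈ S, p) = ∏ p ∈ S, jacobiSym a p := by
  induction S using Finset.induction_on with
  | empty => simp
  | insert p S hp ih =>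
    have h' : ∀ q ∈ S, q ≠ 0 := fun q hq => h q (mem_insert_of_mem hq)
    rw [prod_insert hp, prod_insert hp, jacobiSym.mul_right' a (h p (mem_insert_self _ _))
      (prod_ne_zero_iff.2 h'), ih h']

lemma J_prod_left {ι : Type*} (s : Finset ι) (a : ι → ℤ) (b : ℕ) :
    jacobiSym (∏ i ∈ s, a i) b = ∏ i ∈ s, jacobiSym (a i) b := by
  classical
  induction s using Finset.induction_on with
  | empty => simp
  | insert p S hp ih => rw [prod_insert hp, prod_insert hp, jacobiSym.mul_left, ih]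

lemma J_sqf (a : ℤ) {m : ℕ} (hm : Squarefree m) :
    jacobiSym a m = ∏ p ∈ m.primeFactors, jacobiSym a p := by
  conv_lhs => rw [← Nat.prod_primeFactors_of_squarefree hm]
  exact J_prod_right a _ fun p hp => (Nat.prime_of_mem_primeFactors hp).ne_zero

lemma natAbs_ps (p : ℕ) : (ps p).natAbs = p := by
  unfold ps; split_ifs <;> simp

lemma natAbs_dsc {k : ℕ} (hk : Squarefree k) : (dsc k.primeFactors).natAbs = k := by
  rw [dsc, ← Int.natAbsHom_apply, map_prod]
  simp only [Int.natAbsHom_apply, natAbs_ps]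
  exact Nat.prod_primeFactors_of_squarefree hk

lemma ne_of_cop {m k p q : ℕ} (h : m.Coprime k) (hp : p ∈ m.primeFactors)
    (hq : q ∈ k.primeFactors) : p ≠ q := by
  rintro rfl
  exact Finset.disjoint_left.1 h.disjoint_primeFactors hp hq

lemma sg_AL {m k : ℕ} (hm : Squarefree m) (h : m.Coprime k) :
    sg (AL m k) = jacobiSym (dsc k.primeFactors) m := by
  rw [AL, sg_sum, J_sqf _ hm]
  refine prod_congr rfl fun p hp => ?_
  rw [sg_sum, dsc, J_prod_left]
  refine prod_congr rfl fun q hq => ?_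
  refine sg_ite (jacobiSym.eq_one_or_neg_one ?_)
  rw [Int.gcd, natAbs_ps, Int.natAbs_natCast]
  exact (Nat.coprime_primes (Nat.prime_of_mem_primeFactors hq)
    (Nat.prime_of_mem_primeFactors hp)).2 (ne_of_cop h hp hq).symm

lemma sg_EP {m : ℕ} (hm : Squarefree m) (h : Prs m.primeFactors) :
    sg (EP m) = jacobiSym (-1) m := by
  rw [EP, sg_sum, J_sqf _ hm]
  refine prod_congr rfl fun p hp => ?_
  have ho : Odd p := (h p hp).1.odd_of_ne_two (h p hp).2.1
  rw [jacobiSym.at_neg_one ho, ep]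
  split_ifs with h3
  · rw [ZMod.χ₄_nat_three_mod_four h3]; decide
  · rw [ZMod.χ₄_nat_one_mod_four (by have := Nat.odd_iff.1 ho; omega)]; decide

lemma sg_GA {m : ℕ} (hm : Squarefree m) (h : Prs m.primeFactors) :
    sg (GA m) = jacobiSym 17 m := by
  rw [GA, sg_sum, J_sqf _ hm]
  refine prod_congr rfl fun p hp => ?_
  refine sg_ite (jacobiSym.eq_one_or_neg_one ?_)
  rw [Int.gcd, Int.natAbs_natCast]
  exact (Nat.coprime_primes (by norm_num) (h p hp).1).2 (h p hp).2.2.2.symm

lemma AL_rec (hR : RecStmt) {m k : ℕ} (hm : Prs m.primeFactors) (hk : Prs k.primeFactors)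
    (h : m.Coprime k) : AL k m = AL m k + EP m * EP k := by
  rw [AL, AL, EP, EP, sum_comm, sum_mul_sum, ← sum_add_distrib]
  refine sum_congr rfl fun p hp => ?_
  rw [← sum_add_distrib]
  refine sum_congr rfl fun q hq => ?_
  rw [← hR.2 p q (hm p hp).1 (hk q hq).1 (hm p hp).2.1 (hk q hq).2.1 (ne_of_cop h hp hq),
    ← add_assoc, CharTwo.add_self_eq_zero, zero_add]

lemma prs_iff {m : ℕ} (hm : m ≠ 0) : Prs m.primeFactors ↔ m.Coprime 102 := by
  rw [show (102 : ℕ) = 2 * (3 * 17) by norm_num, Nat.coprime_mul_iff_right,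
    Nat.coprime_mul_iff_right]
  simp only [Nat.coprime_comm (n := m), Nat.Prime.coprime_iff_not_dvd Nat.prime_two,
    Nat.Prime.coprime_iff_not_dvd Nat.prime_three,
    Nat.Prime.coprime_iff_not_dvd (by norm_num : Nat.Prime 17)]
  constructor
  · intro h
    refine ⟨fun d => ?_, fun d => ?_, fun d => ?_⟩
    · exact (h 2 (Nat.mem_primeFactors.2 ⟨Nat.prime_two, d, hm⟩)).2.1 rfl
    · exact (h 3 (Nat.mem_primeFactors.2 ⟨Nat.prime_three, d, hm⟩)).2.2.1 rfl
    · exact (h 17 (Nat.mem_primeFactors.2 ⟨by norm_num, d, hm⟩)).2.2.2 rfl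
  · rintro ⟨h2, h3, h17⟩ p hp
    have hd := Nat.dvd_of_mem_primeFactors hp
    refine ⟨Nat.prime_of_mem_primeFactors hp, ?_, ?_, ?_⟩ <;> rintro rfl <;> contradiction

variable {V : Type} [Fintype V] [LinearOrder V]

lemma ok_update {N : V → ℕ} {u : V} (h1 : N u = 1) (m : ℕ) :
    Ok (Function.update N u m) ↔ Ok N ∧ Squarefree m ∧ m.Coprime (102 * ∏ v, N v) := by
  rw [Nat.coprime_mul_iff_right, Nat.coprime_prod_right_iff]
  constructor
  · rintro ⟨ha, hb⟩
    have hu := ha u
    rw [Function.update_self] at hu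
    refine ⟨⟨fun v => ?_, fun v w hvw => ?_⟩, hu.1, (prs_iff hu.1.ne_zero).1 hu.2, fun v _ => ?_⟩
    · by_cases hv : v = u
      · subst hv; rw [h1]; exact ⟨squarefree_one, by simp [Prs]⟩
      · simpa only [Function.update_of_ne hv] using ha v
    · by_cases hv : v = u
      · subst hv; rw [h1]; exact Nat.coprime_one_left _
      by_cases hw : w = u
      · subst hw; rw [h1]; exact Nat.coprime_one_right _
      simpa only [Function.update_of_ne hv, Function.update_of_ne hw] using hb v w hvw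
    · by_cases hv : v = u
      · subst hv; rw [h1]; exact Nat.coprime_one_right _
      simpa only [Function.update_of_ne hv, Function.update_self] using hb u v (Ne.symm hv)
  · rintro ⟨⟨ha, hb⟩, hs, hc, hd⟩
    refine ⟨fun v => ?_, fun v w hvw => ?_⟩
    · by_cases hv : v = u
      · subst hv; rw [Function.update_self]; exact ⟨hs, (prs_iff hs.ne_zero).2 hc⟩
      · simpa only [Function.update_of_ne hv] using ha v
    · by_cases hv : v = u
      · subst hv
        rw [Function.update_self, Function.update_of_ne (Ne.symm hvw)]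
        exact hd w (mem_univ _)
      by_cases hw : w = u
      · subst hw
        rw [Function.update_self, Function.update_of_ne hv]
        exact (hd v (mem_univ _)).symm
      simpa only [Function.update_of_ne hv, Function.update_of_ne hw] using hb v w hvw

lemma sum_upd {A : Type*} [AddCommMonoid A] (F : V → ℕ → A) {N : V → ℕ} {u : V}
    (h0 : F u (N u) = 0) (m : ℕ) :
    ∑ a, F a (Function.update N u m a) = ∑ a, F a (N a) + F u m := by
  rw [← add_sum_erase _ _ (mem_univ u), ← add_sum_erase _ (fun a => F a (N a)) (mem_univ u),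
    Function.update_self, h0, zero_add, add_comm]
  congr 1
  exact sum_congr rfl fun a ha => by rw [Function.update_of_ne (ne_of_mem_erase ha)]

lemma prod_upd {N : V → ℕ} {u : V} (h1 : N u = 1) (m : ℕ) :
    ∏ a, Function.update N u m a = m * ∏ a, N a := by
  rw [prod_update_of_mem (mem_univ u), ← mul_prod_erase _ N (mem_univ u), h1, one_mul,
    sdiff_singleton_eq_erase]

/-- The class of the sign in the twisting discriminant. -/
def cc (ψ : V → V → ZMod 2) (l₁ : V → ZMod 2) (N : V → ℕ) (u : V) : ZMod 2 :=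
  l₁ u + ∑ v, EP (N v) * ψ v u

/-- The twisting discriminant. -/
def dd (ψ : V → V → ZMod 2) (l₁ l₂ : V → ZMod 2) (N : V → ℕ) (u : V) : ℤ :=
  (if cc ψ l₁ N u = 0 then 1 else -1) * ((if l₂ u = 0 then 1 else 17) *
    ∏ v ∈ univ.filter fun v => ψ u v ≠ ψ v u, dsc (N v).primeFactors)

lemma sg_mul (x y : ZMod 2) : sg (x * y) = if y = 0 then 1 else sg x := by
  revert x y; decide

lemma sg_mul' (x y z : ZMod 2) : sg (x * (y + z)) = if y ≠ z then sg x else 1 := by
  revert x y z; decide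

lemma phase (hR : RecStmt) {ψ : V → V → ZMod 2} (l₁ l₂ : V → ZMod 2) {N : V → ℕ} {u : V}
    (hψ : ψ u u = 0) (h1 : N u = 1) (hN : Ok N) {m : ℕ} (hs : Squarefree m)
    (hc : m.Coprime (102 * ∏ v, N v)) :
    GG ψ l₁ l₂ (Function.update N u m) = GG ψ l₁ l₂ N *
      (((4 : ℝ) ^ m.primeFactors.card)⁻¹ * jacobiSym (dd ψ l₁ l₂ N u) m) := by
  have hO := (ok_update h1 m).2 ⟨hN, hs, hc⟩
  rw [Nat.coprime_mul_iff_right, Nat.coprime_prod_right_iff] at hc
  have hP := (prs_iff hs.ne_zero).2 hc.1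
  have e1 : ∑ a, (Function.update N u m a).primeFactors.card =
      ∑ a, (N a).primeFactors.card + m.primeFactors.card :=
    sum_upd (fun _ n => n.primeFactors.card) (by simp [h1]) m
  have e2 : ∑ a, (EP (Function.update N u m a) * l₁ a + GA (Function.update N u m a) * l₂ a) =
      ∑ a, (EP (N a) * l₁ a + GA (N a) * l₂ a) + (EP m * l₁ u + GA m * l₂ u) :=
    sum_upd (fun a n => EP n * l₁ a + GA n * l₂ a) (by simp [h1, EP, GA]) m
  have e3 : ∑ a, ∑ b, AL (Function.update N u m a) (Function.update N u m b) * ψ a b =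
      ∑ a, ∑ b, AL (N a) (N b) * ψ a b + (∑ v, AL m (N v) * (ψ u v + ψ v u) +
        EP m * ∑ v, EP (N v) * ψ v u) := by
    rw [sum_upd (fun a n => ∑ b, AL n (Function.update N u m b) * ψ a b) (by simp [h1, AL]) m]
    have (a : V) (n : ℕ) : ∑ b, AL n (Function.update N u m b) * ψ a b =
        ∑ b, AL n (N b) * ψ a b + AL n m * ψ a u :=
      sum_upd (fun b k => AL n k * ψ a b) (by simp [h1, AL]) m
    simp only [this, hψ, mul_zero, add_zero, sum_add_distrib, add_assoc]
    congr 1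
    rw [mul_sum, ← sum_add_distrib, ← sum_add_distrib]
    refine sum_congr rfl fun v _ => ?_
    rw [AL_rec hR hP (hN.1 v).2 (hc.2 v (mem_univ _))]
    ring
  have e4 : (jacobiSym (dd ψ l₁ l₂ N u) m) =
      sg (∑ v, AL m (N v) * (ψ u v + ψ v u) + (EP m * cc ψ l₁ N u + GA m * l₂ u)) := by
    rw [dd, jacobiSym.mul_left, jacobiSym.mul_left, J_prod_left, sg_add, sg_add, sg_sum, sg_mul,
      sg_mul, prod_filter, sg_EP hs hP, sg_GA hs hP, apply_ite (jacobiSym · m),
      apply_ite (jacobiSym · m), jacobiSym.one_left, ← mul_assoc, mul_comm]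
    congr 1
    refine prod_congr rfl fun v _ => ?_
    rw [sg_mul', sg_AL hs (hc.2 v (mem_univ _))]
  unfold GG
  rw [if_pos hO, if_pos hN, e1, e2, e3, e4, pow_add, mul_inv, mul_mul_mul_comm, ← Int.cast_mul,
    ← sg_add]
  congr 3
  rw [cc]; ring

omit [LinearOrder V] in
lemma abs_GG (ψ : V → V → ZMod 2) (l₁ l₂ : V → ZMod 2) (N : V → ℕ) : |GG ψ l₁ l₂ N| ≤ 1 := by
  unfold GG
  split_ifs
  · rw [abs_mul, abs_sg, mul_one, abs_of_nonneg (by positivity)]
    exact inv_le_one_of_one_le₀ (one_le_pow₀ (by norm_num))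
  · simp

omit [LinearOrder V] in
lemma natAbs_dd (ψ : V → V → ZMod 2) (l₁ l₂ : V → ZMod 2) {N : V → ℕ} (hN : Ok N) (u : V) :
    (dd ψ l₁ l₂ N u).natAbs =
      (if l₂ u = 0 then 1 else 17) * ∏ v ∈ univ.filter fun v => ψ u v ≠ ψ v u, N v := by
  rw [dd, Int.natAbs_mul, Int.natAbs_mul, ← Int.natAbsHom_apply (∏ _ ∈ _, _), map_prod]
  simp only [Int.natAbsHom_apply, natAbs_dsc (hN.1 _).1]
  split_ifs <;> simp

omit [LinearOrder V] in
lemma dd_nsq (ψ : V → V → ZMod 2) (l₁ l₂ : V → ZMod 2) {N : V → ℕ} (hN : Ok N) {u v : V}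
    (hv : ψ u v ≠ ψ v u) (h1 : N v ≠ 1) : ¬ IsSquare (dd ψ l₁ l₂ N u) := by
  rintro ⟨s, hs⟩
  have h := natAbs_dd ψ l₁ l₂ hN u
  have hq : Squarefree (∏ v ∈ univ.filter fun v => ψ u v ≠ ψ v u, N v) :=
    Finset.squarefree_prod_of_pairwise_isCoprime
      (fun a _ b _ hab => Nat.coprime_iff_isRelPrime.1 (hN.2 a b hab)) fun a _ => (hN.1 a).1
  have hq2 : Squarefree (dd ψ l₁ l₂ N u).natAbs := by
    rw [h]
    split_ifs
    · rwa [one_mul]
    · refine (Nat.squarefree_mul ?_).2 ⟨(by norm_num : Nat.Prime 17).squarefree, hq⟩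
      refine Nat.Coprime.prod_right fun a _ => ?_
      exact (((prs_iff (hN.1 a).1.ne_zero).1 (hN.1 a).2).coprime_dvd_right (by norm_num)).symm
  have hu : s.natAbs = 1 := Nat.isUnit_iff.1 (hq2 s.natAbs (by rw [hs, Int.natAbs_mul]))
  rw [hs, Int.natAbs_mul, hu] at h
  have hd : N v ∣ 1 * 1 := by
    rw [h]
    exact Dvd.dvd.mul_left (dvd_prod_of_mem N (mem_filter.2 ⟨mem_univ v, hv⟩)) _
  exact h1 (Nat.dvd_one.1 hd)

omit [LinearOrder V] in
lemma abs_dd (ψ : V → V → ZMod 2) (l₁ l₂ : V → ZMod 2) {N : V → ℕ} (hN : Ok N) (u : V) {Y : ℝ}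
    (hY : 1 ≤ Y) (h : ∀ v, ψ u v ≠ ψ v u → (N v : ℝ) ≤ Y) :
    |(dd ψ l₁ l₂ N u : ℝ)| ≤ 17 * Y ^ Fintype.card V := by
  rw [← Int.cast_abs, Int.abs_eq_natAbs, Int.cast_natCast, natAbs_dd ψ l₁ l₂ hN, Nat.cast_mul,
    Nat.cast_prod]
  refine mul_le_mul (by split_ifs <;> norm_num) ?_ (by positivity) (by norm_num)
  refine (prod_le_prod (g := fun _ => Y) (fun v _ => by positivity)
    fun v hv => h v (mem_filter.1 hv).2).trans ?_
  rw [prod_const]
  exact pow_le_pow_right₀ hY (card_le_univ _)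

lemma split (t : V → Finset ℕ) (u : V) (F : (V → ℕ) → ℝ) :
    ∑ N ∈ Fintype.piFinset t, F N = ∑ N ∈ Fintype.piFinset (Function.update t u {1}),
      ∑ m ∈ t u, F (Function.update N u m) := by
  rw [← sum_product']
  refine sum_bij' (fun N _ => (Function.update N u 1, N u))
    (fun x _ => Function.update x.1 u x.2) ?_ ?_ ?_ ?_ ?_
  · intro N hN
    rw [Fintype.mem_piFinset] at hN
    refine mem_product.2 ⟨Fintype.mem_piFinset.2 fun v => ?_, hN u⟩
    by_cases hv : v = u
    · subst hv; simp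
    · simpa only [Function.update_of_ne hv] using hN v
  · intro x hx
    obtain ⟨h1, h2⟩ := mem_product.1 hx
    rw [Fintype.mem_piFinset] at h1 ⊢
    intro v
    by_cases hv : v = u
    · subst hv; simpa using h2
    · simpa only [Function.update_of_ne hv] using h1 v
  · intro N _; simp
  · intro x hx
    have h1 := Fintype.mem_piFinset.1 (mem_product.1 hx).1 u
    rw [Function.update_self, mem_singleton] at h1
    refine Prod.ext ?_ (by simp)
    simp [← h1]
  · intro N _; simp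

lemma harm (t : V → Finset ℕ) (X : ℕ) (h : ∀ v, t v ⊆ Icc 1 X) :
    ∑ N ∈ Fintype.piFinset t, ((∏ v, N v : ℕ) : ℝ)⁻¹ ≤ (1 + Real.log X) ^ Fintype.card V := by
  simp only [Nat.cast_prod, ← prod_inv_distrib]
  rw [← prod_univ_sum t fun _ n => (n : ℝ)⁻¹, ← card_univ, ← prod_const]
  refine prod_le_prod (fun v _ => by positivity) fun v _ => ?_
  refine (sum_le_sum_of_subset_of_nonneg (h v) fun _ _ _ => by positivity).trans ?_
  have := harmonic_le_one_add_log X
  simpa only [harmonic_eq_sum_Icc, Rat.cast_sum, Rat.cast_inv, Rat.cast_natCast] using this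

end Pool.Agent.Lib.MP_d6ddbd_nt.G.CB
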