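import Mathlib

/-!
Symmetric bilinear forms over `ZMod 2`: deletion-contraction and the parity of the dimension.
-/

open Finset Module

noncomputable section

namespace Pool.Agent.Lib.MP_d6ddbd_nt.G.Cv

/-- The field with two elements. -/
abbrev F : Type := ZMod 2

theorem f01 : ∀ x : F, x = 0 ∨ x = 1 := by decide
theorem add_self' (x : F) : x + x = 0 := CharTwo.add_self_eq_zero x
theorem mul_self' : ∀ x : F, x * x = x := by decide
theorem two0 : (2 : F) = 0 := rfl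

variable {Z : Type*} [AddCommGroup Z] [Module F Z]

theorem zadd (z : Z) : z + z = 0 := by
  rw [← two_smul F z, two0, zero_smul]

/-- The form has trivial left radical on `W`. -/
def ND (B : Z →ₗ[F] Z →ₗ[F] F) (W : Submodule F Z) : Prop :=
  ∀ z ∈ W, (∀ w ∈ W, B z w = 0) → z = 0

/-- The indicator of a proposition. -/
noncomputable def iv (P : Prop) : F := by classical exact if P then 1 else 0

theorem iv_pos {P : Prop} (h : P) : iv P = 1 := by unfold iv; exact if_pos h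
theorem iv_neg {P : Prop} (h : ¬P) : iv P = 0 := by unfold iv; exact if_neg h

theorem nd_congr {B B' : Z →ₗ[F] Z →ₗ[F] F} {W : Submodule F Z}
    (h : ∀ z ∈ W, ∀ w ∈ W, B z w = B' z w) : ND B W ↔ ND B' W :=
  forall₂_congr fun z hz => imp_congr_left (forall₂_congr fun w hw => by rw [h z hz w hw])

theorem ND.surj {B : Z →ₗ[F] Z →ₗ[F] F} {W : Submodule F Z} [FiniteDimensional F W]
    (h : ND B W) (f : Z →ₗ[F] F) : ∃ x ∈ W, ∀ w ∈ W, B x w = f w := by
  have hinj : Function.Injective (B.compl₁₂ W.subtype W.subtype : W →ₗ[F] Module.Dual F W) := by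
    rw [← LinearMap.ker_eq_bot, LinearMap.ker_eq_bot']
    intro z hz
    exact Subtype.ext (h z z.2 fun w hw => LinearMap.congr_fun hz ⟨w, hw⟩)
  obtain ⟨x, hx⟩ := (LinearMap.injective_iff_surjective_of_finrank_eq_finrank
    (Subspace.dual_finrank_eq (K := F) (V := W)).symm).1 hinj (f ∘ₗ W.subtype)
  exact ⟨x, x.2, fun w hw => LinearMap.congr_fun hx ⟨w, hw⟩⟩

section dc

variable {B B' : Z →ₗ[F] Z →ₗ[F] F} {W W₀ : Submodule F Z} {u v : Z →ₗ[F] F} {x y : Z}

theorem dc_aux (hW : ∀ z, z ∈ W₀ ↔ z ∈ W ∧ u z = 0 ∧ v z = 0)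
    (hx : x ∈ W) (hy : y ∈ W) (hux : u x = 1) (hvx : v x = 0) (huy : u y = 0) (hvy : v y = 1)
    (f : Z →ₗ[F] F) (hf : ∀ w ∈ W₀, f w = 0) : ∀ w ∈ W, f w = f x * u w + f y * v w := by
  intro w hw
  have h := hf (w - u w • x - v w • y) ((hW _).2
    ⟨W.sub_mem (W.sub_mem hw (W.smul_mem _ hx)) (W.smul_mem _ hy),
      by simp [hux, huy], by simp [hvx, hvy]⟩)
  simp only [map_sub, map_smul, smul_eq_mul] at h
  linear_combination h

theorem dc_deg (hs : ∀ z w, B z w = B w z) (hB : ∀ z w, B' z w = B z w + (u z * v w + v z * u w))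
    (hW : ∀ z, z ∈ W₀ ↔ z ∈ W ∧ u z = 0 ∧ v z = 0)
    (hx : x ∈ W) (hy : y ∈ W) (hux : u x = 1) (hvx : v x = 0) (huy : u y = 0) (hvy : v y = 1)
    (h0 : ¬ ND B W₀) (h : ND B W) : ND B' W := by
  intro z hz hz'
  unfold ND at h0
  push Not at h0
  obtain ⟨r, hr, hr', hr0⟩ := h0
  obtain ⟨hrW, hur, hvr⟩ := (hW r).1 hr
  have h1 := dc_aux hW hx hy hux hvx huy hvy (B r) hr'
  have h2 : ∀ w ∈ W, B z w = u z * v w + v z * u w := fun w hw => by
    have := hz' w hw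
    rw [hB] at this
    linear_combination this - add_self' (u z * v w + v z * u w)
  have h3 : B r x * u z + B r y * v z = 0 := by rw [← h1 z hz, hs, h2 r hrW, hur, hvr]; ring
  have h4 : ¬ (B r x = 0 ∧ B r y = 0) := fun hh => hr0 (h r hrW fun w hw => by
    rw [h1 w hw, hh.1, hh.2]; ring)
  have key : ∀ a b c d : F, a * c + b * d = 0 → ¬ (a = 0 ∧ b = 0) →
      (c = 0 ∧ d = 0) ∨ (c = b ∧ d = a) := by decide
  have h5 : u z = 0 ∧ v z = 0 := by
    rcases key _ _ _ _ h3 h4 with h5 | h5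
    · exact h5
    · have h6 : z - r = 0 := h _ (W.sub_mem hz hrW) fun w hw => by
        rw [map_sub, LinearMap.sub_apply, h2 w hw, h1 w hw, h5.1, h5.2]; ring
      rw [sub_eq_zero.1 h6]
      exact ⟨hur, hvr⟩
  exact h z hz fun w hw => by rw [h2 w hw, h5.1, h5.2]; ring

theorem dc_one (hs : ∀ z w, B z w = B w z) (hB : ∀ z w, B' z w = B z w + (u z * v w + v z * u w))
    (hW : ∀ z, z ∈ W₀ ↔ z ∈ W ∧ u z = 0 ∧ v z = 0)
    (hx : x ∈ W) (hy : y ∈ W) (hux : u x = 1) (hvx : v x = 0) (huy : u y = 0) (hvy : v y = 1)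
    (h0 : ND B W₀) : ND B W ∨ ND B' W := by
  by_contra hc
  unfold ND at hc
  push Not at hc
  obtain ⟨⟨z, hz, hz1, hz0⟩, z', hz', hz1', hz0'⟩ := hc
  have h1 : ¬ (u z = 0 ∧ v z = 0) := fun hh =>
    hz0 (h0 z ((hW z).2 ⟨hz, hh⟩) fun w hw => hz1 w ((hW w).1 hw).1)
  have h3 : ∀ w ∈ W₀, B z' w = 0 := fun w hw => by
    obtain ⟨g1, g2, g3⟩ := (hW w).1 hw
    have := hz1' w g1
    rwa [hB, g2, g3, mul_zero, mul_zero, add_zero, add_zero] at this
  have h2 : ¬ (u z' = 0 ∧ v z' = 0) := fun hh => hz0' (h0 z' ((hW z').2 ⟨hz', hh⟩) h3)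
  have h4 := hz1' z hz
  rw [hB, hs, hz1 z' hz', zero_add] at h4
  have key : ∀ a b c d : F, ¬ (a = 0 ∧ b = 0) → ¬ (c = 0 ∧ d = 0) → c * b + d * a = 0 →
      a = c ∧ b = d := by decide
  obtain ⟨h5, h6⟩ := key _ _ _ _ h1 h2 h4
  have h7 : z - z' = 0 := h0 _ ((hW _).2 ⟨W.sub_mem hz hz', by simp [h5], by simp [h6]⟩)
    fun w hw => by rw [map_sub, LinearMap.sub_apply, hz1 w ((hW w).1 hw).1, h3 w hw, sub_zero]
  rw [← sub_eq_zero.1 h7] at hz1'
  have h8 := hz1' x hx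
  have h9 := hz1' y hy
  rw [hB, hz1 _ hx, hux, hvx] at h8
  rw [hB, hz1 _ hy, huy, hvy] at h9
  exact h1 ⟨by simpa using h9, by simpa using h8⟩

theorem dc_two [FiniteDimensional F W] (hs : ∀ z w, B z w = B w z)
    (hB : ∀ z w, B' z w = B z w + (u z * v w + v z * u w))
    (hW : ∀ z, z ∈ W₀ ↔ z ∈ W ∧ u z = 0 ∧ v z = 0)
    (hx : x ∈ W) (hy : y ∈ W) (hux : u x = 1) (hvx : v x = 0) (huy : u y = 0) (hvy : v y = 1)
    (h0 : ND B W₀) (h : ND B W) : ¬ ND B' W := by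
  intro h'
  obtain ⟨x', hx', hx1⟩ := h.surj u
  obtain ⟨y', hy', hy1⟩ := h.surj v
  have e : u y' = v x' := by rw [← hx1 y' hy', hs, hy1 x' hx']
  have h1 : ∀ s t : F, ∀ w ∈ W, B (s • x' + t • y') w = s * u w + t * v w := fun s t w hw => by
    simp [hx1 w hw, hy1 w hw]
  have hm : ∀ s t : F, s • x' + t • y' ∈ W := fun s t =>
    W.add_mem (W.smul_mem _ hx') (W.smul_mem _ hy')
  have h2 : ∀ s t : F, s • x' + t • y' = 0 → s = 0 ∧ t = 0 := fun s t hst => by
    have g1 := h1 s t x hx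
    have g2 := h1 s t y hy
    rw [hst] at g1 g2
    simp only [map_zero, LinearMap.zero_apply, hux, hvx, huy, hvy] at g1 g2
    exact ⟨by simpa using g1.symm, by simpa using g2.symm⟩
  have h3 : ∀ s t : F, s * u x' + t * v x' = 0 → s * v x' + t * v y' = 0 → s = 0 ∧ t = 0 :=
    fun s t g1 g2 => h2 s t (h0 _ ((hW _).2 ⟨hm s t, by simpa [e] using g1, by simpa using g2⟩)
      fun w hw => by
        obtain ⟨k1, k2, k3⟩ := (hW w).1 hw
        rw [h1 s t w k1, k2, k3]; ring)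
  have key : ∀ a b d : F, (∀ s t : F, s * a + t * b = 0 → s * b + t * d = 0 → s = 0 ∧ t = 0) →
      ∃ s t : F, ¬ (s = 0 ∧ t = 0) ∧ s * b + t * d = s ∧ s * a + t * b = t := by decide
  obtain ⟨s, t, g0, g1, g2⟩ := key _ _ _ h3
  refine g0 (h2 s t (h' _ (hm s t) fun w hw => ?_))
  have g3 : u (s • x' + t • y') = t := by simpa [e] using g2
  have g4 : v (s • x' + t • y') = s := by simpa using g1
  rw [hB, h1 s t w hw, g3, g4]
  linear_combination add_self' (s * u w + t * v w)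

/-- deletion-contraction -/
theorem dc [FiniteDimensional F W] (hs : ∀ z w, B z w = B w z)
    (hB : ∀ z w, B' z w = B z w + (u z * v w + v z * u w))
    (hW : ∀ z, z ∈ W₀ ↔ z ∈ W ∧ u z = 0 ∧ v z = 0)
    (hx : x ∈ W) (hy : y ∈ W) (hux : u x = 1) (hvx : v x = 0) (huy : u y = 0) (hvy : v y = 1) :
    iv (ND B' W) = iv (ND B W) + iv (ND B W₀) := by
  have hs' : ∀ z w, B' z w = B' w z := fun z w => by rw [hB, hB, hs]; ring
  have hB' : ∀ z w, B z w = B' z w + (u z * v w + v z * u w) := fun z w => by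
    rw [hB, add_assoc, add_self', add_zero]
  have h00 : ND B W₀ ↔ ND B' W₀ := nd_congr fun z hz w hw => by
    rw [hB, ((hW z).1 hz).2.1, ((hW z).1 hz).2.2]; ring
  by_cases h0 : ND B W₀
  · rw [iv_pos h0]
    by_cases h : ND B W
    · rw [iv_pos h, iv_neg (dc_two hs hB hW hx hy hux hvx huy hvy h0 h)]; rfl
    · rw [iv_neg h, iv_pos ((dc_one hs hB hW hx hy hux hvx huy hvy h0).resolve_left h)]; rfl
  · rw [iv_neg h0, add_zero]
    exact congrArg iv (propext ⟨dc_deg hs' hB' hW hx hy hux hvx huy hvy (mt h00.2 h0),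
      dc_deg hs hB hW hx hy hux hvx huy hvy h0⟩)

end dc

/-- the restriction to a hyperplane of a degenerate form -/
theorem nd_hyper {B : Z →ₗ[F] Z →ₗ[F] F} {W W₁ : Submodule F Z} {u : Z →ₗ[F] F}
    (hs : ∀ z w, B z w = B w z) (hW : ∀ z, z ∈ W₁ ↔ z ∈ W ∧ u z = 0) (h : ¬ ND B W) :
    ND B W₁ ↔ ∃ r ∈ W, (∀ w ∈ W, B r w = 0) ∧ u r = 1 ∧
      ∀ z ∈ W, (∀ w ∈ W, B z w = 0) → z = 0 ∨ z = r := by
  constructor
  · intro h1
    have h2 : ∀ z ∈ W, (∀ w ∈ W, B z w = 0) → z = 0 ∨ u z = 1 := fun z hz hz' =>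
      (f01 (u z)).imp_left fun h3 => h1 z ((hW z).2 ⟨hz, h3⟩) fun w hw => hz' w ((hW w).1 hw).1
    unfold ND at h
    push Not at h
    obtain ⟨r, hr, hr', hr0⟩ := h
    have hu := (h2 r hr hr').resolve_left hr0
    refine ⟨r, hr, hr', hu, fun z hz hz' => (h2 z hz hz').imp_right fun h3 => ?_⟩
    refine sub_eq_zero.1 (h1 _ ((hW _).2 ⟨W.sub_mem hz hr, by simp [h3, hu]⟩) fun w hw => ?_)
    rw [map_sub, LinearMap.sub_apply, hz' w ((hW w).1 hw).1, hr' w ((hW w).1 hw).1, sub_zero]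
  · rintro ⟨r, hr, hr', hu, h1⟩ z hz hz'
    obtain ⟨hzW, huz⟩ := (hW z).1 hz
    refine (h1 z hzW fun w hw => ?_).resolve_right fun h2 => ?_
    · have h3 := hz' (w - u w • r) ((hW _).2 ⟨W.sub_mem hw (W.smul_mem _ hr), by simp [hu]⟩)
      rwa [map_sub, map_smul, hs z r, hr' z hzW, smul_zero, sub_zero] at h3
    · rw [h2, hu] at huz
      exact one_ne_zero huz

theorem det_alt {n : ℕ} (hn : Odd n) (M : Matrix (Fin n) (Fin n) F) (hs : ∀ i j, M i j = M j i)
    (hd : ∀ i, M i i = 0) : M.det = 0 := by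
  rw [Matrix.det_apply]
  have hsg : ∀ (σ : Equiv.Perm (Fin n)) (a : F), Equiv.Perm.sign σ • a = a := fun σ a => by
    rcases Int.units_eq_one_or (Equiv.Perm.sign σ) with h | h <;> simp [h, CharTwo.neg_eq]
  simp only [hsg]
  refine sum_involution (fun σ _ => σ⁻¹) (fun σ _ => ?_) (fun σ _ h h' => h ?_)
    (fun _ _ => mem_univ _) fun σ _ => inv_inv σ
  · have : ∏ i, M (σ⁻¹ i) i = ∏ i, M (σ i) i := by
      rw [← Equiv.prod_comp σ]
      exact prod_congr rfl fun i _ => by rw [hs]; simp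
    rw [this, add_self']
  · haveI : Fact (Nat.Prime 2) := ⟨Nat.prime_two⟩
    obtain ⟨a, ha⟩ := Equiv.Perm.exists_fixed_point_of_prime (p := 2) (n := 1) (σ := σ)
      (by simpa [← even_iff_two_dvd] using hn)
      (by rw [pow_one, pow_two]; nth_rewrite 1 [← h']; exact inv_mul_cancel σ)
    exact prod_eq_zero (mem_univ a) (by rw [ha, hd])

theorem alt_even {U : Type*} [AddCommGroup U] [Module F U] [FiniteDimensional F U]
    (B : U →ₗ[F] U →ₗ[F] F) (hs : ∀ z w, B z w = B w z) (ha : ∀ z, B z z = 0)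
    (h : ∀ z, (∀ w, B z w = 0) → z = 0) : Even (finrank F U) := by
  by_contra hn
  rw [Nat.not_even_iff_odd] at hn
  let b := Module.finBasis F U
  obtain ⟨c, hc0, hc⟩ := Matrix.exists_vecMul_eq_zero_iff.2
    (det_alt hn (Matrix.of fun i j => B (b i) (b j)) (fun i j => hs _ _) fun i => ha _)
  have h1 : B (∑ i, c i • b i) = 0 := b.ext fun j => by
    have := congrFun hc j
    simpa [Matrix.vecMul, dotProduct] using this
  have h2 := h _ fun w => LinearMap.congr_fun h1 w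
  exact hc0 (funext (Fintype.linearIndependent_iff.1 b.linearIndependent c h2))

/-- the parity of the dimension from the characteristic vector -/
theorem wu {B : Z →ₗ[F] Z →ₗ[F] F} {W : Submodule F Z} [FiniteDimensional F W]
    (hs : ∀ z w, B z w = B w z) (h : ND B W) {w : Z} (hw : w ∈ W) (hc : ∀ z ∈ W, B w z = B z z)
    (h1 : B w w = 1) : Odd (finrank F W) := by
  let f : Module.Dual F W := B w ∘ₗ W.subtype
  have hf : f ≠ 0 := fun h0 => by
    have := LinearMap.congr_fun h0 ⟨w, hw⟩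
    simp [f, h1] at this
  have h2 := alt_even (B.compl₁₂ (W.subtype ∘ₗ (LinearMap.ker f).subtype)
    (W.subtype ∘ₗ (LinearMap.ker f).subtype)) (fun z w => hs _ _)
    (fun z => (hc _ z.1.2).symm.trans z.2) fun z hz => by
      refine Subtype.ext (Subtype.ext (h _ z.1.2 fun t ht => ?_))
      have h3 := hz ⟨⟨t - B w t • w, W.sub_mem ht (W.smul_mem _ hw)⟩, by simp [f, h1]⟩
      have h4 : B z.1.1 w = 0 := (hs _ _).trans z.2
      simpa [h4] using h3
  rw [← f.finrank_ker_add_one_of_ne_zero hf]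
  exact h2.add_one

end Pool.Agent.Lib.MP_d6ddbd_nt.G.Cv
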