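import Pool.Agent.Lib.MP_d6ddbd_nt.G.ConvA

/-!
The forms attached to weighted directed graphs and the convolution identity.
-/

open Finset Module

noncomputable section

namespace Pool.Agent.Lib.MP_d6ddbd_nt.G.Cv

/-- Functions supported on `S`. -/
noncomputable def sup (S : Finset ℕ) : Submodule F (ℕ → F) where
  carrier := {a | ∀ p ∉ S, a p = 0}
  add_mem' := fun ha hb p hp => by simp [ha p hp, hb p hp]
  zero_mem' := fun _ _ => rfl
  smul_mem' := fun c a ha p hp => by simp [ha p hp]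

theorem mem_sup {S : Finset ℕ} {a : ℕ → F} : a ∈ sup S ↔ ∀ p ∉ S, a p = 0 := Iff.rfl

instance (S : Finset ℕ) : FiniteDimensional F (sup S) :=
  Module.Finite.of_injective
    (LinearMap.funLeft F F (Subtype.val : S → ℕ) ∘ₗ (sup S).subtype) fun a b h =>
      Subtype.ext (funext fun p => by
        by_cases hp : p ∈ S
        · exact congrFun h ⟨p, hp⟩
        · rw [a.2 p hp, b.2 p hp])

/-- Pairs of functions. -/
abbrev Z : Type := (ℕ → F) × (ℕ → F)

/-- Pairs of functions supported on `I` and `S`. -/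
noncomputable def WW (I S : Finset ℕ) : Submodule F Z := (sup I).prod (sup S)

theorem mem_WW {I S : Finset ℕ} {z : Z} :
    z ∈ WW I S ↔ (∀ p ∉ I, z.1 p = 0) ∧ ∀ p ∉ S, z.2 p = 0 := Iff.rfl

theorem WW_eq (I S : Finset ℕ) :
    WW I S = LinearMap.range ((sup I).subtype.prodMap (sup S).subtype) := by
  rw [LinearMap.range_prodMap, Submodule.range_subtype, Submodule.range_subtype, WW]

instance (I S : Finset ℕ) : FiniteDimensional F (WW I S) := by
  rw [WW_eq]; infer_instance

theorem even_WW (S : Finset ℕ) : Even (finrank F (WW S S)) := by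
  rw [WW_eq, LinearMap.finrank_range_of_inj
    (Function.Injective.prodMap Subtype.val_injective Subtype.val_injective), Module.finrank_prod]
  exact ⟨_, rfl⟩

/-- The Laplacian as a bilinear form. -/
noncomputable def bet (al : ℕ → ℕ → F) (S : Finset ℕ) : (ℕ → F) →ₗ[F] (ℕ → F) →ₗ[F] F :=
  LinearMap.mk₂ F (fun a b => ∑ p ∈ S, ∑ q ∈ S, al p q * a p * (b p + b q))
    (fun a a' b => by
      simp only [← sum_add_distrib, Pi.add_apply]
      exact sum_congr rfl fun p _ => sum_congr rfl fun q _ => by ring)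
    (fun c a b => by
      simp only [smul_eq_mul, mul_sum, Pi.smul_apply]
      exact sum_congr rfl fun p _ => sum_congr rfl fun q _ => by ring)
    (fun a b b' => by
      simp only [← sum_add_distrib, Pi.add_apply]
      exact sum_congr rfl fun p _ => sum_congr rfl fun q _ => by ring)
    (fun c a b => by
      simp only [smul_eq_mul, mul_sum, Pi.smul_apply]
      exact sum_congr rfl fun p _ => sum_congr rfl fun q _ => by ring)

theorem bet_apply (al : ℕ → ℕ → F) (S : Finset ℕ) (a b : ℕ → F) :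
    bet al S a b = ∑ p ∈ S, ∑ q ∈ S, al p q * a p * (b p + b q) := rfl

/-- The diagonal form. -/
noncomputable def dg (e : ℕ → F) (S : Finset ℕ) : (ℕ → F) →ₗ[F] (ℕ → F) →ₗ[F] F :=
  LinearMap.mk₂ F (fun a b => ∑ p ∈ S, e p * a p * b p)
    (fun a a' b => by
      simp only [← sum_add_distrib, Pi.add_apply]
      exact sum_congr rfl fun p _ => by ring)
    (fun c a b => by
      simp only [smul_eq_mul, mul_sum, Pi.smul_apply]
      exact sum_congr rfl fun p _ => by ring)
    (fun a b b' => by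
      simp only [← sum_add_distrib, Pi.add_apply]
      exact sum_congr rfl fun p _ => by ring)
    (fun c a b => by
      simp only [smul_eq_mul, mul_sum, Pi.smul_apply]
      exact sum_congr rfl fun p _ => by ring)

theorem dg_apply (e : ℕ → F) (S : Finset ℕ) (a b : ℕ → F) :
    dg e S a b = ∑ p ∈ S, e p * a p * b p := rfl

theorem dg_comm (e : ℕ → F) (S : Finset ℕ) (a b : ℕ → F) : dg e S a b = dg e S b a :=
  sum_congr rfl fun p _ => by ring

/-- The symmetric form. -/
noncomputable def fm (al : ℕ → ℕ → F) (e g : ℕ → F) (S : Finset ℕ) : Z →ₗ[F] Z →ₗ[F] F :=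
  (dg g S).compl₁₂ (.fst F _ _) (.fst F _ _) + (bet al S).compl₁₂ (.fst F _ _) (.snd F _ _) +
    ((bet al S).compl₁₂ (.fst F _ _) (.snd F _ _)).flip + (dg e S).compl₁₂ (.snd F _ _) (.snd F _ _)

theorem fm_apply (al : ℕ → ℕ → F) (e g : ℕ → F) (S : Finset ℕ) (z w : Z) :
    fm al e g S z w = dg g S z.1 w.1 + bet al S z.1 w.2 + bet al S w.1 z.2 + dg e S z.2 w.2 := rfl

theorem fm_comm (al : ℕ → ℕ → F) (e g : ℕ → F) (S : Finset ℕ) (z w : Z) :
    fm al e g S z w = fm al e g S w z := by
  rw [fm_apply, fm_apply, dg_comm g, dg_comm e]; ring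

/-- The determinant. -/
noncomputable def DD (al : ℕ → ℕ → F) (e g : ℕ → F) (I S : Finset ℕ) : F :=
  iv (ND (fm al e g S) (WW I S))

theorem DD_congr {al al' : ℕ → ℕ → F} {e e' : ℕ → F} (g : ℕ → F) {I S : Finset ℕ}
    (h : ∀ p ∈ I, ∀ q ∈ S, p ≠ q → al p q = al' p q) (he : ∀ p ∈ S, e p = e' p) :
    DD al e g I S = DD al' e' g I S := by
  have hb : ∀ a b : ℕ → F, (∀ p ∉ I, a p = 0) → bet al S a b = bet al' S a b := fun a b ha =>
    sum_congr rfl fun p _ => sum_congr rfl fun q hq => by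
      by_cases hp : p ∈ I
      · by_cases hpq : p = q
        · rw [hpq, add_self', mul_zero, mul_zero]
        · rw [h p hp q hq hpq]
      · rw [ha p hp]; ring
  refine congrArg iv (propext (nd_congr fun z hz w hw => ?_))
  rw [fm_apply, fm_apply, hb _ _ hz.1, hb _ _ hw.1]
  congr 1
  exact sum_congr rfl fun p hp => by rw [he p hp]

/-- Change the weight of one edge. -/
noncomputable def tog (al : ℕ → ℕ → F) (x y : ℕ) (p q : ℕ) : F :=
  al p q + if p = x ∧ q = y then 1 else 0

/-- Contract `x` to `y`. -/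
noncomputable def con (al : ℕ → ℕ → F) (x y : ℕ) (p q : ℕ) : F :=
  al p q + if q = y then al p x else 0

/-- Contract `x` to `y`, vertex weights. -/
noncomputable def cw (e : ℕ → F) (x y : ℕ) (q : ℕ) : F := e q + if q = y then e x else 0

theorem bet_tog (al : ℕ → ℕ → F) {S : Finset ℕ} {x y : ℕ} (hx : x ∈ S) (hy : y ∈ S)
    (a b : ℕ → F) : bet (tog al x y) S a b = bet al S a b + a x * (b x + b y) := by
  have h : a x * (b x + b y) =
      ∑ p ∈ S, ∑ q ∈ S, (if p = x ∧ q = y then 1 else 0) * a p * (b p + b q) := by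
    rw [sum_eq_single_of_mem x hx (fun p _ hp => by simp [hp]),
      sum_eq_single_of_mem y hy (fun q _ hq => by simp [hq])]
    simp
  rw [h, bet_apply, bet_apply, ← sum_add_distrib]
  refine sum_congr rfl fun p _ => ?_
  rw [← sum_add_distrib]
  exact sum_congr rfl fun q _ => by rw [tog]; ring

theorem bet_con (al : ℕ → ℕ → F) {S : Finset ℕ} {x y : ℕ} (hx : x ∈ S) (hy : y ∈ S) (hxy : x ≠ y)
    (a b : ℕ → F) (ha : a x = 0) (hb : b x = b y) :
    bet al S a b = bet (con al x y) (S.erase x) a b := by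
  rw [bet_apply, bet_apply, ← add_sum_erase _ _ hx, ha]
  simp only [mul_zero, zero_mul, sum_const_zero, zero_add]
  refine sum_congr rfl fun p _ => ?_
  have h : al p x * a p * (b p + b x) =
      ∑ q ∈ S.erase x, (if q = y then al p x else 0) * a p * (b p + b q) := by
    rw [sum_eq_single_of_mem y (mem_erase.2 ⟨hxy.symm, hy⟩) (fun q _ hq => by simp [hq]), hb]
    simp
  rw [← add_sum_erase _ _ hx, h, ← sum_add_distrib]
  exact sum_congr rfl fun q _ => by rw [con]; ring

theorem sum_cw (e : ℕ → F) {S : Finset ℕ} {x y : ℕ} (hx : x ∉ S) (hy : y ∈ S) (c : ℕ → F)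
    (hc : c x = c y) : ∑ p ∈ insert x S, e p * c p = ∑ p ∈ S, cw e x y p * c p := by
  have h : e x * c x = ∑ q ∈ S, (if q = y then e x else 0) * c q := by
    rw [sum_eq_single_of_mem y hy (fun q _ hq => by simp [hq]), hc]
    simp
  rw [sum_insert hx, h, ← sum_add_distrib]
  exact sum_congr rfl fun q _ => by rw [cw]; ring

theorem fm_con (al : ℕ → ℕ → F) (e g : ℕ → F) {S : Finset ℕ} {x y : ℕ} (hx : x ∈ S) (hy : y ∈ S)
    (hxy : x ≠ y) (z w : Z) (hz : z.1 x = 0) (hz' : z.2 x = z.2 y) (hw : w.1 x = 0)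
    (hw' : w.2 x = w.2 y) :
    fm al e g S z w = fm (con al x y) (cw e x y) g (S.erase x) z w := by
  have h1 : dg g S z.1 w.1 = dg g (S.erase x) z.1 w.1 := by
    rw [dg_apply, dg_apply, ← add_sum_erase _ _ hx, hz]; ring
  have h2 : dg e S z.2 w.2 = dg (cw e x y) (S.erase x) z.2 w.2 := by
    have := sum_cw e (notMem_erase x S) (mem_erase.2 ⟨hxy.symm, hy⟩) (fun p => z.2 p * w.2 p)
      (by rw [hz', hw'])
    rw [insert_erase hx] at this
    simpa only [dg_apply, mul_assoc] using this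
  rw [fm_apply, fm_apply, h1, h2, bet_con al hx hy hxy _ _ hz hw', bet_con al hx hy hxy _ _ hw hz']

theorem fm_ext (al : ℕ → ℕ → F) (e g : ℕ → F) {S : Finset ℕ} {z z' w w' : Z}
    (h1 : z.1 = z'.1) (h2 : ∀ p ∈ S, z.2 p = z'.2 p) (h3 : w.1 = w'.1)
    (h4 : ∀ p ∈ S, w.2 p = w'.2 p) : fm al e g S z w = fm al e g S z' w' := by
  have hb : ∀ a b b' : ℕ → F, (∀ p ∈ S, b p = b' p) → bet al S a b = bet al S a b' :=
    fun a b b' h => sum_congr rfl fun p hp => sum_congr rfl fun q hq => by rw [h p hp, h q hq]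
  rw [fm_apply, fm_apply, h1, h3, hb _ _ _ h2, hb _ _ _ h4]
  congr 1
  exact sum_congr rfl fun p hp => by rw [h2 p hp, h4 p hp]

/-- The coordinates. -/
noncomputable def pr (x : ℕ) : (ℕ → F) →ₗ[F] F := LinearMap.proj x

theorem single_mem {S : Finset ℕ} {x : ℕ} (hx : x ∈ S) : Pi.single x (1 : F) ∈ sup S :=
  fun p hp => Pi.single_eq_of_ne (fun h : p = x => hp (h ▸ hx)) _

/-- deletion-contraction for graphs -/
theorem DD_tog (al : ℕ → ℕ → F) (e g : ℕ → F) {I S : Finset ℕ} {x y : ℕ} (hI : I ⊆ S)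
    (hx : x ∈ I) (hy : y ∈ S) (hxy : x ≠ y) :
    DD (tog al x y) e g I S =
      DD al e g I S + DD (con al x y) (cw e x y) g (I.erase x) (S.erase x) := by
  have hxS := hI hx
  let u : Z →ₗ[F] F := pr x ∘ₗ .fst F _ _
  let v : Z →ₗ[F] F := pr x ∘ₗ .snd F _ _ + pr y ∘ₗ .snd F _ _
  have hu : ∀ z : Z, u z = z.1 x := fun _ => rfl
  have hv : ∀ z : Z, v z = z.2 x + z.2 y := fun _ => rfl
  have hW : ∀ z, z ∈ WW I S ⊓ (LinearMap.ker u ⊓ LinearMap.ker v) ↔
      z ∈ WW I S ∧ u z = 0 ∧ v z = 0 := fun _ => Iff.rfl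
  have h := dc (B := fm al e g S) (B' := fm (tog al x y) e g S) (u := u) (v := v)
    (x := (Pi.single x 1, 0)) (y := (0, Pi.single x 1)) (fm_comm al e g S)
    (fun z w => by
      rw [fm_apply, fm_apply, bet_tog al hxS hy, bet_tog al hxS hy, hu, hu, hv, hv]; ring) hW
    ⟨single_mem hx, zero_mem _⟩ ⟨zero_mem _, single_mem hxS⟩
    (by simp [hu]) (by simp [hv]) (by simp [hu]) (by simp [hv, hxy.symm])
  unfold DD
  rw [h]
  congr 2
  have k1 : ∀ z ∈ WW (I.erase x) (S.erase x), (z.1, Function.update z.2 x (z.2 y)) ∈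
      WW I S ⊓ (LinearMap.ker u ⊓ LinearMap.ker v) := fun z hz => (hW _).2
    ⟨⟨fun p hp => hz.1 p fun h => hp (mem_of_mem_erase h), fun p hp => by
        change Function.update z.2 x (z.2 y) p = 0
        rw [Function.update_of_ne (fun h : p = x => hp (h ▸ hxS))]
        exact hz.2 p fun h => hp (mem_of_mem_erase h)⟩,
      hz.1 x (notMem_erase x I), by
        rw [hv]; simp only [Function.update_self, Function.update_of_ne hxy.symm, add_self']⟩
  have k2 : ∀ z ∈ WW I S ⊓ (LinearMap.ker u ⊓ LinearMap.ker v),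
      (z.1, Function.update z.2 x 0) ∈ WW (I.erase x) (S.erase x) := fun z hz =>
    ⟨fun p hp => by
        by_cases h : p = x
        · rw [h]; exact ((hW z).1 hz).2.1
        · exact hz.1.1 p fun h' => hp (mem_erase.2 ⟨h, h'⟩), fun p hp => by
        change Function.update z.2 x 0 p = 0
        by_cases h : p = x
        · rw [h, Function.update_self]
        · rw [Function.update_of_ne h]
          exact hz.1.2 p fun h' => hp (mem_erase.2 ⟨h, h'⟩)⟩
  have k3 : ∀ z ∈ WW I S ⊓ (LinearMap.ker u ⊓ LinearMap.ker v), z.1 x = 0 ∧ z.2 x = z.2 y :=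
    fun z hz => ⟨((hW z).1 hz).2.1, by
      have := ((hW z).1 hz).2.2
      rw [hv] at this
      linear_combination this - add_self' (z.2 y)⟩
  have k4 : ∀ z ∈ WW I S ⊓ (LinearMap.ker u ⊓ LinearMap.ker v),
      ∀ w ∈ WW I S ⊓ (LinearMap.ker u ⊓ LinearMap.ker v),
      fm al e g S z w = fm (con al x y) (cw e x y) g (S.erase x) z w := fun z hz w hw =>
    fm_con al e g hxS hy hxy z w (k3 z hz).1 (k3 z hz).2 (k3 w hw).1 (k3 w hw).2
  have k5 : ∀ (b : ℕ → F) (c : F), ∀ p ∈ S.erase x, Function.update b x c p = b p :=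
    fun b c p hp => Function.update_of_ne (ne_of_mem_erase hp) _ _
  refine propext ⟨fun h0 z hz hz' => ?_, fun h0 z hz hz' => ?_⟩
  · have h1 := h0 _ (k1 z hz) fun w hw => by
      rw [k4 _ (k1 z hz) w hw, ← hz' _ (k2 w hw)]
      exact fm_ext _ _ _ rfl (k5 _ _) rfl fun p hp => (k5 _ _ p hp).symm
    refine Prod.ext (congrArg Prod.fst h1 :) (funext fun p => ?_)
    by_cases hp : p = x
    · rw [hp]; exact hz.2 x (notMem_erase x S)
    · have := congrFun (congrArg Prod.snd h1) p
      simpa [Function.update_of_ne hp] using this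
  · have h1 := h0 _ (k2 z hz) fun w hw => by
      rw [← hz' _ (k1 w hw), k4 z hz _ (k1 w hw)]
      exact fm_ext _ _ _ rfl (k5 _ _) rfl fun p hp => (k5 _ _ p hp).symm
    have h2 : ∀ p, p ≠ x → z.2 p = 0 := fun p hp => by
      have := congrFun (congrArg Prod.snd h1) p
      simpa [Function.update_of_ne hp] using this
    refine Prod.ext (congrArg Prod.fst h1 :) (funext fun p => ?_)
    by_cases hp : p = x
    · rw [hp, (k3 z hz).2]; exact h2 y hxy.symm
    · exact h2 p hp

theorem dg_single (e : ℕ → F) {S : Finset ℕ} {x : ℕ} (hx : x ∈ S) (a : ℕ → F) :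
    dg e S a (Pi.single x 1) = e x * a x := by
  rw [dg_apply, sum_eq_single_of_mem x hx (fun p _ hp => by simp [hp])]
  simp

/-- graphs without edges -/
theorem DD_zero (e g : ℕ → F) {I S : Finset ℕ} (hI : I ⊆ S) :
    DD 0 e g I S = (∏ p ∈ I, g p) * ∏ p ∈ S, e p := by
  have hb : ∀ a b, bet 0 S a b = 0 := fun a b => by simp [bet_apply]
  have hf : ∀ z w : Z, fm 0 e g S z w = dg g S z.1 w.1 + dg e S z.2 w.2 := fun z w => by
    rw [fm_apply, hb, hb]; ring
  by_cases h : (∀ p ∈ I, g p = 1) ∧ ∀ p ∈ S, e p = 1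
  · rw [prod_eq_one h.1, prod_eq_one h.2, mul_one]
    refine iv_pos fun z hz hz' => Prod.ext (funext fun p => ?_) (funext fun p => ?_)
    · by_cases hp : p ∈ I
      · have := hz' (Pi.single p 1, 0) ⟨single_mem hp, zero_mem _⟩
        simpa [hf, dg_single g (hI hp), h.1 p hp] using this
      · exact hz.1 p hp
    · by_cases hp : p ∈ S
      · have := hz' (0, Pi.single p 1) ⟨zero_mem _, single_mem hp⟩
        simpa [hf, dg_single e hp, h.2 p hp] using this
      · exact hz.2 p hp
  · rw [not_and_or] at h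
    rcases h with h | h
    · push Not at h
      obtain ⟨p, hp, h⟩ := h
      have h0 := (f01 _).resolve_right h
      rw [prod_eq_zero hp h0, zero_mul]
      refine iv_neg fun hn => ?_
      have := hn (Pi.single p 1, 0) ⟨single_mem hp, zero_mem _⟩ fun w _ => by
        simp [hf, dg_comm g S _ w.1, dg_single g (hI hp), h0]
      simpa using congrFun (congrArg Prod.fst this) p
    · push Not at h
      obtain ⟨p, hp, h⟩ := h
      have h0 := (f01 _).resolve_right h
      rw [prod_eq_zero hp h0, mul_zero]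
      refine iv_neg fun hn => ?_
      have := hn (0, Pi.single p 1) ⟨zero_mem _, single_mem hp⟩ fun w _ => by
        simp [hf, dg_comm e S _ w.2, dg_single e hp, h0]
      simpa using congrFun (congrArg Prod.snd this) p

end Pool.Agent.Lib.MP_d6ddbd_nt.G.Cv
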