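import Pool.Agent.Lib.MP_d6ddbd_nt.G.ConvB

/-!
The convolution identity for weighted directed graphs.
-/

open Finset Module

noncomputable section

namespace Pool.Agent.Lib.MP_d6ddbd_nt.G.Cv

theorem DD_tog_row (al : ℕ → ℕ → F) (e g : ℕ → F) {I : Finset ℕ} (S : Finset ℕ) {x : ℕ} (y : ℕ)
    (hx : x ∉ I) : DD (tog al x y) e g I S = DD al e g I S :=
  DD_congr g (fun p hp q _ _ => by
    rw [tog, if_neg (fun h : p = x ∧ q = y => hx (h.1 ▸ hp)), add_zero]) fun _ _ => rfl

theorem DD_tog_col (al : ℕ → ℕ → F) (e g : ℕ → F) (I : Finset ℕ) {S : Finset ℕ} (x : ℕ) {y : ℕ}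
    (hy : y ∉ S) : DD (tog al x y) e g I S = DD al e g I S :=
  DD_congr g (fun p _ q hq _ => by
    rw [tog, if_neg (fun h : p = x ∧ q = y => hy (h.2 ▸ hq)), add_zero]) fun _ _ => rfl

theorem cw_ne (e : ℕ → F) (x : ℕ) {y q : ℕ} (h : q ≠ y) : cw e x y q = e q := by
  rw [cw, if_neg h, add_zero]

theorem DD_con_col (al : ℕ → ℕ → F) (e g : ℕ → F) (I : Finset ℕ) {S : Finset ℕ} (x : ℕ) {y : ℕ}
    (hy : y ∉ S) : DD (con al x y) (cw e x y) g I S = DD al e g I S :=
  DD_congr g (fun p _ q hq _ => by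
    rw [con, if_neg (fun h : q = y => hy (h ▸ hq)), add_zero])
    fun q hq => cw_ne e x fun h => hy (h ▸ hq)

/-- One term of the convolution. -/
noncomputable def tm (al : ℕ → ℕ → F) (e g : ℕ → F) (T : Finset ℕ) (p : ℕ) (s : Finset ℕ) : F :=
  (1 + ∑ q ∈ s, e q) * DD al e g s s * DD al e g ((T \ s).erase p) (T \ s)

/-- The convolution identity. -/
def Main (al : ℕ → ℕ → F) (e g : ℕ → F) (T : Finset ℕ) (p : ℕ) : Prop :=
  ∑ s ∈ (T.erase p).powerset, tm al e g T p s = DD al (Pi.single p 1) 0 (T.erase p) T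

theorem main_congr {al al' : ℕ → ℕ → F} {e g : ℕ → F} {T : Finset ℕ} {p : ℕ}
    (h : ∀ x ∈ T.erase p, ∀ y ∈ T, x ≠ y → al x y = al' x y) (hm : Main al e g T p) :
    Main al' e g T p := by
  unfold Main at hm ⊢
  rw [← DD_congr 0 h fun _ _ => rfl, ← hm]
  refine sum_congr rfl fun s hs => ?_
  rw [mem_powerset] at hs
  unfold tm
  rw [DD_congr g (al := al) (al' := al') (I := s) (S := s) (e := e) (e' := e)
      (fun x hx y hy => h x (hs hx) y (mem_of_mem_erase (hs hy))) fun _ _ => rfl,
    DD_congr g (al := al) (al' := al') (I := (T \ s).erase p) (S := T \ s) (e := e) (e' := e)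
      (fun x hx y hy => h x (erase_subset_erase p sdiff_subset hx) y (sdiff_subset hy))
      fun _ _ => rfl]

theorem main_zero (e g : ℕ → F) {T : Finset ℕ} {p : ℕ} (hp : p ∈ T) (he : ∑ q ∈ T, e q = 1) :
    Main 0 e g T p := by
  unfold Main
  have h1 : ∀ s ∈ (T.erase p).powerset, tm 0 e g T p s =
      ((∏ q ∈ T.erase p, g q) * ∏ q ∈ T.erase p, e q) * (e p * (1 + ∑ q ∈ s, e q)) := by
    intro s hs
    rw [mem_powerset] at hs
    rw [tm, DD_zero e g Subset.rfl, DD_zero e g (erase_subset _ _),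
      ← mul_prod_erase (T \ s) e (mem_sdiff.2 ⟨hp, fun h => notMem_erase p T (hs h)⟩),
      ← erase_sdiff_comm, ← prod_sdiff hs, ← prod_sdiff hs]
    ring
  rw [sum_congr rfl h1, ← mul_sum, DD_zero _ _ (erase_subset _ _),
    ← mul_prod_erase T _ hp]
  rw [← add_sum_erase T e hp] at he
  rcases (T.erase p).eq_empty_or_nonempty with h | h
  · rw [h] at he ⊢
    simp only [sum_empty, add_zero] at he
    simp [he]
  · obtain ⟨x, hx⟩ := h
    rw [prod_eq_zero hx (f := (0 : ℕ → F)) rfl, zero_mul]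
    refine mul_eq_zero_of_right _ (sum_involution (fun s _ => T.erase p \ s) (fun s hs => ?_)
      (fun s hs _ h => ?_) (fun s _ => mem_powerset.2 sdiff_subset) fun s hs => ?_)
    · rw [mem_powerset] at hs
      rw [← sum_sdiff hs] at he
      have key : ∀ a b c : F, a + (b + c) = 1 → a * (1 + c) + a * (1 + b) = 0 := by decide
      exact key _ _ _ he
    · by_cases hxs : x ∈ s
      · exact (mem_sdiff.1 (h.ge hxs)).2 hxs
      · exact hxs (h.le (mem_sdiff.2 ⟨hx, hxs⟩))
    · exact Finset.sdiff_sdiff_eq_self (mem_powerset.1 hs)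

theorem main_tog {al : ℕ → ℕ → F} {e g : ℕ → F} {T : Finset ℕ} {p x y : ℕ} (hx : x ∈ T.erase p)
    (hy : y ∈ T) (hxy : x ≠ y) (h1 : Main (con al x y) (cw e x y) g (T.erase x) p)
    (h2 : Main al e g T p) : Main (tog al x y) e g T p := by
  unfold Main at h1 h2 ⊢
  have hxp := ne_of_mem_erase hx
  have hxT := mem_of_mem_erase hx
  have hR : T.erase p = insert x ((T.erase x).erase p) := by
    rw [erase_right_comm, insert_erase hx]
  have hxR : x ∉ (T.erase x).erase p := fun h => notMem_erase x T (mem_of_mem_erase h)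
  have h3 : DD (con al x y) (cw (Pi.single p 1) x y) 0 ((T.erase p).erase x) (T.erase x) =
      DD (con al x y) (Pi.single p 1) 0 ((T.erase x).erase p) (T.erase x) := by
    rw [erase_right_comm]
    exact DD_congr 0 (fun _ _ _ _ _ => rfl) fun q _ => by simp [cw, hxp]
  rw [DD_tog al _ _ (erase_subset _ _) hx hy hxy, h3, ← h1, ← h2, hR, sum_powerset_insert hxR,
    sum_powerset_insert hxR, ← sum_add_distrib, ← sum_add_distrib, ← sum_add_distrib]
  refine sum_congr rfl fun s hs => ?_
  rw [mem_powerset] at hs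
  have hxs : x ∉ s := fun h => hxR (hs h)
  have e1 : T.erase x \ s = T \ insert x s := by
    ext q; simp only [mem_sdiff, mem_erase, mem_insert]; tauto
  have hx2 : x ∉ (T \ insert x s).erase p := fun h =>
    (mem_sdiff.1 (mem_of_mem_erase h)).2 (mem_insert_self _ _)
  unfold tm
  rw [DD_tog_row al e g s y hxs, DD_tog_row al e g _ y hx2]
  by_cases hys : y ∈ s
  · have h4 := sum_cw e hxs hys (fun _ => 1) rfl
    simp only [mul_one] at h4
    rw [DD_tog_col al e g _ x (S := T \ s) (fun h => (mem_sdiff.1 h).2 hys),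
      DD_tog al e g Subset.rfl (mem_insert_self x s) (mem_insert_of_mem hys) hxy, erase_insert hxs,
      ← h4, e1, DD_con_col al e g _ x (S := T \ insert x s)
        (fun h => (mem_sdiff.1 h).2 (mem_insert_of_mem hys))]
    ring
  · have h4 : ∑ q ∈ s, cw e x y q = ∑ q ∈ s, e q :=
      sum_congr rfl fun q hq => cw_ne e x fun h => hys (h ▸ hq)
    rw [DD_tog_col al e g _ x (S := insert x s) (fun h => (mem_insert.1 h).elim hxy.symm hys),
      DD_tog al e g (erase_subset p (T \ s)) (mem_erase.2 ⟨hxp, mem_sdiff.2 ⟨hxT, hxs⟩⟩)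
        (mem_sdiff.2 ⟨hy, hys⟩) hxy, h4, DD_con_col al e g s x hys, erase_sdiff_comm,
      erase_right_comm (a := p) (b := x)]
    ring

theorem main (g : ℕ → F) (p : ℕ) (n : ℕ) : ∀ T : Finset ℕ, T.card = n → p ∈ T →
    ∀ (al : ℕ → ℕ → F) (e : ℕ → F), ∑ q ∈ T, e q = 1 → Main al e g T p := by
  induction n using Nat.strong_induction_on with
  | _ n ih =>
    intro T hT hp al e he
    have key : ∀ P : Finset (ℕ × ℕ), ∀ al : ℕ → ℕ → F,
        (∀ x ∈ T.erase p, ∀ y ∈ T, x ≠ y → (x, y) ∉ P → al x y = 0) → Main al e g T p := by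
      intro P
      induction P using Finset.induction_on with
      | empty =>
        intro al h
        exact main_congr (fun x hx y hy hxy => (h x hx y hy hxy (notMem_empty _)).symm)
          (main_zero e g hp he)
      | insert c P hc ihP =>
        intro al h
        obtain ⟨x, y⟩ := c
        by_cases h0 : x ∈ T.erase p ∧ y ∈ T ∧ x ≠ y ∧ al x y = 1
        · obtain ⟨hx, hy, hxy, h1⟩ := h0
          have hxT := mem_of_mem_erase hx
          have h2 : Main (tog al x y) e g T p := ihP _ fun x' hx' y' hy' hxy' hP => by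
            by_cases h3 : x' = x ∧ y' = y
            · rw [tog, if_pos h3, h3.1, h3.2, h1, add_self']
            · rw [tog, if_neg h3, add_zero]
              exact h x' hx' y' hy' hxy' fun h4 =>
                (mem_insert.1 h4).elim (fun h5 => h3 (Prod.ext_iff.1 h5)) hP
          have h3 := sum_cw e (notMem_erase x T) (mem_erase.2 ⟨hxy.symm, hy⟩) (fun _ => 1) rfl
          simp only [mul_one, insert_erase hxT] at h3
          refine main_congr (fun x' _ y' _ _ => ?_) (main_tog hx hy hxy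
            (ih _ (hT ▸ card_erase_lt_of_mem hxT) _ rfl
              (mem_erase.2 ⟨(ne_of_mem_erase hx).symm, hp⟩) _ _ (h3 ▸ he)) h2)
          rw [tog, tog, add_assoc, add_self', add_zero]
        · refine ihP al fun x' hx' y' hy' hxy' hP => ?_
          by_cases h3 : (x', y') = (x, y)
          · obtain ⟨rfl, rfl⟩ := Prod.ext_iff.1 h3
            exact (f01 _).resolve_right fun h4 => h0 ⟨hx', hy', hxy', h4⟩
          · exact h x' hx' y' hy' hxy' fun h4 => (mem_insert.1 h4).elim h3 hP
    exact key (T ×ˢ T) al fun x hx y hy _ h => absurd (mem_product.2 ⟨mem_of_mem_erase hx, hy⟩) h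

end Pool.Agent.Lib.MP_d6ddbd_nt.G.Cv
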