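import Pool.Agent.Lib.MP_d6ddbd_nt.G.Stmt

/-! The final statement and the computability of the criterion. -/

open Finset Filter

noncomputable section

namespace Pool.Agent.Lib.MP_d6ddbd_nt.G

/-- The criterion is computable. -/
def CompStmt : Prop := ∃ A : ℤ → Option Bool, Computable A ∧
  (∀ D, A D = some true ↔ D < 0 ∧ Squarefree D.natAbs ∧ Adm D.natAbs.primeFactors ∧
    Good D.natAbs.primeFactors) ∧
  ∀ D, A D = some false ↔ 0 < D ∧ Squarefree D.natAbs ∧ Pos D.natAbs.primeFactors ∧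
    (Ker D.natAbs.primeFactors).card = 1

/-- The final statement. -/
def FinalStmt : Prop := ∃ A : ℤ → Option Bool, Computable A ∧
  (∀ (D : ℤ) (b : Bool), A D = some b →
    ({P : ℚ × ℚ | (D : ℚ) * P.2 ^ 2 = P.1 * (P.1 + 1) * (P.1 - 16)}.Infinite ↔ b = true)) ∧
  (∀ ε : ℝ, 0 < ε → ∀ᶠ X : ℕ in atTop,
    (5 / 6 - ε) * ({n : ℕ | n ≤ X ∧ Squarefree n ∧ n % 4 = 3 ∧ n.Coprime 51 ∧
        jacobiSym 17 n = 1}.ncard : ℝ) ≤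
      ({n : ℕ | n ≤ X ∧ Squarefree n ∧ n % 4 = 3 ∧ n.Coprime 51 ∧ jacobiSym 17 n = 1 ∧
        A (-(n : ℤ)) = some true}.ncard : ℝ) ∧
    (1 / 3 - ε) * ({n : ℕ | n ≤ X ∧ Squarefree n ∧ n % 4 = 1 ∧ n.Coprime 51 ∧
        jacobiSym 17 n = 1}.ncard : ℝ) ≤
      ({n : ℕ | n ≤ X ∧ Squarefree n ∧ n % 4 = 1 ∧ n.Coprime 51 ∧ jacobiSym 17 n = 1 ∧
        A (n : ℤ) = some false}.ncard : ℝ)) ∧
  ∃ c : ℝ, 0 < c ∧ ∀ᶠ X : ℕ in atTop,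
    c * X ≤ ({n : ℕ | n ≤ X ∧ Squarefree n ∧ A (-(n : ℤ)) = some true}.ncard : ℝ) ∧
    c * X ≤ ({n : ℕ | n ≤ X ∧ Squarefree n ∧ A (n : ℤ) = some false}.ncard : ℝ)

end Pool.Agent.Lib.MP_d6ddbd_nt.G
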