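import Pool.Agent.Lib.MP_d6ddbd_nt.G.Stmt
import Pool.Agent.Lib.MP_9177b7_ag.EQ.Tight1
import Pool.Agent.Lib.MP_9177b7_ag.EQ.Div1
import Pool.Agent.Shared.PNTAP

/-! Mean values of multiplicative functions on squarefree numbers, and the density of the
classes. -/

open Finset Filter Topology

noncomputable section

namespace Pool.Agent.Lib.MP_d6ddbd_nt.G

namespace Ht

open Pool.Agent.Lib.MP_9177b7_ag.EQ Pool.Agent.Shared.PNTAP

lemma recip_div {Q r : ℕ} (hQ : 0 < Q) (hr : Nat.Coprime r Q) (C : ℝ) :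
    ∃ S : Finset ℕ, (∀ k ∈ S, k.Prime ∧ k ≡ r [MOD Q]) ∧ C ≤ ∑ k ∈ S, (1 : ℝ) / k := by
  have : NeZero Q := ⟨hQ.ne'⟩
  have hu : IsUnit (r : ZMod Q) := (ZMod.isUnit_iff_coprime r Q).2 hr
  have hφ : (0 : ℝ) < Q.totient := by exact_mod_cast Nat.totient_pos.2 hQ
  set δ : ℝ := (Q.totient : ℝ)⁻¹ with hδ
  have hδ0 : 0 < δ := inv_pos.2 hφ
  have t1 := (theta_ap_mul hu (c := 2) two_pos).sub (theta_ap hu)
  have t2 := (t1.comp (tendsto_pow_atTop_atTop_of_one_lt (r := (2 : ℝ)) one_lt_two)).eventually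
    (lt_mem_nhds (show δ / 2 < 2 * δ - δ by linarith))
  obtain ⟨i0, hi0⟩ := eventually_atTop.1 t2
  set S : ℕ → Finset ℕ := fun i =>
    (Finset.Icc 1 (2 ^ i)).filter (fun p : ℕ => p.Prime ∧ (p : ZMod Q) = r) with hS
  have hθ : ∀ i : ℕ, thetaAP (r : ZMod Q) ((2 : ℝ) ^ i) = ∑ p ∈ S i, Real.log p := by
    intro i
    rw [thetaAP, show ((2 : ℝ) ^ i) = ((2 ^ i : ℕ) : ℝ) by push_cast; rfl, Nat.floor_natCast]
  have hsub : ∀ i, S i ⊆ S (i + 1) := by
    intro i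
    apply Finset.filter_subset_filter
    apply Finset.Icc_subset_Icc_right
    exact Nat.pow_le_pow_right two_pos (Nat.le_succ i)
  have step : ∀ i ≥ i0, ∑ p ∈ S i, (1 : ℝ) / p + δ / 4 * (1 / ((i : ℝ) + 1)) ≤
      ∑ p ∈ S (i + 1), (1 : ℝ) / p := by
    intro i hi
    have h1 := hi0 i hi
    simp only [Function.comp] at h1
    have h2 : (0 : ℝ) < 2 ^ i := by positivity
    rw [← pow_succ', hθ, hθ, ← sub_div, lt_div_iff₀ h2, ← Finset.sum_sdiff (hsub i),
      add_sub_cancel_right] at h1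
    rw [← Finset.sum_sdiff (hsub i), add_comm]
    apply add_le_add_left
    have h3 : ∑ p ∈ S (i + 1) \ S i, Real.log p ≤
        ∑ p ∈ S (i + 1) \ S i, (2 * 2 ^ i * ((i : ℝ) + 1)) * (1 / p) := by
      apply Finset.sum_le_sum
      intro p hp
      have hp1 := (Finset.mem_sdiff.1 hp).1
      simp only [hS, Finset.mem_filter, Finset.mem_Icc] at hp1
      have hp0 : (0 : ℝ) < p := by exact_mod_cast hp1.1.1
      have hp2 : (p : ℝ) ≤ 2 * 2 ^ i := by
        rw [← pow_succ']; exact_mod_cast hp1.1.2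
      have hp3 : Real.log p ≤ (i : ℝ) + 1 := by
        refine (Real.log_le_log hp0 hp2).trans ?_
        rw [← pow_succ', Real.log_pow]
        push_cast
        have := Real.log_two_lt_d9
        nlinarith [Real.log_pos (show (1 : ℝ) < 2 by norm_num), (Nat.cast_nonneg i : (0 : ℝ) ≤ i)]
      rw [mul_one_div, le_div_iff₀ hp0]
      nlinarith [Real.log_natCast_nonneg p]
    rw [← Finset.mul_sum] at h3
    rw [mul_one_div, div_le_iff₀ (by positivity)]
    nlinarith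
  have ind : ∀ t : ℕ, δ / 4 * (∑ i ∈ Finset.range (i0 + t), 1 / ((i : ℝ) + 1) -
      ∑ i ∈ Finset.range i0, 1 / ((i : ℝ) + 1)) ≤ ∑ p ∈ S (i0 + t), (1 : ℝ) / p := by
    intro t
    induction t with
    | zero => simp only [add_zero, sub_self, mul_zero]; positivity
    | succ t ih =>
      have := step (i0 + t) (Nat.le_add_right _ _)
      rw [← add_assoc, Finset.sum_range_succ]
      nlinarith
  have t3 := (Real.tendsto_sum_range_one_div_nat_succ_atTop.comp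
    (tendsto_add_atTop_nat i0)).eventually_ge_atTop
      (C / (δ / 4) + ∑ i ∈ Finset.range i0, 1 / ((i : ℝ) + 1))
  obtain ⟨t, ht⟩ := t3.exists
  simp only [Function.comp] at ht
  refine ⟨S (i0 + t), fun k hk => ?_, le_trans ?_ (ind t)⟩
  · simp only [hS, Finset.mem_filter] at hk
    exact ⟨hk.2.1, (ZMod.natCast_eq_natCast_iff _ _ _).1 hk.2.2⟩
  · rw [add_comm t i0] at ht
    have h4 : C = δ / 4 * (C / (δ / 4)) := by field_simp
    rw [h4]
    apply mul_le_mul_of_nonneg_left _ (by positivity)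
    linarith

/-- The local factors of a function supported on squarefree numbers. -/
noncomputable def gl (f : ℕ → ℝ) (l k : ℕ) : ℝ := if k = 1 then f l else 0

lemma gl_nonneg {f : ℕ → ℝ} (hf : ∀ l, 0 ≤ f l) (l k : ℕ) : 0 ≤ gl f l k := by
  unfold gl
  split_ifs
  · exact hf l
  · exact le_rfl

lemma wt_gl (f : ℕ → ℝ) {n : ℕ} (hn : Squarefree n) :
    wt (gl f) n = ∏ l ∈ n.primeFactors, f l := by
  refine prod_congr rfl fun l hl => ?_
  rw [gl, if_pos]
  exact Nat.factorization_eq_one_of_squarefree hn (Nat.prime_of_mem_primeFactors hl)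
    (Nat.dvd_of_mem_primeFactors hl)

lemma Pr_floor (X : ℝ) : Pr (⌊X⌋₊ : ℕ) = Pr X := by
  rw [Pr, Pr, Nat.floor_natCast]

lemma sqf : ∃ C : ℝ, 0 ≤ C ∧ ∀ f : ℕ → ℝ, (∀ l, 0 ≤ f l) → (∀ l, f l ≤ 2) → ∀ X : ℕ,
    Real.log X * ∑ n ∈ Icc 1 X with Squarefree n, ∏ l ∈ n.primeFactors, f l ≤
      C * X * Real.exp (∑ l ∈ Pr X, f l / l) := by
  obtain ⟨C, hC, h⟩ := Tight.ht
  refine ⟨C, hC, fun f h0 h2 X => ?_⟩
  have hl : Tight.Loc (gl f) := by
    refine ⟨gl_nonneg h0, fun l k _ => ?_⟩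
    unfold gl
    split_ifs with hk
    · subst hk
      simpa using h2 l
    · positivity
  have h1 := h _ hl X
  have e : ∑ l ∈ Pr X, (gl f l 1 / l + gl f l 2 / (l : ℝ) ^ 2) = ∑ l ∈ Pr X, f l / l := by
    refine sum_congr rfl fun l _ => ?_
    simp [gl]
  rw [e] at h1
  refine le_trans (mul_le_mul_of_nonneg_left ?_ (Real.log_natCast_nonneg X)) h1
  rw [← sum_congr rfl fun n hn => wt_gl f (mem_filter.1 hn).2]
  exact sum_le_sum_of_subset_of_nonneg (filter_subset _ _) fun n _ _ =>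
    Tight.wt_nonneg (gl_nonneg h0) n

lemma mer : ∃ C : ℝ, ∀ x : ℝ, 2 ≤ x → ∑ l ∈ Pr x, 1 / (l : ℝ) ≤ Real.log (Real.log x) + C := by
  obtain ⟨C, h⟩ := Div.mertens
  refine ⟨C, fun x hx => ?_⟩
  have := (abs_le.1 (h x hx).1).2
  linarith

lemma first : ∃ C : ℝ, 0 ≤ C ∧ ∀ X : ℝ, 2 ≤ X →
    ∑ n ∈ Icc 1 ⌊X⌋₊ with Squarefree n, (3 / 4 : ℝ) ^ n.primeFactors.card ≤
      C * X / Real.log X ^ (1 / 4 : ℝ) := by
  obtain ⟨C, hC, h⟩ := sqf
  obtain ⟨D, hD⟩ := mer
  refine ⟨2 * C * Real.exp (3 / 4 * D), by positivity, fun X hX => ?_⟩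
  have h1 := h (fun _ => 3 / 4) (fun _ => by norm_num) (fun _ => by norm_num) ⌊X⌋₊
  simp only [prod_const] at h1
  rw [Pr_floor] at h1
  have hN : 2 ≤ ⌊X⌋₊ := Nat.le_floor (by exact_mod_cast hX)
  have hN0 : (2 : ℝ) ≤ ⌊X⌋₊ := by exact_mod_cast hN
  have h2 : (⌊X⌋₊ : ℝ) ≤ X := Nat.floor_le (by linarith)
  have h3 : X < ⌊X⌋₊ + 1 := Nat.lt_floor_add_one X
  have hL : 0 < Real.log X := Real.log_pos (by linarith)
  have h5 : Real.log X ≤ 2 * Real.log ⌊X⌋₊ := by
    have : Real.log X ≤ Real.log ((⌊X⌋₊ : ℝ) ^ 2) := Real.log_le_log (by linarith) (by nlinarith)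
    rw [Real.log_pow] at this
    exact_mod_cast this
  have h6 : Real.exp (∑ l ∈ Pr X, (3 / 4 : ℝ) / l) ≤
      Real.exp (3 / 4 * D) * Real.log X ^ (3 / 4 : ℝ) := by
    rw [Real.rpow_def_of_pos hL, ← Real.exp_add]
    refine Real.exp_le_exp.2 ?_
    have e : ∑ l ∈ Pr X, (3 / 4 : ℝ) / l = 3 / 4 * ∑ l ∈ Pr X, 1 / (l : ℝ) := by
      rw [mul_sum]
      exact sum_congr rfl fun l _ => by ring
    rw [e]
    have := hD X hX
    linarith
  set S := ∑ n ∈ Icc 1 ⌊X⌋₊ with Squarefree n, (3 / 4 : ℝ) ^ n.primeFactors.card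
  have hS : 0 ≤ S := sum_nonneg fun _ _ => by positivity
  have e1 : Real.log X ^ (1 / 4 : ℝ) * Real.log X ^ (3 / 4 : ℝ) = Real.log X := by
    rw [← Real.rpow_add hL]
    norm_num
  have p1 : 0 < Real.log X ^ (1 / 4 : ℝ) := Real.rpow_pos_of_pos hL _
  have p3 : 0 < Real.log X ^ (3 / 4 : ℝ) := Real.rpow_pos_of_pos hL _
  rw [le_div_iff₀ p1]
  refine le_of_mul_le_mul_right ?_ p3
  have h7 : C * (⌊X⌋₊ : ℝ) * Real.exp (∑ l ∈ Pr X, (3 / 4 : ℝ) / l) ≤
      C * X * (Real.exp (3 / 4 * D) * Real.log X ^ (3 / 4 : ℝ)) := by gcongr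
  have h8 : S * Real.log X ≤ S * (2 * Real.log ⌊X⌋₊) := mul_le_mul_of_nonneg_left h5 hS
  rw [mul_assoc, e1]
  nlinarith

lemma second : ∃ C : ℝ, 0 ≤ C ∧ ∀ X : ℝ, 2 ≤ X →
    ∑ n ∈ Icc 1 ⌊X⌋₊ with Squarefree n, (4 : ℝ) ^ n.primeFactors.card / n ≤
      C * Real.log X ^ 4 := by
  obtain ⟨D, hD⟩ := mer
  refine ⟨Real.exp (4 * D), by positivity, fun X hX => ?_⟩
  have h0 : ∀ l k, 0 ≤ gl (fun _ => 4) l k := gl_nonneg fun _ => by norm_num
  have h1 := Tight.euler _ h0 ⌊X⌋₊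
  rw [Pr_floor] at h1
  have hL : 0 < Real.log X := Real.log_pos (by linarith)
  have h2 : ∑ n ∈ Icc 1 ⌊X⌋₊ with Squarefree n, (4 : ℝ) ^ n.primeFactors.card / n ≤
      ∑ n ∈ Icc 1 ⌊X⌋₊, wt (gl fun _ => 4) n / n := by
    have e : ∀ n ∈ (Icc 1 ⌊X⌋₊).filter Squarefree,
        (4 : ℝ) ^ n.primeFactors.card / n = wt (gl fun _ => 4) n / n := fun n hn => by
      rw [wt_gl _ (mem_filter.1 hn).2, prod_const]
    rw [sum_congr rfl e]
    exact sum_le_sum_of_subset_of_nonneg (filter_subset _ _) fun n _ _ =>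
      div_nonneg (Tight.wt_nonneg h0 n) (Nat.cast_nonneg n)
  have h3 : ∀ l ∈ Pr X, ∑ k ∈ range (⌊X⌋₊ + 1),
      (if k = 0 then 1 else gl (fun _ => 4) l k / (l : ℝ) ^ k) ≤ Real.exp (4 / l) := by
    intro l _
    have e : ∀ k ∈ range (⌊X⌋₊ + 1), (if k = 0 then 1 else gl (fun _ => 4) l k / (l : ℝ) ^ k) =
        (if k = 0 then 1 else 0) + if k = 1 then (4 : ℝ) / l else 0 := by
      intro k _
      rcases k with _ | _ | k <;> simp [gl]
    rw [sum_congr rfl e, sum_add_distrib, sum_ite_eq', sum_ite_eq']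
    have p : (0 : ℝ) ≤ 4 / l := by positivity
    have := Real.add_one_le_exp ((4 : ℝ) / l)
    split_ifs <;> linarith
  have h4 := prod_le_prod (fun l _ => sum_nonneg fun k _ => by
    have := h0 l k
    split_ifs <;> positivity) h3
  rw [← Real.exp_sum] at h4
  refine h2.trans (h1.trans (h4.trans ?_))
  have e2 : Real.log X ^ 4 = Real.exp (4 * Real.log (Real.log X)) := by
    rw [show (4 : ℝ) = ((4 : ℕ) : ℝ) by norm_num, Real.exp_nat_mul, Real.exp_log hL]
  rw [e2, ← Real.exp_add]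
  refine Real.exp_le_exp.2 ?_
  have e : ∑ l ∈ Pr X, (4 : ℝ) / l = 4 * ∑ l ∈ Pr X, 1 / (l : ℝ) := by
    rw [mul_sum]
    exact sum_congr rfl fun l _ => by ring
  rw [e]
  have := hD X hX
  linarith

lemma ep_mod {n r : ℕ} (h : n ≡ r [MOD 68]) : ep n = ep r := by
  have : n % 4 = r % 4 := h.of_dvd (by norm_num)
  rw [ep, ep, this]

lemma ga_mod {n r : ℕ} (h : n ≡ r [MOD 68]) (hr : Odd r) : ga n = ga r := by
  have h2 : n % 2 = r % 2 := h.of_dvd (by norm_num)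
  have hn : Odd n := by
    rw [Nat.odd_iff] at hr ⊢
    omega
  have h3 : n % (4 * (17 : ℤ).natAbs) = r % (4 * (17 : ℤ).natAbs) := h
  rw [ga, ga, jacobiSym.mod_right 17 hn, jacobiSym.mod_right 17 hr, h3]

lemma cls (e g : ZMod 2) : ∃ r : ℕ, r.Coprime 68 ∧ Odd r ∧ ep r = e ∧ ga r = g := by
  have two : ∀ z : ZMod 2, z = 0 ∨ z = 1 := by decide
  rcases two e with rfl | rfl <;> rcases two g with rfl | rfl
  · exact ⟨1, by norm_num, by decide, by simp [ep], by simp [ga]⟩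
  · exact ⟨5, by norm_num, by decide, by simp [ep], by rw [ga, if_pos (by norm_num)]⟩
  · exact ⟨15, by norm_num, by decide, by simp [ep], by rw [ga, if_neg (by norm_num)]⟩
  · exact ⟨3, by norm_num, by decide, by simp [ep], by rw [ga, if_pos (by norm_num)]⟩

lemma third (e g : ZMod 2) (ε : ℝ) (hε : 0 < ε) : ∀ᶠ X : ℕ in atTop,
    ∑ n ∈ Icc 1 X with Squarefree n,
      (1 / 2 : ℝ) ^ (n.primeFactors.filter fun p => ep p = e ∧ ga p = g).card ≤ ε * X := by
  obtain ⟨C, hC, h⟩ := sqf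
  obtain ⟨D, hD⟩ := mer
  obtain ⟨r, hr, ho, h1, h2⟩ := cls e g
  obtain ⟨T, hT, hs⟩ := recip_div (by norm_num : 0 < 68) hr (2 * (D - Real.log (ε / (C + 1))))
  filter_upwards [eventually_ge_atTop 2, eventually_ge_atTop (T.sup id)] with X hX hTX
  have hX' : (2 : ℝ) ≤ X := by exact_mod_cast hX
  have hL : 0 < Real.log X := Real.log_pos (by linarith)
  have h3 := h (fun p => if ep p = e ∧ ga p = g then 1 / 2 else 1)
    (fun _ => by split_ifs <;> norm_num) (fun _ => by split_ifs <;> norm_num) X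
  simp only [prod_ite, prod_const, one_pow, mul_one] at h3
  have h4 : ∑ l ∈ Pr X, (if ep l = e ∧ ga l = g then (1 / 2 : ℝ) else 1) / l ≤
      Real.log (Real.log X) + Real.log (ε / (C + 1)) := by
    have sub : T ⊆ Pr X := fun k hk =>
      Tight.mem_Pr.2 ⟨(le_sup (f := id) hk).trans hTX, (hT k hk).1⟩
    have a1 : ∑ l ∈ Pr X \ T, (if ep l = e ∧ ga l = g then (1 / 2 : ℝ) else 1) / l ≤
        ∑ l ∈ Pr X \ T, 1 / (l : ℝ) := by
      refine sum_le_sum fun l _ => div_le_div_of_nonneg_right ?_ (Nat.cast_nonneg l)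
      split_ifs <;> norm_num
    have a2 : ∑ l ∈ T, (if ep l = e ∧ ga l = g then (1 / 2 : ℝ) else 1) / l =
        1 / 2 * ∑ l ∈ T, 1 / (l : ℝ) := by
      rw [mul_sum]
      refine sum_congr rfl fun l hl => ?_
      rw [if_pos ⟨(ep_mod (hT l hl).2).trans h1, (ga_mod (hT l hl).2 ho).trans h2⟩]
      ring
    have a3 := hD X hX'
    rw [← sum_sdiff sub] at a3 ⊢
    linarith
  have h5 := Real.exp_le_exp.2 h4
  rw [Real.exp_add, Real.exp_log hL, Real.exp_log (by positivity)] at h5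
  refine le_of_mul_le_mul_left (h3.trans ?_) hL
  have h6 : C * (ε / (C + 1)) ≤ ε := by
    rw [← mul_div_assoc, div_le_iff₀ (by positivity)]
    nlinarith
  calc C * X * _ ≤ C * X * (Real.log X * (ε / (C + 1))) := by gcongr
    _ = Real.log X * (C * (ε / (C + 1)) * X) := by ring
    _ ≤ _ := by gcongr

lemma sum_sym (S : Finset ℕ) (h : ∀ p ∈ S, Odd p ∧ p.Coprime 17) :
    ∑ p ∈ S, ep p = ep (∏ p ∈ S, p) ∧ ∑ p ∈ S, ga p = ga (∏ p ∈ S, p) := by
  induction S using Finset.induction_on with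
  | empty => simp [ep, ga]
  | insert a S ha ih =>
    obtain ⟨i1, i2⟩ := ih fun p hp => h p (mem_insert_of_mem hp)
    obtain ⟨a1, a2⟩ := h a (mem_insert_self a S)
    have b1 : Odd (∏ p ∈ S, p) := Nat.coprime_two_right.1
      (Nat.Coprime.prod_left fun p hp => Nat.coprime_two_right.2 (h p (mem_insert_of_mem hp)).1)
    have b2 : (∏ p ∈ S, p).Coprime 17 :=
      Nat.Coprime.prod_left fun p hp => (h p (mem_insert_of_mem hp)).2
    rw [sum_insert ha, sum_insert ha, prod_insert ha, i1, i2]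
    generalize ∏ p ∈ S, p = b at b1 b2
    constructor
    · have c1 : a % 4 = 1 ∨ a % 4 = 3 := by
        rw [Nat.odd_iff] at a1
        omega
      have c2 : b % 4 = 1 ∨ b % 4 = 3 := by
        rw [Nat.odd_iff] at b1
        omega
      rw [ep, ep, ep, Nat.mul_mod]
      rcases c1 with c1 | c1 <;> rcases c2 with c2 | c2 <;> rw [c1, c2] <;> decide
    · have c1 := jacobiSym.eq_one_or_neg_one (a := 17) (b := a) a2.symm
      have c2 := jacobiSym.eq_one_or_neg_one (a := 17) (b := b) b2.symm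
      rw [ga, ga, ga, jacobiSym.mul_right' 17 a1.pos.ne' b1.pos.ne']
      rcases c1 with c1 | c1 <;> rcases c2 with c2 | c2 <;> rw [c1, c2] <;> decide

lemma card_cong {T : Finset ℕ} {X m : ℕ} (h1 : ∀ n ∈ T, n ≤ X)
    (h2 : ∀ n ∈ T, ∀ n' ∈ T, n ≡ n' [MOD m]) : (T.card : ℝ) ≤ X / m + 1 := by
  have : T.card ≤ (range (X / m + 1)).card := by
    refine card_le_card_of_injOn (fun n => n / m) (fun n hn => ?_) fun n hn n' hn' e => ?_
    · exact mem_coe.2 (mem_range.2 (Nat.lt_succ_of_le (Nat.div_le_div_right (h1 n hn))))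
    · have e' : n / m = n' / m := e
      have := h2 n hn n' hn'
      rw [← Nat.div_add_mod n m, ← Nat.div_add_mod n' m, e', this]
  rw [card_range] at this
  have h3 : ((X / m : ℕ) : ℝ) ≤ X / m := Nat.cast_div_le
  have h4 : (T.card : ℝ) ≤ ((X / m : ℕ) : ℝ) + 1 := by exact_mod_cast this
  linarith

lemma dens {r : ℕ} (hr : r.Coprime 204) (h1 : 1 ≤ r) (h2 : r ≤ 204) {X : ℕ} (hX : 10 ^ 6 ≤ X) :
    (1 / 1000 : ℝ) * X ≤ ((Icc 1 X).filter fun n => Squarefree n ∧ n ≡ r [MOD 204]).card := by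
  set A := (Icc 1 X).filter fun n => n ≡ r [MOD 204] with hA
  set P := (Ioc 4 X.sqrt).filter fun p => p.Coprime 204 with hP
  have lo : X / 204 ≤ A.card := by
    rw [← card_range (X / 204)]
    refine card_le_card_of_injOn (fun k => 204 * k + r) (fun k hk => ?_) fun k _ k' _ e => ?_
    · have := mem_range.1 (mem_coe.1 hk)
      show 204 * k + r ∈ _
      refine mem_coe.2 (mem_filter.2 ⟨mem_Icc.2 ⟨by omega, by omega⟩, ?_⟩)
      unfold Nat.ModEq
      omega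
    · have e' : 204 * k + r = 204 * k' + r := e
      omega
  have cov : A ⊆ ((Icc 1 X).filter fun n => Squarefree n ∧ n ≡ r [MOD 204]) ∪
      P.biUnion fun p => A.filter fun n => p * p ∣ n := by
    intro n hn
    obtain ⟨n1, n2⟩ := mem_filter.1 hn
    by_cases hs : Squarefree n
    · exact mem_union_left _ (mem_filter.2 ⟨n1, hs, n2⟩)
    · rw [Nat.squarefree_iff_prime_squarefree] at hs
      push Not at hs
      obtain ⟨p, hp, hd⟩ := hs
      have nc : n.Coprime 204 := by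
        rw [Nat.Coprime, n2.gcd_eq]
        exact hr
      have pc : p.Coprime 204 := nc.coprime_dvd_left ((Dvd.intro _ rfl).trans hd)
      have n3 := mem_Icc.1 n1
      refine mem_union_right _ (mem_biUnion.2 ⟨p, mem_filter.2 ⟨mem_Ioc.2 ⟨?_, ?_⟩, pc⟩,
        mem_filter.2 ⟨hn, hd⟩⟩)
      · have := hp.two_le
        by_contra hc
        have : p ≤ 4 := by omega
        interval_cases p <;> norm_num at pc
      · exact Nat.le_sqrt.2 ((Nat.le_of_dvd (by omega) hd).trans n3.2)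
  have each : ∀ p ∈ P, ((A.filter fun n => p * p ∣ n).card : ℝ) ≤
      X / 204 * ((p : ℝ) ^ 2)⁻¹ + 1 := by
    intro p hp
    obtain ⟨p1, p2⟩ := mem_filter.1 hp
    have p3 := mem_Ioc.1 p1
    have := card_cong (T := A.filter fun n => p * p ∣ n) (X := X) (m := 204 * (p * p))
      (fun n hn => (mem_Icc.1 (mem_filter.1 (mem_filter.1 hn).1).1).2) fun n hn n' hn' => by
        obtain ⟨a1, a2⟩ := mem_filter.1 hn
        obtain ⟨b1, b2⟩ := mem_filter.1 hn'
        rw [← Nat.modEq_and_modEq_iff_modEq_mul (p2.mul_left p2).symm]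
        exact ⟨(mem_filter.1 a1).2.trans (mem_filter.1 b1).2.symm,
          (Nat.modEq_zero_iff_dvd.2 a2).trans (Nat.modEq_zero_iff_dvd.2 b2).symm⟩
    refine this.trans (le_of_eq ?_)
    push_cast
    rw [div_mul_eq_div_div, div_eq_mul_inv _ ((p : ℝ) * p), pow_two]
  have hM : 1000 ≤ X.sqrt := Nat.le_sqrt.2 (by omega)
  have hM2 : 1000 * X.sqrt ≤ X := (Nat.mul_le_mul_right _ hM).trans (Nat.sqrt_le X)
  have s1 : ∑ p ∈ P, ((p : ℝ) ^ 2)⁻¹ ≤ 1 / 4 := by
    have t1 : ∑ p ∈ P, ((p : ℝ) ^ 2)⁻¹ ≤ ∑ p ∈ Ioc 4 X.sqrt, ((p : ℝ) ^ 2)⁻¹ :=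
      sum_le_sum_of_subset_of_nonneg (filter_subset _ _) fun _ _ _ => by positivity
    have t2 := sum_Ioc_inv_sq_le_sub (α := ℝ) (k := 4) (n := X.sqrt) (by norm_num) (by omega)
    have t3 : (0 : ℝ) ≤ (X.sqrt : ℝ)⁻¹ := by positivity
    norm_num at t2 ⊢
    linarith
  have s2 : (P.card : ℝ) ≤ X.sqrt := by
    have : P.card ≤ (Ioc 4 X.sqrt).card := card_filter_le _ _
    rw [Nat.card_Ioc] at this
    exact_mod_cast this.trans (Nat.sub_le _ _)
  have s3 : ((P.biUnion fun p => A.filter fun n => p * p ∣ n).card : ℝ) ≤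
      X / 204 * (1 / 4) + X.sqrt := by
    have t1 : ((P.biUnion fun p => A.filter fun n => p * p ∣ n).card : ℝ) ≤
        ∑ p ∈ P, ((A.filter fun n => p * p ∣ n).card : ℝ) := by exact_mod_cast card_biUnion_le
    refine t1.trans ((sum_le_sum each).trans ?_)
    rw [sum_add_distrib, ← mul_sum, sum_const, nsmul_eq_mul, mul_one]
    gcongr
  have s4 : (A.card : ℝ) ≤ ((Icc 1 X).filter fun n => Squarefree n ∧ n ≡ r [MOD 204]).card +
      ((P.biUnion fun p => A.filter fun n => p * p ∣ n).card : ℝ) := by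
    exact_mod_cast (card_le_card cov).trans (card_union_le _ _)
  have s5 : (X : ℝ) ≤ 204 * A.card + 204 := by
    have : X ≤ 204 * A.card + 204 := by omega
    exact_mod_cast this
  have s6 : (1000 : ℝ) * X.sqrt ≤ X := by exact_mod_cast hM2
  have s7 : (10 : ℝ) ^ 6 ≤ X := by exact_mod_cast hX
  linarith

lemma sub_Cl {r : ℕ} (hr : r.Coprime 204) (ho : Odd r) (hg : ga r = 0) (X : ℕ) :
    ((Icc 1 X).filter fun n => Squarefree n ∧ n ≡ r [MOD 204]) ⊆ Cl (ep r) X := by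
  intro n hn
  obtain ⟨n1, hs, n2⟩ := mem_filter.1 hn
  have nc : n.Coprime 204 := by
    rw [Nat.Coprime, n2.gcd_eq]
    exact hr
  have pc : ∀ p ∈ n.primeFactors, p.Coprime 204 := fun p hp =>
    nc.coprime_dvd_left (Nat.dvd_of_mem_primeFactors hp)
  obtain ⟨e1, e2⟩ := sum_sym n.primeFactors fun p hp =>
    ⟨Nat.coprime_two_right.1 ((pc p hp).coprime_dvd_right (by norm_num)),
      (pc p hp).coprime_dvd_right (by norm_num)⟩
  rw [Nat.prod_primeFactors_of_squarefree hs] at e1 e2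
  have m : n ≡ r [MOD 68] := n2.of_dvd (by norm_num)
  classical
  unfold Cl
  rw [mem_filter]
  refine ⟨n1, hs, fun p hp => ⟨Nat.prime_of_mem_primeFactors hp, ?_, ?_, ?_⟩,
    e1.trans (ep_mod m), e2.trans ((ga_mod m ho).trans hg)⟩
  all_goals
    rintro rfl
    have := pc _ hp
    norm_num at this

end Ht

theorem ht : HtStmt := ⟨Ht.first, Ht.third⟩

theorem cl : ClStmt := by
  refine ⟨1 / 1000, by norm_num, fun e => ?_⟩
  obtain ⟨r, h1, h2, h3, h4, h5, rfl⟩ : ∃ r : ℕ, r.Coprime 204 ∧ 1 ≤ r ∧ r ≤ 204 ∧ Odd r ∧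
      ga r = 0 ∧ ep r = e := by
    have two : ∀ z : ZMod 2, z = 0 ∨ z = 1 := by decide
    rcases two e with rfl | rfl
    · exact ⟨1, by norm_num, le_rfl, by norm_num, by decide, by simp [ga], by simp [ep]⟩
    · exact ⟨103, by norm_num, by norm_num, by norm_num, by decide,
        by rw [ga, if_neg (by norm_num)], by simp [ep]⟩
  filter_upwards [eventually_ge_atTop (10 ^ 6)] with X hX
  refine (Ht.dens h1 h2 h3 hX).trans ?_
  exact_mod_cast card_le_card (Ht.sub_Cl h1 h4 h5 X)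

end Pool.Agent.Lib.MP_d6ddbd_nt.G
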