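import Pool.Agent.Lib.MP_d6ddbd_nt.G.Stmt

/-! The abstract induction on the number of primes. -/

open Finset

noncomputable section

namespace Pool.Agent.Lib.MP_d6ddbd_nt.G.IndAux

/-- The subsets with positive split discriminant. -/
noncomputable def AA (S : Finset ℕ) : Finset (Finset ℕ) :=
  S.powerset.filter fun e => ∑ q ∈ e, ep q = 0 ∧ ∑ q ∈ e, ga q = 0

/-- The data of the induction. -/
structure Core (M : Type) [AddCommGroup M] [Module ℚ M] where
  D : Finset ℕ → AddSubgroup (M × (ℕ → ZMod 2))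
  P : Finset ℕ → Finset ℕ → M
  c : Finset ℕ → ℚ
  scal : ∀ S m μ (u n : ℤ), Odd n → (m, μ) ∈ D S → (((u : ℚ) / n) • m, (u : ZMod 2) • μ) ∈ D S
  mono : ∀ S S' m μ, S' ⊆ S → (m, μ) ∈ D S' → (∀ p ∉ S', μ p = 0) → (m, μ) ∈ D S
  congr : ∀ S m μ μ', (m, μ) ∈ D S → (∀ p ∈ S, μ p = μ' p) → (m, μ') ∈ D S
  tors : ∀ S μ, Prs S → (0, μ) ∈ D S → ∀ p ∈ S, μ p = 0
  sel : ∀ S (r : ℚ) μ, Adm S → (r • P S ∅, μ) ∈ D S → ∃ b, Sys S μ b
  gen : ∀ S, Adm S → ((4 / 2 ^ S.card : ℚ) • ∑ e ∈ AA S, P S e, fun _ => gT S) ∈ D S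
  gkz : ∀ S, Adm S → ∀ e ∈ AA S, ∃ s : ℤ, (s = 1 ∨ s = -1) ∧ P S e = (s * c e) • P (S \ e) ∅
  split : ∀ S, Adm S → (∀ p ∈ S, ga p = 0) → ∀ p₁ ∈ S, ∀ p₂ ∈ S, p₁ ≠ p₂ → ∃ δ : M →ₗ[ℚ] M,
    (∀ m μ, (m, μ) ∈ D S → (δ m, 0) ∈ D S) ∧
    (δ ((2 / 2 ^ S.card : ℚ) • ∑ e ∈ AA S, P S e), 0) ∈ D S ∧ δ (P S ∅) = 0 ∧
    ∀ p ∈ S, Adm {p} → δ (P {p} ∅) = (if p = p₁ ∨ p = p₂ then 2 else 0 : ℚ) • P {p} ∅

theorem z2 (z : ZMod 2) : z = 0 ∨ z = 1 := by revert z; decide

theorem zz (z : ZMod 2) : z + z = 0 := by revert z; decide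

theorem odd_cast {n : ℤ} (h : Odd n) : (n : ZMod 2) = 1 := by
  obtain ⟨k, rfl⟩ := h
  push_cast
  rw [show (2 : ZMod 2) = 0 from rfl]
  ring

theorem mem_AA {S e : Finset ℕ} : e ∈ AA S ↔ e ⊆ S ∧ ∑ q ∈ e, ep q = 0 ∧ ∑ q ∈ e, ga q = 0 := by
  simp [AA]

theorem empty_mem_AA (S : Finset ℕ) : ∅ ∈ AA S := by simp [mem_AA]

theorem pos_of_AA {S e : Finset ℕ} (h : Adm S) (he : e ∈ AA S) : Pos e :=
  ⟨fun p hp => h.1 p ((mem_AA.1 he).1 hp), (mem_AA.1 he).2⟩

theorem adm_sdiff {S e : Finset ℕ} (h : Adm S) (he : e ∈ AA S) : Adm (S \ e) := by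
  obtain ⟨h1, h2, h3⟩ := mem_AA.1 he
  refine ⟨fun p hp => h.1 p (mem_sdiff.1 hp).1, ?_, ?_⟩
  · have := sum_sdiff (f := ep) h1
    rw [h2, add_zero, h.2.1] at this
    exact this
  · have := sum_sdiff (f := ga) h1
    rw [h3, add_zero, h.2.2] at this
    exact this

theorem card_lt {S e : Finset ℕ} (h : Adm S) (he : e ∈ AA S) : e.card < S.card := by
  refine card_lt_card (Finset.ssubset_iff_subset_ne.2 ⟨(mem_AA.1 he).1, ?_⟩)
  rintro rfl
  have := (mem_AA.1 he).2.1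
  rw [h.2.1] at this
  exact one_ne_zero this

/-- Clearing denominators. -/
theorem clear {ι : Type} (s : Finset ι) (r : ι → ℚ) : ∃ (k : ℕ) (N : ℤ) (a : ι → ℤ), Odd N ∧
    (∀ i ∈ s, (a i : ℚ) = N * 2 ^ k * r i) ∧ (k = 0 ∨ ∃ i ∈ s, Odd (a i)) := by
  classical
  have ex : ∃ k : ℕ, ∃ (N : ℤ) (a : ι → ℤ), Odd N ∧ ∀ i ∈ s, (a i : ℚ) = N * 2 ^ k * r i := by
    obtain ⟨k, N, hN, e⟩ := Nat.exists_eq_two_pow_mul_odd (n := ∏ i ∈ s, (r i).den)
      (prod_ne_zero_iff.2 fun i _ => (r i).den_nz)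
    refine ⟨k, N, fun i => (∏ j ∈ s.erase i, (r j).den : ℕ) * (r i).num, by exact_mod_cast hN,
      fun i hi => ?_⟩
    have e1 : ((N : ℤ) : ℚ) * 2 ^ k = (∏ j ∈ s.erase i, (r j).den : ℕ) * (r i).den := by
      rw [← prod_erase_mul _ _ hi] at e
      rw [← Nat.cast_mul, e]
      push_cast
      ring
    rw [e1, mul_assoc, Rat.den_mul_eq_num]
    push_cast
    ring
  obtain ⟨N, a, hN, ha⟩ := Nat.find_spec ex
  refine ⟨_, N, a, hN, ha, ?_⟩
  by_contra hc
  push Not at hc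
  obtain ⟨k, hk⟩ := Nat.exists_eq_succ_of_ne_zero hc.1
  refine Nat.find_min ex (m := k) (by omega) ⟨N, fun i => a i / 2, hN, fun i hi => ?_⟩
  obtain ⟨b, hb⟩ := Int.not_odd_iff_even.1 (hc.2 i hi)
  have h1 := ha i hi
  rw [hk, hb, pow_succ] at h1
  have : a i / 2 = b := by omega
  simp only [this]
  push_cast at h1
  linarith

variable {M : Type} [AddCommGroup M] [Module ℚ M] (C : Core M)

/-- The claim on the constants. -/
def ClA (e : Finset ℕ) : Prop :=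
  ∃ u n : ℤ, Odd n ∧ (u : ZMod 2) = sS e ∧ C.c e = 2 ^ e.card * (u / n)

/-- The claim on the points. -/
def ClB (S : Finset ℕ) : Prop := ((4 / 2 ^ S.card : ℚ) • C.P S ∅, lam S) ∈ C.D S

theorem term_eq {S e : Finset ℕ} (he : e ∈ AA S) (x : ℚ) (m : M) :
    (4 / 2 ^ S.card : ℚ) • x • m = (x / 2 ^ e.card) • (4 / 2 ^ (S \ e).card : ℚ) • m := by
  rw [smul_smul, smul_smul, ← card_sdiff_add_card_eq_card (mem_AA.1 he).1, pow_add]
  congr 1
  field_simp

theorem lift (hK : KerStmt) {S e : Finset ℕ} (hB : ClB C (S \ e)) :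
    ((4 / 2 ^ (S \ e).card : ℚ) • C.P (S \ e) ∅, lam (S \ e)) ∈ C.D S :=
  C.mono _ _ _ _ sdiff_subset hB (hK.2.1 _)

theorem term_mem (hK : KerStmt) {S e : Finset ℕ} (h : Adm S) (he : e ∈ AA S) (hA : ClA C e)
    (hB : ClB C (S \ e)) :
    ((4 / 2 ^ S.card : ℚ) • C.P S e, sS e • lam (S \ e)) ∈ C.D S := by
  obtain ⟨s, hs, e1⟩ := C.gkz S h e he
  obtain ⟨u, n, hn, hu, e2⟩ := hA
  have := C.scal _ _ _ (s * u) n hn (lift C hK hB)
  have a1 : ((s * u : ℤ) : ZMod 2) = sS e := by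
    rcases hs with rfl | rfl
    · simpa using hu
    · rw [neg_mul, one_mul, Int.cast_neg, hu, ZMod.neg_eq_self_mod_two]
  have a2 : ((s * u : ℤ) : ℚ) / n = s * C.c e / 2 ^ e.card := by
    rw [e2]
    push_cast
    field_simp
  rwa [a1, a2, ← term_eq he, ← e1] at this

theorem half_mem (hK : KerStmt) {S e : Finset ℕ} (h : Adm S) (he : e ∈ AA S) (hA : ClA C e)
    (h0 : sS e = 0) (hB : ClB C (S \ e)) :
    ∃ μ, ((2 / 2 ^ S.card : ℚ) • C.P S e, μ) ∈ C.D S := by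
  obtain ⟨s, hs, e1⟩ := C.gkz S h e he
  obtain ⟨u, n, hn, hu, e2⟩ := hA
  rw [h0, ZMod.intCast_zmod_eq_zero_iff_dvd] at hu
  obtain ⟨v, rfl⟩ := hu
  refine ⟨_, (congrArg (fun m => (m, _) ∈ C.D S) ?_).mpr
    (C.scal _ _ _ (s * v) n hn (lift C hK hB))⟩
  rw [e1, e2, smul_smul, smul_smul, ← card_sdiff_add_card_eq_card (mem_AA.1 he).1, pow_add]
  congr 1
  push_cast
  field_simp
  ring

theorem conv' (hK : KerStmt) (hC : ConvStmt) {S : Finset ℕ} (h : Adm S) {p : ℕ} (hp : p ∈ S) :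
    gT S - ∑ e ∈ (AA S).erase ∅, sS e * lam (S \ e) p = lam S p := by
  have := hC S h p hp
  change ∑ e ∈ AA S, _ = _ at this
  rw [← add_sum_erase _ _ (empty_mem_AA S), hK.2.2.2.2.1, one_mul, sdiff_empty] at this
  rw [← this]
  ring

theorem clB (hK : KerStmt) (hC : ConvStmt) (n : ℕ)
    (hA : ∀ e, Pos e → e.Nonempty → e.card < n → ClA C e) :
    ∀ (k : ℕ) (S : Finset ℕ), S.card = k → Adm S → S.card ≤ n → ClB C S := by
  intro k
  induction k using Nat.strong_induction_on with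
  | _ k ih =>
  intro S hk h hn
  have h1 : (∑ e ∈ (AA S).erase ∅, ((4 / 2 ^ S.card : ℚ) • C.P S e, sS e • lam (S \ e))) ∈ C.D S := by
    refine sum_mem fun e he => ?_
    obtain ⟨he0, he⟩ := mem_erase.1 he
    have hne := nonempty_iff_ne_empty.2 he0
    have c1 := card_sdiff_add_card_eq_card (mem_AA.1 he).1
    have c2 := hne.card_pos
    exact term_mem C hK h he (hA e (pos_of_AA h he) hne ((card_lt h he).trans_le hn))
      (ih _ (by omega) _ rfl (adm_sdiff h he) (by omega))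
  have h2 := sub_mem (C.gen S h) h1
  rw [← prod_mk_sum, Prod.mk_sub_mk, ← smul_sum, ← smul_sub,
    ← add_sum_erase _ _ (empty_mem_AA S), add_sub_cancel_right] at h2
  refine C.congr _ _ _ _ h2 fun p hp => ?_
  simpa [Finset.sum_apply] using conv' hK hC h hp

/-- The sets with one prime missing. -/
theorem big {S e : Finset ℕ} (h : Adm S) (he : e ∈ AA S) (hc : e.card + 1 = S.card) :
    ∃ p, S \ e = {p} ∧ ep p = 1 ∧ ga p = 0 := by
  obtain ⟨p, hp⟩ := card_eq_one.1 (show (S \ e).card = 1 by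
    have := card_sdiff_add_card_eq_card (mem_AA.1 he).1
    omega)
  have := adm_sdiff h he
  rw [hp] at this
  exact ⟨p, hp, by simpa using this.2.1, by simpa using this.2.2⟩

theorem eval_big (hK : KerStmt) {S : Finset ℕ} (h : Adm S) {B : Finset (Finset ℕ)}
    (hB : ∀ e ∈ B, e ∈ AA S ∧ e.card + 1 = S.card) (z : Finset ℕ → ZMod 2)
    (hz : ∀ p ∈ S, ∑ e ∈ B, z e * lam (S \ e) p = 0) : ∀ e ∈ B, z e = 0 := by
  intro e he
  obtain ⟨p, hp, h1, h2⟩ := big h (hB e he).1 (hB e he).2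
  have hpS : p ∈ S := (mem_sdiff.1 (hp ▸ mem_singleton_self p : p ∈ S \ e)).1
  have := hz p hpS
  rw [sum_eq_single_of_mem e he fun e' he' hne => ?_, hp, (hK.2.2.2.2.2.1 p h1 h2).1,
    mul_one] at this
  · exact this
  · obtain ⟨p', hp', -⟩ := big h (hB e' he').1 (hB e' he').2
    rw [hK.2.1 _ p fun hm => hne ?_, mul_zero]
    rw [hp', mem_singleton] at hm
    subst hm
    rw [← Finset.sdiff_sdiff_eq_self (mem_AA.1 (hB e he).1).1,
      ← Finset.sdiff_sdiff_eq_self (mem_AA.1 (hB e' he').1).1, hp, hp']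

theorem sys_add {S : Finset ℕ} {a b a' b' : ℕ → ZMod 2} (h : Sys S a b) (h' : Sys S a' b') :
    Sys S (a + a') (b + b') := fun p hp => by
  obtain ⟨h1, h2⟩ := h p hp
  obtain ⟨h3, h4⟩ := h' p hp
  simp only [Pi.add_apply]
  constructor
  · rw [show ep p * (a p + a' p + (b p + b' p)) = ep p * (a p + b p) + ep p * (a' p + b' p) by ring,
      ← h1, ← h3, ← sum_add_distrib]
    exact sum_congr rfl fun q _ => by ring
  · rw [mul_add, ← h2, ← h4, ← sum_add_distrib]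
    exact sum_congr rfl fun q _ => by ring

theorem sys_congr {S : Finset ℕ} {a b a' : ℕ → ZMod 2} (h : Sys S a b) (e : ∀ p ∈ S, a p = a' p) :
    Sys S a' b := fun p hp => by
  obtain ⟨h1, h2⟩ := h p hp
  rw [← e p hp, ← h1, ← h2]
  exact ⟨sum_congr rfl fun q hq => by rw [e q hq], rfl⟩

theorem scal1 {S : Finset ℕ} {m : M} {μ : ℕ → ZMod 2} (u : ℤ) (h : (m, μ) ∈ C.D S) :
    ((u : ℚ) • m, (u : ZMod 2) • μ) ∈ C.D S := by
  simpa using C.scal S m μ u 1 odd_one h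

theorem clA (hK : KerStmt) (hC : ConvStmt) (hX : AuxStmt) {e : Finset ℕ} (he : Pos e)
    (hne : e.Nonempty) (hA : ∀ e', Pos e' → e'.Nonempty → e'.card < e.card → ClA C e') :
    ClA C e := by
  classical
  obtain ⟨q, hq, -, -, h, hg⟩ := hX e he
  set S := insert q e with hS
  have hc : e.card + 1 = S.card := (card_insert_of_notMem hq).symm
  have heA : e ∈ AA S := mem_AA.2 ⟨subset_insert _ _, he.2⟩
  have hB : ∀ T, Adm T → T.card ≤ e.card → ClB C T := fun T => clB C hK hC _ hA _ T rfl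
  set B := ((AA S).erase ∅).filter fun x => x.card + 1 = S.card with hBd
  set L := ((AA S).erase ∅).filter fun x => ¬ x.card + 1 = S.card with hLd
  have mB : ∀ x ∈ B, x ∈ AA S ∧ x.card + 1 = S.card := fun x hx =>
    ⟨(mem_erase.1 (mem_filter.1 hx).1).2, (mem_filter.1 hx).2⟩
  have heB : e ∈ B := mem_filter.2 ⟨mem_erase.2 ⟨hne.ne_empty, heA⟩, hc⟩
  have bB : ∀ x ∈ (AA S).erase ∅, ClB C (S \ x) := fun x hx => by
    obtain ⟨h0, h1⟩ := mem_erase.1 hx
    have c1 := card_sdiff_add_card_eq_card (mem_AA.1 h1).1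
    have c2 := (nonempty_iff_ne_empty.2 h0).card_pos
    exact hB _ (adm_sdiff h h1) (by omega)
  have aL : ∀ x ∈ L, x ∈ AA S ∧ x.Nonempty ∧ ClA C x ∧ ClB C (S \ x) := fun x hx => by
    obtain ⟨h0, h2⟩ := mem_filter.1 hx
    obtain ⟨h3, h1⟩ := mem_erase.1 h0
    have := card_lt h h1
    have h4 := nonempty_iff_ne_empty.2 h3
    exact ⟨h1, h4, hA x (pos_of_AA h h1) h4 (by omega), bB x h0⟩
  have spl : ∀ {β : Type} [AddCommMonoid β] (f : Finset ℕ → β),
      ∑ x ∈ (AA S).erase ∅, f x = ∑ x ∈ B, f x + ∑ x ∈ L, f x := fun f =>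
    (sum_filter_add_sum_filter_not _ _ f).symm
  have spl' : ∑ x ∈ AA S, C.P S x = C.P S ∅ + ∑ x ∈ B, C.P S x + ∑ x ∈ L, C.P S x := by
    rw [← add_sum_erase _ _ (empty_mem_AA S), spl, add_assoc]
  choose! s hs hP using C.gkz S h
  set v : Finset ℕ → M := fun x => (4 / 2 ^ (S \ x).card : ℚ) • C.P (S \ x) ∅ with hv
  set r : Finset ℕ → ℚ := fun x => s x * C.c x / 2 ^ x.card with hr
  have hPr : ∀ x ∈ B, (4 / 2 ^ S.card : ℚ) • C.P S x = r x • v x := fun x hx => by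
    rw [hP x (mB x hx).1, term_eq (mB x hx).1]
  have hav : ∀ a : Finset ℕ → ℤ, (∑ x ∈ B, (a x : ℚ) • v x,
      ∑ x ∈ B, (a x : ZMod 2) • lam (S \ x)) ∈ C.D S := fun a => by
    rw [prod_mk_sum]
    exact sum_mem fun x hx => scal1 C _ (lift C hK (bB x (mem_filter.1 hx).1))
  have fin : ∀ u N : ℤ, Odd N → (u : ZMod 2) = sS e → (u : ℚ) = N * r e → ClA C e := by
    intro u N hN hu e1
    have hN0 : (N : ℚ) ≠ 0 := by
      have : N ≠ 0 := by rintro rfl; simp at hN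
      exact_mod_cast this
    rcases hs e heA with h1 | h1
    · refine ⟨u, N, hN, hu, ?_⟩
      rw [e1, hr]
      simp only [h1]
      field_simp
      simp
    · refine ⟨-u, N, hN, by rw [Int.cast_neg, hu, ZMod.neg_eq_self_mod_two], ?_⟩
      rw [Int.cast_neg, e1, hr]
      simp only [h1]
      field_simp
      simp
  by_cases hin : ∃ p ∈ S, ga p = 1
  · have kill : ∀ (z : Finset ℕ → ZMod 2) (b : ℕ → ZMod 2),
        Sys S (fun p => ∑ x ∈ B, z x * lam (S \ x) p) b → ∀ x ∈ B, z x = 0 := by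
      intro z b hb
      refine eval_big hK h mB z (hK.2.2.2.2.2.2 S _ b h hg hin hb fun p _ => ?_)
      rw [mul_sum]
      refine sum_eq_zero fun x hx => ?_
      obtain ⟨p', h1, -, h2⟩ := big h (mB x hx).1 (mB x hx).2
      by_cases hp : p = p'
      · rw [hp, h2, zero_mul]
      · rw [hK.2.1 _ p (by rw [h1]; simpa using hp), mul_zero, mul_zero]
    have h1 : (∑ x ∈ L, ((4 / 2 ^ S.card : ℚ) • C.P S x, sS x • lam (S \ x))) ∈ C.D S :=
      sum_mem fun x hx => term_mem C hK h (aL x hx).1 (aL x hx).2.2.1 (aL x hx).2.2.2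
    have h2 := sub_mem (C.gen S h) h1
    rw [← prod_mk_sum, Prod.mk_sub_mk, ← smul_sum, ← smul_sub, spl', add_sub_cancel_right,
      smul_add, smul_sum, sum_congr rfl hPr] at h2
    obtain ⟨k, N, a, hN, ha, hk⟩ := clear B r
    have h3 := sub_mem (scal1 C (N * 2 ^ k) h2) (hav a)
    have e3 : ∑ x ∈ B, (a x : ℚ) • v x = ((N * 2 ^ k : ℤ) : ℚ) • ∑ x ∈ B, r x • v x := by
      rw [smul_sum]
      refine sum_congr rfl fun x hx => ?_
      rw [ha x hx, ← mul_smul _ (r x)]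
      push_cast
      rfl
    rw [Prod.mk_sub_mk, e3, smul_add, add_sub_cancel_right, smul_smul] at h3
    obtain ⟨b, hb⟩ := C.sel S _ _ h h3
    rcases Nat.eq_zero_or_pos k with rfl | hk0
    · obtain ⟨b', hb'⟩ := hK.1 S
      have := kill (fun x => a x + sS x) _ (sys_congr (sys_add hb hb') fun p hp => by
        rw [Pi.add_apply, ← conv' hK hC h hp, spl]
        simp only [pow_zero, mul_one, odd_cast hN, one_smul, Pi.sub_apply, Finset.sum_apply,
          Pi.smul_apply, smul_eq_mul, add_mul, sum_add_distrib]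
        simp only [sub_eq_add_neg, ZMod.neg_eq_self_mod_two]
        linear_combination zz (gT S) + zz (∑ x ∈ L, sS x * lam (S \ x) p)) e heB
      refine fin (a e) N hN ?_ (by simpa using ha e heB)
      linear_combination this - zz (sS e)
    · obtain ⟨x, hx, ho⟩ := hk.resolve_left hk0.ne'
      have e4 : ((N * 2 ^ k : ℤ) : ZMod 2) = 0 := by
        push_cast
        rw [show (2 : ZMod 2) = 0 from rfl, zero_pow hk0.ne', mul_zero]
      have := kill (fun x => a x) _ (sys_congr hb fun p hp => by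
        simp [e4, Finset.sum_apply, ZMod.neg_eq_self_mod_two]) x hx
      rw [odd_cast ho] at this
      exact absurd this one_ne_zero
  · have hsp : ∀ p ∈ S, ga p = 0 := fun p hp => (z2 _).resolve_right fun h1 => hin ⟨p, hp, h1⟩
    obtain ⟨p₂, hp₂⟩ := hne
    obtain ⟨δ, d1, d2, d3, d4⟩ := C.split S h hsp q (mem_insert_self _ _) p₂
      (mem_insert_of_mem hp₂) (by rintro rfl; exact hq hp₂)
    have h1 : (∑ x ∈ L, (δ ((2 / 2 ^ S.card : ℚ) • C.P S x), (0 : ℕ → ZMod 2))) ∈ C.D S := by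
      refine sum_mem fun x hx => ?_
      obtain ⟨x1, x2, x3, x4⟩ := aL x hx
      obtain ⟨μ, hμ⟩ := half_mem C hK h x1 x3
        (hK.2.2.2.1 x x2 fun p hp => hsp p ((mem_AA.1 x1).1 hp)) x4
      exact d1 _ _ hμ
    set w : Finset ℕ → ℚ := fun x => if q ∈ S \ x ∨ p₂ ∈ S \ x then r x else 0 with hw
    have e1 : ∀ x ∈ B, δ ((2 / 2 ^ S.card : ℚ) • C.P S x) = w x • v x := fun x hx => by
      obtain ⟨p, h1, -⟩ := big h (mB x hx).1 (mB x hx).2
      have hpS : p ∈ S := (mem_sdiff.1 (h1 ▸ mem_singleton_self p : p ∈ S \ x)).1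
      have h2 : (2 / 2 ^ S.card : ℚ) = 1 / 2 * (4 / 2 ^ S.card) := by ring
      rw [h2, mul_smul, hPr x hx, hv, hw]
      simp only [map_smul, h1, d4 p hpS (h1 ▸ adm_sdiff h (mB x hx).1), mem_singleton, smul_smul,
        eq_comm (a := p)]
      split_ifs
      · congr 1
        ring
      · simp
    have h2 := sub_mem d2 h1
    rw [← prod_mk_sum, Prod.mk_sub_mk, ← map_sum, ← smul_sum, ← map_sub, ← smul_sub, spl',
      add_sub_cancel_right, smul_add, map_add, map_smul, d3, smul_zero, zero_add, smul_sum, map_sum,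
      sum_congr rfl e1, sum_const_zero, sub_zero] at h2
    obtain ⟨k, N, a, hN, ha, hk⟩ := clear B fun x => w x / 2
    rcases k with _ | j
    · refine fin (2 * a e) N hN ?_ ?_
      · rw [hK.2.2.2.1 e ⟨p₂, hp₂⟩ fun p hp => hsp p (mem_insert_of_mem hp)]
        push_cast
        rw [show (2 : ZMod 2) = 0 from rfl, zero_mul]
      · have := ha e heB
        have e2 : w e = r e := if_pos (Or.inl (mem_sdiff.2 ⟨mem_insert_self q e, hq⟩))
        rw [e2] at this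
        push_cast
        rw [this]
        ring
    · obtain ⟨x, hx, ho⟩ := hk.resolve_left (Nat.succ_ne_zero j)
      have h3 := sub_mem (scal1 C (N * 2 ^ j) h2) (hav a)
      have e3 : ∑ x ∈ B, (a x : ℚ) • v x = ((N * 2 ^ j : ℤ) : ℚ) • ∑ x ∈ B, w x • v x := by
        rw [smul_sum]
        refine sum_congr rfl fun x hx => ?_
        rw [ha x hx, ← mul_smul _ (w x)]
        congr 1
        push_cast
        ring
      rw [Prod.mk_sub_mk, e3, sub_self] at h3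
      have := eval_big hK h mB (fun x => a x) (fun p hp => by
        simpa [Finset.sum_apply] using C.tors S _ h.1 h3 p hp) x hx
      rw [odd_cast ho] at this
      exact absurd this one_ne_zero

theorem ne_zero (hK : KerStmt) (hC : ConvStmt) (hX : AuxStmt) {S : Finset ℕ} (h : Adm S)
    (hg : Good S) : C.P S ∅ ≠ 0 := by
  have hA : ∀ (n : ℕ) (e : Finset ℕ), Pos e → e.Nonempty → e.card < n → ClA C e := by
    intro n
    induction n with
    | zero => exact fun _ _ _ h => absurd h (Nat.not_lt_zero _)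
    | succ n ih => exact fun e h1 h2 h3 => clA C hK hC hX h1 h2 fun e' a b c => ih e' a b (by omega)
  intro h0
  have := clB C hK hC _ (hA S.card) _ S rfl h le_rfl
  rw [ClB, h0, smul_zero] at this
  obtain ⟨p, hp, h1⟩ := hK.2.2.1 S hg
  rw [C.tors S _ h.1 this p hp] at h1
  exact zero_ne_one h1

end Pool.Agent.Lib.MP_d6ddbd_nt.G.IndAux
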