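import Pool.Agent.Lib.MP_d6ddbd_nt.G.Stmt

/-! From isotypic points of the curve to rational points of the twist. -/

open Finset WeierstrassCurve

noncomputable section

namespace Pool.Agent.Lib.MP_d6ddbd_nt.G

namespace SelAux

theorem z2 (z : ZMod 2) : z = 0 ∨ z = 1 := by revert z; decide

theorem sg_add (a b : ZMod 2) : sg (a + b) = sg a * sg b := by revert a b; decide

theorem sg_sq (a : ZMod 2) : sg a * sg a = 1 := by revert a; decide

theorem sg_sum (s : Finset ℕ) (f : ℕ → ZMod 2) : sg (∑ p ∈ s, f p) = ∏ p ∈ s, sg (f p) := by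
  induction s using Finset.induction_on with
  | empty => simp [sg]
  | insert a s ha ih => rw [sum_insert ha, prod_insert ha, sg_add, ih]

theorem map_rt (hF : FieldStmt) (σ : ℂ ≃+* ℂ) (s : Finset ℕ) :
    σ (∏ p ∈ s, sq p) = (sg (∑ p ∈ s, sgn σ p) : ℂ) * ∏ p ∈ s, sq p := by
  rw [map_prod, sg_sum]
  push_cast
  rw [← prod_mul_distrib]
  exact prod_congr rfl fun p _ => hF.2.1 σ p

theorem rt_sq (hF : FieldStmt) (s : Finset ℕ) : (∏ p ∈ s, sq p) ^ 2 = (dsc s : ℂ) := by
  rw [← prod_pow, dsc]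
  push_cast
  exact prod_congr rfl fun p _ => hF.1 p

theorem ps_ne {p : ℕ} (hp : p.Prime) : ps p ≠ 0 := by
  have := hp.pos
  unfold ps
  split_ifs <;> omega

theorem dsc_ne {s : Finset ℕ} (hs : ∀ p ∈ s, p.Prime) : dsc s ≠ 0 :=
  prod_ne_zero_iff.2 fun p hp => ps_ne (hs p hp)

theorem rt_ne (hF : FieldStmt) {s : Finset ℕ} (hs : ∀ p ∈ s, p.Prime) : ∏ p ∈ s, sq p ≠ 0 := by
  intro h
  have := rt_sq hF s
  rw [h] at this
  exact dsc_ne hs (by exact_mod_cast (by simpa using this.symm : (dsc s : ℂ) = 0))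

theorem sgn_refl (p : ℕ) : sgn (RingEquiv.refl ℂ) p = 0 := by
  simp [sgn]

theorem some_eq {x y x' y' : ℂ} {h : (W17.toAffine.baseChange ℂ).Nonsingular x y}
    {h' : (W17.toAffine.baseChange ℂ).Nonsingular x' y'} (hx : x = x') (hy : y = y') :
    (Affine.Point.some x y h : Pt) = .some x' y' h' := by
  subst hx hy
  rfl

theorem negY_eq (x y : ℂ) : (W17.toAffine.baseChange ℂ).negY x y = -y := by
  simp [Affine.negY, W17]

/-- The point of order two. -/
noncomputable def T2 : Pt := .some 0 0 ((ns_iff _ _).2 (by norm_num))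

theorem two_T0 : (2 : ℤ) • T0 = T2 := by
  have hy : (136 : ℂ) ≠ (W17.toAffine.baseChange ℂ).negY 17 136 := by
    rw [negY_eq]; norm_num
  have hs : (W17.toAffine.baseChange ℂ).slope 17 17 136 136 = 8 := by
    rw [Affine.slope_of_Y_ne rfl hy, negY_eq]
    simp [W17]
    norm_num
  rw [two_zsmul, T0, T2, Affine.Point.add_self_of_Y_ne hy]
  refine some_eq ?_ ?_
  · rw [hs]
    simp [Affine.addX, W17]
    norm_num
  · rw [hs]
    simp [Affine.addY, Affine.negAddY, Affine.addX, Affine.negY, W17]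
    norm_num

theorem add_T2 {x y : ℂ} (h : (W17.toAffine.baseChange ℂ).Nonsingular x y) (hx : x ≠ 0) :
    ∃ h', (Affine.Point.some x y h : Pt) + T2 = .some (289 / x) (-289 * y / x ^ 2) h' := by
  have e := (ns_iff _ _).1 h
  have h' : (W17.toAffine.baseChange ℂ).Nonsingular (289 / x) (-289 * y / x ^ 2) := by
    rw [ns_iff]
    field_simp
    linear_combination e
  refine ⟨h', ?_⟩
  have hs : (W17.toAffine.baseChange ℂ).slope x 0 y 0 = y / x := by
    rw [Affine.slope_of_X_ne hx]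
    simp
  have hX : (W17.toAffine.baseChange ℂ).addX x 0 (y / x) = 289 / x := by
    simp [Affine.addX, W17]
    field_simp
    linear_combination e
  rw [T2, Affine.Point.add_of_X_ne hx]
  refine some_eq ?_ ?_
  · rw [hs, hX]
  · rw [hs, Affine.addY, negY_eq, Affine.negAddY, hX]
    field_simp
    ring

theorem sg_smul {x y : ℂ} (h : (W17.toAffine.baseChange ℂ).Nonsingular x y) (z : ZMod 2) :
    ∃ h', sg z • (Affine.Point.some x y h : Pt) = .some x (sg z * y) h' := by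
  rcases z2 z with rfl | rfl
  · have : sg 0 = 1 := rfl
    rw [this]
    exact ⟨by simpa using h, by rw [one_smul]; exact some_eq rfl (by simp)⟩
  · have : sg 1 = -1 := by decide
    rw [this]
    have h' : (W17.toAffine.baseChange ℂ).Nonsingular x (((-1 : ℤ) : ℂ) * y) := by
      rw [ns_iff] at h ⊢
      rw [← h]
      push_cast
      ring
    refine ⟨h', ?_⟩
    rw [neg_smul, one_smul, Affine.Point.neg_some]
    exact some_eq rfl (by rw [negY_eq]; simp)

theorem act_some (σ : ℂ ≃+* ℂ) {x y : ℂ} (h : (W17.toAffine.baseChange ℂ).Nonsingular x y) :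
    ∃ h', act σ (Affine.Point.some x y h) = .some (σ x) (σ y) h' :=
  ⟨_, Affine.Point.map_some _ h⟩

theorem two_tors {x : ℂ} (h : (W17.toAffine.baseChange ℂ).Nonsingular x 0) :
    (Affine.Point.some x 0 h : Pt) + .some x 0 h = 0 :=
  Affine.Point.add_self_of_Y_eq (by rw [negY_eq]; simp)

/-- The rational point of the twist attached to an isotypic point. -/
theorem twist (hF : FieldStmt) {S : Finset ℕ} (hS : Prs S) {X Y : ℂ}
    (e : Y ^ 2 = X * (X ^ 2 + 30 * X + 289)) (hX : X ≠ 0) (m : (ℂ ≃+* ℂ) → ZMod 2)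
    (hσ : ∀ σ : ℂ ≃+* ℂ, σ (Y / X) = sg (∑ p ∈ S, sgn σ p) * sg (m σ) * (Y / X) ∧
      σ (X - 289 / X) = sg (m σ) * (X - 289 / X)) :
    ∃ x y : ℚ, (x, y) ∈ Tw (dsc S) ∧ (x : ℂ) = (Y / X) ^ 2 / 4 ∧
      (y : ℂ) * ∏ p ∈ S, sq p = Y / X * (X - 289 / X) / 8 := by
  have hr := rt_ne hF fun p hp => (hS p hp).1
  have c1 : ∀ z : ZMod 2, (sg z : ℂ) * sg z = 1 := fun z => by exact_mod_cast sg_sq z
  have c0 : ∀ z : ZMod 2, (sg z : ℂ) ≠ 0 := fun z h => by simpa [h] using c1 z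
  obtain ⟨x, hx⟩ := hF.2.2.2.2.2 ((Y / X) ^ 2 / 4) fun σ => by
    rw [map_div₀, map_pow, (hσ σ).1, map_ofNat]
    linear_combination ((Y / X) ^ 2 / 4 * (sg (m σ) * sg (m σ))) * c1 (∑ p ∈ S, sgn σ p) +
      (Y / X) ^ 2 / 4 * c1 (m σ)
  obtain ⟨y, hy⟩ := hF.2.2.2.2.2 (Y / X * (X - 289 / X) / 8 / ∏ p ∈ S, sq p) fun σ => by
    rw [map_div₀, map_div₀, map_mul, (hσ σ).1, (hσ σ).2, map_ofNat, map_rt hF,
      div_eq_div_iff (mul_ne_zero (c0 _) hr) hr]
    linear_combination (sg (∑ p ∈ S, sgn σ p) * (Y / X) * (X - 289 / X) / 8 * ∏ p ∈ S, sq p) *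
      c1 (m σ)
  have hy' : (y : ℂ) * ∏ p ∈ S, sq p = Y / X * (X - 289 / X) / 8 := by
    rw [← hy, div_mul_cancel₀ _ hr]
  refine ⟨x, y, ?_, hx.symm, hy'⟩
  have hx' : (x : ℂ) = (X ^ 2 + 30 * X + 289) / (4 * X) := by
    rw [← hx]
    field_simp
    linear_combination e
  have : (dsc S : ℂ) * (y : ℂ) ^ 2 = x * (x + 1) * (x - 16) := by
    have a1 : (x : ℂ) * (x + 1) * (x - 16) = (Y / X) ^ 2 / 4 * ((x + 1) * (x - 16)) := by
      rw [hx]; ring
    rw [← rt_sq hF, ← mul_pow, mul_comm, hy', a1, hx']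
    field_simp
    ring
  show (dsc S : ℚ) * y ^ 2 = x * (x + 1) * (x - 16)
  exact_mod_cast this

theorem val_int (O : ValuationSubring ℂ) (n : ℤ) : O.valuation (n : ℂ) ≤ 1 :=
  (O.valuation_le_one_iff _).2 (intCast_mem O n)

theorem val_unit {O : ValuationSubring ℂ} (hO : (17 : ℂ) ∈ O.nonunits) {n : ℤ}
    (hn : ¬ (17 : ℤ) ∣ n) : O.valuation (n : ℂ) = 1 := by
  refine le_antisymm (val_int O n) (not_lt.1 fun h => ?_)
  have hp : Prime (17 : ℤ) := Int.prime_iff_natAbs_prime.2 (by norm_num)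
  obtain ⟨a, b, hab⟩ := (Prime.coprime_iff_not_dvd hp).2 hn
  have h17 : O.valuation (17 : ℂ) < 1 := O.mem_nonunits_iff.1 hO
  have e : (1 : ℂ) = a * 17 + b * n := by exact_mod_cast hab.symm
  have : O.valuation (a * 17 + b * n : ℂ) < 1 := by
    refine O.valuation.map_add_lt ?_ ?_ <;> rw [map_mul]
    · exact lt_of_le_of_lt (mul_le_of_le_one_left' (val_int O a)) h17
    · exact lt_of_le_of_lt (mul_le_of_le_one_left' (val_int O b)) h
  rw [← e, map_one] at this
  exact lt_irrefl _ this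

theorem padic_nonpos {O : ValuationSubring ℂ} (hO : (17 : ℂ) ∈ O.nonunits) {q : ℚ}
    (hq : 1 ≤ O.valuation (q : ℂ)) : padicValRat 17 q ≤ 0 := by
  have : Fact (Nat.Prime 17) := ⟨by norm_num⟩
  by_contra hc
  have h1 : (17 : ℤ) ∣ q.num := by
    by_contra hn
    have : padicValInt 17 q.num = 0 := padicValInt.eq_zero_of_not_dvd (by exact_mod_cast hn)
    rw [padicValRat, this] at hc
    omega
  have h2 : ¬ (17 : ℤ) ∣ (q.den : ℤ) := by
    intro h
    have a1 : 17 ∣ q.num.natAbs := Int.natAbs_dvd_natAbs.2 h1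
    have a2 : 17 ∣ q.den := by exact_mod_cast h
    have := Nat.dvd_gcd a1 a2
    rw [q.reduced] at this
    omega
  obtain ⟨c, hc'⟩ := h1
  have e : (q : ℂ) * ((q.den : ℤ) : ℂ) = c * 17 := by
    have : q * q.den = q.num := Rat.mul_den_eq_num q
    have e2 : (q : ℂ) * (q.den : ℂ) = (q.num : ℂ) := by exact_mod_cast this
    rw [hc'] at e2
    push_cast at e2 ⊢
    linear_combination e2
  have h17 : O.valuation (17 : ℂ) < 1 := O.mem_nonunits_iff.1 hO
  have := congrArg O.valuation e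
  rw [map_mul, map_mul, val_unit hO h2, mul_one] at this
  rw [this] at hq
  exact absurd (lt_of_le_of_lt (mul_le_of_le_one_left' (val_int O c)) h17) (not_lt.2 hq)

theorem even_val {S : Finset ℕ} (hS : Prs S) {x y : ℚ} (hy : y ≠ 0) (h : (x, y) ∈ Tw (dsc S))
    (hv : padicValRat 17 (x + 1) ≤ 0) : Even (padicValRat 17 (x + 1)) := by
  have : Fact (Nat.Prime 17) := ⟨by norm_num⟩
  rcases hv.eq_or_lt with h0 | h0
  · rw [h0]; exact Even.zero
  have e : (dsc S : ℚ) * y ^ 2 = x * (x + 1) * (x - 16) := h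
  have hD : (dsc S : ℚ) ≠ 0 := by exact_mod_cast dsc_ne fun p hp => (hS p hp).1
  have hne : x * (x + 1) * (x - 16) ≠ 0 := e ▸ mul_ne_zero hD (pow_ne_zero 2 hy)
  have n1 : x ≠ 0 := fun h => hne (by simp [h])
  have n2 : x + 1 ≠ 0 := fun h => hne (by simp [h])
  have n3 : x - 16 ≠ 0 := fun h => hne (by simp [h])
  have key : ∀ n : ℤ, n ≠ 0 → x + 1 + n ≠ 0 →
      padicValRat 17 (x + 1 + n) = padicValRat 17 (x + 1) := by
    intro n hn hn'
    refine padicValRat.add_eq_of_lt hn' n2 (by exact_mod_cast hn) ?_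
    rw [padicValRat.of_int]
    omega
  have v1 : padicValRat 17 x = padicValRat 17 (x + 1) := by
    have := key (-1) (by norm_num) (by push_cast; simpa using n1)
    rw [← this]
    congr 1
    push_cast
    ring
  have v3 : padicValRat 17 (x - 16) = padicValRat 17 (x + 1) := by
    have e3 : x + 1 + ((-17 : ℤ) : ℚ) = x - 16 := by push_cast; ring
    have := key (-17) (by norm_num) (by rw [e3]; exact n3)
    rwa [e3] at this
  have vD : padicValRat 17 (dsc S : ℚ) = 0 := by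
    rw [padicValRat.of_int, padicValInt.eq_zero_of_not_dvd]
    · rfl
    · intro hd
      have hp : Prime ((17 : ℕ) : ℤ) := Int.prime_iff_natAbs_prime.2 (by norm_num)
      obtain ⟨p, hp1, hp2⟩ := (Prime.dvd_finsetProd_iff hp _).1 hd
      have : ((17 : ℕ) : ℤ) ∣ (p : ℤ) := by
        unfold ps at hp2
        split_ifs at hp2
        · exact (dvd_neg.1 hp2)
        · exact hp2
      have h3 : 17 ∣ p := by exact_mod_cast this
      exact (hS p hp1).2.2.2 ((Nat.prime_dvd_prime_iff_eq (by norm_num) (hS p hp1).1).1 h3).symm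
  have := congrArg (padicValRat 17) e
  rw [padicValRat.mul hD (pow_ne_zero 2 hy), padicValRat.mul (mul_ne_zero n1 n2) n3,
    padicValRat.mul n1 n2, padicValRat.pow y, vD, v1, v3] at this
  push_cast at this
  exact ⟨2 * padicValRat 17 (x + 1) - padicValRat 17 y, by omega⟩

theorem act_congr (hF : FieldStmt) (hC : CurveStmt) {S : Finset ℕ} {V : Pt} (hV : Fix S V)
    {σ τ : ℂ ≃+* ℂ} (h : ∀ p ∈ S, sgn σ p = sgn τ p) : act σ V = act τ V := by
  have h1 : act (σ.trans τ.symm) V = V := hV _ fun p hp => by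
    have a := hF.2.2.1 τ τ.symm p
    rw [RingEquiv.self_trans_symm, sgn_refl] at a
    rw [hF.2.2.1, h p hp, ← a]
  have h2 := congrArg (act τ) h1
  rw [← hC.2.2.1] at h2
  rw [← h2]
  congr 2
  ext z
  simp

theorem fix_act (hF : FieldStmt) (hC : CurveStmt) {S : Finset ℕ} {V : Pt} (hV : Fix S V)
    (σ : ℂ ≃+* ℂ) : Fix S (act σ V) := fun τ hτ => by
  rw [← hC.2.2.1]
  exact act_congr hF hC hV fun p hp => by rw [hF.2.2.1, hτ p hp, add_zero]

/-- One odd multiplier for all automorphisms. -/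
theorem uniform (hF : FieldStmt) (hC : CurveStmt) (hT : TorsStmt) {S : Finset ℕ} (hS : Prs S)
    {V : Pt} (hV : Fix S V)
    (h : ∀ σ : ℂ ≃+* ℂ, IsOfFinAddOrder (act σ V - sg (∑ p ∈ S, sgn σ p) • V)) :
    ∃ n : ℤ, Odd n ∧ ∀ σ : ℂ ≃+* ℂ, ∃ j : ℤ,
      n • (act σ V - sg (∑ p ∈ S, sgn σ p) • V) = j • T0 := by
  classical
  have h1 : ∀ σ : ℂ ≃+* ℂ, ∃ n j : ℤ, Odd n ∧
      n • (act σ V - sg (∑ p ∈ S, sgn σ p) • V) = j • T0 := fun σ =>
    hT S hS _ (fun τ hτ => by rw [map_sub, map_zsmul, fix_act hF hC hV σ τ hτ, hV τ hτ]) (h σ)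
  choose n j hn hj using h1
  choose s hs using hF.2.2.2.1 S fun p hp => (hS p hp).1
  refine ⟨∏ a ∈ S.powerset, n (s (ind a)), Finset.prod_induction _ Odd (fun _ _ => Odd.mul)
    odd_one fun a _ => hn _, fun σ => ?_⟩
  have ha : S.filter (fun p => sgn σ p = 1) ∈ S.powerset := mem_powerset.2 (filter_subset _ _)
  have he : ∀ p ∈ S, sgn σ p = sgn (s (ind (S.filter fun p => sgn σ p = 1))) p := fun p hp => by
    rw [hs _ p hp, ind]
    rcases z2 (sgn σ p) with h0 | h0 <;> simp [h0, hp]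
  rw [← mul_prod_erase _ _ ha, mul_comm, mul_smul, act_congr hF hC hV he, sum_congr rfl he, hj,
    ← mul_smul]
  exact ⟨_, rfl⟩

end SelAux

open SelAux

theorem inf (hF : FieldStmt) (_hC : CurveStmt) : InfStmt := by
  intro S hS P hP hσ hfin
  have hne : ∀ n : ℤ, n ≠ 0 → n • P ≠ 0 := fun n hn h =>
    hP (isOfFinAddOrder_iff_zsmul_eq_zero.2 ⟨n, hn, h⟩)
  have h1 : ∀ n : ℕ, ∃ X : ℂ, (∃ Y h, ((n : ℤ) + 1) • P = .some X Y h) ∧
      ∃ q ∈ Tw (dsc S), X ^ 2 + 30 * X + 289 = 4 * (q.1 : ℂ) * X := by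
    intro n
    have a0 := hne (n + 1) (by omega)
    have a2 := hne (2 * (n + 1)) (by omega)
    have a1 : ∀ σ : ℂ ≃+* ℂ, act σ (((n : ℤ) + 1) • P) =
        sg (∑ p ∈ S, sgn σ p) • (((n : ℤ) + 1) • P) := fun σ => by
      rw [map_zsmul, hσ, smul_comm]
    rw [mul_smul, two_zsmul] at a2
    generalize ((n : ℤ) + 1) • P = Q at a0 a1 a2
    rcases Q with _ | ⟨X, Y, h⟩
    · exact absurd rfl a0
    have e := (ns_iff _ _).1 h
    have hY : Y ≠ 0 := by
      rintro rfl
      exact a2 (two_tors h)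
    have hX : X ≠ 0 := by
      rintro rfl
      exact hY (by simpa using e)
    obtain ⟨x, y, hxy, hx, -⟩ := twist hF hS e hX (fun _ => 0) fun σ => by
      obtain ⟨h1, e1⟩ := act_some σ h
      obtain ⟨h2, e2⟩ := sg_smul h (∑ p ∈ S, sgn σ p)
      have e3 := a1 σ
      rw [e1, e2] at e3
      obtain ⟨b1, b2⟩ := Affine.Point.some.inj e3
      have : sg 0 = 1 := rfl
      rw [map_div₀, map_sub, map_div₀, map_ofNat, b1, b2, this]
      constructor
      · push_cast; ring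
      · push_cast; ring
    refine ⟨X, ⟨Y, h, rfl⟩, (x, y), hxy, ?_⟩
    simp only [hx]
    field_simp
    linear_combination -e
  choose X hX hq using h1
  have hinj : Function.Injective X := by
    intro n m hnm
    obtain ⟨Y, h, e⟩ := hX n
    obtain ⟨Y', h', e'⟩ := hX m
    have : (((n : ℤ) + 1) • P).xRep = (((m : ℤ) + 1) • P).xRep := by
      rw [e, e', Affine.Point.xRep_some, Affine.Point.xRep_some, hnm]
    rcases Affine.Point.xRep_eq_xRep_iff.1 this with h0 | h0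
    · by_contra hc
      refine hne ((n : ℤ) + 1 - (m + 1)) (by omega) ?_
      rw [sub_smul, h0, sub_self]
    · exfalso
      refine hne ((n : ℤ) + 1 + (m + 1)) (by omega) ?_
      rw [add_zsmul, h0, neg_add_cancel]
  refine Set.infinite_range_of_injective hinj (Set.Finite.subset (hfin.biUnion
    (t := fun q => {z : ℂ | z ^ 2 + 30 * z + 289 = 4 * (q.1 : ℂ) * z}) fun q _ => ?_) ?_)
  · have hp : (Polynomial.X ^ 2 + Polynomial.C (30 - 4 * (q.1 : ℂ)) * Polynomial.X +
        Polynomial.C 289 : Polynomial ℂ) ≠ 0 := by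
      intro h
      have := congrArg (Polynomial.eval 0) h
      simp at this
    refine (Polynomial.finite_setOfPred_isRoot hp).subset fun z hz => ?_
    simp only [Set.mem_ofPred_eq, Polynomial.IsRoot.def, Polynomial.eval_add, Polynomial.eval_pow,
      Polynomial.eval_X, Polynomial.eval_mul, Polynomial.eval_C] at hz ⊢
    linear_combination hz
  · rintro _ ⟨n, rfl⟩
    obtain ⟨q, h1, h2⟩ := hq n
    exact Set.mem_biUnion h1 h2

theorem sel (hF : FieldStmt) (hC : CurveStmt) (hT : TorsStmt) (hD : DescStmt) : SelStmt := by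
  classical
  intro S hS O hO V μ k hV h1 h2
  obtain ⟨E, hE, hE4⟩ := hC.2.2.2.2 O hO
  have h4 := hC.1
  have hT0 := hC.2.1
  have tors : IsOfFinAddOrder T0 := isOfFinAddOrder_iff_zsmul_eq_zero.2 ⟨4, by norm_num, h4⟩
  have fix1 : Fix S (V - k • T0) := fun τ hτ => by rw [map_sub, map_zsmul, hV τ hτ, hT0]
  have mem1 : V - k • T0 ∈ E := by
    have := (hE _).2 (h2 (RingEquiv.refl ℂ))
    simpa [sgn_refl, hC.2.2.2.1] using this
  obtain ⟨n, hn, hj⟩ := uniform hF hC hT hS fix1 fun σ => by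
    have : act σ (V - k • T0) - sg (∑ p ∈ S, sgn σ p) • (V - k • T0) =
        (act σ V - sg (∑ p ∈ S, sgn σ p) • V) + (sg (∑ p ∈ S, sgn σ p) * k - k) • T0 := by
      rw [map_sub, map_zsmul, hT0]
      module
    rw [this]
    exact (h1 σ).add tors.zsmul
  have memQ : n • (V - k • T0) ∈ E := E.zsmul_mem mem1 n
  have fixQ : Fix S (n • (V - k • T0)) := fun τ hτ => by rw [map_zsmul, fix1 τ hτ]
  have key : ∀ σ : ℂ ≃+* ℂ, act σ (n • (V - k • T0)) =
      sg (∑ p ∈ S, sgn σ p) • (n • (V - k • T0)) +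
        (2 * ((∑ p ∈ S, μ p * sgn σ p).val : ℤ)) • T0 := by
    intro σ
    obtain ⟨j, hj⟩ := hj σ
    have a1 := E.zsmul_mem ((hE _).2 (h2 σ)) n
    have a2 : act σ (V - k • T0) = act σ V - k • T0 := by rw [map_sub, map_zsmul, hT0]
    generalize ((∑ p ∈ S, μ p * sgn σ p).val : ℤ) = m at a1 ⊢
    generalize sg (∑ p ∈ S, sgn σ p) = c at hj ⊢
    have a3 : (j - n * (2 * m)) • T0 =
        n • (act σ V - (2 * m + k) • T0) - c • (n • (V - k • T0)) := by
      rw [sub_smul, ← hj, a2]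
      module
    obtain ⟨d, hd⟩ := hE4 _ (a3 ▸ E.sub_mem a1 (E.zsmul_mem memQ c))
    obtain ⟨t, rfl⟩ := hn
    have a4 : j = 2 * m + (d + t * m) * 4 := by linear_combination hd
    have a5 : j • T0 = (2 * m) • T0 := by rw [a4, add_zsmul, mul_smul (d + t * m), h4, zsmul_zero, add_zero]
    rw [map_zsmul, ← a5, ← hj]
    module
  have in0 := (hE _).1 memQ
  generalize n • (V - k • T0) = Q at memQ fixQ key in0
  rcases Q with _ | ⟨X, Y, h⟩
  · have hμ : ∀ p ∈ S, μ p = 0 := by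
      intro p hp
      obtain ⟨σ, hσ⟩ := hF.2.2.2.1 S (fun p hp => (hS p hp).1) (ind {p})
      have a1 := key σ
      rw [← Affine.Point.zero_def, map_zero, zsmul_zero, zero_add] at a1
      have a2 := hE4 _ (a1 ▸ E.zero_mem)
      have a3 : ∑ q ∈ S, μ q * sgn σ q = μ p := by
        rw [sum_eq_single p (fun q hq hqp => by rw [hσ q hq]; simp [ind, hqp])
          (fun h => absurd hp h), hσ p hp]
        simp [ind]
      rw [a3] at a2
      rcases z2 (μ p) with h0 | h0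
      · exact h0
      · rw [h0] at a2
        exact absurd a2 (by decide)
    refine ⟨fun _ => 0, fun p hp => ⟨?_, ?_⟩⟩
    · rw [sum_eq_zero fun q hq => by rw [hμ p hp, hμ q hq]; simp, hμ p hp]
      simp
    · simp [hμ p hp]
  have hXO : X ∉ O.nonunits := in0
  have e := (ns_iff _ _).1 h
  have h17 : O.valuation (17 : ℂ) < 1 := O.mem_nonunits_iff.1 hO
  have hv : 1 ≤ O.valuation X := not_lt.1 fun h => hXO (O.mem_nonunits_iff.2 h)
  have hX : X ≠ 0 := by
    rintro rfl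
    simp at hv
  have hY : Y ≠ 0 := by
    rintro rfl
    have a1 := two_tors h
    rw [← two_zsmul] at a1
    obtain ⟨n', j, ⟨t, rfl⟩, hj⟩ := hT S hS _ fixQ
      (isOfFinAddOrder_iff_zsmul_eq_zero.2 ⟨2, by norm_num, a1⟩)
    rw [add_zsmul, mul_comm, mul_smul, a1, zsmul_zero, zero_add, one_zsmul] at hj
    obtain ⟨d, rfl⟩ := hE4 j (hj ▸ memQ)
    rw [mul_comm, mul_smul, h4, zsmul_zero] at hj
    exact Affine.Point.some_ne_zero h hj
  have hp17 : O.valuation (X + 17) = O.valuation X :=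
    O.valuation.map_add_eq_of_lt_left (lt_of_lt_of_le h17 hv)
  have hm17 : O.valuation (X - 17) = O.valuation X :=
    O.valuation.map_sub_eq_of_lt_left (lt_of_lt_of_le h17 hv)
  have hv0 : O.valuation X ≠ 0 := by simpa using hX
  have n1 : X + 17 ≠ 0 := fun h => hv0 (by rw [← hp17, h, map_zero])
  have n2 : X - 17 ≠ 0 := fun h => hv0 (by rw [← hm17, h, map_zero])
  have hσ : ∀ σ : ℂ ≃+* ℂ,
      σ (Y / X) = sg (∑ p ∈ S, sgn σ p) * sg (∑ p ∈ S, μ p * sgn σ p) * (Y / X) ∧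
      σ (X - 289 / X) = sg (∑ p ∈ S, μ p * sgn σ p) * (X - 289 / X) := by
    intro σ
    obtain ⟨h1, e1⟩ := act_some σ h
    obtain ⟨h2, e2⟩ := sg_smul h (∑ p ∈ S, sgn σ p)
    have e3 := key σ
    rw [e1, e2] at e3
    rw [map_div₀, map_sub, map_div₀, map_ofNat]
    rcases z2 (∑ p ∈ S, μ p * sgn σ p) with h0 | h0 <;> rw [h0] at e3 ⊢
    · rw [ZMod.val_zero, Nat.cast_zero, mul_zero, zero_zsmul, add_zero] at e3
      obtain ⟨b1, b2⟩ := Affine.Point.some.inj e3
      have : sg 0 = 1 := rfl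
      rw [b1, b2, this]
      constructor
      · push_cast; ring
      · push_cast; ring
    · obtain ⟨h3, e4⟩ := add_T2 h2 hX
      have a0 : (1 : ZMod 2).val = 1 := rfl
      rw [a0, Nat.cast_one, mul_one, two_T0, e4] at e3
      obtain ⟨b1, b2⟩ := Affine.Point.some.inj e3
      have : sg 1 = -1 := by decide
      rw [b1, b2, this]
      constructor
      · push_cast; field_simp
      · push_cast; field_simp; ring
  obtain ⟨x, y, hxy, hx, hy⟩ := twist hF hS e hX _ hσ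
  have c1 : ∀ z : ZMod 2, (sg z : ℂ) * sg z = 1 := fun z => by exact_mod_cast sg_sq z
  have c0 : ∀ z : ZMod 2, (sg z : ℂ) ≠ 0 := fun z h => by simpa [h] using c1 z
  have ha : S.filter (fun p => μ p = 1) ⊆ S := filter_subset _ _
  have hind : ∀ p ∈ S, ind (S.filter fun p => μ p = 1) p = μ p := fun p hp => by
    rw [ind]
    rcases z2 (μ p) with h0 | h0 <;> simp [h0, hp]
  have hra := rt_ne hF (s := S.filter fun p => μ p = 1) fun p hp => (hS p (ha hp)).1
  obtain ⟨r, hr⟩ := hF.2.2.2.2.2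
    (Y / X * (∏ p ∈ S, sq p) / (2 * ∏ p ∈ S.filter (fun p => μ p = 1), sq p)) fun σ => by
    have a1 : ∑ p ∈ S.filter (fun p => μ p = 1), sgn σ p = ∑ p ∈ S, μ p * sgn σ p := by
      rw [sum_filter]
      refine sum_congr rfl fun p _ => ?_
      rcases z2 (μ p) with h0 | h0 <;> simp [h0]
    rw [map_div₀, map_mul, map_mul, (hσ σ).1, map_ofNat, map_rt hF, map_rt hF, a1,
      div_eq_div_iff (mul_ne_zero two_ne_zero (mul_ne_zero (c0 _) hra))
        (mul_ne_zero two_ne_zero hra)]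
    linear_combination (sg (∑ p ∈ S, μ p * sgn σ p) * (Y / X) * (∏ p ∈ S, sq p) * 2 *
      ∏ p ∈ S.filter (fun p => μ p = 1), sq p) * c1 (∑ p ∈ S, sgn σ p)
  have hy0 : y ≠ 0 := by
    rintro rfl
    have a1 : X - 289 / X = (X + 17) * (X - 17) / X := by
      field_simp
      ring
    rw [a1, Rat.cast_zero, zero_mul] at hy
    exact (div_ne_zero (mul_ne_zero (div_ne_zero hY hX) (div_ne_zero (mul_ne_zero n1 n2) hX))
      (by norm_num)) hy.symm
  have hrel : (dsc S : ℚ) * x = dsc (S.filter fun p => μ p = 1) * r ^ 2 := by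
    have : (dsc S : ℂ) * x = dsc (S.filter fun p => μ p = 1) * (r : ℂ) ^ 2 := by
      rw [← rt_sq hF, ← rt_sq hF, hx, ← hr]
      field_simp
      norm_num
    exact_mod_cast this
  have hval : 1 ≤ O.valuation ((x + 1 : ℚ) : ℂ) := by
    have a1 : ((x + 1 : ℚ) : ℂ) * (((4 : ℤ) : ℂ) * X) = (X + 17) * (X + 17) := by
      push_cast
      rw [hx]
      field_simp
      linear_combination e
    have a2 := congrArg O.valuation a1
    rw [map_mul, map_mul, map_mul, val_unit hO (by norm_num), one_mul, hp17] at a2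
    rw [mul_right_cancel₀ hv0 a2]
    exact hv
  obtain ⟨b, -, hb, -⟩ := hD S hS _ ha x y r hy0 hxy hrel
    (even_val hS hy0 hxy (padic_nonpos hO hval))
  refine ⟨ind b, fun p hp => ?_⟩
  have := (mem_filter.1 hb).2 p hp
  simp only [hind p hp] at this
  refine ⟨?_, this.2⟩
  rw [← this.1]
  exact sum_congr rfl fun q hq => by rw [hind q hq]

end Pool.Agent.Lib.MP_d6ddbd_nt.G
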