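import Pool.Agent.Lib.MP_d6ddbd_nt.G.IndA
import Pool.Agent.Lib.MP_d6ddbd_nt.G.Sel

/-! Genus points: the main theorem. -/

open Finset TensorProduct

noncomputable section

namespace Pool.Agent.Lib.MP_d6ddbd_nt.G

namespace IndAux

open SelAux (sg_add sg_sum sgn_refl fix_act)

section General

variable {A : Type} [AddCommGroup A]

/-- The map to the rational vector space. -/
def io : A →+ ℚ ⊗[ℤ] A := (TensorProduct.mk ℤ ℚ A 1).toAddMonoidHom

theorem io_eq_zero {P : A} : io P = 0 ↔ IsOfFinAddOrder P := by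
  have := IsLocalizedModule.eq_zero_iff (nonZeroDivisors ℤ) (TensorProduct.mk ℤ ℚ A 1) (m := P)
  rw [isOfFinAddOrder_iff_zsmul_eq_zero]
  refine this.trans ⟨fun ⟨s, hs⟩ => ⟨s, nonZeroDivisors.coe_ne_zero s, hs⟩, fun ⟨n, h0, h⟩ =>
    ⟨⟨n, mem_nonZeroDivisors_of_ne_zero h0⟩, h⟩⟩

theorem io_zsmul (n : ℤ) (P : A) : io (n • P) = (n : ℚ) • io P := by
  rw [map_zsmul, Int.cast_smul_eq_zsmul]

/-- The rational extension of an endomorphism. -/
def aq (f : A →+ A) : ℚ ⊗[ℤ] A →ₗ[ℚ] ℚ ⊗[ℤ] A := LinearMap.baseChange ℚ f.toIntLinearMap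

theorem aq_io (f : A →+ A) (P : A) : aq f (io P) = io (f P) := rfl

theorem four_dvd {T : A} (h : (4 : ℤ) • T = 0) {a b : ℤ} (e : 4 ∣ a - b) : a • T = b • T := by
  obtain ⟨k, hk⟩ := e
  rw [← sub_eq_zero, ← sub_smul, hk, mul_comm, mul_smul, h, smul_zero]

/-- Points with a component profile. -/
def GG {Γ : Type} (a : Γ → A →+ A) (E : AddSubgroup A) {T : A} (h : (4 : ℤ) • T = 0) (F : Set Γ)
    (z : Γ → (ℕ → ZMod 2) →+ ZMod 2) : AddSubgroup (A × (ℕ → ZMod 2)) where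
  carrier := {x | (∀ σ ∈ F, a σ x.1 = x.1) ∧
    ∃ k : ℤ, ∀ σ, a σ x.1 - (2 * ((z σ x.2).val : ℤ) + k) • T ∈ E}
  zero_mem' := ⟨fun _ _ => map_zero _, 0, fun σ => by simp⟩
  add_mem' := by
    rintro ⟨V, μ⟩ ⟨V', μ'⟩ ⟨h1, k, h2⟩ ⟨h3, k', h4⟩
    refine ⟨fun σ hσ => by simpa using congrArg₂ (· + ·) (h1 σ hσ) (h3 σ hσ), k + k', fun σ => ?_⟩
    have := add_mem (h2 σ) (h4 σ)
    simp only [Prod.fst_add, Prod.snd_add, map_add] at this ⊢
    rw [four_dvd h (b := 2 * ((z σ μ).val : ℤ) + k + (2 * ((z σ μ').val : ℤ) + k')), add_smul]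
    · convert this using 1
      abel
    · have : ∀ x y : ZMod 2, (4 : ℤ) ∣ 2 * ((x + y).val : ℤ) - 2 * (x.val : ℤ) - 2 * (y.val : ℤ) := by
        decide
      convert this (z σ μ) (z σ μ') using 1
      ring
  neg_mem' := by
    rintro ⟨V, μ⟩ ⟨h1, k, h2⟩
    refine ⟨fun σ hσ => by simpa using h1 σ hσ, -k, fun σ => ?_⟩
    have := neg_mem (h2 σ)
    simp only [Prod.fst_neg, Prod.snd_neg, map_neg, ZMod.neg_eq_self_mod_two] at this ⊢
    rw [four_dvd h (b := -(2 * ((z σ μ).val : ℤ) + k)) ⟨(z σ μ).val, by ring⟩, neg_smul]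
    convert this using 1
    abel

theorem odd_smul {n : ℤ} (h : Odd n) (μ : ℕ → ZMod 2) : n • μ = μ := by
  funext p
  rw [Pi.smul_apply, zsmul_eq_mul, odd_cast h, one_mul]

/-- Saturation with respect to odd numbers. -/
def DD (G : AddSubgroup (A × (ℕ → ZMod 2))) : AddSubgroup (ℚ ⊗[ℤ] A × (ℕ → ZMod 2)) where
  carrier := {x | ∃ (V : A) (n : ℤ), Odd n ∧ (V, x.2) ∈ G ∧ (n : ℚ) • x.1 = io V}
  zero_mem' := ⟨0, 1, odd_one, zero_mem G, by simp⟩
  add_mem' := by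
    rintro ⟨m, μ⟩ ⟨m', μ'⟩ ⟨V, n, h1, h2, h3⟩ ⟨V', n', h4, h5, h6⟩
    refine ⟨n' • V + n • V', n * n', h1.mul h4, ?_, ?_⟩
    · simpa [odd_smul h1, odd_smul h4] using add_mem (zsmul_mem h2 n') (zsmul_mem h5 n)
    · rw [map_add, io_zsmul, io_zsmul, ← h3, ← h6]
      simp only [Prod.fst_add, smul_add, smul_smul, Int.cast_mul, mul_comm]
  neg_mem' := by
    rintro ⟨m, μ⟩ ⟨V, n, h1, h2, h3⟩
    exact ⟨-V, n, h1, neg_mem h2, by rw [map_neg, ← h3]; simp⟩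

theorem DD_scal {G : AddSubgroup (A × (ℕ → ZMod 2))} {m : ℚ ⊗[ℤ] A} {μ : ℕ → ZMod 2} (u : ℤ)
    {n : ℤ} (hn : Odd n) (h : (m, μ) ∈ DD G) :
    (((u : ℚ) / n) • m, (u : ZMod 2) • μ) ∈ DD G := by
  obtain ⟨V, k, h1, h2, h3⟩ := h
  have h0 : (n : ℚ) ≠ 0 := by
    have : n ≠ 0 := by rintro rfl; simp at hn
    exact_mod_cast this
  refine ⟨u • V, n * k, hn.mul h1, ?_, ?_⟩
  · simpa [Int.cast_smul_eq_zsmul] using zsmul_mem h2 u
  · rw [io_zsmul, ← h3, smul_smul, smul_smul]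
    congr 1
    push_cast
    field_simp

theorem sum_prof (f : A →+ A) (E : AddSubgroup A) (T : A) {I : Type} (x : I → A) (d : ℤ)
    (h : ∀ i, f (x i) - d • T ∈ E) (F : Finset I) :
    f (∑ i ∈ F, x i) - (F.card * d : ℤ) • T ∈ E := by
  have := sum_mem fun i (_ : i ∈ F) => h i
  rwa [sum_sub_distrib, ← map_sum, sum_const, ← natCast_zsmul, smul_smul] at this

end General

theorem orth (S : Finset ℕ) (f : ℕ → ZMod 2) :
    ∑ e ∈ S.powerset, sg (∑ p ∈ e, f p) = if ∀ p ∈ S, f p = 0 then 2 ^ S.card else 0 := by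
  simp only [sg_sum]
  rw [← prod_one_add]
  split_ifs with h
  · rw [prod_congr rfl (g := fun _ => 2) fun p hp => by rw [h p hp]; rfl, prod_const]
  · push Not at h
    obtain ⟨p, hp, h1⟩ := h
    exact prod_eq_zero hp (by rw [(z2 _).resolve_left h1]; rfl)

theorem orth' {S : Finset ℕ} (h : Adm S) (f : ℕ → ZMod 2) (hf : ∑ p ∈ S, f p = 0) :
    4 * ∑ e ∈ AA S, sg (∑ p ∈ e, f p) = 2 ^ S.card *
      ((if ∀ p ∈ S, f p = 0 then 1 else 0) + if ∀ p ∈ S, f p = ga p then 1 else 0) := by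
  have key : ∀ a b c : ZMod 2, 4 * (if a = 0 ∧ b = 0 then sg c else 0) =
      sg c + sg (c + b) + sg (c + a) + sg (c + a + b) := by decide
  rw [AA, sum_filter, mul_sum]
  simp only [key, ← sum_add_distrib]
  simp only [sum_add_distrib (s := S.powerset), orth]
  have n1 : ¬ ∀ p ∈ S, f p + ep p = 0 := fun h1 => by
    have := sum_eq_zero h1
    rw [sum_add_distrib, hf, h.2.1] at this
    exact absurd this (by decide)
  have n2 : ¬ ∀ p ∈ S, f p + ep p + ga p = 0 := fun h1 => by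
    have := sum_eq_zero h1
    rw [sum_add_distrib, sum_add_distrib, hf, h.2.1, h.2.2] at this
    exact absurd this (by decide)
  have e : ∀ a b : ZMod 2, a + b = 0 ↔ a = b := by decide
  rw [if_neg n1, if_neg n2]
  simp only [e]
  split_ifs <;> ring

variable {O : ValuationSubring ℂ} {S : Finset ℕ} (H : Heeg O S)

/-- The classes in a genus. -/
def fib (g : ℕ → ZMod 2) : Finset H.I := univ.filter fun i => ∀ p ∈ S, H.χ p i = g p

/-- The genus points. -/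
def ZZ (g : ℕ → ZMod 2) : Pt := ∑ i ∈ fib H g, H.x i

theorem P_empty : H.P ∅ = ∑ i, H.x i := by simp [Heeg.P]

theorem fix_ZZ (g : ℕ → ZMod 2) : Fix S (ZZ H g) := fun σ hσ => by
  obtain ⟨π, h, -⟩ := H.gal σ
  have h := h (sum_eq_zero hσ)
  rw [ZZ, map_sum]
  refine sum_equiv π (fun i => ?_) fun i _ => (h i).1
  simp only [fib, mem_filter, mem_univ, true_and]
  exact forall₂_congr fun p hp => by rw [(h i).2 p hp, hσ p hp, add_zero]

theorem card_fib (hF : FieldStmt) (h : Adm S) : (fib H ga).card = (fib H 0).card := by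
  obtain ⟨σ, hσ⟩ := hF.2.2.2.1 S (fun p hp => (h.1 p hp).1) ep
  obtain ⟨π, -, h1⟩ := H.gal σ
  have h1 := h1 (by rw [sum_congr rfl hσ, h.2.1])
  refine card_equiv π fun i => ?_
  simp only [fib, mem_filter, mem_univ, true_and]
  have e : ∀ a b c : ZMod 2, a = c ↔ a + b + b + c = 0 := by decide
  exact forall₂_congr fun p hp => by rw [(h1 i).2 p hp, hσ p hp]; exact e _ _ _

theorem act_y (σ : ℂ ≃+* ℂ) :
    ∃ j : ℤ, act σ (H.P ∅) = sg (∑ p ∈ S, sgn σ p) • H.P ∅ + j • T0 := by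
  obtain ⟨π, h0, h1⟩ := H.gal σ
  rw [P_empty, map_sum]
  rcases z2 (∑ p ∈ S, sgn σ p) with h | h
  · refine ⟨0, ?_⟩
    rw [h, sum_congr rfl fun i _ => (h0 h i).1, π.sum_comp, show sg 0 = 1 from rfl, one_zsmul,
      zero_zsmul, add_zero]
  · refine ⟨Fintype.card H.I, ?_⟩
    rw [h, sum_congr rfl fun i _ => (h1 h i).1, sum_sub_distrib, π.sum_comp,
      show sg 1 = -1 from rfl, neg_one_zsmul, sum_const, natCast_zsmul, card_univ, sub_eq_neg_add]

theorem prof {E : AddSubgroup Pt} (hE : ∀ P, P ∈ E ↔ In0 O P) : ∃ κ : ℤ, ∀ (σ : ℂ ≃+* ℂ) (i : H.I),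
    act σ (H.x i) - (if ∑ p ∈ S, sgn σ p = 0 then κ else 1 - κ) • T0 ∈ E := by
  obtain ⟨κ, hκ⟩ : ∃ κ : ℤ, ∀ i, H.x i - κ • T0 ∈ E := by
    rcases H.comp with h | h
    · exact ⟨0, fun i => by rw [zero_zsmul, sub_zero]; exact (hE _).2 (h i)⟩
    · exact ⟨1, fun i => by rw [one_zsmul, ← neg_sub]; exact neg_mem ((hE _).2 (h i))⟩
  refine ⟨κ, fun σ i => ?_⟩
  obtain ⟨π, h0, h1⟩ := H.gal σ
  split_ifs with h
  · rw [(h0 h i).1]
    exact hκ _
  · rw [(h1 ((z2 _).resolve_left h) i).1, sub_zsmul, one_zsmul]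
    convert neg_mem (hκ (π i)) using 1
    abel

theorem io_sum (h : Adm S) : (4 / 2 ^ S.card : ℚ) • ∑ e ∈ AA S, io (H.P e) =
    io (ZZ H 0) + io (ZZ H ga) := by
  have e1 : ∀ e, io (H.P e) = ∑ i, (sg (∑ p ∈ e, H.χ p i) : ℚ) • io (H.x i) := fun e => by
    rw [Heeg.P, map_sum]
    refine sum_congr rfl fun i _ => ?_
    unfold sg
    split_ifs <;> simp
  simp only [e1, ZZ, map_sum, fib, sum_filter]
  rw [sum_comm, smul_sum, ← sum_add_distrib]
  refine sum_congr rfl fun i _ => ?_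
  have := congrArg (Int.cast : ℤ → ℚ) (orth' h (fun p => H.χ p i) (H.prod i))
  push_cast at this
  rw [← sum_smul, smul_smul, div_mul_eq_mul_div, this, mul_div_cancel_left₀ _ (by positivity),
    add_smul]
  simp [apply_ite io]

/-- The pairing of a vector with the signs of an automorphism. -/
def zs (S : Finset ℕ) (σ : ℂ ≃+* ℂ) : (ℕ → ZMod 2) →+ ZMod 2 where
  toFun μ := ∑ p ∈ S, μ p * sgn σ p
  map_zero' := by simp
  map_add' a b := by simp [add_mul, sum_add_distrib]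

/-- The points over the genus field with their profile. -/
def GS (hC : CurveStmt) (E : AddSubgroup Pt) (S : Finset ℕ) : AddSubgroup (Pt × (ℕ → ZMod 2)) :=
  GG act E hC.1 {σ | ∀ p ∈ S, sgn σ p = 0} (zs S)

theorem mem_GS {hC : CurveStmt} {E : AddSubgroup Pt} {V : Pt} {μ : ℕ → ZMod 2} :
    (V, μ) ∈ GS hC E S ↔ Fix S V ∧ ∃ k : ℤ, ∀ σ,
      act σ V - (2 * ((∑ p ∈ S, μ p * sgn σ p).val : ℤ) + k) • T0 ∈ E := Iff.rfl

theorem aq_y (hC : CurveStmt) (σ : ℂ ≃+* ℂ) :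
    aq (act σ) (io (H.P ∅)) = (sg (∑ p ∈ S, sgn σ p) : ℚ) • io (H.P ∅) := by
  obtain ⟨j, hj⟩ := act_y H σ
  have : io T0 = 0 := io_eq_zero.2 (isOfFinAddOrder_iff_zsmul_eq_zero.2 ⟨4, by norm_num, hC.1⟩)
  rw [aq_io, hj, map_add, io_zsmul, io_zsmul, this, smul_zero, add_zero]

theorem gen_mem (hF : FieldStmt) (hC : CurveStmt) {E : AddSubgroup Pt}
    (hE : ∀ P, P ∈ E ↔ In0 O P) (h : Adm S) :
    (ZZ H 0 + ZZ H ga, fun _ => gT S) ∈ GS hC E S := by
  obtain ⟨κ, hκ⟩ := prof H hE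
  refine mem_GS.2 ⟨fun σ hσ => by rw [map_add, fix_ZZ H _ σ hσ, fix_ZZ H _ σ hσ],
    2 * (fib H 0).card * κ, fun σ => ?_⟩
  have h1 := add_mem (sum_prof _ E T0 H.x _ (hκ σ) (fib H 0))
    (sum_prof _ E T0 H.x _ (hκ σ) (fib H ga))
  rw [card_fib H hF h] at h1
  have hg : gT S = ((fib H 0).card : ZMod 2) := H.redei.symm
  rw [map_add, ← mul_sum, hg, four_dvd hC.1 (b := (fib H 0).card *
    (if ∑ p ∈ S, sgn σ p = 0 then κ else 1 - κ) + (fib H 0).card *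
    (if ∑ p ∈ S, sgn σ p = 0 then κ else 1 - κ)), add_zsmul]
  · convert h1 using 1
    unfold ZZ
    abel
  · generalize (fib H 0).card = g
    split_ifs with h2
    · rw [h2, mul_zero]
      exact ⟨0, by simp; ring⟩
    · rw [(z2 _).resolve_left h2, mul_one, ZMod.val_natCast]
      exact ⟨g * κ - g / 2, by push_cast; have := Int.emod_add_mul_ediv g 2; linear_combination 2 * this⟩

theorem diff_mem (hF : FieldStmt) (hC : CurveStmt) {E : AddSubgroup Pt} {V : Pt} {μ : ℕ → ZMod 2}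
    (h : (V, μ) ∈ GS hC E S) (σ : ℂ ≃+* ℂ) : (V - act σ V, 0) ∈ GS hC E S := by
  obtain ⟨h1, k, h2⟩ := mem_GS.1 h
  refine mem_GS.2 ⟨fun τ hτ => by rw [map_sub, h1 τ hτ, fix_act hF hC h1 σ τ hτ],
    2 * (zs S σ μ).val, fun τ => ?_⟩
  have h3 := sub_mem (h2 τ) (h2 (σ.trans τ))
  have e : ∑ p ∈ S, μ p * sgn (σ.trans τ) p = zs S σ μ + zs S τ μ := by
    simp only [hF.2.2.1, mul_add, sum_add_distrib]
    rfl
  rw [e, hC.2.2.1] at h3
  rw [map_sub, four_dvd hC.1 (b := 2 * ((zs S τ μ).val : ℤ) + k -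
    (2 * ((zs S σ μ + zs S τ μ).val : ℤ) + k)), sub_zsmul]
  · convert h3 using 1
    change _ = act τ V - (2 * ((zs S τ μ).val : ℤ) + k) • T0 - _
    abel
  · have : ∀ x y : ZMod 2, (4 : ℤ) ∣ 2 * (x.val : ℤ) - 2 * (y.val : ℤ) + 2 * ((x + y).val : ℤ) := by
      decide
    convert this (zs S σ μ) (zs S τ μ) using 1
    simp
    ring

theorem diff_ZZ (hF : FieldStmt) (hC : CurveStmt) {E : AddSubgroup Pt}
    (hE : ∀ P, P ∈ E ↔ In0 O P) {σ : ℂ ≃+* ℂ} (hσ : ∑ p ∈ S, sgn σ p = 0) :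
    (ZZ H 0 - act σ (ZZ H 0), 0) ∈ GS hC E S := by
  obtain ⟨κ, hκ⟩ := prof H hE
  refine mem_GS.2 ⟨fun τ hτ => by
    rw [map_sub, fix_ZZ H _ τ hτ, fix_act hF hC (fix_ZZ H _) σ τ hτ], 0, fun τ => ?_⟩
  have h1 := sub_mem (sum_prof _ E T0 H.x _ (hκ τ) (fib H 0))
    (sum_prof _ E T0 H.x _ (hκ (σ.trans τ)) (fib H 0))
  have e : ∑ p ∈ S, sgn (σ.trans τ) p = ∑ p ∈ S, sgn τ p := by
    simp only [hF.2.2.1, sum_add_distrib, hσ, zero_add]
  rw [e, hC.2.2.1, sub_sub_sub_cancel_right] at h1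
  simpa [ZZ] using h1

theorem tors_mem (hF : FieldStmt) (hC : CurveStmt) (hT : TorsStmt) {E : AddSubgroup Pt}
    (hE : ∀ j : ℤ, j • T0 ∈ E → 4 ∣ j) (hS : Prs S) {V : Pt} {μ : ℕ → ZMod 2}
    (h : (V, μ) ∈ GS hC E S) (h0 : IsOfFinAddOrder V) : ∀ p ∈ S, μ p = 0 := by
  obtain ⟨h1, k, h2⟩ := mem_GS.1 h
  obtain ⟨n, j, hn, e⟩ := hT S hS V h1 h0
  have key : ∀ σ, (4 : ℤ) ∣ j - n * (2 * ((∑ p ∈ S, μ p * sgn σ p).val : ℤ) + k) := fun σ => by
    have := zsmul_mem (h2 σ) n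
    rw [zsmul_sub, ← map_zsmul, e, map_zsmul, hC.2.1, ← mul_zsmul, sub_eq_add_neg, ← sub_zsmul] at this
    exact hE _ this
  intro p hp
  obtain ⟨σ, hσ⟩ := hF.2.2.2.1 S (fun p hp => (hS p hp).1) fun q => if q = p then 1 else 0
  have a := key σ
  have b := key (RingEquiv.refl ℂ)
  rw [sum_congr rfl fun q hq => by rw [hσ q hq]] at a
  simp only [mul_ite, mul_one, mul_zero, sum_ite_eq', if_pos hp] at a
  rw [sum_eq_zero fun q _ => by rw [sgn_refl, mul_zero], ZMod.val_zero] at b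
  refine (z2 _).resolve_right fun h3 => ?_
  rw [h3, show (1 : ZMod 2).val = 1 from rfl] at a
  obtain ⟨c, rfl⟩ := hn
  have e2 : (4 : ℤ) ∣ 4 * c + 2 := by
    have := dvd_sub b a
    rwa [show ∀ x y : ℤ, j - (2 * c + 1) * (2 * x + k) - (j - (2 * c + 1) * (2 * y + k)) =
      (4 * c + 2) * (y - x) from fun x y => by ring, Nat.cast_one, Nat.cast_zero, sub_zero,
      mul_one] at this
  omega

theorem P_congr (H : ∀ S, Adm S → Heeg O S) {S S' : Finset ℕ} (e : S = S') (h : Adm S) (h' : Adm S')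
    (x : Finset ℕ) : (H S h).P x = (H S' h').P x := by
  subst e
  rfl

/-- The twisted sums in the rational vector space. -/
def PQ (H : ∀ S, Adm S → Heeg O S) (S e : Finset ℕ) : ℚ ⊗[ℤ] Pt := by
  classical exact if h : Adm S then io ((H S h).P e) else 0

theorem PQ_eq (H : ∀ S, Adm S → Heeg O S) (h : Adm S) (e : Finset ℕ) :
    PQ H S e = io ((H S h).P e) := dif_pos h

/-- The data of the induction. -/
def core (hF : FieldStmt) (hC : CurveStmt) (hT : TorsStmt) (hS : SelStmt)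
    (hO : (17 : ℂ) ∈ O.nonunits) {E : AddSubgroup Pt} (hE : ∀ P, P ∈ E ↔ In0 O P)
    (hE4 : ∀ j : ℤ, j • T0 ∈ E → 4 ∣ j) (H : ∀ S, Adm S → Heeg O S) (hG : GKZ H) :
    Core (ℚ ⊗[ℤ] Pt) where
  D S := DD (GS hC E S)
  P := PQ H
  c := hG.choose
  scal _ _ _ u _ hn h := DD_scal u hn h
  mono S S' m μ hs := by
    rintro ⟨V, n, h1, h2, h3⟩ h0
    obtain ⟨h4, k, h5⟩ := mem_GS.1 h2
    refine ⟨V, n, h1, mem_GS.2 ⟨fun σ hσ => h4 σ fun p hp => hσ p (hs hp), k, fun σ => ?_⟩, h3⟩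
    rw [← sum_subset hs fun p _ hp => mul_eq_zero_of_left (h0 p hp) _]
    exact h5 σ
  congr S m μ μ' := by
    rintro ⟨V, n, h1, h2, h3⟩ h0
    obtain ⟨h4, k, h5⟩ := mem_GS.1 h2
    refine ⟨V, n, h1, mem_GS.2 ⟨h4, k, fun σ => ?_⟩, h3⟩
    rw [← sum_congr rfl fun p hp => congrArg (· * sgn σ p) (h0 p hp)]
    exact h5 σ
  tors S μ h := by
    rintro ⟨V, n, -, h2, h3⟩
    exact tors_mem hF hC hT hE4 h h2 (io_eq_zero.1 (by rw [← h3, smul_zero]))
  sel S r μ h := by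
    rintro ⟨V, n, -, h2, h3⟩
    obtain ⟨h4, k, h5⟩ := mem_GS.1 h2
    refine hS S h.1 O hO V μ k h4 (fun σ => io_eq_zero.1 ?_) fun σ => (hE _).1 (h5 σ)
    rw [map_sub, io_zsmul, ← aq_io, ← h3, PQ_eq H h, map_smul, map_smul, aq_y _ hC]
    simp only [smul_smul]
    rw [← sub_smul]
    convert zero_smul ℚ _ using 2
    ring
  gen S h := by
    refine ⟨_, 1, odd_one, gen_mem (H S h) hF hC hE h, ?_⟩
    simp only [PQ_eq H h]
    rw [io_sum _ h, map_add, Int.cast_one, one_smul]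
  gkz S h e he := by
    have e1 : e ∪ S \ e = S := union_sdiff_of_subset (mem_AA.1 he).1
    obtain ⟨s, hs, h1⟩ := hG.choose_spec e (S \ e) (adm_sdiff h he) (e1.symm ▸ h) (pos_of_AA h he)
      disjoint_sdiff
    refine ⟨s, hs, ?_⟩
    have h2 := io_eq_zero.2 h1
    rw [map_sub, io_zsmul, io_zsmul, sub_eq_zero, P_congr H e1 _ h] at h2
    rw [PQ_eq H h, PQ_eq H (adm_sdiff h he)]
    have h0 : (((hG.choose e).den : ℤ) : ℚ) ≠ 0 := by exact_mod_cast (hG.choose e).den_nz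
    refine smul_right_injective _ h0 ?_
    simp only [h2, smul_smul]
    congr 1
    push_cast
    rw [mul_left_comm, Rat.den_mul_eq_num]
  split S h hs p₁ h₁ p₂ h₂ hne := by
    obtain ⟨σ, hσ⟩ := hF.2.2.2.1 S (fun p hp => (h.1 p hp).1)
      fun p => if p = p₁ ∨ p = p₂ then 1 else 0
    have h0 : ∑ p ∈ S, sgn σ p = 0 := by
      rw [sum_congr rfl hσ, ← sum_filter, filter_or, filter_eq', filter_eq', if_pos h₁, if_pos h₂,
        sum_union (by simpa using hne), sum_singleton, sum_singleton]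
      rfl
    refine ⟨LinearMap.id - aq (act σ), ?_, ?_, ?_, fun p hp ha => ?_⟩
    · rintro m μ ⟨V, n, h1, h2, h3⟩
      refine ⟨_, n, h1, diff_mem hF hC h2 σ, ?_⟩
      rw [← map_smul, h3, map_sub]
      rfl
    · refine ⟨_, 1, odd_one, diff_ZZ (H S h) hF hC hE h0, ?_⟩
      have e1 : ZZ (H S h) ga = ZZ (H S h) 0 := by
        unfold ZZ fib
        exact sum_congr (filter_congr fun i _ => forall₂_congr fun p hp => by rw [hs p hp]; rfl)
          fun _ _ => rfl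
      have e2 := io_sum (H S h) h
      rw [e1, ← two_smul ℚ, show (4 / 2 ^ S.card : ℚ) = 2 * (2 / 2 ^ S.card) by ring,
        mul_smul] at e2
      simp only [PQ_eq H h]
      rw [smul_right_injective _ two_ne_zero e2, Int.cast_one, one_smul, map_sub]
      rfl
    · rw [PQ_eq H h, LinearMap.sub_apply, aq_y _ hC, h0]
      simp [sg]
    · rw [PQ_eq H ha, LinearMap.sub_apply, aq_y _ hC, sum_singleton, hσ p hp]
      split_ifs <;> simp [sg, two_smul]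

end IndAux

open IndAux in
theorem induct (hF : FieldStmt) (hC : CurveStmt) (hT : TorsStmt) (hS : SelStmt) (hI : InfStmt)
    (hK : KerStmt) (hV : ConvStmt) (hX : AuxStmt) : IndStmt := by
  rintro ⟨O, hO, H, hG⟩ S h hg
  obtain ⟨E, hE, hE4⟩ := hC.2.2.2.2 O hO
  have h1 : PQ H S ∅ ≠ 0 := ne_zero (core hF hC hT hS hO hE hE4 H hG) hK hV hX h hg
  rw [PQ_eq H h] at h1
  refine hI S h.1 ((4 : ℤ) • (H S h).P ∅) (fun h2 => h1 ?_) fun σ => ?_
  · have := io_eq_zero.2 h2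
    rw [io_zsmul] at this
    exact (smul_eq_zero.1 this).resolve_left (by norm_num)
  · obtain ⟨j, hj⟩ := act_y (H S h) σ
    rw [map_zsmul, hj, zsmul_add, ← mul_zsmul, ← mul_zsmul, ← mul_zsmul, mul_comm 4 j,
      mul_zsmul T0, hC.1, zsmul_zero, add_zero, mul_comm]

end Pool.Agent.Lib.MP_d6ddbd_nt.G
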