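import Pool.Agent.Lib.MP_d6ddbd_nt.G.Stmt

/-! Statements of the pieces of the first moment computation (Heath-Brown's method). -/

open Finset Filter

noncomputable section

namespace Pool.Agent.Lib.MP_d6ddbd_nt.G

section

variable {V : Type} [Fintype V] [LinearOrder V]

/-- A set of pairwise unlinked labels. -/
def Unl (ψ : V → V → ZMod 2) (U : Finset V) : Prop := ∀ u ∈ U, ∀ v ∈ U, ψ u v = ψ v u

instance (ψ : V → V → ZMod 2) : DecidablePred (Unl ψ) := fun _ => by unfold Unl; infer_instance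

/-- The phase of a labelling of the primes. -/
noncomputable def Ph (ψ : V → V → ZMod 2) (l₁ l₂ : V → ZMod 2) (S : Finset ℕ) (f : S → V) :
    ZMod 2 :=
  ∑ p : S, ∑ q : S, al p q * ψ (f p) (f q) + ∑ p : S, (ep p * l₁ (f p) + ga p * l₂ (f p))

/-- The normalised sum over the labellings with values in `W`. -/
noncomputable def TT (ψ : V → V → ZMod 2) (l₁ l₂ : V → ZMod 2) (W : Finset V) (S : Finset ℕ) : ℝ :=
  ((4 : ℝ) ^ S.card)⁻¹ * ∑ f ∈ Fintype.piFinset fun _ : S => W, (sg (Ph ψ l₁ l₂ S f) : ℝ)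

/-- The symbol of two numbers, additively. -/
noncomputable def AL (m k : ℕ) : ZMod 2 := ∑ p ∈ m.primeFactors, ∑ q ∈ k.primeFactors, al p q

/-- The class modulo `4`. -/
noncomputable def EP (m : ℕ) : ZMod 2 := ∑ p ∈ m.primeFactors, ep p

/-- The class modulo `17`. -/
noncomputable def GA (m : ℕ) : ZMod 2 := ∑ p ∈ m.primeFactors, ga p

/-- Squarefree, prime to `102`, pairwise coprime. -/
def Ok (N : V → ℕ) : Prop :=
  (∀ u, Squarefree (N u) ∧ Prs (N u).primeFactors) ∧ ∀ u v, u ≠ v → (N u).Coprime (N v)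

/-- The summand attached to a tuple. -/
noncomputable def GG (ψ : V → V → ZMod 2) (l₁ l₂ : V → ZMod 2) (N : V → ℕ) : ℝ := by
  classical exact if Ok N then ((4 : ℝ) ^ ∑ u, (N u).primeFactors.card)⁻¹ *
    (sg (∑ u, ∑ v, AL (N u) (N v) * ψ u v + ∑ u, (EP (N u) * l₁ u + GA (N u) * l₂ u)) : ℝ) else 0

/-- The sum over the tuples in a box with product at most `X`. -/
noncomputable def SS (ψ : V → V → ZMod 2) (l₁ l₂ : V → ZMod 2) (X : ℕ) (t : V → Finset ℕ) : ℝ :=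
  ∑ N ∈ Fintype.piFinset t with ∏ u, N u ≤ X, GG ψ l₁ l₂ N

/-- The box of the tuples supported on `W`. -/
def tW (W : Finset V) (X : ℕ) (u : V) : Finset ℕ := if u ∈ W then Icc 1 X else {1}

/-- The constant of the main term, times `64`. -/
def cZ (ψ : V → V → ZMod 2) (l₁ l₂ : V → ZMod 2) (U : Finset V) (e g : ZMod 2) : ℤ :=
  ∑ A ∈ U.powerset with (A.card : ZMod 2) = e, ∑ B ∈ U.powerset with (B.card : ZMod 2) = g,
    sg (∑ u ∈ A, ∑ v ∈ A with u < v, ψ u v + ∑ u ∈ A, l₁ u + ∑ u ∈ B, l₂ u)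

end

/-- The squarefree numbers up to `X` that are prime to `102`. -/
noncomputable def Sq (X : ℕ) : Finset ℕ := by
  classical exact (Icc 1 X).filter fun n => Squarefree n ∧ Prs n.primeFactors

/-- The small threshold. -/
noncomputable def sm (k X : ℕ) : ℝ := Real.log X ^ (8 * (k + 1))

/-- The large threshold. -/
noncomputable def lg (k X : ℕ) : ℝ := Real.exp (Real.log X ^ (1 / (8 * (k + 1)) : ℝ))

/-- Tuples and labellings. -/
def BridgeStmt : Prop := ∀ (V : Type) [Fintype V] [LinearOrder V] (ψ : V → V → ZMod 2)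
  (l₁ l₂ : V → ZMod 2) (W : Finset V) (X : ℕ),
    SS ψ l₁ l₂ X (tW W X) = ∑ n ∈ Sq X, TT ψ l₁ l₂ W n.primeFactors

/-- Two linked variables that are not small. -/
def CaseA : Prop := ∀ (V : Type) [Fintype V] [LinearOrder V] (ψ : V → V → ZMod 2)
  (l₁ l₂ : V → ZMod 2), (∀ u, ψ u u = 0) → ∀ ε : ℝ, 0 < ε → ∀ᶠ X : ℕ in atTop,
    ∀ t : V → Finset ℕ, (∀ u, t u ⊆ Icc 1 X) → ∀ u v, ψ u v ≠ ψ v u →
      (∀ m ∈ t u, sm (Fintype.card V) X < m) → (∀ k ∈ t v, sm (Fintype.card V) X < k) →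
      |SS ψ l₁ l₂ X t| ≤ ε * X

/-- A large variable linked only to small ones, not all of them trivial. -/
def CaseB : Prop := ∀ (V : Type) [Fintype V] [LinearOrder V] (ψ : V → V → ZMod 2)
  (l₁ l₂ : V → ZMod 2), (∀ u, ψ u u = 0) → ∀ ε : ℝ, 0 < ε → ∀ᶠ X : ℕ in atTop,
    ∀ t : V → Finset ℕ, (∀ u, t u ⊆ Icc 1 X) → ∀ u,
      (∀ m, m ∈ t u ↔ m ≤ X ∧ lg (Fintype.card V) X < m) →
      (∀ v, ψ u v ≠ ψ v u → ∀ k ∈ t v, (k : ℝ) ≤ sm (Fintype.card V) X) →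
      (∃ v, ψ u v ≠ ψ v u ∧ 1 ∉ t v) → |SS ψ l₁ l₂ X t| ≤ ε * X

/-- At most three large variables. -/
def CaseC : Prop := ∀ (V : Type) [Fintype V] [LinearOrder V] (ψ : V → V → ZMod 2)
  (l₁ l₂ : V → ZMod 2) (ε : ℝ), 0 < ε → ∀ᶠ X : ℕ in atTop,
    ∀ t : V → Finset ℕ, (∀ u, t u ⊆ Icc 1 X) → ∀ W : Finset V, W.card ≤ 3 →
      (∀ u ∉ W, ∀ k ∈ t u, (k : ℝ) ≤ lg (Fintype.card V) X) → |SS ψ l₁ l₂ X t| ≤ ε * X

/-- Only the maximal unlinked sets contribute. -/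
def HBStmt : Prop := ∀ (V : Type) [Fintype V] [LinearOrder V] (ψ : V → V → ZMod 2)
  (l₁ l₂ : V → ZMod 2), (∀ u, ψ u u = 0) → (∀ U, Unl ψ U → U.card ≤ 4) → ∀ ε : ℝ, 0 < ε →
    ∀ᶠ X : ℕ in atTop, |SS ψ l₁ l₂ X (tW univ X) -
      ∑ U ∈ powersetCard 4 univ with Unl ψ U, SS ψ l₁ l₂ X (tW U X)| ≤ ε * X

/-- The main term. -/
def MainStmt : Prop := ∀ (V : Type) [Fintype V] [LinearOrder V] (ψ : V → V → ZMod 2)
  (l₁ l₂ : V → ZMod 2), (∀ u, ψ u u = 0) → ∀ U, Unl ψ U → U.card = 4 → ∀ S : Finset ℕ, Prs S →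
    |TT ψ l₁ l₂ U S - cZ ψ l₁ l₂ U (∑ p ∈ S, ep p) (∑ p ∈ S, ga p) / 64| ≤
      256 * ∑ e : ZMod 2, ∑ g : ZMod 2, (1 / 2 : ℝ) ^ (S.filter fun p => ep p = e ∧ ga p = g).card

/-- A function of the set of primes with an expansion of mean value `c`. -/
def Expd (F : Finset ℕ → ℕ) (c : ℤ) : Prop := ∃ (V : Type) (_ : Fintype V) (_ : LinearOrder V)
  (ψ : V → V → ZMod 2) (l₁ l₂ : V → ZMod 2), (∀ u, ψ u u = 0) ∧ (∀ U, Unl ψ U → U.card ≤ 4) ∧
    (∀ S, (F S : ℝ) = TT ψ l₁ l₂ univ S) ∧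
    ∀ e, ∑ U ∈ powersetCard 4 univ with Unl ψ U, cZ ψ l₁ l₂ U e 0 = 64 * c

/-- The two expansions. -/
def ExpStmt : Prop := Expd (fun S => (Ker S).card) 3 ∧
  Expd (fun S => ((Ker S).filter fun x => x.1 = ∅).card) 1

end Pool.Agent.Lib.MP_d6ddbd_nt.G
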