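import Pool.Agent.Lib.MP_d6ddbd_nt.G.MStmt

/-! The finite data of the expansions of the size of the kernel. -/

open Finset

noncomputable section

namespace Pool.Agent.Lib.MP_d6ddbd_nt.G

namespace MomAux

section

variable {V A : Type}

/-- The pairing of the expansion. -/
def ψ (e : V → A × (ZMod 2 × ZMod 2)) (a b : A → ZMod 2) (u v : V) : ZMod 2 :=
  (e u).2.1 * (a (e u).1 + a (e v).1) + (e u).2.2 * (b (e u).1 + b (e v).1)

/-- The first linear term. -/
def l₁ (e : V → A × (ZMod 2 × ZMod 2)) (a b : A → ZMod 2) (u : V) : ZMod 2 :=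
  (e u).2.1 * (a (e u).1 + b (e u).1)

/-- The second linear term. -/
def l₂ (e : V → A × (ZMod 2 × ZMod 2)) (a : A → ZMod 2) (u : V) : ZMod 2 := (e u).2.2 * a (e u).1

/-- There are no five increasing pairwise unlinked labels. -/
def NoFive [LT V] (φ : V → V → ZMod 2) : Prop := ∀ u v, u < v → φ u v = φ v u →
  ∀ w, v < w → φ u w = φ w u → φ v w = φ w v →
  ∀ x, w < x → φ u x = φ x u → φ v x = φ x v → φ w x = φ x w →
  ∀ y, x < y → φ u y = φ y u → φ v y = φ y v → φ w y = φ y w → φ x y ≠ φ y x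

end

/-- Four bits. -/
def e16 (u : Fin 16) : (ZMod 2 × ZMod 2) × (ZMod 2 × ZMod 2) :=
  (((u.1 : ℕ), (u.1 / 2 : ℕ)), ((u.1 / 4 : ℕ), (u.1 / 8 : ℕ)))

/-- Three bits. -/
def e8 (u : Fin 8) : ZMod 2 × (ZMod 2 × ZMod 2) := ((u.1 : ℕ), ((u.1 / 2 : ℕ), (u.1 / 4 : ℕ)))

theorem bij16 : Function.Bijective e16 := by decide +kernel

theorem bij8 : Function.Bijective e8 := by decide +kernel

set_option synthInstance.maxSize 2048 in
theorem unl16 : NoFive (ψ e16 Prod.fst Prod.snd) := by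
  unfold NoFive
  decide +kernel

set_option synthInstance.maxSize 2048 in
theorem unl8 : NoFive (ψ e8 (fun _ => 0) id) := by
  unfold NoFive
  decide +kernel

theorem sum16 : ∀ e, ∑ U ∈ powersetCard 4 univ with Unl (ψ e16 Prod.fst Prod.snd) U,
    cZ (ψ e16 Prod.fst Prod.snd) (l₁ e16 Prod.fst Prod.snd) (l₂ e16 Prod.fst) U e 0 = 64 * 3 := by
  decide +kernel

theorem sum8 : ∀ e, ∑ U ∈ powersetCard 4 univ with Unl (ψ e8 (fun _ => 0) id) U,
    cZ (ψ e8 (fun _ => 0) id) (l₁ e8 (fun _ => 0) id) (l₂ e8 fun _ => 0) U e 0 = 64 * 1 := by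
  decide +kernel

end MomAux

end Pool.Agent.Lib.MP_d6ddbd_nt.G
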