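import Pool.Agent.Lib.MP_f64879_nt.SW

/-! Bounds for the derivatives of `L'/L` with a small power of the height. -/

namespace Pool.Agent.Lib.MP_d6ddbd_nt.G.SwAux

open Complex Finset Filter Topology Metric DirichletCharacter MP_164d34_nt MP_164d34_nt.Fam
  MP_f64879_nt

/-- a value of the zeta function -/
noncomputable def zS (e : ℝ) : ℝ := ∑' n : ℕ, ((n : ℝ) + 1) ^ (-e - 1)

theorem zS_nonneg (e : ℝ) : 0 ≤ zS e := tsum_nonneg fun _ => by positivity

theorem head {e : ℝ} (h0 : 0 < e) {c : ℕ → ℂ} (hc : ∀ n, ‖c n‖ ≤ 1) {s : ℂ} (hs : 1 - e ≤ s.re)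
    (N : ℕ) : ‖∑ n ∈ range N, c n * ((n + 1 : ℝ) : ℂ) ^ (-s)‖ ≤ zS e * ((N : ℝ) + 1) ^ (2 * e) := by
  refine (norm_sum_le_of_le (n := fun n : ℕ => ((n : ℝ) + 1) ^ (-e - 1) * ((N : ℝ) + 1) ^ (2 * e))
    _ fun n hn => ?_).trans ?_
  · have h1 : (n : ℝ) ≤ N := by exact_mod_cast (mem_range.1 hn).le
    have h2 : (0 : ℝ) ≤ n := n.cast_nonneg
    rw [norm_mul, norm_cpow_eq_rpow_re_of_pos (by positivity), neg_re]
    calc _ ≤ 1 * ((n : ℝ) + 1) ^ (-e - 1 + 2 * e) := by gcongr; exacts [hc n, by linarith, by linarith]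
      _ ≤ _ := by rw [one_mul, Real.rpow_add (by positivity)]; gcongr
  · rw [← sum_mul]
    gcongr
    exact (zb_summable h0).sum_le_tsum _ fun _ _ => by positivity

theorem tail {e : ℝ} (h0 : 0 < e) (h1 : e ≤ 1 / 2) {f : ℕ → ℂ} {Z σ : ℝ} (hσ : 1 - e ≤ σ)
    (hZ : 0 ≤ Z) (hf : ∀ n, ‖f n‖ ≤ Z * ((n : ℝ) + 1) ^ (-σ - 1)) :
    ‖∑' n, f n - ∑ n ∈ range ⌈Z⌉₊, f n‖ ≤ zS e * ((⌈Z⌉₊ : ℝ) + 1) ^ (2 * e) := by
  have hs : Summable f := .of_norm_bounded ((zb_summable (a := σ) (by linarith)).mul_left Z) hf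
  rw [← hs.sum_add_tsum_nat_add ⌈Z⌉₊, add_sub_cancel_left]
  refine tsum_of_norm_bounded ((zb_summable h0).hasSum.mul_right _) fun n => (hf _).trans ?_
  have h2 := Nat.le_ceil Z
  have h3 : (0 : ℝ) ≤ n := n.cast_nonneg
  push_cast
  generalize (⌈Z⌉₊ : ℝ) = M at *
  have h4 : 0 < M + 1 := by linarith
  have h5 : 0 < n + M + 1 := by linarith
  calc _ ≤ (M + 1) * (n + M + 1) ^ (-e - 1 - (1 - 2 * e)) :=
        mul_le_mul (by linarith) (Real.rpow_le_rpow_of_exponent_le (by linarith) (by linarith))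
          (by positivity) h4.le
    _ = (M + 1) ^ (2 * e) * (n + M + 1) ^ (-e - 1) * ((M + 1) / (n + M + 1)) ^ (1 - 2 * e) := by
        have h6 := Real.rpow_add h4 (2 * e) (1 - 2 * e)
        rw [add_sub_cancel, Real.rpow_one] at h6
        rw [Real.rpow_sub h5 (-e - 1), Real.div_rpow h4.le h5.le]
        nth_rewrite 1 [h6]
        ring
    _ ≤ (n + 1) ^ (-e - 1) * (M + 1) ^ (2 * e) := by
        rw [mul_comm ((n + 1 : ℝ) ^ (-e - 1))]
        refine (mul_le_of_le_one_right (by positivity) (Real.rpow_le_one (by positivity)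
          (div_le_one_of_le₀ (by linarith) h5.le) (by linarith))).trans ?_
        exact mul_le_mul_of_nonneg_left
          (Real.rpow_le_rpow_of_nonpos (by linarith) (by linarith) (by linarith)) (by positivity)

theorem L_small2 {e : ℝ} (h0 : 0 < e) (h1 : e ≤ 1 / 2) : ∃ C : ℝ, 1 ≤ C ∧
    ∀ (q : ℕ) [NeZero q] (χ : DirichletCharacter ℂ q), χ ≠ 1 → ∀ s : ℂ, 1 - e ≤ s.re →
      ‖χ.LFunction s‖ ≤ C * (q : ℝ) ^ (2 * e) * (‖s‖ + 2) ^ (2 * e) := by
  refine ⟨2 * zS e + 1, by linarith [zS_nonneg e], fun q _ χ hχ s hs => ?_⟩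
  have hq : (1 : ℝ) ≤ q := by exact_mod_cast NeZero.one_le
  have a1 := tail h0 h1 (f := fun n => lbTerm χ n s) (Z := q * ‖s‖) hs (by positivity) fun n => by
    rw [lbTerm, norm_mul, mul_assoc]
    exact mul_le_mul (lb_partial hχ _) (zb_step (by linarith) (by positivity)
      ⟨by linarith, le_rfl⟩) (norm_nonneg _) (by positivity)
  have hp : ∀ N : ℕ, ∑ n ∈ range N, lbTerm χ n s =
      ∑ n ∈ range N, χ (n + 1) * ((n + 1 : ℝ) : ℂ) ^ (-s) -
        (∑ m ∈ range N, χ (m + 1)) * ((N + 1 : ℝ) : ℂ) ^ (-s) := by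
    intro N
    induction N with
    | zero => simp
    | succ N ih =>
      rw [sum_range_succ, ih, lbTerm, sum_range_succ, sum_range_succ, Nat.cast_succ (R := ℝ)]
      ring
  have a0 := (Nat.ceil_lt_add_one (show 0 ≤ q * ‖s‖ by positivity)).le
  rw [← lb_eq hχ (by linarith), hp] at a1
  generalize ⌈q * ‖s‖⌉₊ = N at *
  have a2 := head h0 (c := fun n => χ (n + 1)) (fun _ => χ.norm_le_one _) hs N
  have h2 : (0 : ℝ) ≤ N := N.cast_nonneg
  have a3 : ‖(∑ m ∈ range N, χ (m + 1)) * ((N + 1 : ℝ) : ℂ) ^ (-s)‖ ≤ ((N : ℝ) + 1) ^ (2 * e) := by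
    rw [norm_mul, norm_cpow_eq_rpow_re_of_pos (by positivity), neg_re]
    calc _ ≤ ((N : ℝ) + 1) ^ (1 : ℝ) * ((N : ℝ) + 1) ^ (2 * e - 1) := by
          gcongr
          · exact (norm_sum_le_of_le _ fun _ _ => χ.norm_le_one _).trans (by simp)
          · linarith
          · linarith
      _ = _ := by rw [← Real.rpow_add (by positivity)]; congr 1; ring
  have a4 : ((N : ℝ) + 1) ^ (2 * e) ≤ (q : ℝ) ^ (2 * e) * (‖s‖ + 2) ^ (2 * e) := by
    rw [← Real.mul_rpow (by positivity) (by positivity)]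
    gcongr
    linarith
  have a5 := mul_le_mul_of_nonneg_left a4 (show 0 ≤ 2 * zS e + 1 by linarith [zS_nonneg e])
  linarith [norm_le_norm_add_norm_sub' (χ.LFunction s) (∑ n ∈ range N, χ (n + 1) *
    ((n + 1 : ℝ) : ℂ) ^ (-s) - (∑ m ∈ range N, χ (m + 1)) * ((N + 1 : ℝ) : ℂ) ^ (-s)),
    norm_sub_le (∑ n ∈ range N, χ (n + 1) * ((n + 1 : ℝ) : ℂ) ^ (-s))
      ((∑ m ∈ range N, χ (m + 1)) * ((N + 1 : ℝ) : ℂ) ^ (-s))]

theorem zeta2 {e : ℝ} (h0 : 0 < e) (h1 : e ≤ 1 / 2) {s : ℂ} (hs : 1 < s.re) :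
    ‖riemannZeta s‖ ≤ (2 * zS e + 3) * (1 / ‖s - 1‖ + (‖s‖ + 2) ^ (2 * e)) := by
  have h2 : s ≠ 1 := fun h => by simp [h] at hs
  have a1 := tail h0 h1 (f := fun n => zbTerm n s) (Z := ‖s‖) (σ := s.re) (by linarith)
    (norm_nonneg _) (zb_term_le (by linarith) h2)
  have hp : ∀ N : ℕ, ∑ n ∈ range N, zbTerm n s = ∑ n ∈ range N, 1 * ((n + 1 : ℝ) : ℂ) ^ (-s) -
      (((N + 1 : ℝ) : ℂ) ^ (1 - s) - 1) / (1 - s) := by
    intro N
    induction N with
    | zero => simp
    | succ N ih =>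
      rw [sum_range_succ, sum_range_succ, ih, zbTerm,
        show ((N + 1 : ℕ) : ℝ) + 1 = N + 2 by push_cast; ring]
      ring
  have a0 := (Nat.ceil_lt_add_one (norm_nonneg s)).le
  rw [hp] at a1
  generalize ⌈‖s‖⌉₊ = N at *
  have a2 := head h0 (c := fun _ => 1) (by simp) (s := s) (by linarith) N
  have a3 : ‖(((N + 1 : ℝ) : ℂ) ^ (1 - s) - 1) / (1 - s)‖ ≤ 2 * (1 / ‖s - 1‖) := by
    rw [norm_div, norm_sub_rev 1 s, mul_one_div]
    gcongr
    refine (norm_sub_le _ _).trans ?_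
    rw [norm_cpow_eq_rpow_re_of_pos (by positivity), norm_one]
    linarith [Real.rpow_le_one_of_one_le_of_nonpos (x := (N : ℝ) + 1) (z := (1 - s).re)
      (by linarith [N.cast_nonneg (α := ℝ)]) (by simpa using hs.le)]
  have a4 : zS e * ((N : ℝ) + 1) ^ (2 * e) ≤ zS e * (‖s‖ + 2) ^ (2 * e) := by
    have := zS_nonneg e
    gcongr zS e * ?_ ^ _
    linarith
  have a5 := norm_add_le (1 / (s - 1)) (∑' n, zbTerm n s)
  rw [← zb_eq_of_one_lt hs, norm_div, norm_one] at a5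
  have a6 : 0 ≤ zS e * (1 / ‖s - 1‖) := mul_nonneg (zS_nonneg e) (by positivity)
  have a7 : 0 ≤ (‖s‖ + 2) ^ (2 * e) := by positivity
  linarith [norm_le_norm_add_norm_sub' (∑' n, zbTerm n s) (∑ n ∈ range N, 1 *
    ((n + 1 : ℝ) : ℂ) ^ (-s) - (((N + 1 : ℝ) : ℂ) ^ (1 - s) - 1) / (1 - s)),
    norm_sub_le (∑ n ∈ range N, 1 * ((n + 1 : ℝ) : ℂ) ^ (-s))
      ((((N + 1 : ℝ) : ℂ) ^ (1 - s) - 1) / (1 - s))]

theorem triv2 {ε e : ℝ} (hε : 0 < ε) (h0 : 0 < e) (h1 : e ≤ 1 / 2) : ∃ C : ℝ, 1 ≤ C ∧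
    ∀ (q : ℕ) [NeZero q] (s : ℂ), 1 < s.re → ‖(1 : DirichletCharacter ℂ q).LFunction s‖ ≤
      C * (q : ℝ) ^ ε * (1 / ‖s - 1‖ + (‖s‖ + 2) ^ (2 * e)) := by
  obtain ⟨C, hC, h⟩ := sum_pf
  have e1 : 1 ≤ Real.exp C := Real.one_le_exp hC.le
  have e2 : 1 ≤ 1 + 1 / ε := le_add_of_nonneg_right (by positivity)
  refine ⟨Real.exp C * (1 + 1 / ε) * (2 * zS e + 3), one_le_mul_of_one_le_of_one_le
    (one_le_mul_of_one_le_of_one_le e1 e2) (by linarith [zS_nonneg e]), fun q _ s hre => ?_⟩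
  have hq : (1 : ℝ) ≤ q := by exact_mod_cast NeZero.one_le
  have a2 : ‖∏ p ∈ q.primeFactors, (1 - (p : ℂ) ^ (-s))‖ ≤ Real.exp C * (1 + 1 / ε) * (q : ℝ) ^ ε := by
    calc _ ≤ ∏ p ∈ q.primeFactors, (1 + 1 / (p : ℝ)) := by
          rw [norm_prod]
          refine prod_le_prod (fun _ _ => norm_nonneg _) fun p hp => (norm_sub_le _ _).trans ?_
          have := Nat.pos_of_mem_primeFactors hp
          rw [norm_one, norm_natCast_cpow_of_pos this, one_div, ← Real.rpow_neg_one]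
          gcongr
          · exact_mod_cast this
          · simpa using hre.le
      _ ≤ Real.exp (Real.log (1 + Real.log q) + C) :=
          (Real.prod_one_add_le_exp_sum _ fun _ => by positivity).trans (Real.exp_le_exp.2 (h q))
      _ ≤ _ := by
          have b1 := Real.log_le_rpow_div (show (0 : ℝ) ≤ q by linarith) hε
          have b2 := Real.one_le_rpow hq hε.le
          rw [Real.exp_add, Real.exp_log (by linarith [Real.log_nonneg hq]), mul_comm, mul_assoc]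
          gcongr
          rw [add_mul, one_mul, one_div, inv_mul_eq_div]
          linarith
  change ‖LFunctionTrivChar q s‖ ≤ _
  rw [LFunctionTrivChar_eq_mul_riemannZeta fun h => by simp [h] at hre, norm_mul]
  exact (mul_le_mul a2 (zeta2 h0 h1 hre) (norm_nonneg _) (by positivity)).trans_eq (by ring)

theorem zf2 {ε : ℝ} (hε : 0 < ε) : ∃ K : ℝ, 1 ≤ K ∧ ∀ (q : ℕ) [NeZero q]
    (χ : DirichletCharacter ℂ q), χ.IsPrimitive → χ ≠ 1 → ∀ s : ℂ, 1 < s.re → s.re ≤ 2 → ∀ j : ℕ,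
      ‖LSeries (LSeries.logMul^[j] ((fun n : ℕ => χ n) *
        fun n => (ArithmeticFunction.vonMangoldt n : ℂ))) s‖ ≤
        j.factorial * (K * (q : ℝ) ^ ε * (‖s‖ + 2) ^ ε) ^ (20 * (j + 1)) := by
  set e := min (ε / 2) (1 / 4) with he
  have e0 : 0 < e := by positivity
  have e1 : e ≤ 1 / 4 := min_le_right _ _
  obtain ⟨C, hC, hsm⟩ := L_small2 e0 (by linarith)
  obtain ⟨C', hC', htr⟩ := triv2 hε e0 (by linarith)
  obtain ⟨c, hc, hsg⟩ := siegel hε
  set K := 6 * C / e + 1 / c + 7 * C' with hK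
  clear_value K
  have k1 : 6 * C / e ≤ K := by have : 0 < 1 / c := by positivity
                                linarith
  have k0 : 16 * C ≤ 6 * C / e := by rw [le_div_iff₀ e0]; nlinarith
  have k2 : 1 / c ≤ K := by linarith
  have k3 : 7 * C' ≤ K := by have : 0 < 1 / c := by positivity
                             linarith
  refine ⟨K, by linarith, fun q _ χ hp h1 s hs1 hs2 j => ?_⟩
  have hq : (1 : ℝ) ≤ q := by exact_mod_cast NeZero.one_le
  set Q := (q : ℝ) ^ ε with hQ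
  have Q1 : 1 ≤ Q := Real.one_le_rpow hq hε.le
  set T := ‖s‖ + 2 with hT
  have T1 : 2 ≤ T := by linarith [norm_nonneg s]
  set V := T ^ ε with hV
  have V1 : 1 ≤ V := Real.one_le_rpow (by linarith) hε.le
  have e2 : 2 * e ≤ ε := by linarith [min_le_left (ε / 2) (1 / 4)]
  have hw3 : ∀ w : ℂ, ‖w‖ ≤ 2 * T → (‖w‖ + 2) ^ (2 * e) ≤ 3 * V := fun w hw =>
    calc _ ≤ (3 * T) ^ (2 * e) := by gcongr; linarith
      _ = 3 ^ (2 * e) * T ^ (2 * e) := Real.mul_rpow (by norm_num) (by linarith)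
      _ ≤ 3 ^ (1 : ℝ) * T ^ ε := by gcongr <;> linarith
      _ = _ := by rw [Real.rpow_one]
  have hsm' : ∀ ψ : DirichletCharacter ℂ q, ψ ≠ 1 → ∀ w : ℂ, 1 - e ≤ w.re → ‖w‖ ≤ 2 * T →
      ‖ψ.LFunction w‖ ≤ C * Q * (3 * V) := fun ψ h w hw hw' => (hsm q ψ h w hw).trans (by
    have := Real.rpow_le_rpow_of_exponent_le hq e2
    have := hw3 w hw'
    gcongr)
  have htr' : ∀ w : ℂ, 1 < w.re → ‖w‖ ≤ 2 * T → ‖(1 : DirichletCharacter ℂ q).LFunction w‖ ≤
      C' * Q * (1 / ‖w - 1‖ + 3 * V) := fun w hw hw' => (htr q w hw).trans (by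
    have := hw3 w hw'
    gcongr)
  clear_value V
  set R := K * Q * V with hR
  clear_value R
  have QT : 1 ≤ Q * V := by nlinarith
  have RK : K ≤ R := by rw [hR, mul_assoc]; exact le_mul_of_one_le_right (by linarith) QT
  have R2 : 2 ≤ R := by linarith
  have R0 : 0 < R := by linarith
  have hd := χ.differentiable_LFunction h1
  set U : Set ℂ := {w | 1 - e / 2 ≤ w.re} ∩ closedBall 0 T with hU
  have hD : ∀ w ∈ U, ‖deriv χ.LFunction w‖ ≤ R := fun w hw => by
    have a1 := mem_closedBall_zero_iff.1 hw.2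
    refine (Complex.norm_deriv_le_of_forall_mem_sphere_norm_le (R := e / 2) (C := C * Q * (3 * V))
      (by linarith) hd.diffContOnCl fun z hz => ?_).trans ?_
    · have a2 := mem_sphere_iff_norm.1 hz
      have a3 := (abs_le.1 ((abs_re_le_norm _).trans a2.le)).1
      have a4 := norm_sub_norm_le z w
      have a5 : 1 - e / 2 ≤ w.re := hw.1
      rw [sub_re] at a3
      exact hsm' χ h1 z (by linarith) (by linarith)
    · calc _ = 6 * C / e * Q * V := by field_simp; ring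
        _ ≤ _ := by rw [hR]; gcongr
  have hLip : ∀ w ∈ U, ∀ w' ∈ U, ‖χ.LFunction w' - χ.LFunction w‖ ≤ R * ‖w' - w‖ := fun w hw w' hw' =>
    ((convex_halfSpace_re_ge _).inter (convex_closedBall _ _)).norm_image_sub_le_of_norm_deriv_le
      (fun x _ => hd x) hD hw hw'
  set η := (R ^ 20)⁻¹ with hη
  have η0 : 0 < η := by positivity
  have η1 : η ≤ R⁻¹ := inv_anti₀ R0 (le_self_pow₀ (by linarith) (by norm_num))
  clear_value η
  have η2 : η ≤ e / 4 := η1.trans (by
    rw [inv_le_comm₀ R0 (by linarith), inv_div]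
    refine le_trans ?_ (k1.trans RK)
    gcongr
    linarith)
  have hlow : ∀ w ∈ U, 1 + η ≤ w.re → w.re ≤ 3 → 4 * η * R ≤ ‖χ.LFunction w‖ := by
    intro w hw a1 a2
    have a0 := mem_closedBall_zero_iff.1 hw.2
    by_cases hn : χ ^ 2 = 1 ∧ ‖w - 1‖ ≤ 1 / (4 * R ^ 2)
    · have b1 : 1 / R ≤ ‖χ.LFunction 1‖ := by
        refine le_trans ?_ (hsg q χ hp h1 hn.1)
        rw [Real.rpow_neg (by linarith), ← hQ, ← div_eq_mul_inv, div_le_div_iff₀ R0 (by linarith)]
        rw [div_le_iff₀ hc] at k2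
        calc 1 * Q ≤ K * c * Q * V := by
              rw [mul_assoc (K * c)]
              gcongr
              nlinarith
          _ = _ := by rw [hR]; ring
      have b2 := hLip 1 ⟨by simp; linarith, by simp; linarith⟩ w hw
      have b3 := norm_sub_norm_le (χ.LFunction 1) (χ.LFunction w)
      rw [norm_sub_rev] at b3
      have b4 : R * ‖w - 1‖ ≤ 1 / R / 4 := (mul_le_mul_of_nonneg_left hn.2 R0.le).trans_eq (by
        field_simp)
      have b5 : 4 * η * R ≤ 1 / R / 2 := by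
        have : (2 : ℝ) ^ 18 ≤ R ^ 18 := by gcongr
        rw [hη, div_div, le_div_iff₀ (by positivity)]
        field_simp
        linarith
      have : 0 < 1 / R := by positivity
      linarith
    set x := w.re - 1 with hx
    have x0 : 0 < x := by linarith
    have hw' : w = 1 + x + I * w.im := by apply Complex.ext <;> simp [hx]
    have b0 := χ.norm_LFunction_product_ge_one x0 w.im
    rw [← hw', norm_mul, norm_mul, norm_pow, norm_pow] at b0
    have b1 : ‖LFunctionTrivChar q (1 + x)‖ ≤ R / η := by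
      have c1 : ‖(1 + x : ℂ)‖ ≤ 3 := (norm_add_le _ _).trans (by
        rw [norm_one, norm_real, Real.norm_of_nonneg x0.le]; linarith)
      refine (htr' (1 + x) (by simpa using x0) (by linarith)).trans ?_
      have c2 : 1 / x ≤ 1 / η := by gcongr; linarith
      have c3 : 1 ≤ 1 / η := by rw [le_div_iff₀ η0]; linarith
      rw [add_sub_cancel_left, norm_real, Real.norm_of_nonneg x0.le]
      calc _ ≤ C' * Q * (7 * (V * (1 / η))) := by gcongr; nlinarith
        _ = 7 * C' * Q * V / η := by ring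
        _ ≤ K * Q * V / η := by gcongr
        _ = _ := by rw [hR]
    have n2 : ‖(1 + x + 2 * I * w.im : ℂ)‖ ≤ 2 * T := by
      rw [show (1 + x + 2 * I * w.im : ℂ) = w + I * w.im by rw [hw']; simp; ring]
      refine (norm_add_le _ _).trans ?_
      rw [norm_mul, norm_I, one_mul, norm_real, Real.norm_eq_abs]
      linarith [abs_im_le_norm w]
    have R3 : 1 ≤ 4 * R ^ 2 := by nlinarith
    have b2 : ‖(χ ^ 2).LFunction (1 + x + 2 * I * w.im)‖ ≤ R * (4 * R ^ 2) := by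
      by_cases h2 : χ ^ 2 = 1
      · have c1 : 1 / (4 * R ^ 2) < ‖w - 1‖ := not_le.1 fun h => hn ⟨h2, h⟩
        have c2 : ‖w - 1‖ ≤ ‖(1 + x + 2 * I * w.im : ℂ) - 1‖ := by
          rw [← sq_le_sq₀ (norm_nonneg _) (norm_nonneg _), ← normSq_eq_norm_sq, ← normSq_eq_norm_sq,
            normSq_apply, normSq_apply]
          simp [hx]
          nlinarith [mul_self_nonneg w.im]
        have c3 : 1 / ‖(1 + x + 2 * I * w.im : ℂ) - 1‖ ≤ 4 * R ^ 2 :=
          (one_div_le (lt_of_lt_of_le (by positivity) (c1.le.trans c2)) (by positivity)).2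
            (c1.le.trans c2)
        rw [h2]
        refine (htr' _ (by simpa using x0) n2).trans ?_
        calc _ ≤ C' * Q * (7 * V * (4 * R ^ 2)) := by gcongr; nlinarith
          _ = 7 * C' * Q * V * (4 * R ^ 2) := by ring
          _ ≤ K * Q * V * (4 * R ^ 2) := by gcongr
          _ = _ := by rw [← hR]
      · refine (hsm' _ h2 _ (by simp; linarith) n2).trans ?_
        calc _ = 3 * C * Q * V * 1 := by ring
          _ ≤ K * Q * V * (4 * R ^ 2) := by
            have : 0 ≤ K := by linarith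
            gcongr
            linarith
          _ = _ := by rw [← hR]
    by_contra hlt
    have b3 : (1 : ℝ) ≤ (R / η) ^ 3 * (4 * η * R) ^ 4 * (R * (4 * R ^ 2)) :=
      b0.le.trans (by gcongr; exact (not_le.1 hlt).le)
    have b4 : (R / η) ^ 3 * (4 * η * R) ^ 4 * (R * (4 * R ^ 2)) = 1024 / R ^ 10 := by
      rw [hη]; field_simp; norm_num
    have b5 : (16 : ℝ) ^ 10 ≤ R ^ 10 := by gcongr; linarith
    rw [b4, le_div_iff₀ (by positivity)] at b3
    linarith
  have hball : ∀ w ∈ closedBall s η, χ.LFunction w ≠ 0 ∧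
      ‖-deriv χ.LFunction w / χ.LFunction w‖ ≤ η⁻¹ := by
    intro w hw
    have a1 := mem_closedBall_iff_norm.1 hw
    have a2 := abs_le.1 ((abs_re_le_norm _).trans a1)
    have a3 := norm_sub_norm_le w s
    rw [sub_re] at a2
    have hwU : w ∈ U := ⟨show 1 - e / 2 ≤ w.re by linarith, mem_closedBall_zero_iff.2 (by linarith)⟩
    set y := max 0 (1 + η - w.re) with hy
    have y0 : 0 ≤ y := le_max_left _ _
    have y1 : 1 + η - w.re ≤ y := le_max_right _ _
    have y2 : y ≤ 2 * η := max_le (by linarith) (by linarith)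
    have a4 := norm_add_le w y
    rw [norm_real, Real.norm_of_nonneg y0] at a4
    have hw' : w + y ∈ U := ⟨show 1 - e / 2 ≤ (w + y).re by simp; linarith, mem_closedBall_zero_iff.2 (by linarith)⟩
    have a5 := hlow _ hw' (by simp; linarith) (by simp; linarith)
    have a6 := hLip w hwU _ hw'
    rw [add_sub_cancel_left, norm_real, Real.norm_of_nonneg y0] at a6
    have a7 := norm_sub_norm_le (χ.LFunction (w + y)) (χ.LFunction w)
    have a8 := mul_le_mul_of_nonneg_left y2 R0.le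
    have a9 : 0 < η * R := by positivity
    have b1 : η * R ≤ ‖χ.LFunction w‖ := by linarith
    refine ⟨norm_pos_iff.1 (by linarith), ?_⟩
    rw [norm_div, norm_neg, div_le_iff₀ (by linarith), ← div_eq_inv_mul, le_div_iff₀ η0]
    nlinarith [hD w hwU]
  have hev : LSeries ((fun n : ℕ => χ n) * fun n => (ArithmeticFunction.vonMangoldt n : ℂ)) =ᶠ[𝓝 s]
      fun w => -deriv χ.LFunction w / χ.LFunction w := by
    filter_upwards [(isOpen_lt continuous_const continuous_re).mem_nhds hs1] with w hw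
    rw [χ.LSeries_twist_vonMangoldt_eq hw, χ.deriv_LFunction_eq_deriv_LSeries hw,
      χ.LFunction_eq_LSeries hw]
  have habs : LSeries.abscissaOfAbsConv ((fun n : ℕ => χ n) *
      fun n => (ArithmeticFunction.vonMangoldt n : ℂ)) < s.re :=
    (LSeries.abscissaOfAbsConv_le_of_forall_lt_LSeriesSummable (x := 1) fun y hy =>
      χ.LSeriesSummable_twist_vonMangoldt (by simpa using hy)).trans_lt (by exact_mod_cast hs1)
  have h2 := congrArg norm (LSeries_iteratedDeriv j habs)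
  rw [norm_mul, norm_pow, norm_neg, norm_one, one_pow, one_mul, hev.iteratedDeriv_eq] at h2
  rw [← h2]
  refine (Complex.norm_iteratedDeriv_le_of_forall_mem_sphere_norm_le j η0
    (DifferentiableOn.diffContOnCl_ball (U := closedBall s η) (fun w hw =>
      ((hd.deriv w).neg.div (hd w) (hball w hw).1).differentiableWithinAt) subset_rfl)
    fun z hz => (hball z (sphere_subset_closedBall hz)).2).trans_eq ?_
  rw [hη, inv_inv, inv_pow, div_inv_eq_mul]
  ring

end Pool.Agent.Lib.MP_d6ddbd_nt.G.SwAux
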