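import Pool.Agent.Lib.MP_d6ddbd_nt.G.Sw1

/-! Bounds for the derivatives of the Dirichlet series with coefficients `μ² 4 ^ (-ω) χ`. -/

namespace Pool.Agent.Lib.MP_d6ddbd_nt.G.SwAux

open Complex Finset LSeries ArithmeticFunction MP_164d34_nt MP_f64879_nt
open scoped ArithmeticFunction.Moebius ArithmeticFunction.Omega ArithmeticFunction.zeta

theorem sm {a : ℕ → ℂ} (ha : abscissaOfAbsConv a ≤ 1) {s : ℂ} (hs : 1 < s.re) (j : ℕ) :
    LSeriesSummable (logMul^[j] a) s :=
  LSeriesSummable_of_abscissaOfAbsConv_lt_re (by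
    rw [absicssaOfAbsConv_logPowMul]
    exact ha.trans_lt (by exact_mod_cast hs))

theorem leib {a P : ℕ → ℂ} (ha : abscissaOfAbsConv a ≤ 1) (hP : abscissaOfAbsConv P ≤ 1)
    (h : ∀ n : ℕ, (Real.log n : ℝ) * a n = -∑ p ∈ n.divisorsAntidiagonal, P p.1 * a p.2)
    {s : ℂ} (hs : 1 < s.re) {k : ℕ} {M : ℝ} (hM : 1 ≤ M)
    (hb : ∀ i < k, ‖LSeries (logMul^[i] P) s‖ ≤ M) :
    ∀ j ≤ k, ‖LSeries (logMul^[j] a) s‖ ≤ (2 ^ k * M) ^ j * ‖LSeries a s‖ := by
  intro j
  induction j using Nat.strong_induction_on with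
  | _ j ih =>
    intro hj
    obtain _ | j := j
    · simp
    have e : logMul^[j + 1] a = ∑ i ∈ range (j + 1),
        (-(j.choose i : ℂ)) • convolution (logMul^[i] P) (logMul^[j - i] a) := by
      ext n
      rw [logMul_iter, pow_succ, mul_assoc, h, Finset.sum_apply]
      simp only [convolution_def, Pi.smul_apply, smul_eq_mul, mul_sum, mul_neg]
      rw [sum_comm, ← sum_neg_distrib]
      refine sum_congr rfl fun p hp => ?_
      obtain ⟨h1, h2⟩ := Nat.ne_zero_of_mem_divisorsAntidiagonal hp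
      rw [← (Nat.mem_divisorsAntidiagonal.1 hp).1, Nat.cast_mul,
        Real.log_mul (by exact_mod_cast h1) (by exact_mod_cast h2), ofReal_add, add_pow, sum_mul,
        ← sum_neg_distrib]
      refine sum_congr rfl fun i _ => ?_
      rw [logMul_iter, logMul_iter]
      ring
    have h2 : 1 ≤ 2 ^ k * M := one_le_mul_of_one_le_of_one_le (one_le_pow₀ one_le_two) hM
    rw [e, LSeries_sum fun i _ => ((sm hP hs _).convolution (sm ha hs _)).smul _]
    calc _ ≤ ∑ i ∈ range (j + 1), j.choose i * (M * ((2 ^ k * M) ^ j * ‖LSeries a s‖)) := by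
          refine norm_sum_le_of_le _ fun i hi => ?_
          have hi' := mem_range.1 hi
          rw [LSeries_smul, LSeries_convolution' (sm hP hs _) (sm ha hs _), norm_mul, norm_mul,
            norm_neg, Complex.norm_natCast]
          gcongr
          · exact hb i (by omega)
          · refine (ih (j - i) (by omega) (by omega)).trans ?_
            gcongr
            omega
      _ = 2 ^ j * (M * ((2 ^ k * M) ^ j * ‖LSeries a s‖)) := by
          rw [← sum_mul, ← Nat.cast_sum, Nat.sum_range_choose]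
          simp
      _ ≤ 2 ^ k * (M * ((2 ^ k * M) ^ j * ‖LSeries a s‖)) := by
          gcongr
          · norm_num
          · omega
      _ = _ := by ring

theorem mu_log (n : ℕ) :
    (μ n : ℝ) * Real.log n = -∑ p ∈ n.divisorsAntidiagonal, Λ p.1 * (μ p.2 : ℝ) := by
  have h1 : pmul (μ : ArithmeticFunction ℝ) log * ζ = -Λ := by
    ext m
    rw [coe_mul_zeta_apply, ArithmeticFunction.neg_apply, ← sum_moebius_mul_log_eq]
    simp
  have h2 : pmul (μ : ArithmeticFunction ℝ) log = -Λ * μ := by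
    rw [← h1, mul_assoc, coe_zeta_mul_coe_moebius, mul_one]
  simpa [mul_apply, log_apply, ArithmeticFunction.neg_apply] using congrArg (fun f : ArithmeticFunction ℝ => f n) h2

theorem lg (k : ℕ) {d : ℝ} (hd : 0 < d) : ∃ c : ℝ, 0 ≤ c ∧ ∀ i ≤ k, ∀ x : ℝ, 1 ≤ x →
    Real.log x ^ i ≤ c * x ^ d := by
  refine ⟨(1 + (k + 1) / d) ^ (k + 1), by positivity, fun i hi x hx => ?_⟩
  have h1 := Real.log_le_rpow_div (show 0 ≤ x by linarith) (show 0 < d / (k + 1) by positivity)
  have h2 := Real.one_le_rpow hx (show 0 ≤ d / (k + 1) by positivity)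
  have h3 : 0 ≤ (k + 1) / d := by positivity
  have h4 := Real.log_nonneg hx
  rw [div_div_eq_mul_div, mul_div_assoc] at h1
  calc _ ≤ ((1 + (k + 1) / d) * x ^ (d / (k + 1))) ^ i := by gcongr; nlinarith
    _ ≤ ((1 + (k + 1) / d) * x ^ (d / (k + 1))) ^ (k + 1) :=
        pow_le_pow_right₀ (by nlinarith) (by omega)
    _ = _ := by
        rw [mul_pow, ← Real.rpow_mul_natCast (by linarith)]
        congr 2
        push_cast
        field_simp

/-- the weight of the proper prime powers -/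
noncomputable def pw (n : ℕ) : ℝ := if IsPrimePow n ∧ ¬ n.Prime then (n : ℝ) ^ (-3 / 4 : ℝ) else 0

theorem pw_nonneg (n : ℕ) : 0 ≤ pw n := by unfold pw; split_ifs <;> positivity

theorem pw_summable : Summable pw := by
  have h1 : Summable fun x : ℕ × ℕ => (x.1 : ℝ) ^ (-3 / 2 : ℝ) * (x.2 : ℝ) ^ (-9 / 4 : ℝ) :=
    (Real.summable_nat_rpow.2 (by norm_num)).mul_of_nonneg (Real.summable_nat_rpow.2 (by norm_num))
      (fun _ => by positivity) fun _ => by positivity
  have h2 : ∀ n : Function.support pw, ∃ x : ℕ × ℕ, x.1 ^ 2 * x.2 ^ 3 = n := fun ⟨n, hn⟩ => by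
    have h : IsPrimePow n ∧ ¬ n.Prime := by
      by_contra h
      exact hn (if_neg h)
    obtain ⟨p, k, hp, hk, rfl⟩ := (isPrimePow_nat_iff _).1 h.1
    have hk1 : k ≠ 1 := by rintro rfl; exact h.2 (by simpa using hp)
    obtain ⟨m, rfl | rfl⟩ := k.even_or_odd'
    · exact ⟨(p ^ m, 1), by ring⟩
    · obtain ⟨m, rfl⟩ : ∃ l, m = l + 1 := ⟨m - 1, by omega⟩
      exact ⟨(p ^ m, p), by ring⟩
  choose f hf using h2
  have h3 : f.Injective := fun a b h => Subtype.ext (by rw [← hf a, ← hf b, h])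
  refine (hasSum_subtype_support.1 (Summable.of_nonneg_of_le (fun n => pw_nonneg _) (fun n => ?_)
    (h1.comp_injective h3)).hasSum).summable
  have h4 : pw n ≤ (n : ℝ) ^ (-3 / 4 : ℝ) := by
    unfold pw
    split_ifs
    · rfl
    · positivity
  refine h4.trans_eq ?_
  rw [← hf n, Nat.cast_mul, Nat.cast_pow, Nat.cast_pow, Real.mul_rpow (by positivity) (by positivity),
    ← Real.rpow_natCast_mul (by positivity), ← Real.rpow_natCast_mul (by positivity)]
  norm_num

theorem pr_sum {d Y : ℝ} (h0 : 0 < d) (h1 : d ≤ 1) (hY : 1 ≤ Y) {S : Finset ℕ} (hS : 0 ∉ S)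
    (hc : (S.card : ℝ) ≤ Y) : ∑ p ∈ S, (p : ℝ) ^ (d - 1) ≤ (zS d + 1) * Y ^ (2 * d) := by
  have hs : Summable fun n : ℕ => (n : ℝ) ^ (-d - 1) := Real.summable_nat_rpow.2 (by linarith)
  have h2 : ∑ p ∈ S, (p : ℝ) ^ (-d - 1) ≤ zS d := by
    refine (hs.sum_le_tsum _ fun _ _ => by positivity).trans_eq ?_
    rw [hs.tsum_eq_zero_add, Nat.cast_zero, Real.zero_rpow (by linarith), zero_add, zS]
    simp
  calc _ ≤ ∑ p ∈ S, ((p : ℝ) ^ (-d - 1) * Y ^ (2 * d) + Y ^ (d - 1)) := by
        refine sum_le_sum fun p hp => ?_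
        have h3 : (0 : ℝ) < p := Nat.cast_pos.2 (Nat.pos_of_ne_zero fun h => hS (h ▸ hp))
        rcases le_total (p : ℝ) Y with h | h
        · refine le_add_of_le_of_nonneg ?_ (by positivity)
          rw [show d - 1 = -d - 1 + 2 * d by ring, Real.rpow_add h3]
          gcongr
        · exact le_add_of_nonneg_of_le (by positivity)
            (Real.rpow_le_rpow_of_nonpos (by linarith) h (by linarith))
    _ ≤ zS d * Y ^ (2 * d) + Y * Y ^ (d - 1) := by
        rw [sum_add_distrib, ← sum_mul, sum_const, nsmul_eq_mul]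
        gcongr
    _ ≤ _ := by
        rw [Real.rpow_sub_one (by linarith), mul_div_cancel₀ _ (by linarith), add_mul, one_mul]
        gcongr
        linarith

/-- the completely multiplicative function attached to the weight -/
noncomputable def bb {q : ℕ} (χ : DirichletCharacter ℂ q) (r n : ℕ) : ℂ :=
  if n.Coprime r then (-1 / 4) ^ Ω n * χ n else 0

/-- the coefficients -/
noncomputable def aa {q : ℕ} (χ : DirichletCharacter ℂ q) (r n : ℕ) : ℂ := μ n * bb χ r n

section
variable {q : ℕ} (χ : DirichletCharacter ℂ q) (r : ℕ)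

theorem bb_le (n : ℕ) : ‖bb χ r n‖ ≤ 1 := by
  unfold bb
  split_ifs
  · rw [norm_mul, norm_pow]
    exact mul_le_one₀ (pow_le_one₀ (norm_nonneg _) (by norm_num)) (norm_nonneg _) (χ.norm_le_one _)
  · simp

theorem aa_le (n : ℕ) : ‖aa χ r n‖ ≤ 1 := by
  rw [aa, norm_mul]
  refine mul_le_one₀ ?_ (norm_nonneg _) (bb_le χ r n)
  rw [norm_intCast]
  exact_mod_cast abs_moebius_le_one

theorem bb_mul {m n : ℕ} (hm : m ≠ 0) (hn : n ≠ 0) : bb χ r (m * n) = bb χ r m * bb χ r n := by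
  simp only [bb, Nat.coprime_mul_iff_left, cardFactors_mul hm hn, ite_and, Nat.cast_mul, map_mul]
  split_ifs
  · ring
  all_goals simp

theorem aa_log (n : ℕ) : (Real.log n : ℝ) * aa χ r n =
    -∑ p ∈ n.divisorsAntidiagonal, (Λ p.1 * bb χ r p.1) * aa χ r p.2 := by
  have h := congrArg ofReal (mu_log n)
  push_cast at h
  rw [aa, ← mul_assoc, mul_comm _ (μ n : ℂ), ofReal_log (Nat.cast_nonneg n), ofReal_natCast, h,
    neg_mul, sum_mul]
  congr 1
  refine sum_congr rfl fun p hp => ?_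
  obtain ⟨h1, h2⟩ := Nat.ne_zero_of_mem_divisorsAntidiagonal hp
  rw [← (Nat.mem_divisorsAntidiagonal.1 hp).1, bb_mul χ r h1 h2, aa]
  ring

theorem lam_abs {b : ℕ → ℂ} {c : ℝ} (hb : ∀ n, ‖b n‖ ≤ c) :
    abscissaOfAbsConv (fun n => Λ n * b n) ≤ 1 :=
  abscissaOfAbsConv_le_of_forall_lt_LSeriesSummable (x := 1) fun y hy =>
    Summable.of_norm_bounded ((LSeriesSummable_vonMangoldt (s := y) (by simpa using hy)).smul c).norm
      fun n => norm_term_le _ (by
        rw [Pi.smul_apply, smul_eq_mul, norm_mul, norm_mul, mul_comm]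
        gcongr
        exact (hb n).trans ((le_abs_self c).trans_eq (norm_real c).symm))

end

theorem err (k : ℕ) {d : ℝ} (h0 : 0 < d) (h1 : d ≤ 1 / 4) : ∃ C : ℝ, 0 ≤ C ∧
    ∀ (q : ℕ) (χ : DirichletCharacter ℂ q) (r : ℕ) (Y : ℝ), r ≠ 0 → 1 ≤ Y →
      (r.primeFactors.card : ℝ) ≤ Y → ∀ s : ℂ, 1 < s.re → ∀ i < k,
        ‖LSeries (logMul^[i] fun n => Λ n * (bb χ r n + χ n / 4)) s‖ ≤ C * Y ^ (2 * d) := by
  obtain ⟨c, hc, h⟩ := lg k h0
  have hw : 0 ≤ ∑' n, pw n := tsum_nonneg pw_nonneg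
  have hz := zS_nonneg d
  refine ⟨2 * c * (∑' n, pw n + (zS d + 1)), by positivity, fun q χ r Y hr hY hrY s hs i hi => ?_⟩
  have h2 : HasSum (fun n : ℕ => if n ∈ r.primeFactors then (n : ℝ) ^ (d - 1) else 0)
      (∑ p ∈ r.primeFactors, (p : ℝ) ^ (d - 1)) := by
    rw [sum_congr rfl fun p hp => (if_pos hp).symm]
    exact hasSum_sum_of_ne_finset_zero fun n hn => if_neg hn
  refine (tsum_of_norm_bounded ((pw_summable.hasSum.add h2).mul_left (2 * c)) fun n => ?_).trans ?_
  · have h3 : 0 ≤ 2 * c * (pw n + if n ∈ r.primeFactors then (n : ℝ) ^ (d - 1) else 0) := by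
      have := pw_nonneg n
      split_ifs <;> positivity
    by_cases hn : IsPrimePow n
    swap
    · simpa [norm_term_eq, logMul_iter, vonMangoldt_eq_zero_iff.2 hn] using h3
    by_cases hp : n.Prime ∧ n ∉ r.primeFactors
    · have : bb χ r n + χ n / 4 = 0 := by
        rw [bb, if_pos (hp.1.coprime_iff_not_dvd.2 fun h => hp.2 (hp.1.mem_primeFactors h hr)),
          cardFactors_apply_prime hp.1]
        ring
      simpa [norm_term_eq, logMul_iter, this] using h3
    have n1 : (1 : ℝ) ≤ n := by exact_mod_cast hn.one_lt.le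
    have h4 : (n : ℝ) ^ (d - 1) ≤ pw n + if n ∈ r.primeFactors then (n : ℝ) ^ (d - 1) else 0 := by
      by_cases h5 : n.Prime
      · rw [if_pos (by tauto)]
        linarith [pw_nonneg n]
      · rw [pw, if_pos ⟨hn, h5⟩]
        refine le_add_of_le_of_nonneg (Real.rpow_le_rpow_of_exponent_le n1 (by linarith)) ?_
        split_ifs <;> positivity
    have h5 : ‖bb χ r n + χ n / 4‖ ≤ 2 := (norm_add_le _ _).trans (by
      rw [norm_div, Complex.norm_ofNat]
      linarith [bb_le χ r n, χ.norm_le_one n])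
    have h6 := Real.log_nonneg n1
    rw [norm_term_eq, if_neg hn.ne_zero, logMul_iter, norm_mul, norm_mul, norm_pow, norm_real,
      norm_real, Real.norm_of_nonneg h6, Real.norm_of_nonneg vonMangoldt_nonneg]
    calc _ ≤ Real.log n ^ i * (Real.log n * 2) / (n : ℝ) ^ (1 : ℝ) := by
          gcongr
          exact vonMangoldt_le_log
      _ = 2 * Real.log n ^ (i + 1) / n := by rw [Real.rpow_one]; ring
      _ ≤ 2 * (c * (n : ℝ) ^ d) / n := by gcongr; exact h _ hi _ n1
      _ = 2 * c * (n : ℝ) ^ (d - 1) := by rw [Real.rpow_sub_one (by linarith)]; ring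
      _ ≤ _ := by gcongr
  · have h3 := pr_sum h0 (by linarith) hY (S := r.primeFactors) (by simp) hrY
    have h4 := Real.one_le_rpow hY (show 0 ≤ 2 * d by linarith)
    rw [mul_assoc (2 * c)]
    gcongr
    nlinarith

theorem one_le {a : ℕ → ℂ} (ha : ∀ n, ‖a n‖ ≤ 1) {s : ℂ} (h1 : 1 < s.re) (h2 : s.re ≤ 2) :
    ‖LSeries a s‖ ≤ 5 * (2 * zS (1 / 2) + 3) / (s.re - 1) := by
  have h3 : 1 < (s.re : ℂ).re := by simpa using h1
  have h4 := zeta2 (e := 1 / 2) (by norm_num) le_rfl h3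
  have h5 : riemannZeta s.re = ((∑' n : ℕ, 1 / (n : ℝ) ^ s.re : ℝ) : ℂ) := by
    rw [zeta_eq_tsum_one_div_nat_cpow h3, ofReal_tsum]
    exact tsum_congr fun n => by push_cast [ofReal_cpow (Nat.cast_nonneg n)]; rfl
  have h6 : ‖(s.re : ℂ) - 1‖ = s.re - 1 := by
    rw [← ofReal_one, ← ofReal_sub, norm_real, Real.norm_of_nonneg (by linarith)]
  rw [h5, h6, norm_real, norm_real, Real.norm_of_nonneg (show 0 ≤ s.re by linarith),
    mul_one_div_cancel two_ne_zero, Real.rpow_one] at h4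
  have h7 : 1 ≤ 1 / (s.re - 1) := one_le_one_div (by linarith) (by linarith)
  calc _ ≤ ∑' n : ℕ, 1 / (n : ℝ) ^ s.re :=
        tsum_of_norm_bounded (Real.summable_one_div_nat_rpow.2 h1).hasSum fun n => by
          rw [norm_term_eq]
          split_ifs
          · positivity
          · gcongr
            exact ha n
    _ ≤ (2 * zS (1 / 2) + 3) * (5 * (1 / (s.re - 1))) := by
        have := zS_nonneg (1 / 2)
        refine (le_abs_self _).trans (h4.trans ?_)
        gcongr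
        linarith
    _ = _ := by ring

theorem dB {k : ℕ} (hk : 2 ≤ k) : ∃ C : ℝ, 0 ≤ C ∧ ∀ (q : ℕ) [NeZero q]
    (χ : DirichletCharacter ℂ q), χ.IsPrimitive → χ ≠ 1 → ∀ (r : ℕ) (Y : ℝ), r ≠ 0 → (q : ℝ) ≤ Y →
      (r.primeFactors.card : ℝ) ≤ Y → ∀ s : ℂ, 1 < s.re → s.re ≤ 2 → ∀ j ≤ k,
        ‖LSeries (logMul^[j] (aa χ r)) s‖ ≤ C * Y / (s.re - 1) * (‖s‖ + 2) := by
  have k2 : (2 : ℝ) ≤ k := by exact_mod_cast hk
  obtain ⟨K, hK, h1⟩ := zf2 (ε := 1 / k / (20 * k : ℕ)) (by positivity)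
  obtain ⟨C, hC, h2⟩ := err k (d := 1 / k / 2) (by positivity) (by
    rw [div_div, div_le_div_iff₀ (by positivity) (by norm_num)]; linarith)
  have hz := zS_nonneg (1 / 2)
  set D : ℝ := C + k.factorial * K ^ (20 * k) with hD
  have f1 : (1 : ℝ) ≤ k.factorial := by exact_mod_cast k.factorial_pos
  have D1 : 1 ≤ D := le_add_of_nonneg_of_le hC
    (one_le_mul_of_one_le_of_one_le f1 (one_le_pow₀ hK))
  refine ⟨(2 ^ k * D) ^ k * (5 * (2 * zS (1 / 2) + 3)), by positivity,
    fun q _ χ hp hχ r Y hr hq hrY s hs1 hs2 j hj => ?_⟩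
  have q1 : (1 : ℝ) ≤ q := by exact_mod_cast NeZero.one_le
  have Y1 : 1 ≤ Y := q1.trans hq
  have T1 : 1 ≤ ‖s‖ + 2 := by linarith [norm_nonneg s]
  set V := (Y * (‖s‖ + 2)) ^ (1 / k : ℝ) with hV
  have V1 : 1 ≤ V := Real.one_le_rpow (by nlinarith) (by positivity)
  have M1 : 1 ≤ D * V := one_le_mul_of_one_le_of_one_le D1 V1
  have h3 := leib (k := k) (abscissaOfAbsConv_le_of_le_const ⟨1, fun n _ => aa_le χ r n⟩)
    (lam_abs (bb_le χ r)) (aa_log χ r) hs1 M1 (fun i hi => ?_) j hj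
  · refine h3.trans ?_
    calc _ ≤ (2 ^ k * (D * V)) ^ k * (5 * (2 * zS (1 / 2) + 3) / (s.re - 1)) := by
          gcongr
          · exact one_le_mul_of_one_le_of_one_le (one_le_pow₀ one_le_two) M1
          · exact one_le (aa_le χ r) hs1 hs2
      _ = _ := by
          rw [← mul_assoc, mul_pow _ V, hV, one_div,
            Real.rpow_inv_natCast_pow (by positivity) (by omega)]
          ring
  have e : (logMul^[i] fun n => Λ n * bb χ r n) =
      (logMul^[i] fun n => Λ n * (bb χ r n + χ n / 4)) +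
        (-1 / 4 : ℂ) • logMul^[i] ((fun n : ℕ => χ n) * fun n => (Λ n : ℂ)) := by
    ext n
    simp only [logMul_iter, Pi.add_apply, Pi.smul_apply, Pi.mul_apply, smul_eq_mul]
    ring
  rw [e, LSeries_add (sm (lam_abs (c := 2) fun n => (norm_add_le _ _).trans (by
      rw [norm_div, Complex.norm_ofNat]
      linarith [bb_le χ r n, χ.norm_le_one n])) hs1 _)
    ((sm (abscissaOfAbsConv_le_of_forall_lt_LSeriesSummable (x := 1) fun y hy =>
      χ.LSeriesSummable_twist_vonMangoldt (by simpa using hy)) hs1 _).smul _), LSeries_smul, hD,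
    add_mul]
  refine norm_add_le_of_le ((h2 q χ r Y hr Y1 hrY s hs1 i hi).trans ?_) ?_
  · rw [mul_div_cancel₀ _ two_ne_zero, hV]
    gcongr
    nlinarith
  rw [norm_mul]
  refine (mul_le_of_le_one_left (norm_nonneg _) (by norm_num)).trans
    ((h1 q χ hp hχ s hs1 hs2 i).trans ?_)
  have e0 : (0 : ℝ) ≤ 1 / k / (20 * k : ℕ) := by positivity
  calc _ ≤ k.factorial * (K * Y ^ (1 / k / (20 * k : ℕ) : ℝ) *
        (‖s‖ + 2) ^ (1 / k / (20 * k : ℕ) : ℝ)) ^ (20 * k) := by
        refine mul_le_mul (by gcongr) (le_trans (by gcongr) (pow_le_pow_right₀ ?_ (by omega)))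
          (by positivity) (by positivity)
        exact one_le_mul_of_one_le_of_one_le (one_le_mul_of_one_le_of_one_le hK
          (Real.one_le_rpow Y1 e0)) (Real.one_le_rpow T1 e0)
    _ = _ := by
        rw [mul_assoc K, ← Real.mul_rpow (by linarith) (by linarith), mul_pow,
          ← Real.rpow_mul_natCast (by positivity), div_mul_cancel₀ _ (by positivity), mul_assoc]

end Pool.Agent.Lib.MP_d6ddbd_nt.G.SwAux
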