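import Pool.Agent.Lib.MP_d6ddbd_nt.G.Sw2

/-! From bounds for a Dirichlet series and its derivatives to bounds for finite sums. -/

namespace Pool.Agent.Lib.MP_d6ddbd_nt.G.SwAux

open Complex Finset LSeries MeasureTheory MP_f64879_nt
open scoped Real

theorem smooth (k : ℕ) : ∃ C : ℝ, 0 ≤ C ∧ ∀ (a : ℕ → ℂ) (σ B d w : ℝ) (N : ℕ), (∀ n, ‖a n‖ ≤ 1) →
    a 0 = 0 → 1 < σ → σ ≤ 2 → 0 ≤ B → 0 < d → d ≤ 1 → 0 < w → (∀ n ∉ range N, w + 1 ≤ Real.log n) →
    (∀ s : ℂ, s.re = σ → ∀ j ≤ k, ‖LSeries (logMul^[j] a) s‖ ≤ B * (‖s‖ + 2)) →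
      ‖∑ n ∈ range N, a n / (n : ℂ) ^ (σ : ℂ) * bp ((Real.log n - w) / d)‖ ≤ C * B / d / w ^ k := by
  refine ⟨∑ j ∈ range (k + 1), k.choose j * (7 * fI (bq (k - j)) 1),
    sum_nonneg fun j _ => by have := fI_nonneg (bq (k - j)) 1; positivity,
    fun a σ B d w N ha a0 h2 h3 hB d0 d1 hw hN h => ?_⟩
  have hj : ∀ j ∈ range (k + 1), ‖∑ n ∈ range N, term (logMul^[j] a) σ n *
      bq (k - j) (Real.log n / d - w / d)‖ ≤ 7 * B / d * fI (bq (k - j)) 1 := fun j hj => by
    have hs := sm (abscissaOfAbsConv_le_of_le_const ⟨1, fun n _ => ha n⟩) (s := σ) (by simpa) j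
    rw [← tsum_eq_sum (L := .unconditional ℕ) fun n hn => by
      rw [bq_apply, bp_zero (le_abs.2 (.inl (by
        rw [← sub_div, le_div_iff₀ d0]; linarith [hN n hn])))]; simp]
    refine four_le _ hs.norm (fun n => Real.log n / d) (w / d) fun ξ => ?_
    set s : ℂ := σ - (2 * π * ξ / d : ℝ) * I with hs'
    have e : ∀ n : ℕ, term (logMul^[j] a) σ n * cexp ((2 * π * ξ * (Real.log n / d) : ℝ) * I) =
        term (logMul^[j] a) s n := by
      intro n
      rcases eq_or_ne n 0 with rfl | hn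
      · simp
      have hn' : (n : ℂ) ≠ 0 := by exact_mod_cast hn
      rw [term_of_ne_zero hn, term_of_ne_zero hn, hs', cpow_sub _ _ hn',
        div_div_eq_mul_div, div_mul_eq_mul_div, cpow_def_of_ne_zero hn' (_ * I), ← natCast_log]
      congr 3
      push_cast
      ring
    simp only [e]
    refine (h s (by simp [hs']) j (Nat.lt_succ_iff.1 (mem_range.1 hj))).trans ?_
    have b1 := norm_sub_le (σ : ℂ) ((2 * π * ξ / d : ℝ) * I)
    rw [norm_mul, norm_I, mul_one, norm_real, norm_real, Real.norm_of_nonneg (by linarith),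
      Real.norm_eq_abs, abs_div, abs_mul, abs_of_pos Real.two_pi_pos, abs_of_pos d0] at b1
    have b2 : 4 ≤ 7 / d := by rw [le_div_iff₀ d0]; linarith
    have b3 : 2 * π * |ξ| / d ≤ 7 * |ξ| / d := by gcongr; linarith [Real.pi_lt_d2]
    calc _ ≤ B * (7 / d + 7 * |ξ| / d) := mul_le_mul_of_nonneg_left (by linarith) hB
      _ = _ := by ring
  have e : (w : ℂ) ^ k * ∑ n ∈ range N, a n / (n : ℂ) ^ (σ : ℂ) * bp ((Real.log n - w) / d) =
      ∑ j ∈ range (k + 1), (k.choose j * (-d) ^ (k - j)) * ∑ n ∈ range N,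
        term (logMul^[j] a) σ n * bq (k - j) (Real.log n / d - w / d) := by
    simp only [mul_sum]
    rw [sum_comm]
    refine sum_congr rfl fun n _ => ?_
    rcases eq_or_ne n 0 with rfl | hn
    · simp [a0]
    have : (d : ℂ) ≠ 0 := by exact_mod_cast d0.ne'
    rw [show (w : ℂ) = (Real.log n : ℝ) + -d * ((Real.log n / d - w / d : ℝ) : ℂ) by
      rw [ofReal_sub, ofReal_div, ofReal_div]; field_simp; ring, add_pow, sum_mul]
    refine sum_congr rfl fun j _ => ?_
    rw [term_of_ne_zero hn, logMul_iter, bq_apply, mul_pow, sub_div]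
    ring
  have e2 := congrArg norm e
  rw [norm_mul, norm_pow, norm_real, Real.norm_of_nonneg hw.le] at e2
  rw [le_div_iff₀' (by positivity), e2, sum_mul, sum_div]
  refine norm_sum_le_of_le _ fun j hj' => ?_
  rw [norm_mul, norm_mul, norm_pow, norm_neg, norm_real, Real.norm_of_nonneg d0.le,
    Complex.norm_natCast]
  calc _ ≤ k.choose j * 1 * (7 * B / d * fI (bq (k - j)) 1) := by
        gcongr
        · exact pow_le_one₀ d0.le d1
        · exact hj j hj'
    _ = _ := by ring

theorem sharp (m : ℕ) : ∃ C : ℝ, 0 ≤ C ∧ ∀ (a : ℕ → ℂ) (σ B d u : ℝ), (∀ n, ‖a n‖ ≤ 1) →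
    a 0 = 0 → 1 < σ → σ ≤ 2 → 0 ≤ B → 0 < d → d ≤ 1 → 0 < u →
    (∀ s : ℂ, s.re = σ → ∀ j ≤ m + 1, ‖LSeries (logMul^[j] a) s‖ ≤ B * (‖s‖ + 2)) →
      ‖∑ n ∈ Icc 1 ⌊Real.exp u⌋₊, a n‖ ≤ C * B * Real.exp (σ * u) / d ^ 2 / u ^ m +
        (Real.exp (u / 2 + 1) + (3 * d * Real.exp u + 1)) := by
  obtain ⟨C, hC, hsm⟩ := smooth (m + 1)
  refine ⟨C * 2 ^ m * Real.exp 1, by positivity, fun a σ B d u ha a0 h2 h3 hB d0 d1 hu h => ?_⟩
  set g : ℝ → ℝ := fun x => Real.exp (σ * x) * bp (-x / d) with hg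
  have g0 : ∀ x, 0 ≤ g x := fun x => mul_nonneg (Real.exp_pos _).le bp.nonneg
  have gc : Continuous g := by have := bp.continuous; fun_prop
  have gz : ∀ x, d ≤ |x| → g x = 0 := fun x hx => by
    rw [hg]
    beta_reduce
    rw [bp_zero (by rwa [abs_div, abs_neg, abs_of_pos d0, le_div_iff₀ d0, one_mul]), mul_zero]
  have gi : Integrable g := gc.integrable_of_hasCompactSupport
    (.intro (isCompact_Icc (a := -d) (b := d)) fun x hx => gz x (by
      by_contra h
      exact hx (abs_le.1 (not_le.1 h).le)))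
  set c := ∫ x, g x with hc
  have gle : ∀ x y, x ≤ y → ∫ t in x..y, g t ≤ c := fun x y hxy => by
    rw [intervalIntegral.integral_of_le hxy]
    exact setIntegral_le_integral gi (.of_forall g0)
  have c1 : d / Real.exp 1 ≤ c := by
    refine le_trans ?_ (gle (-d / 2) (d / 2) (by linarith))
    refine le_trans (le_of_eq ?_) (intervalIntegral.integral_mono_on (f := fun _ => Real.exp (-1))
      (by linarith) (by simp) (gc.intervalIntegrable _ _) fun x hx => ?_)
    · rw [intervalIntegral.integral_const, Real.exp_neg, smul_eq_mul]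
      ring
    · rw [hg]
      beta_reduce
      rw [bp_one (by
        rw [abs_div, abs_neg, abs_of_pos d0, div_le_iff₀ d0, abs_le]
        constructor <;> linarith [hx.1, hx.2]), mul_one]
      exact Real.exp_le_exp.2 (by nlinarith [hx.1])
  have c0 : 0 < c := lt_of_lt_of_le (by positivity) c1
  set G : ℝ → ℝ := fun t => ∫ x in (u / 2 - t)..(u - t), g x with hG
  have hN : ∀ n ∉ range (Mx u), u + 1 ≤ Real.log n := fun n hn => by
    have h1 : Real.exp (u + 1) < n := (Nat.lt_floor_add_one _).trans_le (by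
      exact_mod_cast not_lt.1 (mem_range.not.1 hn))
    exact ((Real.lt_log_iff_exp_lt ((Real.exp_pos _).trans h1)).2 h1).le
  have i1 : ‖∑ n ∈ range (Mx u), a n * G (Real.log n)‖ ≤
      Real.exp (σ * u) * (C * B / d / (u / 2) ^ (m + 1)) * |u - u / 2| := by
    have e : ∑ n ∈ range (Mx u), a n * G (Real.log n) =
        ∫ w in (u / 2)..u, ∑ n ∈ range (Mx u), a n * g (w - Real.log n) := by
      rw [intervalIntegral.integral_finsetSum fun n _ =>
        Continuous.intervalIntegrable (by fun_prop) _ _]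
      refine sum_congr rfl fun n _ => ?_
      rw [intervalIntegral.integral_const_mul, intervalIntegral.integral_ofReal,
        intervalIntegral.integral_comp_sub_right]
    rw [e]
    refine intervalIntegral.norm_integral_le_of_norm_le_const fun w hw => ?_
    rw [Set.uIoc_of_le (by linarith)] at hw
    have e2 : ∑ n ∈ range (Mx u), a n * g (w - Real.log n) = Real.exp (σ * w) *
        ∑ n ∈ range (Mx u), a n / (n : ℂ) ^ (σ : ℂ) * bp ((Real.log n - w) / d) := by
      rw [mul_sum]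
      refine sum_congr rfl fun n _ => ?_
      rcases eq_or_ne n 0 with rfl | hn
      · simp [a0]
      have hn' : (0 : ℝ) < n := by positivity
      rw [hg]
      beta_reduce
      rw [mul_sub, Real.exp_sub, neg_sub, mul_comm σ (Real.log n), ← Real.rpow_def_of_pos hn',
        ofReal_mul, ofReal_div, ofReal_cpow hn'.le, ofReal_natCast]
      ring
    rw [e2, norm_mul, norm_real, Real.norm_of_nonneg (Real.exp_pos _).le]
    have := hw.1.le
    have := hw.2
    gcongr
    refine (hsm a σ B d w _ ha a0 h2 h3 hB d0 d1 (by linarith) (fun n hn => ?_) h).trans (by gcongr)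
    linarith [hN n hn]
  set y := Real.exp u with hy
  have y0 : 0 < y := Real.exp_pos u
  set S₁ := Icc 1 ⌊Real.exp (u / 2 + 1)⌋₊ with hS₁
  set S₂ := Ioc ⌊y * (1 - d)⌋₊ ⌊y * (1 + 2 * d)⌋₊ with hS₂
  have i2 : ∀ n ∈ range (Mx u), ‖a n * ((if n ∈ Icc 1 ⌊y⌋₊ then c else 0) - G (Real.log n) : ℝ)‖ ≤
      (if n ∈ S₁ then c else 0) + if n ∈ S₂ then c else 0 := fun n _ => by
    have b0 : ∀ p : Prop, ∀ [Decidable p], 0 ≤ if p then c else 0 := fun p _ => by
      split_ifs <;> positivity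
    rcases eq_or_ne n 0 with rfl | hn
    · rw [a0, zero_mul, norm_zero]
      exact add_nonneg (b0 _) (b0 _)
    rw [norm_mul, norm_real, Real.norm_eq_abs]
    refine (mul_le_of_le_one_left (abs_nonneg _) (ha n)).trans ?_
    have b1 : |(if n ∈ Icc 1 ⌊y⌋₊ then c else 0) - G (Real.log n)| ≤ c := by
      have b2 : G (Real.log n) ≤ c := gle _ _ (by linarith)
      have b3 : 0 ≤ G (Real.log n) := intervalIntegral.integral_nonneg (by linarith) fun x _ => g0 x
      rw [abs_le]
      split_ifs <;> constructor <;> linarith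
    by_cases n1 : n ∈ S₁
    · rw [if_pos n1]
      linarith [b0 (n ∈ S₂)]
    by_cases n2 : n ∈ S₂
    · rw [if_pos n2]
      linarith [b0 (n ∈ S₁)]
    rw [if_neg n1, if_neg n2, add_zero, abs_nonpos_iff, sub_eq_zero]
    have hn' : (0 : ℝ) < n := by positivity
    have b2 : u / 2 + 1 < Real.log n := (Real.lt_log_iff_exp_lt hn').2
      (Nat.lt_of_floor_lt (by rw [hS₁, mem_Icc] at n1; omega))
    rcases le_or_gt n ⌊y * (1 - d)⌋₊ with n3 | n3
    · have b3 := (Nat.le_floor_iff' hn).1 n3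
      have b4 : Real.log n ≤ u - d := by
        rw [Real.log_le_iff_le_exp hn', sub_eq_add_neg, Real.exp_add]
        refine b3.trans ?_
        gcongr
        linarith [Real.add_one_le_exp (-d)]
      rw [if_pos (mem_Icc.2 ⟨by omega, Nat.le_floor (by nlinarith)⟩)]
      refine (intervalIntegral.integral_eq_integral_of_support_subset fun x hx => ?_).symm
      have b5 := abs_lt.1 (not_le.1 fun h => hx (gz x h))
      constructor <;> linarith [b5.1, b5.2]
    · have b3 : y * (1 + 2 * d) < n := Nat.lt_of_floor_lt (by rw [hS₂, mem_Ioc] at n2; omega)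
      have b4 : u + d ≤ Real.log n := by
        rw [Real.le_log_iff_exp_le hn', Real.exp_add]
        refine le_trans ?_ b3.le
        have b5 := Real.abs_exp_sub_one_le (x := d) (by rwa [abs_of_pos d0])
        rw [abs_of_pos d0] at b5
        gcongr
        linarith [le_abs_self (Real.exp d - 1)]
      rw [if_neg fun h => by nlinarith [(Nat.le_floor_iff' hn).1 (mem_Icc.1 h).2]]
      refine ((intervalIntegral.integral_congr (g := fun _ => 0) fun x hx => gz x ?_).trans
        (by simp)).symm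
      rw [Set.uIcc_of_le (by linarith)] at hx
      exact le_abs.2 (.inr (by linarith [hx.2]))
  have i3 : ∀ S : Finset ℕ, ∑ n ∈ range (Mx u), (if n ∈ S then c else 0) ≤ S.card * c := fun S => by
    rw [sum_ite_mem, sum_const, nsmul_eq_mul]
    gcongr
    exact inter_subset_right
  have i4 : (S₁.card : ℝ) ≤ Real.exp (u / 2 + 1) := by
    simpa [hS₁] using Nat.floor_le (Real.exp_pos _).le
  have i5 : (S₂.card : ℝ) ≤ 3 * d * y + 1 := by
    rw [hS₂, Nat.card_Ioc, Nat.cast_sub (Nat.floor_mono (by nlinarith))]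
    linarith [Nat.floor_le (show 0 ≤ y * (1 + 2 * d) by positivity),
      Nat.sub_one_lt_floor (y * (1 - d))]
  have e : (c : ℂ) * ∑ n ∈ Icc 1 ⌊y⌋₊, a n = ∑ n ∈ range (Mx u), a n * G (Real.log n) +
      ∑ n ∈ range (Mx u), a n * ((if n ∈ Icc 1 ⌊y⌋₊ then c else 0) - G (Real.log n) : ℝ) := by
    have b1 : range (Mx u) ∩ Icc 1 ⌊y⌋₊ = Icc 1 ⌊y⌋₊ := inter_eq_right.2 fun n hn =>
      mem_range.2 (Nat.lt_succ_of_le ((mem_Icc.1 hn).2.trans
        (Nat.floor_mono (Real.exp_le_exp.2 (by linarith)))))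
    rw [← sum_add_distrib, mul_sum, ← b1, ← sum_ite_mem, b1]
    refine sum_congr rfl fun n _ => ?_
    split_ifs <;> push_cast <;> ring
  have e2 := congrArg norm e
  rw [norm_mul, norm_real, Real.norm_of_nonneg c0.le] at e2
  have i6 := (norm_sum_le_of_le _ i2).trans (sum_add_distrib.trans_le (add_le_add (i3 S₁) (i3 S₂)))
  have i7 : Real.exp (σ * u) * (C * B / d / (u / 2) ^ (m + 1)) * |u - u / 2| ≤
      c * (C * 2 ^ m * Real.exp 1 * B * Real.exp (σ * u) / d ^ 2 / u ^ m) := by
    refine le_trans (le_of_eq ?_) (mul_le_mul_of_nonneg_right c1 (by positivity))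
    rw [abs_of_pos (by linarith), div_pow]
    field_simp
    ring
  refine le_of_mul_le_mul_left ?_ c0
  rw [e2]
  refine (norm_add_le_of_le (i1.trans i7) i6).trans ?_
  nlinarith

end Pool.Agent.Lib.MP_d6ddbd_nt.G.SwAux
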